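import Mathlib

/-!
# Inclusion and exclusion

Let `c` be a function on the subsets with `m` elements of a set `S` with at least `2 m` elements,
such that the sum of the `c T` over the `T` disjoint from `U` is zero for every `U` with `m - 1`
elements. Then for every `U` with `m` elements this sum is `(-1) ^ m * c U`.

Proof. Let `f U = ∑ T disjoint from U, c T`. For `|U| = j ≤ m - 1` the sum of `f U'` over the
`U' ⊇ U` with `|U'| = m - 1` is `(|S| - j - m).choose (m - 1 - j) * f U`, so that `f U = 0`
for all `|U| ≤ m - 1`. By inclusion and exclusion, for `|U| = m`,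
`c U = ∑ T ⊇ U, c T = ∑ W ⊆ U, (-1) ^ |W| * f W = (-1) ^ m * f U`.
-/

open Finset

namespace Pc0b458V

theorem incl {α : Type*} [DecidableEq α] (S : Finset α) (m : ℕ) (hS : 2 * m ≤ S.card)
    (c : Finset α → ℂ)
    (h : ∀ U ⊆ S, U.card + 1 = m → ∑ T ∈ powersetCard m S with Disjoint T U, c T = 0)
    {U : Finset α} (hU : U ⊆ S) (hm : U.card = m) :
    ∑ T ∈ powersetCard m S with Disjoint T U, c T = (-1) ^ m * c U := by
  have key : ∀ j, ∀ U ⊆ S, U.card + 1 + j = m →
      ∑ T ∈ powersetCard m S with Disjoint T U, c T = 0 := by
    intro j
    induction j with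
    | zero => intro U hU hc; exact h U hU (by omega)
    | succ j ih =>
      intro U hU hc
      have h1 : ∑ s ∈ S \ U, ∑ T ∈ powersetCard m S with Disjoint T (insert s U), c T =
          ((S.card - U.card - m : ℕ) : ℂ) * ∑ T ∈ powersetCard m S with Disjoint T U, c T := by
        simp only [Finset.sum_filter]
        rw [Finset.sum_comm, Finset.mul_sum]
        refine Finset.sum_congr rfl fun T hT => ?_
        rw [mem_powersetCard] at hT
        by_cases hd : Disjoint T U
        · rw [if_pos hd]
          have h2 : ∀ s ∈ S \ U, (if Disjoint T (insert s U) then c T else 0) =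
              if s ∈ T then 0 else c T := by
            intro s _
            by_cases hs : s ∈ T
            · simp [Finset.disjoint_insert_right, hs]
            · simp [Finset.disjoint_insert_right, hs, hd]
          rw [Finset.sum_congr rfl h2]
          have h3 : ∀ s ∈ S \ U, (if s ∈ T then 0 else c T) = if s ∉ T then c T else 0 := by
            intro s _
            by_cases hs : s ∈ T <;> simp [hs]
          rw [Finset.sum_congr rfl h3, ← Finset.sum_filter, Finset.sum_const, nsmul_eq_mul]
          congr 2
          have h4 : (S \ U).filter (fun s => s ∉ T) = (S \ U) \ T := by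
            ext s
            simp
          have h5 : T ⊆ S \ U := by
            intro s hs
            rw [mem_sdiff]
            exact ⟨hT.1 hs, fun h => (Finset.disjoint_left.1 hd) hs h⟩
          rw [h4, card_sdiff_of_subset h5, card_sdiff_of_subset hU, hT.2]
        · rw [if_neg hd, mul_zero]
          apply Finset.sum_eq_zero
          intro s _
          rw [if_neg]
          intro h
          exact hd (Finset.disjoint_insert_right.1 h).2
      have h2 : ∑ s ∈ S \ U, ∑ T ∈ powersetCard m S with Disjoint T (insert s U), c T = 0 := by
        apply Finset.sum_eq_zero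
        intro s hs
        rw [mem_sdiff] at hs
        apply ih
        · exact Finset.insert_subset hs.1 hU
        · rw [card_insert_of_notMem hs.2]
          omega
      rw [h2] at h1
      have h3 : ((S.card - U.card - m : ℕ) : ℂ) ≠ 0 := by
        rw [Nat.cast_ne_zero]
        omega
      exact (mul_eq_zero.1 h1.symm).resolve_left h3
  have h1 : ∑ W ∈ U.powerset, (-1 : ℂ) ^ W.card * ∑ T ∈ powersetCard m S with Disjoint T W, c T =
      c U := by
    simp only [Finset.sum_filter, Finset.mul_sum]
    rw [Finset.sum_comm]
    rw [Finset.sum_eq_single U]
    · rw [Finset.sum_eq_single ∅]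
      · simp
      · intro W hW hW0
        rw [mem_powerset] at hW
        rw [if_neg, mul_zero]
        intro hd
        apply hW0
        exact Finset.disjoint_self_iff_empty W |>.1 (Finset.disjoint_of_subset_left hW hd)
      · intro hh
        simp at hh
    · intro T hT hTU
      rw [mem_powersetCard] at hT
      have h2 : ∀ W ∈ U.powerset, (-1 : ℂ) ^ W.card * (if Disjoint T W then c T else 0) =
          if W ⊆ U \ T then (-1 : ℂ) ^ W.card * c T else 0 := by
        intro W hW
        rw [mem_powerset] at hW
        by_cases hd : Disjoint T W
        · have : W ⊆ U \ T := by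
            intro s hs
            rw [mem_sdiff]
            exact ⟨hW hs, fun h => (Finset.disjoint_left.1 hd) h hs⟩
          rw [if_pos hd, if_pos this]
        · have : ¬ W ⊆ U \ T := by
            intro hh
            apply hd
            rw [Finset.disjoint_left]
            intro s hs hs'
            exact (mem_sdiff.1 (hh hs')).2 hs
          rw [if_neg hd, if_neg this, mul_zero]
      rw [Finset.sum_congr rfl h2, ← Finset.sum_filter]
      have h3 : U.powerset.filter (fun W => W ⊆ U \ T) = (U \ T).powerset := by
        ext W
        simp only [mem_filter, mem_powerset]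
        constructor
        · exact fun h => h.2
        · exact fun h => ⟨h.trans sdiff_subset, h⟩
      rw [h3, ← Finset.sum_mul]
      have h4 : (U \ T).Nonempty := by
        rw [Finset.sdiff_nonempty]
        intro hh
        apply hTU
        exact (Finset.eq_of_subset_of_card_le hh (by rw [hT.2, hm])).symm
      have h5 : ∑ W ∈ (U \ T).powerset, (-1 : ℂ) ^ W.card = 0 := by
        have := Finset.sum_powerset_neg_one_pow_card_of_nonempty h4
        exact_mod_cast this
      rw [h5, zero_mul]
    · intro hh
      exact absurd (mem_powersetCard.2 ⟨hU, hm⟩) hh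
  rw [Finset.sum_eq_single U] at h1
  · rw [← h1, ← mul_assoc, hm, ← pow_add, ← two_mul, pow_mul, neg_one_sq, one_pow, one_mul]
  · intro W hW hWU
    rw [mem_powerset] at hW
    have h2 : W.card < m := by
      rw [← hm]
      exact Finset.card_lt_card (Finset.ssubset_iff_subset_ne.2 ⟨hW, hWU⟩)
    rw [key (m - (W.card + 1)) W (hW.trans hU) (by omega), mul_zero]
  · intro hh
    exact absurd (mem_powerset.2 (Finset.Subset.refl U)) hh

end Pc0b458V
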