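import Pool.Agent.Lib.Pc0b458V.Api

/-!
# Fubini

`Low g k` is spanned by the products `pr1 x * pr2 y` with `y` homogeneous of degree less than `k`,
and `Local s ρ a` says that `ρ` is `pr1 a * pr2 (dd s)` modulo `Low g 2`. The push-forward kills
`Low g (2 * g)`; and `Local` is multiplicative: if `Local s (ρ s) (a s)` for all `s` then
`lprod ρ` is `pr1 (lprod a) * pr2 (lprod dd)` modulo `Low g (2 * g)`.

Proof of the last statement, by induction on the number of factors (for `n ≤ g` factors, or for an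
arbitrary list): if `ρ ∈ pr1 a * pr2 d + Low 2` with `d` of degree `2`, and
`P ∈ pr1 b * pr2 c + Low (2 k)` with `c` of degree `2 k`, then
`ρ * P ∈ pr1 (a * b) * pr2 (d * c) + Low (2 k + 2)`, since `pr2 d` is central (`even_comm`). For this
one needs: for `y` homogeneous, `pr2 y * pr1 x' = pr1 x'' * pr2 y` for some `x''`
(by `coh_induction` on `x'`, for all homogeneous `y` of a fixed degree `l`: for a vector
`x' = iota _ _ w`, `pr2 y * pr1 x' = (-1) ^ l • pr1 x' * pr2 y` by `iota_comm`; products compose),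
hence `Low k * Low l ⊆ Low (k + l - 1)`, `(pr1 x * pr2 y) * Low l ⊆ Low (k + l)` for `y` of degree
`k`, and similarly on the other side.
-/

open Finset ComplexConjugate

namespace Pc0b458V

/-- the elements of degree less than `k` in the second factor -/
noncomputable def Low (g k : ℕ) : Submodule ℂ (Coh g 2) :=
  Submodule.span ℂ {z | ∃ (l : ℕ) (x y : Coh g 1), l < k ∧ y ∈ gr g 1 l ∧ z = pr1 x * pr2 y}

/-- `ρ` is `pr1 a * pr2 (dd s)` up to elements of degree less than `2` in the second factor -/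
def Local {g : ℕ} (s : Fin g) (ρ : Coh g 2) (a : Coh g 1) : Prop :=
  ρ - pr1 a * pr2 (dd s) ∈ Low g 2

variable {g : ℕ}

theorem low_mono {k l : ℕ} (h : k ≤ l) : Low g k ≤ Low g l := by
  apply Submodule.span_mono
  rintro _ ⟨i, x, y, hi, hy, rfl⟩
  exact ⟨i, x, y, lt_of_lt_of_le hi h, hy, rfl⟩

theorem mem_low {k l : ℕ} (h : l < k) (x : Coh g 1) {y : Coh g 1} (hy : y ∈ gr g 1 l) :
    pr1 x * pr2 y ∈ Low g k :=
  Submodule.subset_span ⟨l, x, y, h, hy, rfl⟩

/-- a property of `Low` can be checked on the generators -/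
theorem low_induction {k : ℕ} (N : Submodule ℂ (Coh g 2)) {f : Coh g 2 →ₗ[ℂ] Coh g 2}
    (h : ∀ (l : ℕ) (x y : Coh g 1), l < k → y ∈ gr g 1 l → f (pr1 x * pr2 y) ∈ N) {z : Coh g 2}
    (hz : z ∈ Low g k) : f z ∈ N := by
  have : Low g k ≤ N.comap f := by
    rw [Low, Submodule.span_le]
    rintro _ ⟨l, x, y, hl, hy, rfl⟩
    exact h l x y hl hy
  exact this hz

/-- `pr1 x` on the left -/
theorem pr1_mul_low {k : ℕ} (x : Coh g 1) {z : Coh g 2} (hz : z ∈ Low g k) :
    pr1 x * z ∈ Low g k := by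
  refine low_induction (Low g k) (f := LinearMap.mulLeft ℂ (pr1 x)) ?_ hz
  intro l x' y hl hy
  rw [LinearMap.mulLeft_apply, ← mul_assoc, ← map_mul]
  exact mem_low hl _ hy

/-- exchanging the two factors -/
theorem pr2_mul_pr1 {l : ℕ} {y : Coh g 1} (hy : y ∈ gr g 1 l) (x : Coh g 1) :
    ∃ x', pr2 y * pr1 x = pr1 x' * pr2 y := by
  have hy' : pr2 y ∈ gr g 2 l := pb_mem_gr _ hy
  refine coh_induction (P := fun x => ∃ x', pr2 y * pr1 x = pr1 x' * pr2 y) ?_ ?_ ?_ ?_ x
  · intro r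
    refine ⟨algebraMap ℂ _ r, ?_⟩
    rw [AlgHom.commutes]
    exact (Algebra.commutes r _).symm
  · intro w
    refine ⟨(-1 : ℂ) ^ l • iota g 1 w, ?_⟩
    rw [map_smul, pr1, pb_iota, smul_mul_assoc, iota_comm hy', smul_smul, ← mul_pow]
    simp
  · rintro a b ⟨a', ha⟩ ⟨b', hb⟩
    refine ⟨a' * b', ?_⟩
    rw [map_mul, map_mul, ← mul_assoc, ha, mul_assoc, hb, mul_assoc]
  · rintro a b ⟨a', ha⟩ ⟨b', hb⟩
    refine ⟨a' + b', ?_⟩
    rw [map_add, map_add, mul_add, ha, hb, add_mul]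

theorem low_mul {k l : ℕ} {z : Coh g 2} (hz : z ∈ Low g k) (b : Coh g 1) {c : Coh g 1}
    (hc : c ∈ gr g 1 l) : z * (pr1 b * pr2 c) ∈ Low g (k + l) := by
  refine low_induction (Low g (k + l)) (f := LinearMap.mulRight ℂ (pr1 b * pr2 c)) ?_ hz
  intro i x y hi hy
  obtain ⟨b', hb⟩ := pr2_mul_pr1 hy b
  have : pr1 x * pr2 y * (pr1 b * pr2 c) = pr1 (x * b') * pr2 (y * c) := by
    rw [map_mul, map_mul, mul_assoc (pr1 x), ← mul_assoc (pr2 y), hb]
    simp only [mul_assoc]
  rw [LinearMap.mulRight_apply, this]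
  exact mem_low (by omega) _ (mul_mem_gr hy hc)

theorem mul_low {k l : ℕ} {z : Coh g 2} (hz : z ∈ Low g k) (a : Coh g 1) {d : Coh g 1}
    (hd : d ∈ gr g 1 l) : pr1 a * pr2 d * z ∈ Low g (k + l) := by
  refine low_induction (Low g (k + l)) (f := LinearMap.mulLeft ℂ (pr1 a * pr2 d)) ?_ hz
  intro i x y hi hy
  obtain ⟨x', hx⟩ := pr2_mul_pr1 hd x
  have : pr1 a * pr2 d * (pr1 x * pr2 y) = pr1 (a * x') * pr2 (d * y) := by
    rw [map_mul, map_mul, mul_assoc (pr1 a), ← mul_assoc (pr2 d), hx]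
    simp only [mul_assoc]
  rw [LinearMap.mulLeft_apply, this]
  exact mem_low (by omega) _ (mul_mem_gr hd hy)

theorem low_mul_low {k l : ℕ} {z w : Coh g 2} (hz : z ∈ Low g k) (hw : w ∈ Low g l) :
    z * w ∈ Low g (k + l) := by
  refine low_induction (Low g (k + l)) (f := LinearMap.mulLeft ℂ z) ?_ hw
  intro i x y hi hy
  rw [LinearMap.mulLeft_apply]
  exact low_mono (by omega) (low_mul hz x hy)

/-- the product formula -/
theorem lprod_low {n : ℕ} {ρ : Fin n → Coh g 2} {a c : Fin n → Coh g 1}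
    (hc : ∀ i, c i ∈ gr g 1 2) (h : ∀ i, ρ i - pr1 (a i) * pr2 (c i) ∈ Low g 2) :
    lprod ρ - pr1 (lprod a) * pr2 (lprod c) ∈ Low g (2 * n) := by
  induction n with
  | zero =>
    simp only [lprod_zero, map_one, mul_one, sub_self]
    exact zero_mem _
  | succ n ih =>
    have ih' := ih (ρ := fun i => ρ i.succ) (a := fun i => a i.succ) (c := fun i => c i.succ)
      (fun i => hc i.succ) (fun i => h i.succ)
    have hc' : (lprod fun i : Fin n => c i.succ) ∈ gr g 1 (2 * n) := by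
      have := lprod_mem_gr (p := fun _ => 2) fun i : Fin n => hc i.succ
      simpa [mul_comm] using this
    rw [lprod_succ, lprod_succ, lprod_succ]
    set P := lprod fun i : Fin n => ρ i.succ
    set B := lprod fun i : Fin n => a i.succ
    set C := lprod fun i : Fin n => c i.succ
    have hcen : pr2 (c 0) * pr1 B = pr1 B * pr2 (c 0) := by
      have : pr2 (c 0) ∈ gr g 2 (2 * 1) := pb_mem_gr _ (hc 0)
      exact even_comm this _
    have e : ρ 0 * P - pr1 (a 0 * B) * pr2 (c 0 * C) =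
        (ρ 0 - pr1 (a 0) * pr2 (c 0)) * (P - pr1 B * pr2 C) +
        (ρ 0 - pr1 (a 0) * pr2 (c 0)) * (pr1 B * pr2 C) +
        pr1 (a 0) * pr2 (c 0) * (P - pr1 B * pr2 C) := by
      have e1 : pr1 (a 0) * pr2 (c 0) * (pr1 B * pr2 C) = pr1 (a 0 * B) * pr2 (c 0 * C) := by
        rw [map_mul, map_mul, mul_assoc (pr1 (a 0)), ← mul_assoc (pr2 (c 0)), hcen]
        simp only [mul_assoc]
      rw [← e1]
      noncomm_ring
    rw [e]
    have m1 := low_mul_low (h 0) ih'
    have m2 := low_mul (h 0) B hc'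
    have m3 := mul_low ih' (a 0) (hc 0)
    have e2 : 2 + 2 * n = 2 * (n + 1) := by ring
    have e3 : 2 * n + 2 = 2 * (n + 1) := by ring
    rw [e2] at m1 m2
    rw [e3] at m3
    exact add_mem (add_mem m1 m2) m3

namespace CMAb

variable (A : CMAb)

/-- the volume -/
noncomputable def top : ℂ := A.int (dT univ)

theorem gys_low {z : Coh A.g 2} (hz : z ∈ Low A.g (2 * A.g)) : A.gys z = 0 := by
  have : Low A.g (2 * A.g) ≤ LinearMap.ker A.gys := by
    rw [Low, Submodule.span_le]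
    rintro _ ⟨l, x, y, hl, hy, rfl⟩
    rw [SetLike.mem_coe, LinearMap.mem_ker]
    have := A.gys_mul x y
    rw [A.int_gr l (by omega) y hy, zero_smul] at this
    exact this
  exact this hz

/-- the main result of this file -/
theorem gys_lprod {ρ : Fin A.g → Coh A.g 2} {a : Fin A.g → Coh A.g 1}
    (h : ∀ s, Local s (ρ s) (a s)) : A.gys (lprod ρ) = A.top • lprod a := by
  have h1 := lprod_low (c := dd) (fun i => dd_mem_gr i) h
  have h2 := A.gys_low h1
  rw [map_sub, sub_eq_zero] at h2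
  rw [h2]
  have h3 : (lprod (dd : Fin A.g → Coh A.g 1)) = dT univ := by
    rw [dT, mo]
    congr 1
    funext s
    simp [lt]
  rw [h3]
  exact A.gys_mul _ _

end CMAb

end Pc0b458V
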