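import Pool.Agent.Lib.Pc0b458V.PolPow
import Pool.Agent.Lib.Pc0b458V.Low

/-!
# Products of monomials

`mo_mul_neg`: by `lprod_mul_odd` for the parts without `dd` (`mo η T = mo η ∅ * dT T` by
`mo_mul_dT`), where `gen s true 0 * gen s false 0 = dd s` and
`gen s false 0 * gen s true 0 = - dd s`, so that the sign is `(-1) ^ k * sg η`.
`int_mul_ne`: if `η s + θ s ≠ 0` for some `s` (both are weights), then the letter at `s` of the
product `mo η T * mo θ T' * dT U` is never `dd s` (it is `0` or of degree one), so the product is a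
multiple of a monomial of lower degree or zero: alternatively apply `act u` with `u s = I`,
`u t = 1` for `t ≠ s`: `int (act u z) = int z` (true for `z` in `gr g 1 d` for all `d`, by `rep` and
`act_mo`, `int_mo`), while `act u` multiplies the product by `I ^ (η s + θ s) ≠ 1` (`act_mo`).
-/

open Finset ComplexConjugate

namespace Pc0b458V

variable {g : ℕ}

theorem ltp_out {η : Fin g → ℤ} {s : Fin g} (hs : s ∉ supp η) : lt η ∅ s = 1 := by
  have h : η s = 0 := by simpa [supp] using hs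
  simp [lt, h]

theorem supp_neg (η : Fin g → ℤ) : supp (-η) = supp η := by
  ext s
  simp [supp]

theorem ltp_gen {η : Fin g → ℤ} {s : Fin g} (hs : η s = 1 ∨ η s = -1) :
    ∃ b, lt η ∅ s = gen s b 0 := by
  rcases hs with hs | hs
  · exact ⟨true, by simp [lt, hs]⟩
  · exact ⟨false, by simp [lt, hs]⟩

theorem suppp_cases {η : Fin g → ℤ} (hη : ∀ s, η s = -1 ∨ η s = 0 ∨ η s = 1) {s : Fin g}
    (hs : s ∈ supp η) : η s = 1 ∨ η s = -1 := by
  have h1 := hη s
  have h2 : η s ≠ 0 := by simpa [supp] using hs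
  tauto

theorem neg_wt {η : Fin g → ℤ} (hη : ∀ s, η s = -1 ∨ η s = 0 ∨ η s = 1) (s : Fin g) :
    (-η) s = -1 ∨ (-η) s = 0 ∨ (-η) s = 1 := by
  have h1 := hη s
  rw [Pi.neg_apply]
  omega

/-- the product of the letters -/
theorem lt_mul_neg {η : Fin g → ℤ} (hη : ∀ s, η s = -1 ∨ η s = 0 ∨ η s = 1) (s : Fin g) :
    lt η ∅ s * lt (-η) ∅ s = (if s ∈ supp η then (η s : ℂ) else 1) • lt 0 (supp η) s := by
  by_cases hs : s ∈ supp η
  · rcases suppp_cases hη hs with h | h
    · simp [lt, hs, h, dd]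
    · simp only [lt, hs, h, Pi.neg_apply, if_true, Finset.notMem_empty, if_false]
      have h1 : (gen s false 0 : Coh g 1) * gen s true 0 = -dd s := gen_anti _ _ _ _ _ _
      simp [h1]
  · have hs' : s ∉ supp (-η) := by rwa [supp_neg]
    rw [ltp_out hs, ltp_out hs']
    simp [lt, hs]

/-- opposite weights -/
theorem mo_mul_neg {η : Fin g → ℤ} {k : ℕ} (hη : ∀ s, η s = -1 ∨ η s = 0 ∨ η s = 1)
    (hk : size η = 2 * k) :
    mo η ∅ * mo (-η) ∅ = ((-1 : ℂ) ^ k * (sg η : ℂ)) • dT (supp η) := by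
  have h1 : mo η ∅ * mo (-η) ∅ = (-1 : ℂ) ^ k • lprod fun s => lt η ∅ s * lt (-η) ∅ s := by
    rw [mo, mo]
    refine lprod_mul_odd (supp η) k (by rw [← size_eq_card hη, hk]) ?_ ?_ ?_
    · intro i hi
      exact ltp_out hi
    · intro i hi
      apply ltp_out
      rwa [supp_neg]
    · intro i hi j hj _
      obtain ⟨b, hb⟩ := ltp_gen (suppp_cases hη hj)
      rw [← supp_neg] at hi
      obtain ⟨c, hc⟩ := ltp_gen (suppp_cases (neg_wt hη) hi)
      rw [hb, hc]
      exact gen_anti _ _ _ _ _ _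
  have h2 : (fun s => lt η ∅ s * lt (-η) ∅ s) =
      fun s => (if s ∈ supp η then (η s : ℂ) else 1) • lt 0 (supp η) s :=
    funext fun s => lt_mul_neg hη s
  have h3 : (∏ s, if s ∈ supp η then (η s : ℂ) else 1) = (sg η : ℂ) := by
    rw [Finset.prod_ite_mem, Finset.univ_inter, sg, Int.cast_prod]
  rw [h1, h2, lprod_smul, h3, smul_smul]
  rfl

/-- a weight and itself -/
theorem mo_mul_self {η : Fin g → ℤ} (hη : ∀ s, η s = -1 ∨ η s = 0 ∨ η s = 1) (h0 : η ≠ 0) :
    mo η ∅ * mo η ∅ = 0 := by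
  obtain ⟨s, hs⟩ : ∃ s, η s ≠ 0 := by
    by_contra hcon
    push Not at hcon
    exact h0 (funext hcon)
  have hs' : s ∈ supp η := by simpa [supp] using hs
  rw [mo, lprod_mul_sign (fun j => if j ∈ supp η then 1 else 0)
    (fun i => if i ∈ supp η then 1 else 0)]
  · obtain ⟨b, hb⟩ := ltp_gen (suppp_cases hη hs')
    rw [lprod_eq_zero s, smul_zero]
    rw [hb]
    exact gen_sq _ _ _
  · intro i j _
    by_cases hi : i ∈ supp η
    · by_cases hj : j ∈ supp η
      · obtain ⟨b, hb⟩ := ltp_gen (suppp_cases hη hi)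
        obtain ⟨c, hc⟩ := ltp_gen (suppp_cases hη hj)
        rw [hb, hc]
        simp only [hi, hj, if_true, mul_one, pow_one, neg_smul, one_smul]
        exact gen_anti _ _ _ _ _ _
      · simp [hj, ltp_out hj]
    · simp [hi, ltp_out hi]

theorem sg_neg {η : Fin g → ℤ} {k : ℕ} (hη : ∀ s, η s = -1 ∨ η s = 0 ∨ η s = 1)
    (hk : size η = 2 * k) : sg (-η) = sg η := by
  rw [sg, sg, supp_neg]
  have h1 : ∏ s ∈ supp η, (-η) s = ∏ s ∈ supp η, ((-1) * η s) :=
    Finset.prod_congr rfl fun s _ => by rw [Pi.neg_apply, neg_one_mul]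
  rw [h1, Finset.prod_mul_distrib, Finset.prod_const, ← size_eq_card hη, hk, pow_mul]
  simp

theorem sg_sq {η : Fin g → ℤ} (hη : ∀ s, η s = -1 ∨ η s = 0 ∨ η s = 1) : sg η * sg η = 1 := by
  rw [sg, ← Finset.prod_mul_distrib]
  apply Finset.prod_eq_one
  intro s hs
  rcases suppp_cases hη hs with h | h
  · rw [h, one_mul]
  · rw [h]
    norm_num

theorem sg_cases {η : Fin g → ℤ} (hη : ∀ s, η s = -1 ∨ η s = 0 ∨ η s = 1) :
    sg η = 1 ∨ sg η = -1 :=
  mul_self_eq_one_iff.1 (sg_sq hη)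

/-- the character of a monomial at an element with one coordinate `I` -/
theorem chi_update {η : Fin g → ℤ} {T : Finset (Fin g)}
    (hη : ∀ s, η s = -1 ∨ η s = 0 ∨ η s = 1) (hT : ∀ s ∈ T, η s = 0) (s : Fin g) :
    chi η T (fun t => if t = s then Complex.I else 1) =
      if η s = 1 then Complex.I else if η s = -1 then -Complex.I else 1 := by
  rw [chi, Finset.prod_eq_single s]
  · by_cases hs : s ∈ T
    · have h1 := hT s hs
      simp [hs, h1]
    · rcases hη s with h | h | h
      · simp [hs, h]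
      · simp [hs, h]
      · simp [hs, h]
  · intro t _ hts
    simp [hts]
  · intro h
    exact absurd (Finset.mem_univ s) h

namespace CMAb

variable (A : CMAb)

theorem chi_zero_univ {u : Fin g → ℂ} (hu : ∀ s, u s * conj (u s) = 1) :
    chi 0 univ u = 1 := by
  rw [chi]
  apply Finset.prod_eq_one
  intro s _
  simp [hu s]

/-- the trace map is invariant under elements of absolute value one -/
theorem int_act {d : ℕ} {z : Coh A.g 1} (hz : z ∈ gr A.g 1 d) {u : Fin A.g → ℂ}
    (hu : ∀ s, u s * conj (u s) = 1) : A.int (act u z) = A.int z := by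
  obtain ⟨c, hc⟩ := rep hz
  rw [hc, map_sum, map_sum, map_sum]
  refine Finset.sum_congr rfl fun p hp => ?_
  rw [map_smul, map_smul, map_smul, act_mo, map_smul]
  obtain ⟨η, T⟩ := p
  obtain ⟨h1, h2, -⟩ := mem_idx.1 hp
  by_cases hT : T = univ
  · have h3 : η = 0 := funext fun s => h2 s (by rw [hT]; exact Finset.mem_univ s)
    simp only [hT, h3]
    rw [chi_zero_univ hu, one_smul]
  · simp only
    rw [A.int_mo h1 h2 hT]
    simp

theorem int_mul_ne {η θ : Fin A.g → ℤ} {T T' U : Finset (Fin A.g)}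
    (hη : ∀ s, η s = -1 ∨ η s = 0 ∨ η s = 1) (hθ : ∀ s, θ s = -1 ∨ θ s = 0 ∨ θ s = 1)
    (hT : ∀ s ∈ T, η s = 0) (hT' : ∀ s ∈ T', θ s = 0) (h : θ ≠ -η) :
    A.int (mo η T * mo θ T' * dT U) = 0 := by
  obtain ⟨s, hs⟩ : ∃ s, η s + θ s ≠ 0 := by
    by_contra hcon
    push Not at hcon
    apply h
    funext s
    have := hcon s
    rw [Pi.neg_apply]
    omega
  set u : Fin A.g → ℂ := fun t => if t = s then Complex.I else 1 with hu
  have hu1 : ∀ t, u t * conj (u t) = 1 := by
    intro t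
    simp only [hu]
    split_ifs
    · rw [Complex.conj_I, mul_neg, Complex.I_mul_I, neg_neg]
    · simp
  have hz : mo η T * mo θ T' * dT U ∈
      gr A.g 1 ((∑ s, lw η T s) + (∑ s, lw θ T' s) + ∑ s, lw 0 U s) :=
    mul_mem_gr (mul_mem_gr (mo_mem_gr η T) (mo_mem_gr θ T')) (mo_mem_gr 0 U)
  have h1 := A.int_act hz hu1
  have h3 : act u (dT U) = dT U := by
    have h4 : act u (mo (0 : Fin A.g → ℤ) U) = mo 0 U := by
      rw [act_mo, hu, chi_update (η := (0 : Fin A.g → ℤ)) (fun _ => Or.inr (Or.inl rfl))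
        (fun _ _ => rfl)]
      simp
    exact h4
  rw [map_mul (act u), map_mul (act u), act_mo, act_mo, h3, smul_mul_smul_comm, smul_mul_assoc,
    map_smul, smul_eq_mul, hu, chi_update hη hT, chi_update hθ hT'] at h1
  set x := A.int (mo η T * mo θ T' * dT U)
  have key : ∀ w : ℂ, w ≠ 1 → w * x = x → x = 0 := by
    intro w hw hx
    have h5 : (w - 1) * x = 0 := by rw [sub_mul, one_mul, hx, sub_self]
    rcases mul_eq_zero.1 h5 with h6 | h6
    · exact absurd (sub_eq_zero.1 h6) hw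
    · exact h6
  refine key _ ?_ h1
  have hI1 : Complex.I ≠ 1 := fun h => by simpa using congrArg Complex.re h
  have hI2 : -Complex.I ≠ 1 := fun h => by simpa using congrArg Complex.re h
  have hI3 : (-1 : ℂ) ≠ 1 := by norm_num
  rcases hη s with h5 | h5 | h5 <;> rcases hθ s with h6 | h6 | h6 <;>
    simp only [h5, h6] at hs ⊢
  · norm_num
  · norm_num
    exact hI2
  · exact absurd rfl hs
  · norm_num
    exact hI2
  · exact absurd rfl hs
  · norm_num
    exact hI1
  · exact absurd rfl hs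
  · norm_num
    exact hI1
  · norm_num

theorem int_mul_neg {η : Fin A.g → ℤ} {T T' U : Finset (Fin A.g)} {k : ℕ}
    (hη : ∀ s, η s = -1 ∨ η s = 0 ∨ η s = 1) (hk : size η = 2 * k)
    (hT : ∀ s ∈ T, η s = 0) (hT' : ∀ s ∈ T', η s = 0) :
    A.int (mo η T * mo (-η) T' * dT U) =
      if Disjoint T T' ∧ U = (supp η ∪ T ∪ T')ᶜ then (-1 : ℂ) ^ k * (sg η : ℂ) * A.top else 0 := by
  have e1 : mo η ∅ * dT T = mo η T := by
    have := mo_mul_dT hT (Finset.disjoint_empty_left T)
    rwa [Finset.empty_union] at this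
  have e2 : mo (-η) ∅ * dT T' = mo (-η) T' := by
    have := mo_mul_dT (η := -η) (T := ∅) (U := T') (fun s hs => by
      rw [Pi.neg_apply, hT' s hs, neg_zero]) (Finset.disjoint_empty_left T')
    rwa [Finset.empty_union] at this
  have e3 : mo η T * mo (-η) T' * dT U =
      ((-1 : ℂ) ^ k * (sg η : ℂ)) • (dT (supp η) * (dT T * dT T') * dT U) := by
    rw [← e1, ← e2]
    have e4 : mo η ∅ * dT T * (mo (-η) ∅ * dT T') * dT U =
        mo η ∅ * mo (-η) ∅ * (dT T * dT T') * dT U := by
      rw [mul_assoc (mo η ∅) (dT T), ← mul_assoc (dT T) (mo (-η) ∅), dT_comm T (mo (-η) ∅)]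
      simp only [mul_assoc]
    rw [e4, mo_mul_neg hη hk, smul_mul_assoc, smul_mul_assoc]
  rw [e3, map_smul, smul_eq_mul]
  have d1 : Disjoint (supp η) T := by
    rw [Finset.disjoint_left]
    intro s hs hsT
    have : η s ≠ 0 := by simpa [supp] using hs
    exact this (hT s hsT)
  have d2 : Disjoint (supp η) T' := by
    rw [Finset.disjoint_left]
    intro s hs hsT
    have : η s ≠ 0 := by simpa [supp] using hs
    exact this (hT' s hsT)
  by_cases hd : Disjoint T T'
  · have d3 : Disjoint (supp η) (T ∪ T') := Finset.disjoint_union_right.2 ⟨d1, d2⟩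
    rw [dT_mul hd, dT_mul d3, ← Finset.union_assoc]
    by_cases hU : Disjoint (supp η ∪ T ∪ T') U
    · rw [dT_mul hU, A.int_dT]
      by_cases hV : supp η ∪ T ∪ T' ∪ U = univ
      · have hU' : U = (supp η ∪ T ∪ T')ᶜ := by
          have h7 : IsCompl (supp η ∪ T ∪ T') U := by
            refine ⟨hU, ?_⟩
            rw [codisjoint_iff]
            exact hV
          exact h7.compl_eq.symm
        rw [if_pos hV, if_pos ⟨hd, hU'⟩]
        rfl
      · rw [if_neg hV, if_neg, mul_zero]
        rintro ⟨-, hU'⟩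
        apply hV
        rw [hU']
        exact Finset.union_compl _
    · rw [dT_mul_zero hU, map_zero, mul_zero, if_neg]
      rintro ⟨-, hU'⟩
      apply hU
      rw [hU']
      exact disjoint_compl_right
  · rw [dT_mul_zero hd, mul_zero, zero_mul, map_zero, mul_zero, if_neg]
    exact fun h => hd h.1

end CMAb

end Pc0b458V
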