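import Pool.Agent.Lib.Pc0b458V.Reality

/-!
# Algebraic weights

`algebraic_of_nonNull`: for `(a, a') ∈ P η` with `a a' ≠ 0` also `(I a, - I a') ∈ P η` (`P_act`), and
`R1 k` is contained in the complex span; so `mo η ∅` and `mo (-η) ∅` are in the complex span.
`nonNull_of_algebraic`: a member of the complex span of `eff k` is `z₁ + I z₂` with `z₁, z₂ ∈ R1 k`.
Write `mo η ∅ = z₁ + I z₂` and `z_j = ∑ c_j p • mo p` (`rep`). Apply
`z ↦ int (z * mo (-η) ∅ * dT (supp η)ᶜ)`, which maps `∑ c p • mo p` to a nonzero multiple of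
`c (η, ∅)` (`int_mul_ne`, `int_mul_neg`, `top_pos`): so `c_1 (η, ∅) + I c_2 (η, ∅) = 1`, and one of
the two is not zero: by `P_of_rep` there is `(a, a') ∈ P η` with `a ≠ 0`. In the same way from
`mo (-η) ∅` there is `(b, b') ∈ P η` with `b' ≠ 0`. By `null_pair` the weight is `NonNull`.
-/

open Finset ComplexConjugate

namespace Pc0b458V

namespace CMAb

variable {A : CMAb}

namespace AlgPAux

lemma R1_le (k : ℕ) {z : Coh A.g 1} (hz : z ∈ A.R1 k) : z ∈ Submodule.span ℂ (A.eff k) := by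
  have h : A.R1 k ≤ (Submodule.span ℂ (A.eff k)).restrictScalars ℝ :=
    Submodule.span_le.2 fun x hx => Submodule.subset_span hx
  exact h hz

lemma span_split (k : ℕ) {z : Coh A.g 1} (hz : z ∈ Submodule.span ℂ (A.eff k)) :
    ∃ z₁ ∈ A.R1 k, ∃ z₂ ∈ A.R1 k, z = z₁ + Complex.I • z₂ := by
  induction hz using Submodule.span_induction with
  | mem x hx => exact ⟨x, Submodule.subset_span hx, 0, zero_mem _, by simp⟩
  | zero => exact ⟨0, zero_mem _, 0, zero_mem _, by simp⟩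
  | add x y _ _ hx hy =>
    obtain ⟨x₁, h1, x₂, h2, rfl⟩ := hx
    obtain ⟨y₁, h3, y₂, h4, rfl⟩ := hy
    exact ⟨x₁ + y₁, (A.R1 k).add_mem h1 h3, x₂ + y₂, (A.R1 k).add_mem h2 h4, by module⟩
  | smul c x _ hx =>
    obtain ⟨x₁, h1, x₂, h2, rfl⟩ := hx
    refine ⟨(c.re : ℂ) • x₁ + ((-c.im : ℝ) : ℂ) • x₂,
      (A.R1 k).add_mem (R1_smul _ h1) (R1_smul _ h2),
      (c.im : ℂ) • x₁ + (c.re : ℂ) • x₂,
      (A.R1 k).add_mem (R1_smul _ h1) (R1_smul _ h2), ?_⟩
    have hc : c = (c.re : ℂ) + (c.im : ℂ) * Complex.I := (Complex.re_add_im c).symm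
    have hI : Complex.I * Complex.I = -1 := Complex.I_mul_I
    have e1 : c • (x₁ + Complex.I • x₂) = c • x₁ + (c * Complex.I) • x₂ := by module
    have e2 : c * Complex.I = ((-c.im : ℝ) : ℂ) + (c.re : ℂ) * Complex.I := by
      have e4 : c * Complex.I = ((c.re : ℂ) + (c.im : ℂ) * Complex.I) * Complex.I := by rw [← hc]
      rw [e4]
      push_cast
      linear_combination (c.im : ℂ) * hI
    have e3 : c • x₁ = ((c.re : ℂ) + (c.im : ℂ) * Complex.I) • x₁ := by rw [← hc]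
    rw [e1, e2, e3]
    module

/-- the coefficient of `mo η ∅` -/
lemma coeff {η : Fin A.g → ℤ} (hη : ∀ s, η s = -1 ∨ η s = 0 ∨ η s = 1) {k : ℕ}
    (hk : size η = 2 * k) {z : Coh A.g 1} {c : (Fin A.g → ℤ) × Finset (Fin A.g) → ℂ}
    (hc : z = ∑ p ∈ idx A.g (2 * k), c p • mo p.1 p.2) :
    A.int (z * mo (-η) ∅ * dT (supp η)ᶜ) = c (η, ∅) * ((-1 : ℂ) ^ k * (sg η : ℂ) * A.top) := by
  classical
  have hmem : (η, (∅ : Finset (Fin A.g))) ∈ idx A.g (2 * k) := by
    rw [mem_idx]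
    exact ⟨hη, fun s hs => absurd hs (Finset.notMem_empty s), by rw [hk]; simp⟩
  have hηn : ∀ s, (-η) s = -1 ∨ (-η) s = 0 ∨ (-η) s = 1 := by
    intro s
    have := hη s
    simp only [Pi.neg_apply]
    omega
  rw [hc, Finset.sum_mul, Finset.sum_mul, map_sum, Finset.sum_eq_single (η, ∅)]
  · rw [smul_mul_assoc, smul_mul_assoc, map_smul, smul_eq_mul,
      A.int_mul_neg hη hk (fun s hs => absurd hs (Finset.notMem_empty s))
        (fun s hs => absurd hs (Finset.notMem_empty s)), if_pos]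
    refine ⟨Finset.disjoint_empty_left _, ?_⟩
    rw [Finset.union_empty, Finset.union_empty]
  · rintro ⟨θ, T⟩ hp hne
    rw [mem_idx] at hp
    obtain ⟨h1, h2, h3⟩ := hp
    rw [smul_mul_assoc, smul_mul_assoc, map_smul, smul_eq_mul]
    by_cases hθ : θ = η
    · exfalso
      apply hne
      rw [hθ, hk] at h3
      have : T.card = 0 := by omega
      rw [Finset.card_eq_zero] at this
      rw [hθ, this]
    · rw [A.int_mul_ne h1 hηn h2 (fun s hs => absurd hs (Finset.notMem_empty s))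
        (fun h => hθ (neg_injective h).symm), mul_zero]
  · intro h
    exact absurd hmem h

lemma exists_P {η : Fin A.g → ℤ} (hη : ∀ s, η s = -1 ∨ η s = 0 ∨ η s = 1) {k : ℕ}
    (hk : size η = 2 * k) (h : mo η ∅ ∈ Submodule.span ℂ (A.eff k)) :
    ∃ a a' : ℂ, A.P η a a' ∧ a ≠ 0 := by
  classical
  have hmem : (η, (∅ : Finset (Fin A.g))) ∈ idx A.g (2 * k) := by
    rw [mem_idx]
    exact ⟨hη, fun s hs => absurd hs (Finset.notMem_empty s), by rw [hk]; simp⟩
  obtain ⟨z₁, h1, z₂, h2, hz⟩ := span_split k h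
  obtain ⟨c₁, hc₁⟩ := rep (R1_gr h1)
  obtain ⟨c₂, hc₂⟩ := rep (R1_gr h2)
  have hc0 : mo η ∅ = ∑ p ∈ idx A.g (2 * k),
      (if p = (η, (∅ : Finset (Fin A.g))) then (1 : ℂ) else 0) • mo p.1 p.2 := by
    rw [Finset.sum_eq_single (η, ∅)]
    · rw [if_pos rfl, one_smul]
    · intro p _ hp
      rw [if_neg hp, zero_smul]
    · intro h3
      exact absurd hmem h3
  have e0 := coeff (A := A) hη hk hc0
  have e1 := coeff (A := A) hη hk hc₁
  have e2 := coeff (A := A) hη hk hc₂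
  rw [if_pos rfl, one_mul] at e0
  have e3 : A.int (mo η ∅ * mo (-η) ∅ * dT (supp η)ᶜ) =
      A.int (z₁ * mo (-η) ∅ * dT (supp η)ᶜ) +
        Complex.I * A.int (z₂ * mo (-η) ∅ * dT (supp η)ᶜ) := by
    rw [hz, add_mul, add_mul, map_add, smul_mul_assoc, smul_mul_assoc, map_smul, smul_eq_mul]
  rw [e0, e1, e2] at e3
  have hκ : (-1 : ℂ) ^ k * (sg η : ℂ) * A.top ≠ 0 := by
    obtain ⟨t, ht, htop⟩ := top_pos (A := A)
    have h5 : (sg η : ℂ) ≠ 0 := by
      rcases sg_cases hη with h6 | h6 <;> rw [h6] <;> norm_num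
    have h7 : A.top ≠ 0 := by
      rw [htop]
      exact_mod_cast ht.ne'
    exact mul_ne_zero (mul_ne_zero (pow_ne_zero _ (by norm_num)) h5) h7
  have e4 : c₁ (η, ∅) + Complex.I * c₂ (η, ∅) = 1 := by
    apply mul_right_cancel₀ hκ
    rw [one_mul]
    linear_combination (-1 : ℂ) * e3
  by_cases h8 : c₁ (η, ∅) = 0
  · refine ⟨c₂ (η, ∅), c₂ (-η, ∅), P_of_rep h2 hc₂ hmem, ?_⟩
    intro h9
    rw [h8, h9] at e4
    simp at e4
  · exact ⟨c₁ (η, ∅), c₁ (-η, ∅), P_of_rep h1 hc₁ hmem, h8⟩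

end AlgPAux

open AlgPAux

theorem algebraic_of_nonNull {η : Fin A.g → ℤ} (hη : ∀ s, η s = -1 ∨ η s = 0 ∨ η s = 1)
    (h0 : η ≠ 0) (h : A.NonNull η) : A.Algebraic η := by
  obtain ⟨a, a', hP, hne⟩ := h
  obtain ⟨k', hk', hmem'⟩ := P_act hη h0 hP Complex.I
  obtain ⟨k, hk, hmem⟩ := hP
  have hkk : k' = k := by omega
  subst hkk
  have ha : a ≠ 0 := left_ne_zero_of_mul hne
  have ha' : a' ≠ 0 := right_ne_zero_of_mul hne
  have hI : Complex.I * Complex.I = -1 := Complex.I_mul_I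
  have h1 := R1_le _ hmem
  have h2 := Submodule.smul_mem _ Complex.I (R1_le _ hmem')
  have e1 : a • mo η ∅ + a' • mo (-η) ∅ - Complex.I • ((Complex.I * a) • mo η ∅ +
      (conj Complex.I * a') • mo (-η) ∅) = (2 * a) • (mo η ∅ : Coh A.g 1) := by
    rw [Complex.conj_I, smul_add, smul_smul, smul_smul, ← mul_assoc, ← mul_assoc, mul_neg, hI]
    module
  have e2 : a • mo η ∅ + a' • mo (-η) ∅ + Complex.I • ((Complex.I * a) • mo η ∅ +
      (conj Complex.I * a') • mo (-η) ∅) = (2 * a') • (mo (-η) ∅ : Coh A.g 1) := by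
    rw [Complex.conj_I, smul_add, smul_smul, smul_smul, ← mul_assoc, ← mul_assoc, mul_neg, hI]
    module
  have h3 := Submodule.sub_mem _ h1 h2
  have h4 := Submodule.add_mem _ h1 h2
  rw [e1] at h3
  rw [e2] at h4
  refine ⟨fun s => ?_, k', hk', ?_, ?_⟩
  · rcases hη s with h5 | h5 | h5 <;> rw [h5] <;> norm_num
  · rw [mon_eq]
    have h5 := Submodule.smul_mem _ (2 * a)⁻¹ h3
    rwa [smul_smul, inv_mul_cancel₀ (mul_ne_zero two_ne_zero ha), one_smul] at h5
  · rw [mon_eq]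
    have h5 := Submodule.smul_mem _ (2 * a')⁻¹ h4
    rwa [smul_smul, inv_mul_cancel₀ (mul_ne_zero two_ne_zero ha'), one_smul] at h5

theorem nonNull_of_algebraic {η : Fin A.g → ℤ} (h0 : η ≠ 0) (h : A.Algebraic η) :
    A.NonNull η := by
  obtain ⟨habs, k, hk, hm, hm'⟩ := h
  have hη : ∀ s, η s = -1 ∨ η s = 0 ∨ η s = 1 := by
    intro s
    have := abs_le.mp (habs s)
    omega
  have hηn : ∀ s, (-η) s = -1 ∨ (-η) s = 0 ∨ (-η) s = 1 := by
    intro s
    have := hη s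
    simp only [Pi.neg_apply]
    omega
  rw [mon_eq] at hm hm'
  obtain ⟨a, a', hP, ha⟩ := exists_P hη hk hm
  obtain ⟨b, b', hP', hb⟩ := exists_P hηn (by rw [size_neg, hk]) hm'
  have hP2 := P_neg hP'
  rw [neg_neg] at hP2
  by_contra hcon
  have := null_pair hη h0 hcon hP hP2
  exact mul_ne_zero ha hb this

end CMAb

end Pc0b458V
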