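import Mathlib

/-!
# Four points of the projective line

With `ω` a primitive third root of unity, `r i = ω ^ i / √3` and `ψ i = ω ^ (n * i)` satisfy: for
`i ≠ j`, `|r i - r j| = 1`; for `{i, j, k} = {0, 1, 2}`:
`(r i - r j) * (r i - r k) = ω ^ (2 i) = ω ^ (-i)`;
`(r i - r k) * conj (r j - r k) = - ω ^ (j - i)`, that is `-ω` for `i = k + 1`, `j = k + 2` and
`-ω ^ 2` for `i = k + 2`, `j = k + 1`; `(r i - r j) ^ 2 = -ω ^ (-k)`. Check:
`(ω - 1) * conj (ω ^ 2 - 1) = (ω - 1) ^ 2 = -3 ω`, `(ω - ω ^ 2) ^ 2 = -3`.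
-/

open Finset ComplexConjugate

namespace Pc0b458V

/-- the points and the phases, for a primitive third root of unity `w` and `s ^ 2 = 1 / 3` -/
theorem exists_points_aux : ∃ r φ : Fin 3 → ℂ,
    (∀ i j, i ≠ j → (r i - r j) * conj (r i - r j) = 1) ∧
    (∀ i, φ i * conj (φ i) = 1) ∧
    (∀ i j k, i ≠ j → i ≠ k → j ≠ k → φ i * ((r i - r j) * (r i - r k)) = 1) ∧
    (∀ i j k, i ≠ j → i ≠ k → j ≠ k →
      φ i * conj (φ j) * ((r i - r k) * conj (r j - r k)) = -1) ∧
    (∀ i j k, i ≠ j → i ≠ k → j ≠ k →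
      φ i * φ j * conj (φ k) * (r i - r j) ^ 2 = -1) := by
  obtain ⟨w, hw, hcw⟩ : ∃ w : ℂ, w ^ 2 = -1 - w ∧ conj w = -1 - w := by
    refine ⟨⟨-1 / 2, Real.sqrt 3 / 2⟩, ?_, ?_⟩
    · have h3 : Real.sqrt 3 * Real.sqrt 3 = 3 := Real.mul_self_sqrt (by norm_num)
      apply Complex.ext
      · simp [pow_two]
        nlinarith [h3]
      · simp [pow_two]
        ring
    · apply Complex.ext
      · simp
        norm_num
      · simp
  obtain ⟨s, hs, hcs⟩ : ∃ s : ℂ, s ^ 2 = 1 / 3 ∧ conj s = s := by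
    refine ⟨((1 / Real.sqrt 3 : ℝ) : ℂ), ?_, Complex.conj_ofReal _⟩
    rw [← Complex.ofReal_pow, div_pow, Real.sq_sqrt (by norm_num)]
    push_cast
    norm_num
  have e0 : (1 : ℂ) + w + w ^ 2 = 0 := by rw [hw]; ring
  refine ⟨![s, s * w, s * w ^ 2], ![1, w, w ^ 2], ?_, ?_, ?_, ?_, ?_⟩
  · intro i j hij
    fin_cases i <;> fin_cases j <;> first
      | exact absurd rfl hij
      | (simp only [Fin.zero_eta, Fin.mk_one, Fin.reduceFinMk, Matrix.cons_val_zero,
          Matrix.cons_val_one, Matrix.cons_val, map_sub, map_mul, map_pow, hcw, hcs, hw, map_neg,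
          map_one]
         ring_nf
         have hw3 : w ^ 3 = 1 := by
           linear_combination (w - 1) * e0
         have hw4 : w ^ 4 = w := by
           linear_combination w * hw3
         simp only [hw, hs, hw3, hw4]
         ring_nf)
  · intro i
    fin_cases i <;>
      (simp only [Fin.zero_eta, Fin.mk_one, Fin.reduceFinMk, Matrix.cons_val_zero,
          Matrix.cons_val_one, Matrix.cons_val, map_sub, map_mul, map_pow, hcw, hcs, hw, map_neg,
          map_one]
       ring_nf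
       try simp only [hw, hs]
       try ring_nf)
  all_goals
    intro i j k hij hik hjk
    have hw3 : w ^ 3 = 1 := by
      linear_combination (w - 1) * e0
    have hw4 : w ^ 4 = w := by
      linear_combination w * hw3
    have hw5 : w ^ 5 = w ^ 2 := by
      linear_combination w ^ 2 * hw3
    have hw6 : w ^ 6 = 1 := by
      linear_combination (w ^ 3 + 1) * hw3
    fin_cases i <;> fin_cases j <;> first
      | exact absurd rfl hij
      | (fin_cases k <;> first
          | exact absurd rfl hik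
          | exact absurd rfl hjk
          | (simp only [Fin.zero_eta, Fin.mk_one, Fin.reduceFinMk, Matrix.cons_val_zero,
              Matrix.cons_val_one, Matrix.cons_val, map_sub, map_mul, map_pow, hcw, hcs, hw,
              map_neg, map_one]
             ring_nf
             simp only [hw, hs, hw3, hw4, hw5, hw6]
             ring_nf))

theorem exists_points (n : ℕ) : ∃ r ψ : Fin 3 → ℂ,
    (∀ i j, i ≠ j → (r i - r j) * conj (r i - r j) = 1) ∧
    (∀ i, ψ i * conj (ψ i) = 1) ∧
    (∀ i j k, i ≠ j → i ≠ k → j ≠ k → ψ i * ((r i - r j) ^ n * (r i - r k) ^ n) = 1) ∧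
    (∀ i j k, i ≠ j → i ≠ k → j ≠ k →
      ψ i * conj (ψ j) * ((r i - r k) * conj (r j - r k)) ^ n = (-1) ^ n) ∧
    (∀ i j k, i ≠ j → i ≠ k → j ≠ k →
      ψ i * ψ j * conj (ψ k) * (r i - r j) ^ (2 * n) = (-1) ^ n) := by
  obtain ⟨r, φ, h1, h2, h3, h4, h5⟩ := exists_points_aux
  refine ⟨r, fun i => φ i ^ n, h1, fun i => ?_, fun i j k a b d => ?_, fun i j k a b d => ?_,
    fun i j k a b d => ?_⟩
  · simp only [map_pow]
    rw [← mul_pow, h2, one_pow]
  · rw [← mul_pow, ← mul_pow, h3 i j k a b d, one_pow]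
  · simp only [map_pow]
    rw [← mul_pow, ← mul_pow, h4 i j k a b d]
  · simp only [map_pow]
    rw [← mul_pow, ← mul_pow, pow_mul, ← mul_pow, h5 i j k a b d]

end Pc0b458V
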