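import Pool.Agent.Lib.Pc0b458V.Mono

/-!
# Powers of the polarisation and integrals of monomials

`pol_pow`: induction on `m`, with `pol g = ∑ s, dT {s}` and `dT T * dT U = dT (T ∪ U)` or `0`
(`mo_mul_dT`, `mo_mul_dT_zero` for `η = 0`; `dT T = mo 0 T`); each `T` with `|T| = m + 1` is obtained
`m + 1` times. `act_pol`: `act u (pol g) = ∑ s, (u s * conj (u s)) • dd s`; for the indicator function
of `J` one gets the sum over `s ∈ J`, and the same computation for its powers.
`int_dT`: for `T ≠ univ` the degree of `dT T` is not `2 g`.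
-/

open Finset ComplexConjugate

namespace Pc0b458V

variable {g : ℕ}

theorem dT_mul {T U : Finset (Fin g)} (h : Disjoint T U) :
    (dT T : Coh g 1) * dT U = dT (T ∪ U) :=
  mo_mul_dT (fun _ _ => rfl) h

theorem dT_mul_zero {T U : Finset (Fin g)} (h : ¬ Disjoint T U) :
    (dT T : Coh g 1) * dT U = 0 :=
  mo_mul_dT_zero fun h' => h h'.1

theorem dT_empty : (dT ∅ : Coh g 1) = 1 := by
  rw [dT, ← mon_eq]
  have : (fun s : Fin g => if (0 : Fin g → ℤ) s = 1 then (gen s true 0 : Coh g 1) else
      if (0 : Fin g → ℤ) s = -1 then gen s false 0 else 1) = fun _ => 1 := by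
    funext s
    simp
  rw [mon, this]
  exact lprod_one

theorem dT_singleton (s : Fin g) : (dT {s} : Coh g 1) = dd s := by
  have h1 : lt (0 : Fin g → ℤ) {s} = fun t => if t = s then dd s else 1 := by
    funext t
    by_cases h : t = s
    · subst h; simp [lt]
    · simp [lt, h]
  rw [dT, mo, h1]
  have key : ∀ (n : ℕ) (s : Fin n) (x : Coh g 1),
      (lprod fun t : Fin n => if t = s then x else 1) = x := by
    intro n
    induction n with
    | zero => intro s; exact s.elim0
    | succ n ih =>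
      intro s x
      rw [lprod_succ]
      rcases Fin.eq_zero_or_eq_succ s with rfl | ⟨j, rfl⟩
      · have : (fun i : Fin n => if i.succ = (0 : Fin (n + 1)) then x else 1) = fun _ => 1 := by
          funext i
          simp [Fin.succ_ne_zero]
        rw [this, lprod_one]
        simp
      · have h0 : ¬ (0 : Fin (n + 1)) = j.succ := (Fin.succ_ne_zero j).symm
        simp only [h0, if_false, one_mul, Fin.succ_inj]
        exact ih j x
  exact key g s _

/-- the sum over the subsets of `J` with `n` elements -/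
noncomputable def en (J : Finset (Fin g)) (n : ℕ) : Coh g 1 := ∑ T ∈ powersetCard n J, dT T

theorem sum_dd_mul_en (J : Finset (Fin g)) (n : ℕ) :
    en J n * (∑ s ∈ J, dd s) = ((n + 1 : ℕ) : ℂ) • en J (n + 1) := by
  have h1 : ∀ T ∈ powersetCard n J, ∀ s ∈ J, (dT T : Coh g 1) * dd s =
      if s ∉ T then dT (insert s T) else 0 := by
    intro T _ s _
    rw [← dT_singleton]
    by_cases h : s ∈ T
    · rw [dT_mul_zero (by simpa using h)]
      simp [h]
    · rw [dT_mul (by simpa using h)]
      simp only [h, not_false_eq_true, if_true]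
      congr 1
      ext t
      simp
  rw [en, Finset.sum_mul_sum, Finset.sum_congr rfl fun T hT => Finset.sum_congr rfl (h1 T hT)]
  have h2 : ∀ U ∈ powersetCard (n + 1) J, ((n + 1 : ℕ) : ℂ) • (dT U : Coh g 1) =
      ∑ s ∈ U, dT U := by
    intro U hU
    rw [Finset.sum_const, (Finset.mem_powersetCard.1 hU).2, Nat.cast_smul_eq_nsmul]
  rw [en, Finset.smul_sum, Finset.sum_congr rfl h2]
  simp only [← Finset.sum_filter]
  rw [Finset.sum_sigma', Finset.sum_sigma']
  refine Finset.sum_bij' (fun p _ => ⟨insert p.2 p.1, p.2⟩) (fun p _ => ⟨p.1.erase p.2, p.2⟩)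
    ?_ ?_ ?_ ?_ ?_
  · rintro ⟨T, s⟩ h
    simp only [Finset.mem_sigma, Finset.mem_filter, Finset.mem_powersetCard] at h ⊢
    obtain ⟨⟨hT, hc⟩, hs, hsT⟩ := h
    refine ⟨⟨Finset.insert_subset hs hT, ?_⟩, Finset.mem_insert_self _ _⟩
    rw [Finset.card_insert_of_notMem hsT, hc]
  · rintro ⟨U, s⟩ h
    simp only [Finset.mem_sigma, Finset.mem_filter, Finset.mem_powersetCard] at h ⊢
    obtain ⟨⟨hU, hc⟩, hs⟩ := h
    refine ⟨⟨(Finset.erase_subset _ _).trans hU, ?_⟩, hU hs, Finset.notMem_erase _ _⟩
    rw [Finset.card_erase_of_mem hs, hc]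
    rfl
  · rintro ⟨T, s⟩ h
    simp only [Finset.mem_sigma, Finset.mem_filter] at h
    simp [Finset.erase_insert h.2.2]
  · rintro ⟨U, s⟩ h
    simp only [Finset.mem_sigma] at h
    simp [Finset.insert_erase h.2]
  · rintro ⟨T, s⟩ _
    rfl

theorem sum_dd_pow (J : Finset (Fin g)) (n : ℕ) :
    (∑ s ∈ J, dd s) ^ n = (n.factorial : ℂ) • en J n := by
  induction n with
  | zero => simp [en, dT_empty]
  | succ n ih =>
    rw [pow_succ, ih, smul_mul_assoc, sum_dd_mul_en, smul_smul, Nat.factorial_succ]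
    congr 1
    push_cast
    ring

theorem pol_pow (n : ℕ) : pol g ^ n = (n.factorial : ℂ) • en univ n := by
  rw [pol_eq, sum_dd_pow]

/-- the indicator function of `J` -/
def ind (J : Finset (Fin g)) : Fin g → ℂ := fun s => if s ∈ J then 1 else 0

theorem act_ind_pol_pow (J : Finset (Fin g)) (n : ℕ) :
    act (ind J) (pol g ^ n) = (n.factorial : ℂ) • en J n := by
  rw [map_pow, ← sum_dd_pow]
  congr 1
  rw [pol_eq, map_sum, ← Finset.sum_subset (Finset.subset_univ J)]
  · refine Finset.sum_congr rfl fun s hs => ?_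
    rw [dd, map_mul, act_gen_true, act_gen_false]
    simp [ind, hs]
  · intro s _ hs
    rw [dd, map_mul, act_gen_true, act_gen_false]
    simp [ind, hs]

namespace CMAb

variable (A : CMAb)

theorem int_mo {η : Fin A.g → ℤ} {T : Finset (Fin A.g)} (hη : ∀ s, η s = -1 ∨ η s = 0 ∨ η s = 1)
    (hT : ∀ s ∈ T, η s = 0) (h : T ≠ univ) : A.int (mo η T) = 0 := by
  have hidx : (η, T) ∈ idx A.g (size η + 2 * T.card) := mem_idx.2 ⟨hη, hT, rfl⟩
  refine A.int_gr (size η + 2 * T.card) ?_ _ (mo_mem hidx)
  have h1 := card_zer hη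
  have h2 : T ⊆ zer η := fun s hs => Finset.mem_filter.2 ⟨Finset.mem_univ _, hT s hs⟩
  have h3 := Finset.card_le_card h2
  have h4 : T.card < A.g := by
    have := Finset.card_lt_card (Finset.ssubset_univ_iff.2 h)
    simpa using this
  omega

theorem int_dT (T : Finset (Fin A.g)) : A.int (dT T) = if T = univ then A.int (dT univ) else 0 := by
  split_ifs with h
  · rw [h]
  · exact A.int_mo (fun s => Or.inr (Or.inl rfl)) (fun _ _ => rfl) h

end CMAb

end Pc0b458V
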