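import Pool.Agent.Lib.Pc0b458V.Tri
import Pool.Agent.Lib.Pc0b458V.PolPow

/-!
# The test classes: existence, boundedness, phases

`start`: `bound_R1` for `x' = a • mo η ∅ + a' • mo (-η) ∅ ∈ R1 n` (from `P η a a'`, `size η = 2 n`)
gives `r • pol ^ n + x' ∈ E1 n`; apply `act (ind (supp η))` (`act_E1`, `act_ind_pol_pow`, `act_mo`):
`(r * n!) • en (supp η) n + x' ∈ E1 n`; divide by `r * n!`.
`bdd`: for `w = 1` and `w = -1`, `act u` (with `u s = w` for one `s ∈ supp η`, `u t = 1` for `t ≠ s`)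
maps `ξ = E + b x'` to `E + w b x'`; the number `int (ξ * act u ξ * dT (zer η))` is nonnegative
(`E1_mul`, `dT_E1`, `int_E1`, `size η + |zer η| = g`), and it is
`top * ((2 n).choose n + 2 * w * b ^ 2 * (-1) ^ n * sg η * a * a')`: the product `E * E * dT (zer η)`
is `(2 n).choose n • dT univ`, the terms `E * mo η ∅` vanish (`mo_mul_dT_zero`; `n ≥ 1`), and
`mo_mul_neg`, `mo_mul_self` give the others.
`phase`: `act u` with `u s = ψ` or `conj ψ` at one `s` in the support of `η`.
-/

open Finset ComplexConjugate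

namespace Pc0b458V

section Aux

variable {g : ℕ}

theorem supp_neg' (η : Fin g → ℤ) : supp (-η) = supp η := by
  ext s
  simp [supp]

theorem disj_supp_zer (η : Fin g → ℤ) : Disjoint (supp η) (zer η) := by
  rw [Finset.disjoint_left]
  intro s h1 h2
  simp only [supp, zer, mem_filter, mem_univ, true_and] at h1 h2
  exact h1 h2

theorem supp_union_zer (η : Fin g → ℤ) : supp η ∪ zer η = univ := by
  ext s
  simp only [supp, zer, mem_union, mem_filter, mem_univ, true_and, iff_true]
  exact (em (η s = 0)).symm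

theorem supp_nonempty {η : Fin g → ℤ} (h0 : η ≠ 0) : ∃ s, η s ≠ 0 := by
  by_contra hc
  push Not at hc
  exact h0 (funext hc)

theorem neg_vals {η : Fin g → ℤ} (hη : ∀ s, η s = -1 ∨ η s = 0 ∨ η s = 1) :
    ∀ s, (-η) s = -1 ∨ (-η) s = 0 ∨ (-η) s = 1 := by
  intro s
  have := hη s
  simp only [Pi.neg_apply]
  omega

theorem chi_zero_of_norm (T : Finset (Fin g)) {u : Fin g → ℂ}
    (hu : ∀ s ∈ T, u s * conj (u s) = 1) : chi 0 T u = 1 := by
  unfold chi
  apply Finset.prod_eq_one
  intro s _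
  by_cases h : s ∈ T
  · rw [if_pos h, hu s h]
  · rw [if_neg h]
    simp

theorem act_dT_of_norm (T : Finset (Fin g)) {u : Fin g → ℂ}
    (hu : ∀ s ∈ T, u s * conj (u s) = 1) : act u (dT T) = dT T := by
  rw [dT, act_mo, chi_zero_of_norm T hu, one_smul]

theorem act_en_of_norm (J : Finset (Fin g)) (n : ℕ) {u : Fin g → ℂ}
    (hu : ∀ s ∈ J, u s * conj (u s) = 1) : act u (en J n) = en J n := by
  rw [en, map_sum]
  apply Finset.sum_congr rfl
  intro T hT
  exact act_dT_of_norm T fun s hs => hu s ((Finset.mem_powersetCard.1 hT).1 hs)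

theorem chi_ind {η : Fin g → ℤ} : chi η ∅ (ind (supp η)) = 1 := by
  unfold chi
  apply Finset.prod_eq_one
  intro s _
  rw [if_neg (Finset.notMem_empty s)]
  by_cases h : η s = 0
  · rw [if_neg (by omega), if_neg (by omega)]
  · have h1 : s ∈ supp η := by simp [supp, h]
    rw [ind, if_pos h1]
    simp

theorem chi_single {η : Fin g → ℤ} {s : Fin g} {u : Fin g → ℂ} (hu : ∀ t, t ≠ s → u t = 1) :
    chi η ∅ u = if η s = 1 then u s else if η s = -1 then conj (u s) else 1 := by
  unfold chi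
  rw [Finset.prod_eq_single s]
  · rw [if_neg (Finset.notMem_empty s)]
  · intro t _ ht
    rw [if_neg (Finset.notMem_empty t), hu t ht]
    simp
  · intro h
    exact absurd (Finset.mem_univ s) h

theorem mo_mul_en {η : Fin g → ℤ} (hη : ∀ s, η s = -1 ∨ η s = 0 ∨ η s = 1) {n : ℕ} (hn : 1 ≤ n) :
    mo η ∅ * en (supp η) n = 0 := by
  rw [en, Finset.mul_sum]
  apply Finset.sum_eq_zero
  intro T hT
  obtain ⟨h1, h2⟩ := Finset.mem_powersetCard.1 hT
  obtain ⟨s, hs⟩ : T.Nonempty := by
    rw [← Finset.card_pos]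
    omega
  apply mo_mul_dT_zero
  rintro ⟨_, h3⟩
  have h4 := h3 s hs
  have h5 := h1 hs
  simp only [supp, mem_filter, mem_univ, true_and] at h5
  rcases hη s with h | h | h
  · exact h4.2 h
  · exact h5 h
  · exact h4.1 h

theorem en_comm (J : Finset (Fin g)) (n : ℕ) (z : Coh g 1) : en J n * z = z * en J n := by
  rw [en, Finset.sum_mul, Finset.mul_sum]
  exact Finset.sum_congr rfl fun T _ => dT_comm T z

end Aux

namespace CMAb

variable {A : CMAb}

theorem E1_sum {ι : Type*} (S : Finset ι) {f : ι → Coh A.g 1} {i : ℕ}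
    (h : ∀ j ∈ S, f j ∈ A.E1 i) : ∑ j ∈ S, f j ∈ A.E1 i := by
  classical
  induction S using Finset.induction_on with
  | empty => rw [Finset.sum_empty]; exact cone_zero _
  | insert a S ha ih =>
    rw [Finset.sum_insert ha]
    exact E1_add (h a (Finset.mem_insert_self a S))
      (ih fun j hj => h j (Finset.mem_insert_of_mem hj))

theorem en_E1 (J : Finset (Fin A.g)) (n : ℕ) : en J n ∈ A.E1 n := by
  rw [en]
  apply E1_sum
  intro T hT
  have := dT_E1 (A := A) T
  rwa [(Finset.mem_powersetCard.1 hT).2] at this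

theorem start {η : Fin A.g → ℤ} (hη : ∀ s, η s = -1 ∨ η s = 0 ∨ η s = 1) (h0 : η ≠ 0) {n : ℕ}
    (hs : size η = 2 * n) {a a' : ℂ} (h : A.P η a a') :
    ∃ b : ℝ, 0 < b ∧
      en (supp η) n + (b : ℂ) • (a • mo η ∅ + a' • mo (-η) ∅) ∈ A.E1 n := by
  obtain ⟨k, hk, hx⟩ := h
  obtain rfl : k = n := by omega
  obtain ⟨r, hr, hx⟩ := bound_R1 hx
  have h1 := act_E1 (ind (supp η)) hx
  have hc : chi (-η) ∅ (ind (supp η)) = 1 := by
    rw [← supp_neg' η]
    exact chi_ind
  rw [map_add, map_add, map_smul, map_smul, map_smul, act_ind_pol_pow, act_mo, act_mo, chi_ind,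
    hc, one_smul, one_smul] at h1
  have hf : (0 : ℝ) < k.factorial := by exact_mod_cast Nat.factorial_pos k
  have hrf : 0 < r * k.factorial := by positivity
  refine ⟨(r * k.factorial)⁻¹, by positivity, ?_⟩
  have h2 := E1_smul (inv_nonneg.2 hrf.le) h1
  have hne : ((r * k.factorial : ℝ) : ℂ) ≠ 0 := by
    exact_mod_cast hrf.ne'
  have e : en (supp η) k + (((r * k.factorial)⁻¹ : ℝ) : ℂ) • (a • mo η ∅ + a' • mo (-η) ∅) =
      (((r * k.factorial)⁻¹ : ℝ) : ℂ) • ((r : ℂ) • (k.factorial : ℂ) • en (supp η) k +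
        (a • mo η ∅ + a' • mo (-η) ∅)) := by
    generalize a • mo η ∅ + a' • mo (-η) ∅ = X
    rw [smul_add, smul_smul, smul_smul, mul_assoc]
    have e2 : (((r * k.factorial)⁻¹ : ℝ) : ℂ) * ((r : ℂ) * (k.factorial : ℂ)) = 1 := by
      push_cast at hne ⊢
      exact inv_mul_cancel₀ hne
    rw [e2, one_smul]
  rw [e]
  exact h2

theorem phase {η : Fin A.g → ℤ} (hη : ∀ s, η s = -1 ∨ η s = 0 ∨ η s = 1) (h0 : η ≠ 0) {n : ℕ}
    {c c' : ℂ} (h : en (supp η) n + c • mo η ∅ + c' • mo (-η) ∅ ∈ A.E1 n) {ψ : ℂ}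
    (hψ : ψ * conj ψ = 1) :
    en (supp η) n + (ψ * c) • mo η ∅ + (conj ψ * c') • mo (-η) ∅ ∈ A.E1 n := by
  obtain ⟨s, hs⟩ := supp_nonempty h0
  obtain ⟨u, hu⟩ : ∃ u : Fin A.g → ℂ,
      u = Function.update (fun _ => 1) s (if η s = 1 then ψ else conj ψ) := ⟨_, rfl⟩
  have hus : u s = if η s = 1 then ψ else conj ψ := by rw [hu, Function.update_self]
  have hut : ∀ t, t ≠ s → u t = 1 := fun t ht => by rw [hu, Function.update_of_ne ht]
  have hnorm : ∀ t ∈ supp η, u t * conj (u t) = 1 := by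
    intro t _
    by_cases ht : t = s
    · rw [ht, hus]
      split_ifs
      · exact hψ
      · rw [Complex.conj_conj, mul_comm, hψ]
    · rw [hut t ht, map_one, mul_one]
  have hchi : chi η ∅ u = ψ := by
    rw [chi_single hut, hus]
    rcases hη s with h | h | h
    · rw [if_neg (by omega), if_pos h, if_neg (by omega), Complex.conj_conj]
    · exact absurd h hs
    · rw [if_pos h, if_pos h]
  have h1 := act_E1 u h
  rw [map_add, map_add, map_smul, map_smul, act_en_of_norm _ n hnorm, act_mo, act_mo, chi_neg,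
    hchi, smul_smul, smul_smul, mul_comm c, mul_comm c'] at h1
  exact h1

/-- the integral of the product of the elementary classes -/
theorem int_en_en (η : Fin A.g → ℤ) {n : ℕ} (hc : (supp η).card = 2 * n) :
    A.int (en (supp η) n * en (supp η) n * dT (zer η)) = ((2 * n).choose n : ℂ) * A.top := by
  have hdz := disj_supp_zer η
  have hT : ∀ T ∈ powersetCard n (supp η),
      A.int (dT T * en (supp η) n * dT (zer η)) = A.top := by
    intro T hT
    obtain ⟨h1, h2⟩ := Finset.mem_powersetCard.1 hT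
    rw [en, Finset.mul_sum, Finset.sum_mul, map_sum]
    have hmem : supp η \ T ∈ powersetCard n (supp η) := by
      rw [Finset.mem_powersetCard]
      refine ⟨Finset.sdiff_subset, ?_⟩
      rw [Finset.card_sdiff_of_subset h1]
      omega
    rw [Finset.sum_eq_single_of_mem _ hmem]
    · rw [dT_mul Finset.disjoint_sdiff, Finset.union_sdiff_of_subset h1, dT_mul hdz,
        supp_union_zer, CMAb.top]
    · intro U hU hne
      obtain ⟨h3, h4⟩ := Finset.mem_powersetCard.1 hU
      have hnd : ¬ Disjoint T U := by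
        intro hd
        apply hne
        have hsub : U ⊆ supp η \ T := by
          intro s hs
          rw [Finset.mem_sdiff]
          exact ⟨h3 hs, fun h => Finset.disjoint_left.1 hd h hs⟩
        exact Finset.eq_of_subset_of_card_le hsub (by
          rw [Finset.card_sdiff_of_subset h1]
          omega)
      rw [dT_mul_zero hnd, zero_mul, map_zero]
  have e : en (supp η) n * en (supp η) n * dT (zer η) =
      ∑ T ∈ powersetCard n (supp η), dT T * en (supp η) n * dT (zer η) := by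
    rw [← Finset.sum_mul, ← Finset.sum_mul]
    rfl
  rw [e, map_sum, Finset.sum_congr rfl hT, Finset.sum_const, Finset.card_powersetCard, hc,
    nsmul_eq_mul]

theorem bdd {η : Fin A.g → ℤ} (hη : ∀ s, η s = -1 ∨ η s = 0 ∨ η s = 1) (h0 : η ≠ 0) {n : ℕ}
    (hs : size η = 2 * n) {a a' : ℂ} {y : ℝ} (hy : (sg η : ℂ) * a * a' = y) {b : ℝ}
    (h : en (supp η) n + (b : ℂ) • (a • mo η ∅ + a' • mo (-η) ∅) ∈ A.E1 n) :
    2 * b ^ 2 * |y| ≤ ((2 * n).choose n : ℝ) := by
  obtain ⟨r, hr, htop⟩ := top_pos (A := A)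
  have hcard : (supp η).card = 2 * n := by rw [← size_eq_card hη, hs]
  have hn : 1 ≤ n := by
    obtain ⟨s, hs'⟩ := supp_nonempty h0
    have h1 : 0 < (supp η).card := Finset.card_pos.2 ⟨s, by simp [supp, hs']⟩
    omega
  have hng := neg_vals hη
  have hform : ∀ w : ℂ, en (supp η) n + (w * (b * a)) • mo η ∅ + (w * (b * a')) • mo (-η) ∅ =
      en (supp η) n + w • ((b : ℂ) • (a • mo η ∅ + a' • mo (-η) ∅)) := by
    intro w
    module
  have h1 : en (supp η) n + ((b : ℂ) * a) • mo η ∅ + ((b : ℂ) * a') • mo (-η) ∅ ∈ A.E1 n := by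
    have := hform 1
    rw [one_mul, one_mul, one_smul] at this
    rw [this]
    exact h
  have z1 : mo η ∅ * en (supp η) n = 0 := mo_mul_en hη hn
  have z2 : mo (-η) ∅ * en (supp η) n = 0 := by
    have := mo_mul_en hng hn
    rwa [supp_neg'] at this
  have z3 : en (supp η) n * mo η ∅ = 0 := by rw [en_comm, z1]
  have z4 : en (supp η) n * mo (-η) ∅ = 0 := by rw [en_comm, z2]
  have z5 : mo η ∅ * mo η ∅ = (0 : Coh A.g 1) := mo_mul_self hη h0
  have z6 : mo (-η) ∅ * mo (-η) ∅ = (0 : Coh A.g 1) := mo_mul_self hng (neg_ne_zero.2 h0)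
  have z7 : mo η ∅ * mo (-η) ∅ = ((-1 : ℂ) ^ n * (sg η : ℂ)) • dT (supp η) := mo_mul_neg hη hs
  have z8 : mo (-η) ∅ * mo η ∅ = ((-1 : ℂ) ^ n * (sg η : ℂ)) • dT (supp η) := by
    have := mo_mul_neg hng (by rw [size_neg]; exact hs)
    rwa [neg_neg, supp_neg', sg_neg hη hs] at this
  have key : ∀ w : ℝ, w * w = 1 → 0 ≤ ((2 * n).choose n : ℝ) + 2 * w * b ^ 2 * ((-1) ^ n * y) := by
    intro w hw
    have hwc : (w : ℂ) * conj (w : ℂ) = 1 := by
      rw [Complex.conj_ofReal]
      exact_mod_cast hw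
    have h2 := phase hη h0 h1 hwc
    rw [Complex.conj_ofReal] at h2
    have h3 := E1_mul (E1_mul h1 h2) (dT_E1 (A := A) (zer η))
    have hcg : n + n + (zer η).card = A.g := by
      have := card_zer hη
      omega
    rw [hcg] at h3
    obtain ⟨q, hq, hint⟩ := int_E1 h3
    have hprod : (en (supp η) n + ((b : ℂ) * a) • mo η ∅ + ((b : ℂ) * a') • mo (-η) ∅) *
        (en (supp η) n + ((w : ℂ) * ((b : ℂ) * a)) • mo η ∅ +
          ((w : ℂ) * ((b : ℂ) * a')) • mo (-η) ∅) * dT (zer η) =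
        en (supp η) n * en (supp η) n * dT (zer η) +
          (2 * (w : ℂ) * (b : ℂ) ^ 2 * ((-1) ^ n * ((sg η : ℂ) * a * a'))) •
            (dT (supp η) * dT (zer η)) := by
      simp only [add_mul, mul_add, smul_mul_assoc, mul_smul_comm, z1, z2, z3, z4, z5, z6, z7, z8,
        smul_zero, add_zero, zero_add, smul_smul]
      rw [add_assoc, ← add_smul]
      congr 2
      ring
    rw [hprod, map_add, map_smul, int_en_en η hcard, dT_mul (disj_supp_zer η), supp_union_zer,
      hy] at hint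
    have htop' : A.int (dT univ) = r := htop
    rw [htop', htop, smul_eq_mul] at hint
    have h4 : ((2 * n).choose n : ℝ) * r + 2 * w * b ^ 2 * ((-1) ^ n * y) * r = q := by
      exact_mod_cast hint
    by_contra hc
    push Not at hc
    have h5 : (((2 * n).choose n : ℝ) + 2 * w * b ^ 2 * ((-1) ^ n * y)) * r < 0 :=
      mul_neg_of_neg_of_pos hc hr
    nlinarith
  have k1 := key 1 (by norm_num)
  have k2 := key (-1) (by norm_num)
  have k3 : |y| = |(-1) ^ n * y| := by
    rw [abs_mul, abs_pow, abs_neg, abs_one, one_pow, one_mul]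
  rw [k3]
  rcases abs_cases ((-1) ^ n * y) with ⟨h5, _⟩ | ⟨h5, _⟩ <;> rw [h5] <;> linarith

end CMAb

end Pc0b458V
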