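import Pool.Agent.Lib.Pc0b458V.FForm
import Pool.Agent.Lib.Pc0b458V.Start
import Pool.Agent.Lib.Pc0b458V.Omega

/-!
# Weights of size at most four have the right sign

`grow`: let `x' = a • mo η ∅ + a' • mo (-η) ∅`, `E = en (supp η) n`, `C = (2 n).choose n`, `y < 0`. For
`E + b x' ∈ E1 n`, `0 ≤ b`, the three classes in `tri_xi` are in `E1 n` (`phase`), so by `tri_E1`
(and `top_pos`) `p • E + q • x' ∈ E1 n` with `p = num3 n + 6 y b ^ 2`, `q = 3 C b + 3 y b ^ 3`. By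
`bdd`, `2 b ^ 2 |y| ≤ C`, so `q ≥ (3 / 2) C b > 0`, and `5 q - 6 b p = b * (15 C - 6 num3 n + 21 |y| b ^ 2)`
is nonnegative (`15 C - 6 num3 n` is `12` or `0`). So
`E + (6/5) b x' = (6 b / (5 q)) • (p E + q x') + (1 - 6 b p / (5 q)) • E` is in `E1 n` (`en_E1`).
`base`: `size η` is even (from `P`), so it is `2 n` with `n = 1` or `n = 2`; for
`(a, a') ∈ P η` with `a a' ≠ 0` the number `a a'` is real (`real_pair`), and if
`y = sg η a a' < 0` then by `start` and `grow` `E + (6/5)^N b x' ∈ E1 n` for all `N`, which contradicts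
`bdd`.
-/

open Finset ComplexConjugate

namespace Pc0b458V

namespace CMAb

variable {A : CMAb}

theorem grow {η : Fin A.g → ℤ} (hη : ∀ s, η s = -1 ∨ η s = 0 ∨ η s = 1) (h0 : η ≠ 0) {n : ℕ}
    (hn : n = 1 ∨ n = 2) (hs : size η = 2 * n) {a a' : ℂ} {y : ℝ}
    (hy : (sg η : ℂ) * a * a' = y) (hneg : y < 0) {b : ℝ} (hb : 0 < b)
    (h : en (supp η) n + (b : ℂ) • (a • mo η ∅ + a' • mo (-η) ∅) ∈ A.E1 n) :
    en (supp η) n + ((6 / 5 * b : ℝ) : ℂ) • (a • mo η ∅ + a' • mo (-η) ∅) ∈ A.E1 n := by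
  obtain ⟨r, ψ, h1, hψ, h2, h3, h4⟩ := exists_points n
  choose v hv using fun i => exists_vec η (r i)
  have hph : ∀ i, en (supp η) n + ((b : ℂ) * (ψ i * a)) • mo η ∅ +
      ((b : ℂ) * (conj (ψ i) * a')) • mo (-η) ∅ ∈ A.E1 n := by
    intro i
    have h5 : en (supp η) n + ((b : ℂ) * a) • mo η ∅ + ((b : ℂ) * a') • mo (-η) ∅ ∈ A.E1 n := by
      have e : en (supp η) n + ((b : ℂ) * a) • mo η ∅ + ((b : ℂ) * a') • mo (-η) ∅ =
          en (supp η) n + (b : ℂ) • (a • mo η ∅ + a' • mo (-η) ∅) := by module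
      rw [e]
      exact h
    have h6 := phase hη h0 h5 (hψ i)
    rw [show (b : ℂ) * (ψ i * a) = ψ i * (b * a) by ring,
      show (b : ℂ) * (conj (ψ i) * a') = conj (ψ i) * (b * a') by ring]
    exact h6
  have h7 := A.tri_E1 hη hs (v 0) (v 1) (v 2) (hph 0) (hph 1) (hph 2)
  rw [A.tri_xi hη h0 hn hs hv h1 h2 h3 h4 a a' (b : ℂ), hy] at h7
  obtain ⟨t, ht, htop⟩ := top_pos (A := A)
  rw [htop] at h7
  have h8 := E1_smul (A := A) (inv_nonneg.mpr ht.le) h7
  have htne : (t : ℂ) ≠ 0 := by exact_mod_cast ht.ne'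
  rw [smul_smul, Complex.ofReal_inv, inv_mul_cancel₀ htne, one_smul] at h8
  have hbd := bdd hη h0 hs hy h
  rw [abs_of_neg hneg] at hbd
  set C : ℝ := ((2 * n).choose n : ℝ) with hC
  set p : ℝ := (num3 n : ℝ) + 6 * y * b ^ 2 with hp
  set q : ℝ := 3 * C * b + 3 * y * b ^ 3 with hq
  have hC0 : 0 < C := by
    have : 0 < (2 * n).choose n := Nat.choose_pos (by omega)
    rw [hC]
    exact_mod_cast this
  have hq0 : 0 < q := by
    have : 0 < C + y * b ^ 2 := by nlinarith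
    have e : q = 3 * b * (C + y * b ^ 2) := by rw [hq]; ring
    rw [e]
    positivity
  have h9 : (p : ℂ) • en (supp η) n + (q : ℂ) • (a • mo η ∅ + a' • mo (-η) ∅) ∈ A.E1 n := by
    have e1 : (p : ℂ) = (num3 n : ℂ) + 6 * (y : ℂ) * (b : ℂ) ^ 2 := by rw [hp]; push_cast; ring
    have e2 : (q : ℂ) = 3 * ((2 * n).choose n : ℂ) * b + 3 * (y : ℂ) * (b : ℂ) ^ 3 := by
      rw [hq, hC]; push_cast; ring
    rw [e1, e2]
    exact h8
  have hnum : 0 ≤ 15 * C - 6 * (num3 n : ℝ) := by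
    rcases hn with rfl | rfl
    · rw [hC]
      norm_num [num3, Nat.choose]
    · rw [hC]
      norm_num [num3, Nat.choose]
  have hle : 6 * b * p ≤ 5 * q := by
    have e : 5 * q - 6 * b * p = b * (15 * C - 6 * (num3 n : ℝ) + 21 * (-y) * b ^ 2) := by
      rw [hq, hp]
      ring
    have h10 : 0 ≤ 21 * (-y) * b ^ 2 := by nlinarith [sq_nonneg b]
    have h11 : 0 ≤ b * (15 * C - 6 * (num3 n : ℝ) + 21 * (-y) * b ^ 2) :=
      mul_nonneg hb.le (by linarith)
    linarith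
  have h12 := E1_smul (A := A) (r := 6 * b / (5 * q)) (by positivity) h9
  have h13 := E1_smul (A := A) (r := 1 - 6 * b * p / (5 * q)) (by
    rw [sub_nonneg, div_le_one (by positivity)]
    exact hle) (en_E1 (A := A) (supp η) n)
  have h14 := E1_add h12 h13
  have hqne : (q : ℂ) ≠ 0 := by exact_mod_cast hq0.ne'
  have e3 : ((6 * b / (5 * q) : ℝ) : ℂ) * (p : ℂ) + ((1 - 6 * b * p / (5 * q) : ℝ) : ℂ) = 1 := by
    push_cast
    field_simp
    ring
  have e4 : ((6 * b / (5 * q) : ℝ) : ℂ) * (q : ℂ) = ((6 / 5 * b : ℝ) : ℂ) := by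
    push_cast
    field_simp
  have e5 : ((6 * b / (5 * q) : ℝ) : ℂ) • ((p : ℂ) • en (supp η) n +
      (q : ℂ) • (a • mo η ∅ + a' • mo (-η) ∅)) + ((1 - 6 * b * p / (5 * q) : ℝ) : ℂ) •
        en (supp η) n = (((6 * b / (5 * q) : ℝ) : ℂ) * (p : ℂ) +
        ((1 - 6 * b * p / (5 * q) : ℝ) : ℂ)) • en (supp η) n +
      (((6 * b / (5 * q) : ℝ) : ℂ) * (q : ℂ)) • (a • mo η ∅ + a' • mo (-η) ∅) := by
    module
  rw [e5, e3, e4, one_smul] at h14
  exact h14

theorem base {η : Fin A.g → ℤ} (hη : ∀ s, η s = -1 ∨ η s = 0 ∨ η s = 1) (h0 : η ≠ 0)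
    (hs : size η ≤ 4) (h : A.NonNull η) : A.Good η := by
  obtain ⟨a, a', hP, hne⟩ := h
  obtain ⟨k, hk, hmem⟩ := id hP
  have hsupp : (supp η).Nonempty := by
    by_contra hcon
    apply h0
    funext s
    by_contra hs0
    exact hcon ⟨s, by simpa [supp] using hs0⟩
  have hcard := size_eq_card hη
  have hpos := Finset.card_pos.mpr hsupp
  have hk12 : k = 1 ∨ k = 2 := by omega
  have hreal := real_pair hη h0 hP hP
  obtain ⟨y, hy⟩ : ∃ y : ℝ, (sg η : ℂ) * a * a' = y := by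
    refine ⟨((sg η : ℂ) * a * a').re, ?_⟩
    apply Complex.ext
    · rw [Complex.ofReal_re]
    · rw [Complex.ofReal_im]
      have h1 : (a * a').im = 0 := by
        have h2 := congrArg Complex.im hreal
        rw [Complex.conj_im, mul_comm a' a] at h2
        linarith
      have h3 : (sg η : ℂ) * a * a' = ((sg η : ℝ) : ℂ) * (a * a') := by
        push_cast
        ring
      rw [h3, Complex.im_ofReal_mul, h1, mul_zero]
  have hsg : (sg η : ℂ) ≠ 0 := by
    have h1 : sg η ≠ 0 := by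
      unfold sg
      rw [Finset.prod_ne_zero_iff]
      intro s hs1
      simpa [supp] using hs1
    exact_mod_cast h1
  have hy0 : y ≠ 0 := by
    intro h1
    rw [h1, Complex.ofReal_zero, mul_assoc] at hy
    rcases mul_eq_zero.mp hy with h2 | h2
    · exact hsg h2
    · exact hne h2
  rcases lt_or_gt_of_ne hy0 with hneg | hgt
  · exfalso
    obtain ⟨b, hb, hstart⟩ := start hη h0 hk hP
    have hall : ∀ N : ℕ, en (supp η) k + (((6 / 5) ^ N * b : ℝ) : ℂ) •
        (a • mo η ∅ + a' • mo (-η) ∅) ∈ A.E1 k := by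
      intro N
      induction N with
      | zero => simpa using hstart
      | succ N ih =>
        have h1 := grow hη h0 hk12 hk hy hneg (by positivity : 0 < (6 / 5 : ℝ) ^ N * b) ih
        have h2 : (6 / 5 : ℝ) ^ (N + 1) * b = 6 / 5 * ((6 / 5) ^ N * b) := by ring
        rw [h2]
        exact h1
    set D : ℝ := 2 * b ^ 2 * |y| with hD
    have hD0 : 0 < D := by
      have := abs_pos.mpr hy0
      positivity
    obtain ⟨N, hN⟩ := pow_unbounded_of_one_lt (((2 * k).choose k : ℝ) / D)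
      (by norm_num : (1 : ℝ) < 6 / 5)
    have h1 := bdd hη h0 hk hy (hall N)
    have h2 : 2 * ((6 / 5 : ℝ) ^ N * b) ^ 2 * |y| = (6 / 5) ^ N * ((6 / 5) ^ N * D) := by
      rw [hD]
      ring
    have h3 : (1 : ℝ) ≤ (6 / 5) ^ N := one_le_pow₀ (by norm_num)
    rw [div_lt_iff₀ hD0] at hN
    have h4 : (6 / 5 : ℝ) ^ N * D ≤ (6 / 5) ^ N * ((6 / 5) ^ N * D) :=
      le_mul_of_one_le_left (by positivity) h3
    linarith
  · exact ⟨a, a', hP, y, hgt, hy⟩

end CMAb

end Pc0b458V
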