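import Pool.Agent.Lib.Pc0b458V.Reality

/-!
# The signs are multiplicative

`mo_mul`: `lprod_mul_sign` (or `lprod_mul_comm` after pairing); let `O` be the set of the `s` with
`η s ≠ 0` and `θ s ≠ 0` (then `θ s = - η s`). The product of the letters at `s ∈ O` is `± dd s`, with
opposite signs for `(η, θ)` and for `(-η, -θ)`; the sign from the reordering is the same for both.
`good_add`: the cases `η = 0`, `θ = 0`, `η + θ = 0` are clear (`good_zero`). Otherwise multiply the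
classes of `(a, a') ∈ P η` and `(b, b') ∈ P θ`: the products `mo η ∅ * mo (-θ) ∅` and
`mo (-η) ∅ * mo θ ∅` are `0` (if `O` is not empty) or `± mo (± (η - θ)) ∅`, whose weights are
different from `± (η + θ)`. By `P_of_rep` (with `c` equal to `ε a b` at `(η + θ, O)`,
`ε (-1) ^ |O| a' b'` at `(- (η + θ), O)`, ...) the pair `(ε a b, ε (-1) ^ |O| a' b')` is in
`P (η + θ)`, and `sg (η + θ) = sg η * sg θ * (-1) ^ |O|`.
-/

open Finset ComplexConjugate

namespace Pc0b458V

theorem ml_lw_neg {g : ℕ} (η : Fin g → ℤ) (s : Fin g) : lw (-η) ∅ s = lw η ∅ s := by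
  unfold lw
  simp only [notMem_empty, if_false, Pi.neg_apply]
  by_cases h1 : η s = 1
  · simp [h1]
  · by_cases h2 : η s = -1
    · simp [h2]
    · have h3 : ¬ (-η s = 1) := by omega
      have h4 : ¬ (-η s = -1) := by omega
      simp [h1, h2, h3]

theorem ml_sign {g : ℕ} (η θ : Fin g → ℤ) :
    mo η ∅ * mo θ ∅ =
      (-1 : ℂ) ^ (∑ i, ∑ j, if i < j then lw η ∅ j * lw θ ∅ i else 0) •
        lprod fun i => lt η ∅ i * lt θ ∅ i := by
  unfold mo
  exact lprod_mul_sign (lw η ∅) (lw θ ∅) (fun i j _ => gr_comm (lt_mem_gr η ∅ j) (lt_mem_gr θ ∅ i))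

/-- the letters of a product -/
theorem ml_letter {g : ℕ} {η θ : Fin g → ℤ} (hη : ∀ s, η s = -1 ∨ η s = 0 ∨ η s = 1)
    (hθ : ∀ s, θ s = -1 ∨ θ s = 0 ∨ θ s = 1)
    (h : ∀ s, η s + θ s = -1 ∨ η s + θ s = 0 ∨ η s + θ s = 1) (s : Fin g) :
    (lt η ∅ s * lt θ ∅ s : Coh g 1) =
      (if s ∈ supp η ∩ supp θ ∧ η s = -1 then (-1 : ℂ) else 1) •
        lt (η + θ) (supp η ∩ supp θ) s := by
  have h1 := hη s
  have h2 := hθ s
  have h3 := h s
  have hmem : s ∈ supp η ∩ supp θ ↔ η s ≠ 0 ∧ θ s ≠ 0 := by simp [supp]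
  rcases h1 with h1 | h1 | h1
  · rcases h2 with h2 | h2 | h2
    · exfalso; omega
    · simp [lt, hmem, h1, h2]
    · have : s ∈ supp η ∩ supp θ := hmem.2 ⟨by omega, by omega⟩
      have e : (gen s false 0 : Coh g 1) * gen s true 0 = -(gen s true 0 * gen s false 0) :=
        gen_anti _ _ _ _ _ _
      simp only [lt, this, h1, h2, notMem_empty, if_false, if_true, and_self]
      norm_num
      rw [e, dd]
  · rcases h2 with h2 | h2 | h2
    · simp [lt, hmem, h1, h2]
    · simp [lt, hmem, h1, h2]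
    · simp [lt, hmem, h1, h2]
  · rcases h2 with h2 | h2 | h2
    · have : s ∈ supp η ∩ supp θ := hmem.2 ⟨by omega, by omega⟩
      simp only [lt, this, h1, h2, notMem_empty, if_false, if_true]
      norm_num
      rw [dd]
    · simp [lt, hmem, h1, h2]
    · exfalso; omega

theorem mo_mul {g : ℕ} {η θ : Fin g → ℤ} (hη : ∀ s, η s = -1 ∨ η s = 0 ∨ η s = 1)
    (hθ : ∀ s, θ s = -1 ∨ θ s = 0 ∨ θ s = 1)
    (h : ∀ s, η s + θ s = -1 ∨ η s + θ s = 0 ∨ η s + θ s = 1) :
    ∃ ε : ℂ, (ε = 1 ∨ ε = -1) ∧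
      mo η ∅ * mo θ ∅ = ε • mo (η + θ) (supp η ∩ supp θ) ∧
      mo (-η) ∅ * mo (-θ) ∅ =
        (ε * (-1) ^ (supp η ∩ supp θ).card) • mo (-(η + θ)) (supp η ∩ supp θ) := by
  classical
  set O := supp η ∩ supp θ with hO
  set S : ℕ := ∑ i, ∑ j, if i < j then lw η ∅ j * lw θ ∅ i else 0 with hS
  have hηn : ∀ s, (-η) s = -1 ∨ (-η) s = 0 ∨ (-η) s = 1 := by
    intro s; have := hη s; simp only [Pi.neg_apply]; omega
  have hθn : ∀ s, (-θ) s = -1 ∨ (-θ) s = 0 ∨ (-θ) s = 1 := by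
    intro s; have := hθ s; simp only [Pi.neg_apply]; omega
  have hn : ∀ s, (-η) s + (-θ) s = -1 ∨ (-η) s + (-θ) s = 0 ∨ (-η) s + (-θ) s = 1 := by
    intro s; have := h s; simp only [Pi.neg_apply]; omega
  have hsupp : ∀ ζ : Fin g → ℤ, supp (-ζ) = supp ζ := by
    intro ζ; ext s; simp [supp]
  have e1 : mo η ∅ * mo θ ∅ = ((-1 : ℂ) ^ S *
      ∏ s, (if s ∈ O ∧ η s = -1 then (-1 : ℂ) else 1)) • mo (η + θ) O := by
    rw [ml_sign, ← hS, mul_smul]
    congr 1
    rw [mo, ← lprod_smul]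
    congr 1
    funext s
    exact ml_letter hη hθ h s
  have e2 : mo (-η) ∅ * mo (-θ) ∅ = ((-1 : ℂ) ^ S *
      ∏ s, (if s ∈ O ∧ (-η) s = -1 then (-1 : ℂ) else 1)) • mo (-(η + θ)) O := by
    have e3 : (∑ i, ∑ j, if i < j then lw (-η) ∅ j * lw (-θ) ∅ i else 0) = S := by
      simp only [ml_lw_neg]
      rfl
    rw [ml_sign, e3, mul_smul]
    congr 1
    rw [mo, ← lprod_smul]
    congr 1
    funext s
    have e4 := ml_letter hηn hθn hn s
    rw [hsupp, hsupp, ← neg_add] at e4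
    exact e4
  have e5 : ∏ s, (if s ∈ O ∧ (-η) s = -1 then (-1 : ℂ) else 1) =
      (∏ s, (if s ∈ O ∧ η s = -1 then (-1 : ℂ) else 1)) * (-1) ^ O.card := by
    have e6 : ((-1 : ℂ)) ^ O.card = ∏ s, (if s ∈ O then (-1 : ℂ) else 1) := by
      rw [Finset.prod_ite_mem, Finset.univ_inter, Finset.prod_const]
    rw [e6, ← Finset.prod_mul_distrib]
    apply Finset.prod_congr rfl
    intro s _
    by_cases hs : s ∈ O
    · have hs' := hs
      simp only [hO, supp, mem_inter, mem_filter, mem_univ, true_and] at hs'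
      rcases hη s with h1 | h1 | h1
      · simp [hs, h1]
      · exact absurd h1 hs'.1
      · simp [hs, h1]
    · simp [hs]
  refine ⟨(-1 : ℂ) ^ S * ∏ s, (if s ∈ O ∧ η s = -1 then (-1 : ℂ) else 1), ?_, e1, ?_⟩
  · have hsq : ((-1 : ℂ) ^ S * ∏ s, (if s ∈ O ∧ η s = -1 then (-1 : ℂ) else 1)) ^ 2 = 1 := by
      rw [mul_pow, ← pow_mul, mul_comm S 2, pow_mul, neg_one_sq, one_pow, one_mul,
        ← Finset.prod_pow]
      apply Finset.prod_eq_one
      intro s _
      split_ifs <;> norm_num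
    exact mul_self_eq_one_iff.1 (by rw [← sq]; exact hsq)
  · rw [e2, e5, mul_assoc]

theorem mo_mul_zero {g : ℕ} {η θ : Fin g → ℤ} {s : Fin g} (h : η s = θ s)
    (hs : η s = 1 ∨ η s = -1) : mo η ∅ * mo θ ∅ = 0 := by
  rw [ml_sign, lprod_eq_zero s, smul_zero]
  rcases hs with hs | hs
  · rw [lt, lt]
    simp [← h, hs, gen_sq]
  · rw [lt, lt]
    simp [← h, hs, gen_sq]

theorem ml_sg {g : ℕ} (η : Fin g → ℤ) : sg η = ∏ s, (if η s = 0 then 1 else η s) := by
  unfold sg supp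
  rw [Finset.prod_filter]
  apply Finset.prod_congr rfl
  intro s _
  by_cases h : η s = 0 <;> simp [h]

theorem sg_add {g : ℕ} {η θ : Fin g → ℤ} (hη : ∀ s, η s = -1 ∨ η s = 0 ∨ η s = 1)
    (hθ : ∀ s, θ s = -1 ∨ θ s = 0 ∨ θ s = 1)
    (h : ∀ s, η s + θ s = -1 ∨ η s + θ s = 0 ∨ η s + θ s = 1) :
    sg (η + θ) = sg η * sg θ * (-1) ^ (supp η ∩ supp θ).card := by
  have e6 : ((-1 : ℤ)) ^ (supp η ∩ supp θ).card =
      ∏ s, (if s ∈ supp η ∩ supp θ then (-1 : ℤ) else 1) := by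
    rw [Finset.prod_ite_mem, Finset.univ_inter, Finset.prod_const]
  rw [ml_sg, ml_sg, ml_sg, e6, ← Finset.prod_mul_distrib, ← Finset.prod_mul_distrib]
  apply Finset.prod_congr rfl
  intro s _
  have hmem : s ∈ supp η ∩ supp θ ↔ η s ≠ 0 ∧ θ s ≠ 0 := by simp [supp]
  rcases hη s with h1 | h1 | h1 <;> rcases hθ s with h2 | h2 | h2 <;>
    first
      | (exfalso; have := h s; omega)
      | (simp only [hmem, Pi.add_apply, h1, h2]; norm_num)

namespace CMAb

variable {A : CMAb}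

theorem good_zero : A.Good 0 := by
  refine ⟨1, 1, ⟨0, ?_, ?_⟩, 1, one_pos, ?_⟩
  · simp [size]
  · have h1 : (mo 0 ∅ : Coh A.g 1) = 1 := dT_empty
    rw [neg_zero, h1, one_smul]
    have h2 : (1 : Coh A.g 1) ∈ A.R1 0 := Submodule.subset_span A.one_mem
    exact (A.R1 0).add_mem h2 h2
  · simp [sg, supp]

theorem ml_mem_idx {g : ℕ} {η θ : Fin g → ℤ} (hη : ∀ s, η s = -1 ∨ η s = 0 ∨ η s = 1)
    (hθ : ∀ s, θ s = -1 ∨ θ s = 0 ∨ θ s = 1)
    (h : ∀ s, η s + θ s = -1 ∨ η s + θ s = 0 ∨ η s + θ s = 1) {d : ℕ}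
    (hd : size η + size θ = d) : (η + θ, supp η ∩ supp θ) ∈ idx g d := by
  rw [mem_idx]
  refine ⟨fun s => h s, ?_, ?_⟩
  · intro s hs
    simp only [supp, mem_inter, mem_filter, mem_univ, true_and] at hs
    have h1 := hη s
    have h2 := hθ s
    have h3 := h s
    simp only [Pi.add_apply]
    omega
  · rw [← hd]
    have e1 : (supp η ∩ supp θ).card = ∑ s, (if s ∈ supp η ∩ supp θ then 1 else 0) := by
      rw [Finset.sum_ite_mem, Finset.univ_inter, Finset.card_eq_sum_ones]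
    rw [e1]
    unfold size
    rw [Finset.mul_sum, ← Finset.sum_add_distrib, ← Finset.sum_add_distrib]
    apply Finset.sum_congr rfl
    intro s _
    have hmem : s ∈ supp η ∩ supp θ ↔ η s ≠ 0 ∧ θ s ≠ 0 := by simp [supp]
    rcases hη s with h1 | h1 | h1 <;> rcases hθ s with h2 | h2 | h2 <;>
      first
        | (exfalso; have := h s; omega)
        | (simp only [hmem, Pi.add_apply, h1, h2]; norm_num)

theorem ml_sum_ite {g d : ℕ} {p₀ : (Fin g → ℤ) × Finset (Fin g)} (hp : p₀ ∈ idx g d) (x : ℂ) :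
    ∑ p ∈ idx g d, (if p = p₀ then x else 0) • (mo p.1 p.2 : Coh g 1) = x • mo p₀.1 p₀.2 := by
  rw [Finset.sum_eq_single p₀]
  · simp
  · intro p _ hne
    simp [hne]
  · intro hne
    exact absurd hp hne

/-- the pair for the sum of two weights -/
theorem ml_P_add {η θ : Fin A.g → ℤ} (hη : ∀ s, η s = -1 ∨ η s = 0 ∨ η s = 1)
    (hθ : ∀ s, θ s = -1 ∨ θ s = 0 ∨ θ s = 1)
    (h : ∀ s, η s + θ s = -1 ∨ η s + θ s = 0 ∨ η s + θ s = 1) (hη0 : η ≠ 0) (hθ0 : θ ≠ 0)
    (h0 : η + θ ≠ 0) {a a' b b' : ℂ} (h1 : A.P η a a') (h2 : A.P θ b b') :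
    ∃ ε : ℂ, (ε = 1 ∨ ε = -1) ∧
      A.P (η + θ) (ε * (a * b)) (ε * (-1) ^ (supp η ∩ supp θ).card * (a' * b')) := by
  classical
  obtain ⟨k, hk, hx⟩ := h1
  obtain ⟨l, hl, hy⟩ := h2
  have hxy := R1_mul hx hy
  obtain ⟨ε, hε, e1, e2⟩ := mo_mul hη hθ h
  refine ⟨ε, hε, ?_⟩
  set O := supp η ∩ supp θ with hO
  have hexp : (a • mo η ∅ + a' • mo (-η) ∅) * (b • mo θ ∅ + b' • mo (-θ) ∅) =
      (ε * (a * b)) • mo (η + θ) O + (ε * (-1) ^ O.card * (a' * b')) • mo (-(η + θ)) O +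
      ((a * b') • (mo η ∅ * mo (-θ) ∅) + (a' * b) • (mo (-η) ∅ * mo θ ∅)) := by
    have e3 : (a • mo η ∅ + a' • mo (-η) ∅) * (b • mo θ ∅ + b' • mo (-θ) ∅) =
        (a * b) • (mo η ∅ * mo θ ∅) + (a' * b') • (mo (-η) ∅ * mo (-θ) ∅) +
        ((a * b') • (mo η ∅ * mo (-θ) ∅) + (a' * b) • (mo (-η) ∅ * mo θ ∅)) := by
      simp only [add_mul, mul_add, smul_mul_assoc, mul_smul_comm]
      module
    rw [e3, e1, e2, smul_smul, smul_smul]
    congr 1
    congr 1
    · rw [mul_comm]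
    · rw [mul_comm]
  have hidx : (η + θ, O) ∈ idx A.g (2 * (k + l)) := ml_mem_idx hη hθ h (by omega)
  have hidx' : (-(η + θ), O) ∈ idx A.g (2 * (k + l)) := neg_mem_idx hidx
  have hne : -(η + θ) ≠ η + θ := by
    intro he
    apply h0
    funext s
    have := congrFun he s
    simp only [Pi.neg_apply, Pi.add_apply, Pi.zero_apply] at this ⊢
    omega
  by_cases hOe : O = ∅
  · -- no common letters
    have hdis : ∀ s, η s = 0 ∨ θ s = 0 := by
      intro s
      by_contra hcon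
      push Not at hcon
      have : s ∈ O := by simp [hO, supp, hcon]
      rw [hOe] at this
      simp at this
    have hθn : ∀ s, (-θ) s = -1 ∨ (-θ) s = 0 ∨ (-θ) s = 1 := by
      intro s; have := hθ s; simp only [Pi.neg_apply]; omega
    have hsn : ∀ s, η s + (-θ) s = -1 ∨ η s + (-θ) s = 0 ∨ η s + (-θ) s = 1 := by
      intro s
      have h1 := hη s
      have h2 := hθ s
      have h3 := hdis s
      simp only [Pi.neg_apply]
      omega
    obtain ⟨ε', _, e4, e5⟩ := mo_mul hη hθn hsn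
    have hO' : supp η ∩ supp (-θ) = ∅ := by
      have : supp (-θ) = supp θ := by ext s; simp [supp]
      rw [this, ← hO, hOe]
    rw [hO'] at e4 e5
    rw [neg_neg] at e5
    have hidx2 : (η + -θ, (∅ : Finset (Fin A.g))) ∈ idx A.g (2 * (k + l)) := by
      have := ml_mem_idx hη hθn hsn (d := 2 * (k + l)) (by rw [size_neg]; omega)
      rwa [hO'] at this
    have hidx2' : (-(η + -θ), (∅ : Finset (Fin A.g))) ∈ idx A.g (2 * (k + l)) :=
      neg_mem_idx hidx2
    set c : (Fin A.g → ℤ) × Finset (Fin A.g) → ℂ := fun p =>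
      (if p = (η + θ, O) then ε * (a * b) else 0) +
      (if p = (-(η + θ), O) then ε * (-1) ^ O.card * (a' * b') else 0) +
      ((if p = (η + -θ, ∅) then a * b' * ε' else 0) +
      (if p = (-(η + -θ), ∅) then a' * b * ε' else 0)) with hc
    have hrep : (a • mo η ∅ + a' • mo (-η) ∅) * (b • mo θ ∅ + b' • mo (-θ) ∅) =
        ∑ p ∈ idx A.g (2 * (k + l)), c p • mo p.1 p.2 := by
      rw [hexp, e4, e5]
      simp only [hc, add_smul, Finset.sum_add_distrib]
      rw [ml_sum_ite hidx, ml_sum_ite hidx', ml_sum_ite hidx2, ml_sum_ite hidx2']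
      simp only [Finset.card_empty, pow_zero, mul_one, smul_smul]
    have hP := P_of_rep hxy hrep hidx
    have hθne : ∃ s, θ s ≠ 0 := by
      by_contra hcon
      push Not at hcon
      exact hθ0 (funext hcon)
    have hηne : ∃ s, η s ≠ 0 := by
      by_contra hcon
      push Not at hcon
      exact hη0 (funext hcon)
    have n1 : η + θ ≠ η + -θ := by
      obtain ⟨s, hs⟩ := hθne
      intro he
      have := congrFun he s
      simp only [Pi.neg_apply, Pi.add_apply] at this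
      omega
    have n2 : η + θ ≠ -(η + -θ) := by
      obtain ⟨s, hs⟩ := hηne
      intro he
      have := congrFun he s
      simp only [Pi.neg_apply, Pi.add_apply] at this
      omega
    have n3 : -(η + θ) ≠ η + -θ := by
      obtain ⟨s, hs⟩ := hηne
      intro he
      have := congrFun he s
      simp only [Pi.neg_apply, Pi.add_apply] at this
      omega
    have n4 : -(η + θ) ≠ -(η + -θ) := by
      intro he
      exact n1 (neg_injective he)
    have c1 : c (η + θ, O) = ε * (a * b) := by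
      simp only [hc, Prod.mk.injEq, hne.symm, n1, n2, false_and, if_false, if_true,
        add_zero]
    have c2 : c (-(η + θ), O) = ε * (-1) ^ O.card * (a' * b') := by
      simp only [hc, Prod.mk.injEq, hne, n3, n4, false_and, if_false, if_true,
        add_zero, zero_add]
    rw [c1, c2] at hP
    exact hP
  · -- a common letter
    obtain ⟨s, hs⟩ := Finset.nonempty_iff_ne_empty.2 hOe
    have hs' : η s ≠ 0 ∧ θ s ≠ 0 := by simpa [hO, supp] using hs
    have h1 := hη s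
    have h2 := hθ s
    have h3 := h s
    have z1 : mo η ∅ * mo (-θ) ∅ = 0 := by
      apply mo_mul_zero (s := s)
      · simp only [Pi.neg_apply]; omega
      · omega
    have z2 : mo (-η) ∅ * mo θ ∅ = 0 := by
      apply mo_mul_zero (s := s)
      · simp only [Pi.neg_apply]; omega
      · simp only [Pi.neg_apply]; omega
    set c : (Fin A.g → ℤ) × Finset (Fin A.g) → ℂ := fun p =>
      (if p = (η + θ, O) then ε * (a * b) else 0) +
      (if p = (-(η + θ), O) then ε * (-1) ^ O.card * (a' * b') else 0) with hc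
    have hrep : (a • mo η ∅ + a' • mo (-η) ∅) * (b • mo θ ∅ + b' • mo (-θ) ∅) =
        ∑ p ∈ idx A.g (2 * (k + l)), c p • mo p.1 p.2 := by
      rw [hexp, z1, z2, smul_zero, smul_zero, add_zero, add_zero]
      simp only [hc, add_smul, Finset.sum_add_distrib]
      rw [ml_sum_ite hidx, ml_sum_ite hidx']
    have hP := P_of_rep hxy hrep hidx
    have c1 : c (η + θ, O) = ε * (a * b) := by
      simp only [hc, Prod.mk.injEq, hne.symm, false_and, if_false, if_true, add_zero]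
    have c2 : c (-(η + θ), O) = ε * (-1) ^ O.card * (a' * b') := by
      simp only [hc, Prod.mk.injEq, hne, false_and, if_false, if_true, zero_add]
    rw [c1, c2] at hP
    exact hP

theorem good_add {η θ : Fin A.g → ℤ} (hη : ∀ s, η s = -1 ∨ η s = 0 ∨ η s = 1)
    (hθ : ∀ s, θ s = -1 ∨ θ s = 0 ∨ θ s = 1)
    (h : ∀ s, η s + θ s = -1 ∨ η s + θ s = 0 ∨ η s + θ s = 1) (h1 : A.Good η) (h2 : A.Good θ) :
    A.Good (η + θ) := by
  by_cases hη0 : η = 0
  · rw [hη0, zero_add]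
    exact h2
  by_cases hθ0 : θ = 0
  · rw [hθ0, add_zero]
    exact h1
  by_cases h0 : η + θ = 0
  · rw [h0]
    exact good_zero
  obtain ⟨a, a', hP, r, hr, er⟩ := h1
  obtain ⟨b, b', hQ, r', hr', er'⟩ := h2
  obtain ⟨ε, hε, hR⟩ := ml_P_add hη hθ h hη0 hθ0 h0 hP hQ
  refine ⟨_, _, hR, r * r', mul_pos hr hr', ?_⟩
  rw [sg_add hη hθ h]
  push_cast
  rw [← er, ← er']
  have e1 : ε * ε = 1 := by
    rcases hε with hε | hε <;> rw [hε] <;> norm_num
  have e2 : ((-1 : ℂ) ^ (supp η ∩ supp θ).card) * (-1) ^ (supp η ∩ supp θ).card = 1 := by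
    rw [← mul_pow]; norm_num
  generalize (-1 : ℂ) ^ (supp η ∩ supp θ).card = m at e2
  linear_combination ((sg η : ℂ) * (sg θ : ℂ) * a * b * a' * b') * (m * m * e1 + e2)

end CMAb

end Pc0b458V
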