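import Pool.Agent.Lib.Pc0b458V.Defs

/-!
# From semipositivity to positivity

If `0 ≤ (-1) ^ n * deg (x * x * L ^ (g - 2 n))` for all primitive `x ∈ cod n` then it is positive for
`x ≠ 0`. Otherwise, by Cauchy-Schwarz for the semidefinite form, `deg (x * y * L ^ (g - 2 n)) = 0` for
all primitive `y ∈ cod n`. Let `z ∈ cod (g - n)`. By `lef`, `z = L ^ (g - 2 n) * w` with `w ∈ cod n`.
If `n = 0` then `w` is primitive: `L ^ (g + 1) * w ∈ cod (g + 1)` is zero by `num`.
If `n > 0` then `L ^ (g - 2 n + 1) * w ∈ cod (g - (n - 1))` is `L ^ (g - 2 (n - 1)) * w₁` with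
`w₁ ∈ cod (n - 1)`, so `w - L * w₁` is primitive, and
`deg (x * z) = deg (x * (w - L * w₁) * L ^ (g - 2 n)) + deg (x * L ^ (g - 2 n + 1) * w₁) = 0`.
By `num`, `x = 0`.
-/

universe u

namespace Pc0b458V

theorem lin_zero {a b : ℚ} (h : ∀ t : ℚ, 0 ≤ 2 * t * a + t ^ 2 * b) : a = 0 := by
  rcases eq_or_ne b 0 with hb | hb
  · have h1 := h 1
    have h2 := h (-1)
    rw [hb] at h1 h2
    linarith
  · have h3 := h (-(a / b))
    have e : 2 * (-(a / b)) * a + (-(a / b)) ^ 2 * b = -(a ^ 2 / b) := by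
      field_simp
      ring
    rw [e] at h3
    have hbp : 0 < b := by
      have h1 := h 1
      have h2 := h (-1)
      have : 0 ≤ b := by linarith
      exact lt_of_le_of_ne this (Ne.symm hb)
    have h4 : 0 ≤ a ^ 2 / b := by positivity
    have h5 : a ^ 2 / b = 0 := by linarith
    rcases div_eq_zero_iff.1 h5 with h6 | h6
    · exact pow_eq_zero_iff (two_ne_zero) |>.1 h6
    · exact absurd h6 hb

theorem NumAb.L_mul_mem (X : NumAb.{u}) {i j : ℕ} {x : X.Z} (hx : x ∈ X.cod j) :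
    X.L ^ i * x ∈ X.cod (i + j) := by
  induction i with
  | zero => simpa using hx
  | succ i ih =>
    rw [pow_succ', mul_assoc]
    have := X.mul_mem 1 (i + j) _ X.L_mem _ ih
    convert this using 2
    ring

theorem NumAb.positive_of_psd (X : NumAb.{u}) {n : ℕ} (hn : 2 * n ≤ X.g)
    (h : ∀ x ∈ X.cod n, X.L ^ (X.g - 2 * n + 1) * x = 0 →
      0 ≤ (-1) ^ n * X.deg (x * x * X.L ^ (X.g - 2 * n))) : X.Positive n := by
  intro x hx hL hx0
  refine lt_of_le_of_ne (h x hx hL) fun h0 => hx0 ?_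
  have key : ∀ y ∈ X.cod n, X.L ^ (X.g - 2 * n + 1) * y = 0 →
      X.deg (x * y * X.L ^ (X.g - 2 * n)) = 0 := by
    intro y hy hLy
    have h1 : ∀ t : ℚ, 0 ≤ 2 * t * ((-1) ^ n * X.deg (x * y * X.L ^ (X.g - 2 * n))) +
        t ^ 2 * ((-1) ^ n * X.deg (y * y * X.L ^ (X.g - 2 * n))) := by
      intro t
      have h2 := h (x + t • y) (add_mem hx (Submodule.smul_mem _ t hy))
        (by rw [mul_add, mul_smul_comm, hL, hLy, smul_zero, add_zero])
      have e : (x + t • y) * (x + t • y) * X.L ^ (X.g - 2 * n) =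
          x * x * X.L ^ (X.g - 2 * n) + (2 * t) • (x * y * X.L ^ (X.g - 2 * n)) +
            t ^ 2 • (y * y * X.L ^ (X.g - 2 * n)) := by
        simp only [Algebra.smul_def, map_mul, map_pow, map_ofNat]
        ring
      rw [e, map_add, map_add, map_smul, map_smul, smul_eq_mul, smul_eq_mul, mul_add, mul_add,
        ← h0, zero_add] at h2
      linarith
    have h3 := lin_zero h1
    rcases mul_eq_zero.1 h3 with h4 | h4
    · exact absurd h4 (pow_ne_zero _ (by norm_num))
    · exact h4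
  apply X.num n x hx
  intro j hj z hz
  have hj' : j = X.g - n := by omega
  subst hj'
  obtain ⟨w, hw, rfl⟩ := X.lef n hn z hz
  rcases Nat.eq_zero_or_pos n with rfl | hpos
  · have hw0 : X.L ^ (X.g - 2 * 0 + 1) * w = 0 := by
      apply X.num (X.g + 1)
      · have := X.L_mul_mem (i := X.g + 1) hw
        simpa using this
      · intro j hj
        omega
    have := key w hw hw0
    rwa [mul_assoc, mul_comm w] at this
  · obtain ⟨m, rfl⟩ : ∃ m, n = m + 1 := ⟨n - 1, by omega⟩
    have h1 : X.L ^ (X.g - 2 * (m + 1) + 1) * w ∈ X.cod (X.g - m) := by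
      have := X.L_mul_mem (i := X.g - 2 * (m + 1) + 1) hw
      convert this using 2
      omega
    obtain ⟨w₁, hw₁, e₁⟩ := X.lef m (by omega) _ h1
    have h2 : X.g - 2 * m = X.g - 2 * (m + 1) + 1 + 1 := by omega
    have hp : X.L ^ (X.g - 2 * (m + 1) + 1) * (w - X.L * w₁) = 0 := by
      rw [mul_sub, e₁, h2, pow_succ _ (X.g - 2 * (m + 1) + 1)]
      ring
    have hm : w - X.L * w₁ ∈ X.cod (m + 1) := by
      refine sub_mem hw ?_
      have := X.L_mul_mem (i := 1) hw₁
      rw [pow_one, add_comm] at this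
      exact this
    have h3 := key _ hm hp
    have h4 : x * (X.L ^ (X.g - 2 * (m + 1)) * w) =
        x * (w - X.L * w₁) * X.L ^ (X.g - 2 * (m + 1)) +
          (X.L ^ (X.g - 2 * (m + 1) + 1) * x) * w₁ := by
      rw [pow_succ]
      ring
    rw [h4, map_add, h3, hL, zero_mul, map_zero, add_zero]

end Pc0b458V
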