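import Pool.Agent.Lib.Pc0b458V.Psd
import Pool.Agent.Lib.Pc0b458V.Mult
import Pool.Agent.Lib.Pc0b458V.AlgP
import Pool.Agent.Lib.Pc0b458V.Base
import Pool.Agent.Lib.Pc0b458V.Num

/-!
# The main theorem
-/

open Finset ComplexConjugate

universe u

namespace Pc0b458V

theorem cases_of_abs {x : ℤ} (h : |x| ≤ 1) : x = -1 ∨ x = 0 ∨ x = 1 := by
  rw [abs_le] at h
  omega

namespace CMAb

variable {A : CMAb}

theorem good_of_generated {η : Fin A.g → ℤ} (h : A.Generated η) :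
    (∀ s, η s = -1 ∨ η s = 0 ∨ η s = 1) ∧ A.Good η := by
  induction h with
  | base η h hs =>
    have hη : ∀ s, η s = -1 ∨ η s = 0 ∨ η s = 1 := fun s => cases_of_abs (h.1 s)
    refine ⟨hη, ?_⟩
    by_cases h0 : η = 0
    · rw [h0]; exact good_zero
    · exact A.base hη h0 hs (nonNull_of_algebraic h0 h)
  | add η θ _ _ h ih1 ih2 =>
    have h' : ∀ s, η s + θ s = -1 ∨ η s + θ s = 0 ∨ η s + θ s = 1 := fun s => cases_of_abs (h s)
    exact ⟨h', good_add ih1.1 ih2.1 h' ih1.2 ih2.2⟩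

/-- the form is positive semidefinite on primitive algebraic classes -/
theorem psd_of_generated {n : ℕ} (hn : 2 * n ≤ A.g)
    (h : ∀ η, A.Algebraic η → size η ≤ 2 * n → A.Generated η) {x : Coh A.g 1} (hx : A.Prim n x) :
    ∃ r : ℝ, 0 ≤ r ∧ (-1) ^ n * A.int (x * x * pol A.g ^ (A.g - 2 * n)) = r :=
  psd hn (fun η hη h0 hs hN =>
    (good_of_generated (h η (algebraic_of_nonNull hη h0 hN) hs)).2) hx

end CMAb

/-- Q1 for `X` and `L` in codimension `n`, if `n ≤ 2` or if the algebraic weights of size at most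
`2 n` are generated by those of size at most `4` -/
theorem positive {X : NumAb.{u}} {A : CMAb} (R : Reduction X A) {n : ℕ} (hn : 2 * n ≤ X.g)
    (h : n ≤ 2 ∨ ∀ η, A.Algebraic η → size η ≤ 2 * n → A.Generated η) : X.Positive n := by
  have h' : ∀ η, A.Algebraic η → size η ≤ 2 * n → A.Generated η := by
    rcases h with h | h
    · exact fun η hη hs => CMAb.Generated.base η hη (by omega)
    · exact h
  apply X.positive_of_psd hn
  intro x hx hL
  obtain ⟨y, hy, he⟩ := R.spec n hn x hx hL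
  obtain ⟨r, hr, hr'⟩ := A.psd_of_generated (R.dim ▸ hn) h' hy
  rw [he] at hr'
  have : ((((-1) ^ n * X.deg (x * x * X.L ^ (X.g - 2 * n)) : ℚ) : ℝ) : ℂ) = (r : ℂ) := by
    rw [← hr']
    push_cast
    rfl
  have h2 : (((-1) ^ n * X.deg (x * x * X.L ^ (X.g - 2 * n)) : ℚ) : ℝ) = r :=
    Complex.ofReal_injective this
  have h3 : (0 : ℝ) ≤ (((-1) ^ n * X.deg (x * x * X.L ^ (X.g - 2 * n)) : ℚ) : ℝ) := h2 ▸ hr
  exact_mod_cast h3

end Pc0b458V
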