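import Pool.Agent.Lib.Pc0b458V.Stmt
import Pool.Agent.Lib.Pc0b458V.Main

/-!
# From the statement to the library
-/

universe u

namespace Pc0b458Z

open ComplexConjugate

theorem pbOne_eq {g m : ℕ} (v : Fin m → Fin g → ℂ) : pbOne v = Pc0b458V.pbOne v := by
  apply LinearMap.ext
  intro f
  funext i
  simp only [pbOne, Pc0b458V.pbOne, LinearMap.pi_apply, LinearMap.smul_apply, LinearMap.proj_apply,
    LinearMap.coe_mk, AddHom.coe_mk, smul_eq_mul]

theorem pb_eq {g m : ℕ} (v : Fin m → Fin g → ℂ) (x : Coh g 1) :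
    pb v x = Pc0b458V.pb v x := by
  unfold pb Pc0b458V.pb
  rw [pbOne_eq]
  rfl

namespace CMAb

variable (A : CMAb)

theorem int_add (x y : Coh A.g 1) : A.int (x + y) = A.int x + A.int y := by
  have := A.int_linear 1 x y
  rwa [one_smul, one_mul] at this

theorem int_zero : A.int 0 = 0 := by
  have := A.int_add 0 0
  rw [add_zero] at this
  simpa using this

theorem int_smul (c : ℂ) (x : Coh A.g 1) : A.int (c • x) = c * A.int x := by
  have := A.int_linear c x 0
  rwa [add_zero, int_zero, add_zero] at this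

theorem gys_add (x y : Coh A.g 2) : A.gys (x + y) = A.gys x + A.gys y := by
  have := A.gys_linear 1 x y
  rwa [one_smul, one_smul] at this

theorem gys_zero : A.gys 0 = 0 := by
  have := A.gys_add 0 0
  rw [add_zero] at this
  simpa using this

theorem gys_smul (c : ℂ) (x : Coh A.g 2) : A.gys (c • x) = c • A.gys x := by
  have := A.gys_linear c x 0
  rwa [add_zero, gys_zero, add_zero] at this

/-- the same data -/
noncomputable def toV : Pc0b458V.CMAb where
  g := A.g
  R := A.R
  dense := A.dense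
  eff := A.eff
  eff2 := A.eff2
  eff_gr := A.eff_deg
  one_mem := A.one_mem
  add_mem := A.add_mem
  smul_mem := A.smul_mem
  mul_mem := A.mul_mem
  mul_mem2 := A.mul_mem2
  pol_mem := A.pol_mem
  bound := A.bound
  pull a ha b hb i x hx :=
    Eq.mp (congrArg (fun z : Coh A.g 2 => z ∈ A.eff2 i) (pb_eq ![a, b] x))
      (A.pull a ha b hb i x hx)
  int :=
    { toFun := A.int
      map_add' := A.int_add
      map_smul' := A.int_smul }
  int_gr := A.int_deg
  int_eff := A.int_eff
  int_pol := A.int_pol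
  gys :=
    { toFun := A.gys
      map_add' := A.gys_add
      map_smul' := A.gys_smul }
  gys_mul x y :=
    Eq.trans (congrArg₂ (fun z w : Coh A.g 2 => A.gys (z * w)) (pb_eq ![1, 0] x).symm
      (pb_eq ![0, 1] y).symm) (A.gys_mul x y)
  push := A.push

theorem algebraic_iff {η : Fin A.g → ℤ} : A.toV.Algebraic η ↔ A.Algebraic η := Iff.rfl

variable {A}

theorem Generated.toV {η : Fin A.g → ℤ} (h : A.Generated η) : A.toV.Generated η := by
  induction h with
  | base η h hs => exact Pc0b458V.CMAb.Generated.base (A := A.toV) η h hs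
  | add η θ _ _ h ih1 ih2 => exact Pc0b458V.CMAb.Generated.add (A := A.toV) η θ ih1 ih2 h

/-- the form is positive semidefinite on primitive algebraic classes -/
theorem psd_of_generated {n : ℕ} (hn : 2 * n ≤ A.g)
    (h : ∀ η, A.Algebraic η → size η ≤ 2 * n → A.Generated η) {x : Coh A.g 1} (hx : A.Prim n x) :
    ∃ r : ℝ, 0 ≤ r ∧ (-1) ^ n * A.int (x * x * pol A.g ^ (A.g - 2 * n)) = r :=
  Pc0b458V.CMAb.psd_of_generated (A := A.toV) hn (fun η hη hs => (h η hη hs).toV) hx

end CMAb

/-! ### from semidefinite to definite -/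

theorem lin_zero {a b : ℚ} (h : ∀ t : ℤ, 0 ≤ 2 * (t : ℚ) * a + b) : a = 0 := by
  by_contra ha
  obtain ⟨m, hm⟩ := exists_nat_gt (b / (2 * |a|))
  have hpos : 0 < |a| := abs_pos.2 ha
  rw [div_lt_iff₀ (by positivity)] at hm
  rcases lt_or_gt_of_ne ha with h1 | h1
  · have h2 := h m
    rw [abs_of_neg h1] at hm
    push_cast at h2
    nlinarith
  · have h2 := h (-m)
    rw [abs_of_pos h1] at hm
    push_cast at h2
    nlinarith

namespace NumAb

variable (X : NumAb.{u})

theorem zero_mem (i : ℕ) {x : X.Z} (hx : x ∈ X.cod i) : (0 : X.Z) ∈ X.cod i := by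
  have := X.add_mem i _ hx _ (X.neg_mem i _ hx)
  rwa [add_neg_cancel] at this

theorem nsmul_mem (i : ℕ) {x : X.Z} (hx : x ∈ X.cod i) (m : ℕ) : (m : X.Z) * x ∈ X.cod i := by
  induction m with
  | zero => simpa using X.zero_mem i hx
  | succ m ih =>
    have : ((m + 1 : ℕ) : X.Z) * x = (m : X.Z) * x + x := by push_cast; ring
    rw [this]
    exact X.add_mem i _ ih _ hx

theorem zsmul_mem (i : ℕ) {x : X.Z} (hx : x ∈ X.cod i) (t : ℤ) : (t : X.Z) * x ∈ X.cod i := by
  obtain ⟨m, rfl | rfl⟩ := t.eq_nat_or_neg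
  · exact_mod_cast X.nsmul_mem i hx m
  · have : ((-(m : ℤ) : ℤ) : X.Z) * x = -((m : X.Z) * x) := by push_cast; ring
    rw [this]
    exact X.neg_mem i _ (X.nsmul_mem i hx m)

theorem deg_zero : X.deg 0 = 0 := by
  have := X.deg_add 0 0
  rw [add_zero] at this
  linarith

theorem deg_nsmul (m : ℕ) (x : X.Z) : X.deg ((m : X.Z) * x) = m * X.deg x := by
  induction m with
  | zero => simp [deg_zero]
  | succ m ih =>
    have : ((m + 1 : ℕ) : X.Z) * x = (m : X.Z) * x + x := by push_cast; ring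
    rw [this, X.deg_add, ih]
    push_cast
    ring

theorem deg_neg (x : X.Z) : X.deg (-x) = -X.deg x := by
  have := X.deg_add x (-x)
  rw [add_neg_cancel, deg_zero] at this
  linarith

theorem deg_zsmul (t : ℤ) (x : X.Z) : X.deg ((t : X.Z) * x) = t * X.deg x := by
  obtain ⟨m, rfl | rfl⟩ := t.eq_nat_or_neg
  · exact_mod_cast X.deg_nsmul m x
  · have : ((-(m : ℤ) : ℤ) : X.Z) * x = -((m : X.Z) * x) := by push_cast; ring
    rw [this, X.deg_neg, deg_nsmul]
    push_cast
    ring

theorem L_mul_mem {i j : ℕ} {x : X.Z} (hx : x ∈ X.cod j) :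
    X.L ^ i * x ∈ X.cod (i + j) := by
  induction i with
  | zero => simpa using hx
  | succ i ih =>
    rw [pow_succ', mul_assoc]
    have := X.mul_mem 1 (i + j) _ X.L_mem _ ih
    convert this using 2
    ring

theorem positive_of_psd {n : ℕ} (hn : 2 * n ≤ X.g)
    (h : ∀ x ∈ X.cod n, X.L ^ (X.g - 2 * n + 1) * x = 0 →
      0 ≤ (-1) ^ n * X.deg (x * x * X.L ^ (X.g - 2 * n))) : X.Positive n := by
  intro x hx hL hx0
  refine lt_of_le_of_ne (h x hx hL) fun h0 => hx0 ?_
  have key : ∀ y ∈ X.cod n, X.L ^ (X.g - 2 * n + 1) * y = 0 →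
      X.deg (x * y * X.L ^ (X.g - 2 * n)) = 0 := by
    intro y hy hLy
    have h1 : ∀ t : ℤ, 0 ≤ 2 * (t : ℚ) * ((-1) ^ n * X.deg (x * y * X.L ^ (X.g - 2 * n))) +
        ((-1) ^ n * X.deg (y * y * X.L ^ (X.g - 2 * n))) := by
      intro t
      have h2 := h ((t : X.Z) * x + y) (X.add_mem n _ (X.zsmul_mem n hx t) _ hy)
        (by rw [mul_add, mul_left_comm, hL, hLy, mul_zero, add_zero])
      have e : ((t : X.Z) * x + y) * ((t : X.Z) * x + y) * X.L ^ (X.g - 2 * n) =
          ((t * t : ℤ) : X.Z) * (x * x * X.L ^ (X.g - 2 * n)) +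
            ((2 * t : ℤ) : X.Z) * (x * y * X.L ^ (X.g - 2 * n)) +
            y * y * X.L ^ (X.g - 2 * n) := by
        push_cast
        ring
      rw [e, X.deg_add, X.deg_add, X.deg_zsmul, X.deg_zsmul, mul_add, mul_add] at h2
      have e2 : (-1) ^ n * (((t * t : ℤ) : ℚ) * X.deg (x * x * X.L ^ (X.g - 2 * n))) = 0 := by
        rw [mul_left_comm, ← h0, mul_zero]
      rw [e2, zero_add] at h2
      push_cast at h2
      linarith
    have h3 := lin_zero h1
    rcases mul_eq_zero.1 h3 with h4 | h4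
    · exact absurd h4 (pow_ne_zero _ (by norm_num))
    · exact h4
  apply X.num n x hx
  intro j hj z hz
  have hj' : j = X.g - n := by omega
  subst hj'
  obtain ⟨w, hw, rfl⟩ := X.lef n hn z hz
  rcases Nat.eq_zero_or_pos n with rfl | hpos
  · have hw0 : X.L ^ (X.g - 2 * 0 + 1) * w = 0 := by
      apply X.num (X.g + 1)
      · have := X.L_mul_mem (i := X.g + 1) hw
        simpa using this
      · intro j hj
        omega
    have := key w hw hw0
    rwa [mul_assoc, mul_comm w] at this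
  · obtain ⟨m, rfl⟩ : ∃ m, n = m + 1 := ⟨n - 1, by omega⟩
    have h1 : X.L ^ (X.g - 2 * (m + 1) + 1) * w ∈ X.cod (X.g - m) := by
      have := X.L_mul_mem (i := X.g - 2 * (m + 1) + 1) hw
      convert this using 2
      omega
    obtain ⟨w₁, hw₁, e₁⟩ := X.lef m (by omega) _ h1
    have h2 : X.g - 2 * m = X.g - 2 * (m + 1) + 1 + 1 := by omega
    have hp : X.L ^ (X.g - 2 * (m + 1) + 1) * (w + -(X.L * w₁)) = 0 := by
      rw [mul_add, e₁, h2, pow_succ _ (X.g - 2 * (m + 1) + 1)]
      ring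
    have hm : w + -(X.L * w₁) ∈ X.cod (m + 1) := by
      refine X.add_mem _ _ hw _ (X.neg_mem _ _ ?_)
      have := X.L_mul_mem (i := 1) hw₁
      rw [pow_one, add_comm] at this
      exact this
    have h3 := key _ hm hp
    have h4 : x * (X.L ^ (X.g - 2 * (m + 1)) * w) =
        x * (w + -(X.L * w₁)) * X.L ^ (X.g - 2 * (m + 1)) +
          (X.L ^ (X.g - 2 * (m + 1) + 1) * x) * w₁ := by
      rw [pow_succ]
      ring
    rw [h4, X.deg_add, h3, hL, zero_mul, deg_zero, add_zero]

end NumAb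

/-- Q1 for `X` and `L` in codimension `n`, if `n ≤ 2` or if the algebraic weights of size at most
`2 n` are generated by those of size at most `4` -/
theorem positive {X : NumAb.{u}} {A : CMAb} (R : Reduction X A) {n : ℕ} (hn : 2 * n ≤ X.g)
    (h : n ≤ 2 ∨ ∀ η, A.Algebraic η → size η ≤ 2 * n → A.Generated η) : X.Positive n := by
  have h' : ∀ η, A.Algebraic η → size η ≤ 2 * n → A.Generated η := by
    rcases h with h | h
    · exact fun η hη hs => CMAb.Generated.base η hη (by omega)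
    · exact h
  apply X.positive_of_psd hn
  intro x hx hL
  obtain ⟨y, hy, he⟩ := R.spec n hn x hx hL
  obtain ⟨r, hr, hr'⟩ := A.psd_of_generated (R.dim ▸ hn) h' hy
  rw [he] at hr'
  have : ((((-1) ^ n * X.deg (x * x * X.L ^ (X.g - 2 * n)) : ℚ) : ℝ) : ℂ) = (r : ℂ) := by
    rw [← hr']
    push_cast
    rfl
  have h2 : (((-1) ^ n * X.deg (x * x * X.L ^ (X.g - 2 * n)) : ℚ) : ℝ) = r :=
    Complex.ofReal_injective this
  have h3 : (0 : ℝ) ≤ (((-1) ^ n * X.deg (x * x * X.L ^ (X.g - 2 * n)) : ℚ) : ℝ) := h2 ▸ hr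
  exact_mod_cast h3

end Pc0b458Z
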