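import Pool.Agent.Lib.Pc0b458V.Harm
import Pool.Agent.Lib.Pc0b458V.Incl

/-!
# Positivity of the form on primitive classes

Let `x = ∑ c p • mo p` (`rep`, `R1_gr`). By `int_sq` it is enough to show, for each `(η, T)`, with
`size η + 2 m = 2 n`, `m = |T|`, that the sum
`∑ T' disjoint from T, (-1) ^ n * (-1) ^ (n - m) * sg η * c (η, T) * c (-η, T')` is real and
nonnegative. If `η ≠ 0` is not `NonNull` all terms are zero (`P_of_rep`, `null_pair`).
Otherwise by `harm` and `incl` for `-η` the inner sum of the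
`c (-η, T')` is `(-1) ^ m * c (-η, T)`, and the sign `(-1) ^ (n + (n - m) + m)` is `1`;
`sg η * c (η, T) * c (-η, T)` is real and nonnegative by `Good.pos`; for `η = 0`, `c (0, T)` is
real by `P_zero`.
-/

open Finset ComplexConjugate

namespace Pc0b458V

namespace CMAb

variable {A : CMAb}

theorem NonNull.neg {η : Fin A.g → ℤ} (h : A.NonNull η) : A.NonNull (-η) := by
  obtain ⟨a, a', h1, h2⟩ := h
  exact ⟨a', a, P_neg h1, by rw [mul_comm]; exact h2⟩

/-- one term of the form -/
theorem psd_term {n : ℕ} (hn : 2 * n ≤ A.g)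
    (hgood : ∀ η : Fin A.g → ℤ, (∀ s, η s = -1 ∨ η s = 0 ∨ η s = 1) → η ≠ 0 → size η ≤ 2 * n →
      A.NonNull η → A.Good η) {x : Coh A.g 1} (hx : A.Prim n x)
    {c : (Fin A.g → ℤ) × Finset (Fin A.g) → ℂ} (hc : x = ∑ p ∈ idx A.g (2 * n), c p • mo p.1 p.2)
    {η : Fin A.g → ℤ} {T : Finset (Fin A.g)} (h : (η, T) ∈ idx A.g (2 * n)) :
    ∃ r : ℝ, 0 ≤ r ∧ (-1) ^ n * ∑ T' ∈ powersetCard T.card (zer η) with Disjoint T T',
      (-1 : ℂ) ^ (n - T.card) * (sg η : ℂ) * (c (η, T) * c (-η, T')) = r := by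
  have hR : x ∈ A.R1 n := alg_R1 hx.1
  obtain ⟨hη, hT, hsz⟩ := mem_idx.1 h
  have hTz : T ⊆ zer η := fun s hs => by
    rw [zer, mem_filter]
    exact ⟨mem_univ _, hT s hs⟩
  have hnη : ∀ s, (-η) s = -1 ∨ (-η) s = 0 ∨ (-η) s = 1 := fun s => by
    rcases hη s with h | h | h <;> simp [h]
  have hz : zer (-η) = zer η := by
    ext s
    simp [zer]
  have hTn : T.card ≤ n := by omega
  by_cases hnull : η ≠ 0 ∧ ¬ A.NonNull η
  · refine ⟨0, le_rfl, ?_⟩
    rw [Finset.sum_eq_zero]
    · simp
    · intro T' hT'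
      rw [mem_filter, mem_powersetCard] at hT'
      have h' : (η, T') ∈ idx A.g (2 * n) := by
        rw [mem_idx]
        refine ⟨hη, fun s hs => ?_, by rw [hT'.1.2]; exact hsz⟩
        have := hT'.1.1 hs
        rw [zer, mem_filter] at this
        exact this.2
      rw [null_pair hη hnull.1 hnull.2 (P_of_rep hR hc h) (P_of_rep hR hc h'), mul_zero]
  · have hor : η = 0 ∨ A.NonNull η := by
      by_contra hcon
      rw [not_or] at hcon
      exact hnull hcon
    have hor' : -η = 0 ∨ A.NonNull (-η) := by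
      rcases hor with h | h
      · left; rw [h, neg_zero]
      · right; exact h.neg
    have hcard := card_zer hη
    have hincl := incl (zer η) T.card (by omega) (fun T' => c (-η, T'))
      (by
        intro U hU hcU
        have := harm hn hx hc (η := -η) (U := U) hnη hor' (by rw [hz]; exact hU)
          (by rw [size_neg, hcU]; exact hsz)
        rw [hz, hcU] at this
        exact this)
      hTz rfl
    have hsum : ∑ T' ∈ powersetCard T.card (zer η) with Disjoint T T',
        (-1 : ℂ) ^ (n - T.card) * (sg η : ℂ) * (c (η, T) * c (-η, T')) =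
        (-1 : ℂ) ^ n * ((sg η : ℂ) * c (η, T) * c (-η, T)) := by
      have e1 : ∀ T' : Finset (Fin A.g), (-1 : ℂ) ^ (n - T.card) * (sg η : ℂ) *
          (c (η, T) * c (-η, T')) = ((-1 : ℂ) ^ (n - T.card) * (sg η : ℂ) * c (η, T)) *
            c (-η, T') := fun T' => by ring
      simp only [e1]
      rw [← Finset.mul_sum]
      have e2 : (powersetCard T.card (zer η)).filter (fun T' => Disjoint T T') =
          (powersetCard T.card (zer η)).filter (fun T' => Disjoint T' T) := by
        apply Finset.filter_congr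
        intro T' _
        exact disjoint_comm
      rw [e2, hincl]
      have e3 : (-1 : ℂ) ^ n = (-1) ^ (n - T.card) * (-1) ^ T.card := by
        rw [← pow_add, Nat.sub_add_cancel hTn]
      rw [e3]
      ring
    rw [hsum, ← mul_assoc, ← mul_pow]
    simp only [mul_neg, mul_one, neg_neg, one_pow, one_mul]
    by_cases h0 : η = 0
    · obtain ⟨r, hr⟩ := P_zero (h0 ▸ P_of_rep hR hc h)
      have hneg : -η = η := by rw [h0, neg_zero]
      have e4 : c (η, T) = ((r / 2 : ℝ) : ℂ) := by
        subst h0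
        rw [neg_zero] at hr
        push_cast
        rw [← hr]
        ring
      have e5 : sg η = 1 := by
        rw [h0, sg]
        apply Finset.prod_eq_one
        intro s hs
        rw [supp, mem_filter] at hs
        exact absurd rfl hs.2
      refine ⟨(r / 2) * (r / 2), mul_self_nonneg _, ?_⟩
      rw [hneg, e5, e4]
      push_cast
      ring
    · have hN : A.NonNull η := hor.resolve_left h0
      exact (hgood η hη h0 (by omega) hN).pos hη h0 (P_of_rep hR hc h)

theorem psd {n : ℕ} (hn : 2 * n ≤ A.g)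
    (hgood : ∀ η : Fin A.g → ℤ, (∀ s, η s = -1 ∨ η s = 0 ∨ η s = 1) → η ≠ 0 → size η ≤ 2 * n →
      A.NonNull η → A.Good η) {x : Coh A.g 1} (hx : A.Prim n x) :
    ∃ r : ℝ, 0 ≤ r ∧ (-1) ^ n * A.int (x * x * pol A.g ^ (A.g - 2 * n)) = r := by
  have hR : x ∈ A.R1 n := alg_R1 hx.1
  obtain ⟨c, hc⟩ := rep (R1_gr hR)
  have hsq := A.int_sq hn c
  rw [← hc] at hsq
  rw [hsq]
  choose! r hr0 hr using fun p : (Fin A.g → ℤ) × Finset (Fin A.g) =>
    fun hp : p ∈ idx A.g (2 * n) => psd_term hn hgood hx hc (η := p.1) (T := p.2) hp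
  obtain ⟨t, ht, ht'⟩ := A.top_pos
  refine ⟨((A.g - 2 * n).factorial : ℝ) * t * ∑ p ∈ idx A.g (2 * n), r p, ?_, ?_⟩
  · apply mul_nonneg
    · positivity
    · exact Finset.sum_nonneg hr0
  · rw [ht']
    push_cast
    rw [← Finset.sum_congr rfl hr, ← Finset.mul_sum]
    ring

end CMAb

end Pc0b458V
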