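import Pool.Agent.Lib.Pc0b458V.Cont

/-!
# The action of the torus on the cones

`act_E1`: for `z ∈ E1 i` the element `pb ![u, 0] z * pr2 (pol g ^ g)` is in `E2 (i + g)` (`pull_E1`
twice, `pr2 = pb ![0, 1]`), and by `gys_mul` (and `pr1_act`) its image under `gys` is
`int (pol g ^ g) • act u z`, where `int (pol g ^ g)` is a positive rational number (`int_eff`,
`pol_pow_mem_eff`, `int_pol`). `act_R1` is the same. `dd_E1`: `act (Pi.single s 1) (pol g) = dd s`.
`dT T` is the ordered product of `dd s` for `s ∈ T`; use the general lemmas `lprod_E1`, `lprod_R1`.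
-/

open Finset ComplexConjugate

namespace Pc0b458V

namespace CMAb

variable {A : CMAb}

theorem int_pol_pos : ∃ q : ℝ, 0 < q ∧ A.int (pol A.g ^ A.g) = q := by
  obtain ⟨q, hq, h⟩ := A.int_eff _ (pol_pow_mem_eff A.g)
  have h0 : (q : ℂ) ≠ 0 := h ▸ A.int_pol
  have h1 : q ≠ 0 := by
    rintro rfl
    exact h0 (by simp)
  refine ⟨q, by exact_mod_cast lt_of_le_of_ne hq (Ne.symm h1), ?_⟩
  rw [h]
  norm_cast

theorem gys_act (u : Fin A.g → ℂ) (z : Coh A.g 1) :
    A.gys (pb ![u, 0] z * pb ![0, 1] (pol A.g ^ A.g)) = A.int (pol A.g ^ A.g) • act u z := by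
  have h := A.gys_mul (act u z) (pol A.g ^ A.g)
  have h1 : pb ![(1 : Fin A.g → ℂ), 0] (act u z) = pb ![u, 0] z := pr1_act u z
  rw [h1] at h
  exact h

theorem act_E1 (u : Fin A.g → ℂ) {i : ℕ} {z : Coh A.g 1} (hz : z ∈ A.E1 i) :
    act u z ∈ A.E1 i := by
  obtain ⟨q, hq, h⟩ := int_pol_pos (A := A)
  have h1 := gys_E2 (E2_mul (pull_E1 ![u, 0] hz) (pull_E1 ![0, 1] (pol_pow_mem_E1 A.g)))
  rw [gys_act, h] at h1
  have h2 := E1_smul (inv_nonneg.2 hq.le) h1
  rw [smul_smul, ← Complex.ofReal_mul, inv_mul_cancel₀ hq.ne', Complex.ofReal_one, one_smul] at h2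
  exact h2

theorem act_R1 (u : Fin A.g → ℂ) {i : ℕ} {z : Coh A.g 1} (hz : z ∈ A.R1 i) :
    act u z ∈ A.R1 i := by
  obtain ⟨q, hq, h⟩ := int_pol_pos (A := A)
  have h1 := gys_R2 (R2_mul (pull_R1 ![u, 0] hz)
    (pull_R1 ![0, 1] (Submodule.subset_span (pol_pow_mem_eff A.g))))
  rw [gys_act, h] at h1
  have h2 := R1_smul q⁻¹ h1
  rw [smul_smul, ← Complex.ofReal_mul, inv_mul_cancel₀ hq.ne', Complex.ofReal_one, one_smul] at h2
  exact h2

theorem act_dd {g : ℕ} (u : Fin g → ℂ) (s : Fin g) :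
    act u (dd s) = (u s * conj (u s)) • dd s := by
  rw [dd, map_mul, act_gen_true, act_gen_false, smul_mul_smul_comm]

theorem act_single_pol {g : ℕ} (s : Fin g) : act (Pi.single s 1) (pol g) = dd s := by
  rw [pol_eq, map_sum, Finset.sum_eq_single s]
  · rw [act_dd]; simp
  · intro t _ ht
    rw [act_dd]
    simp [ht]
  · simp

theorem dd_E1 (s : Fin A.g) : dd s ∈ A.E1 1 := by
  rw [← act_single_pol]
  exact act_E1 _ pol_mem_E1

theorem dd_R1 (s : Fin A.g) : dd s ∈ A.R1 1 := by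
  rw [← act_single_pol]
  exact act_R1 _ (Submodule.subset_span A.pol_mem)

theorem lprod_E1 {n : ℕ} {a : Fin n → Coh A.g 1} {p : Fin n → ℕ} (h : ∀ s, a s ∈ A.E1 (p s)) :
    lprod a ∈ A.E1 (∑ s, p s) := by
  induction n with
  | zero => simpa [lprod_zero] using one_mem_E1 (A := A)
  | succ n ih =>
    rw [lprod_succ, Fin.sum_univ_succ]
    exact E1_mul (h 0) (ih fun i => h i.succ)

theorem lprod_R1 {n : ℕ} {a : Fin n → Coh A.g 1} {p : Fin n → ℕ} (h : ∀ s, a s ∈ A.R1 (p s)) :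
    lprod a ∈ A.R1 (∑ s, p s) := by
  induction n with
  | zero =>
    rw [lprod_zero]
    exact Submodule.subset_span A.one_mem
  | succ n ih =>
    rw [lprod_succ, Fin.sum_univ_succ]
    exact R1_mul (h 0) (ih fun i => h i.succ)

theorem lt_zero {g : ℕ} (T : Finset (Fin g)) (s : Fin g) :
    lt 0 T s = if s ∈ T then dd s else 1 := by
  simp [lt]

theorem dT_E1 (T : Finset (Fin A.g)) : dT T ∈ A.E1 T.card := by
  have h := lprod_E1 (A := A) (a := lt 0 T) (p := fun s => if s ∈ T then 1 else 0) (fun s => by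
    rw [lt_zero]
    split_ifs
    · exact dd_E1 s
    · exact one_mem_E1)
  have e : (∑ s, if s ∈ T then 1 else 0) = T.card := by simp
  rw [e] at h
  exact h

theorem dT_R1 (T : Finset (Fin A.g)) : dT T ∈ A.R1 T.card := by
  have h := lprod_R1 (A := A) (a := lt 0 T) (p := fun s => if s ∈ T then 1 else 0) (fun s => by
    rw [lt_zero]
    split_ifs
    · exact dd_R1 s
    · exact Submodule.subset_span A.one_mem)
  have e : (∑ s, if s ∈ T then 1 else 0) = T.card := by simp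
  rw [e] at h
  exact h

end CMAb

end Pc0b458V
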