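import Pool.Agent.Lib.Pc0b458V.Defs

/-!
# Basic facts on the cohomology rings
-/

open Finset ComplexConjugate

namespace Pc0b458V

variable {g m : ℕ}

/-! ### the exterior algebra -/

theorem iota_sq (x : Fin g × Bool × Fin m → ℂ) : iota g m x * iota g m x = 0 :=
  ExteriorAlgebra.ι_sq_zero x

theorem iota_anti (x y : Fin g × Bool × Fin m → ℂ) :
    iota g m x * iota g m y = -(iota g m y * iota g m x) := by
  have h := ExteriorAlgebra.ι_add_mul_swap (R := ℂ) x y
  exact eq_neg_of_add_eq_zero_left h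

theorem coh_induction {P : Coh g m → Prop} (algebraMap : ∀ r : ℂ, P (algebraMap ℂ (Coh g m) r))
    (iota : ∀ x, P (iota g m x)) (mul : ∀ a b, P a → P b → P (a * b))
    (add : ∀ a b, P a → P b → P (a + b)) (a : Coh g m) : P a :=
  ExteriorAlgebra.induction (C := P) algebraMap iota mul add a

theorem hom_ext {B : Type*} [Semiring B] [Algebra ℂ B] {f f' : Coh g m →ₐ[ℂ] B}
    (h : ∀ x, f (iota g m x) = f' (iota g m x)) : f = f' :=
  ExteriorAlgebra.hom_ext (LinearMap.ext h)

theorem one_mem_gr : (1 : Coh g m) ∈ gr g m 0 := by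
  have h : (⋀[ℂ]^0 (Fin g × Bool × Fin m → ℂ) : Submodule ℂ _) = 1 := pow_zero _
  show (1 : ExteriorAlgebra ℂ (Fin g × Bool × Fin m → ℂ)) ∈ ⋀[ℂ]^0 (Fin g × Bool × Fin m → ℂ)
  rw [h]
  exact Submodule.one_le.1 le_rfl

theorem iota_mem_gr (x : Fin g × Bool × Fin m → ℂ) : iota g m x ∈ gr g m 1 := by
  have h : (⋀[ℂ]^1 (Fin g × Bool × Fin m → ℂ) : Submodule ℂ _) =
      LinearMap.range (ExteriorAlgebra.ι ℂ) := pow_one _
  show ExteriorAlgebra.ι ℂ x ∈ ⋀[ℂ]^1 (Fin g × Bool × Fin m → ℂ)
  rw [h]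
  exact ⟨x, rfl⟩

theorem mul_mem_gr {i j : ℕ} {x y : Coh g m} (hx : x ∈ gr g m i) (hy : y ∈ gr g m j) :
    x * y ∈ gr g m (i + j) := by
  have h : (⋀[ℂ]^(i + j) (Fin g × Bool × Fin m → ℂ) : Submodule ℂ _) =
      ⋀[ℂ]^i (Fin g × Bool × Fin m → ℂ) * ⋀[ℂ]^j (Fin g × Bool × Fin m → ℂ) := pow_add _ _ _
  show (show ExteriorAlgebra ℂ (Fin g × Bool × Fin m → ℂ) from x * y) ∈
    ⋀[ℂ]^(i + j) (Fin g × Bool × Fin m → ℂ)
  rw [h]
  exact Submodule.mul_mem_mul hx hy

/-- a property of homogeneous elements can be checked on products of vectors -/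
theorem gr_induction {P : ℕ → Coh g m → Prop} (one : P 0 1)
    (iota_mul : ∀ k x, ∀ z ∈ gr g m k, P k z → P (k + 1) (iota g m x * z))
    (add : ∀ k, ∀ a b, P k a → P k b → P k (a + b))
    (smul : ∀ k, ∀ (c : ℂ) a, P k a → P k (c • a)) {k : ℕ} {z : Coh g m} (hz : z ∈ gr g m k) :
    P k z := by
  induction k generalizing z with
  | zero =>
    have h : (⋀[ℂ]^0 (Fin g × Bool × Fin m → ℂ) : Submodule ℂ _) = 1 := pow_zero _
    have hz' : (show ExteriorAlgebra ℂ (Fin g × Bool × Fin m → ℂ) from z) ∈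
        (1 : Submodule ℂ (ExteriorAlgebra ℂ (Fin g × Bool × Fin m → ℂ))) := h ▸ hz
    obtain ⟨c, hc⟩ := Submodule.mem_one.1 hz'
    have : z = c • (1 : Coh g m) := by
      rw [← Algebra.algebraMap_eq_smul_one]
      exact hc.symm
    rw [this]
    exact smul 0 c 1 one
  | succ k ih =>
    have h : (⋀[ℂ]^(k + 1) (Fin g × Bool × Fin m → ℂ) : Submodule ℂ _) =
        LinearMap.range (ExteriorAlgebra.ι ℂ) * ⋀[ℂ]^k (Fin g × Bool × Fin m → ℂ) := pow_succ' _ _
    have hz' : (show ExteriorAlgebra ℂ (Fin g × Bool × Fin m → ℂ) from z) ∈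
        LinearMap.range (ExteriorAlgebra.ι ℂ) * ⋀[ℂ]^k (Fin g × Bool × Fin m → ℂ) := h ▸ hz
    refine Submodule.mul_induction_on hz' ?_ ?_
    · rintro _ ⟨x, rfl⟩ y hy
      exact iota_mul k x y hy (ih hy)
    · exact fun x y hx hy => add (k + 1) x y hx hy

theorem gen_sq (s : Fin g) (b : Bool) (j : Fin m) : gen s b j * gen s b j = 0 := iota_sq _

theorem gen_anti (s t : Fin g) (b c : Bool) (i j : Fin m) :
    gen s b i * gen t c j = -(gen t c j * gen s b i) := iota_anti _ _

theorem gen_mem_gr (s : Fin g) (b : Bool) (j : Fin m) : gen s b j ∈ gr g m 1 := iota_mem_gr _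

/-- a vector times a homogeneous element -/
theorem iota_comm {k : ℕ} {z : Coh g m} (hz : z ∈ gr g m k) (x : Fin g × Bool × Fin m → ℂ) :
    iota g m x * z = (-1 : ℂ) ^ k • (z * iota g m x) := by
  refine gr_induction (P := fun k z => iota g m x * z = (-1 : ℂ) ^ k • (z * iota g m x))
    ?_ ?_ ?_ ?_ hz
  · simp
  · intro k y z _ ih
    rw [← mul_assoc, iota_anti x y, neg_mul, mul_assoc, ih, mul_smul_comm, pow_succ, mul_comm,
      mul_smul, neg_smul, one_smul, mul_assoc]
  · intro k a b ha hb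
    rw [mul_add, ha, hb, add_mul, smul_add]
  · intro k c a ha
    rw [mul_smul_comm, ha, smul_mul_assoc, smul_comm]

/-- homogeneous elements commute up to a sign -/
theorem gr_comm {i j : ℕ} {y z : Coh g m} (hy : y ∈ gr g m i) (hz : z ∈ gr g m j) :
    y * z = (-1 : ℂ) ^ (i * j) • (z * y) := by
  refine gr_induction (P := fun i y => y * z = (-1 : ℂ) ^ (i * j) • (z * y)) ?_ ?_ ?_ ?_ hy
  · simp
  · intro k x w _ ih
    rw [mul_assoc, ih, mul_smul_comm, ← mul_assoc, iota_comm hz, smul_mul_assoc, smul_smul,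
      mul_assoc, ← pow_add]
    congr 2
    ring
  · intro k a b ha hb
    rw [add_mul, ha, hb, mul_add, smul_add]
  · intro k c a ha
    rw [smul_mul_assoc, ha, mul_smul_comm, smul_comm]

/-- elements of even degree are central -/
theorem even_comm {k : ℕ} {y : Coh g m} (hy : y ∈ gr g m (2 * k)) (z : Coh g m) :
    y * z = z * y := by
  refine coh_induction (P := fun z => y * z = z * y) ?_ ?_ ?_ ?_ z
  · intro r
    exact (Algebra.commutes r y).symm
  · intro x
    have h := iota_comm hy x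
    rw [pow_mul, neg_one_sq, one_pow, one_smul] at h
    exact h.symm
  · intro a b ha hb
    rw [← mul_assoc, ha, mul_assoc, hb, mul_assoc]
  · intro a b ha hb
    rw [mul_add, ha, hb, add_mul]

/-! ### pull-backs -/

theorem pb_iota (v : Fin m → Fin g → ℂ) (x : Fin g × Bool × Fin 1 → ℂ) :
    pb v (iota g 1 x) = iota g m (pbOne v x) :=
  ExteriorAlgebra.map_apply_ι (pbOne v) x

theorem pbOne_single (v : Fin m → Fin g → ℂ) (s : Fin g) (b : Bool) :
    pbOne v (Pi.single (s, b, 0) 1) =
      ∑ j, (if b then v j s else conj (v j s)) • (Pi.single (s, b, j) 1 : Fin g × Bool × Fin m → ℂ) := by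
  funext i
  obtain ⟨t, c, l⟩ := i
  rw [Finset.sum_apply]
  simp only [pbOne, LinearMap.coe_mk, AddHom.coe_mk, Pi.smul_apply, smul_eq_mul]
  rw [Finset.sum_eq_single l]
  · by_cases h : t = s
    · by_cases h' : c = b
      · subst h; subst h'; simp
      · simp [h']
    · simp [h]
  · intro j _ hj
    have : (t, c, l) ≠ (s, b, j) := fun h => hj (by simp_all)
    simp [this]
  · simp

theorem pb_gen (v : Fin m → Fin g → ℂ) (s : Fin g) (b : Bool) :
    pb v (gen s b 0) = ∑ j, (if b then v j s else conj (v j s)) • gen s b j := by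
  rw [gen, pb_iota, pbOne_single, map_sum]
  simp only [map_smul]
  rfl

theorem pb_gen_true (v : Fin m → Fin g → ℂ) (s : Fin g) :
    pb v (gen s true 0) = ∑ j, v j s • gen s true j := by simp [pb_gen]

theorem pb_gen_false (v : Fin m → Fin g → ℂ) (s : Fin g) :
    pb v (gen s false 0) = ∑ j, conj (v j s) • gen s false j := by simp [pb_gen]

theorem pb_mem_gr (v : Fin m → Fin g → ℂ) {k : ℕ} {z : Coh g 1} (hz : z ∈ gr g 1 k) :
    pb v z ∈ gr g m k := by
  refine gr_induction (P := fun k z => pb v z ∈ gr g m k) ?_ ?_ ?_ ?_ hz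
  · rw [map_one]; exact one_mem_gr
  · intro k x z _ ih
    rw [map_mul, pb_iota, add_comm]
    exact mul_mem_gr (iota_mem_gr _) ih
  · intro k a b ha hb
    rw [map_add]; exact add_mem ha hb
  · intro k c a ha
    rw [map_smul]; exact Submodule.smul_mem _ _ ha

/-- the action of `u` on the cohomology of `A` -/
noncomputable def act (u : Fin g → ℂ) : Coh g 1 →ₐ[ℂ] Coh g 1 := pb ![u]

theorem act_gen_true (u : Fin g → ℂ) (s : Fin g) : act u (gen s true 0) = u s • gen s true 0 := by
  simp [act, pb_gen_true]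

theorem act_gen_false (u : Fin g → ℂ) (s : Fin g) :
    act u (gen s false 0) = conj (u s) • gen s false 0 := by
  simp [act, pb_gen_false]

theorem act_mem_gr (u : Fin g → ℂ) {k : ℕ} {z : Coh g 1} (hz : z ∈ gr g 1 k) :
    act u z ∈ gr g 1 k := pb_mem_gr _ hz

theorem hom_ext_gen {B : Type*} [Ring B] [Algebra ℂ B] {f f' : Coh g 1 →ₐ[ℂ] B}
    (h : ∀ s b, f (gen s b 0) = f' (gen s b 0)) : f = f' := by
  apply hom_ext
  intro x
  have hx : x = ∑ i, x i • (Pi.single i 1 : Fin g × Bool × Fin 1 → ℂ) := by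
    funext j
    simp [Finset.sum_apply, Pi.single_apply]
  rw [hx]
  simp only [map_sum, map_smul]
  refine Finset.sum_congr rfl fun i _ => ?_
  obtain ⟨s, b, j⟩ := i
  have hj : j = 0 := Subsingleton.elim _ _
  subst hj
  congr 1
  exact h s b

theorem pb_act (v : Fin m → Fin g → ℂ) (u : Fin g → ℂ) (z : Coh g 1) :
    pb v (act u z) = pb (fun j s => v j s * u s) z := by
  have : (pb v).comp (act u) = pb (fun j s => v j s * u s) := by
    apply hom_ext_gen
    intro s b
    cases b
    · simp only [AlgHom.comp_apply, act_gen_false, map_smul, pb_gen_false, map_mul,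
        Finset.smul_sum, smul_smul]
      refine Finset.sum_congr rfl fun j _ => ?_
      rw [mul_comm]
    · simp only [AlgHom.comp_apply, act_gen_true, map_smul, pb_gen_true, Finset.smul_sum,
        smul_smul]
      refine Finset.sum_congr rfl fun j _ => ?_
      rw [mul_comm]
  exact DFunLike.congr_fun this z

theorem act_act (u w : Fin g → ℂ) (z : Coh g 1) : act u (act w z) = act (u * w) z := by
  rw [act, pb_act]
  congr 2
  funext j
  fin_cases j
  rfl

theorem act_one (z : Coh g 1) : act (1 : Fin g → ℂ) z = z := by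
  have : act (1 : Fin g → ℂ) = AlgHom.id ℂ (Coh g 1) := by
    apply hom_ext_gen
    intro s b
    cases b <;> simp [act_gen_false, act_gen_true]
  rw [this]; rfl

/-- pull-back under the first projection -/
noncomputable def pr1 : Coh g 1 →ₐ[ℂ] Coh g 2 := pb ![1, 0]

/-- pull-back under the second projection -/
noncomputable def pr2 : Coh g 1 →ₐ[ℂ] Coh g 2 := pb ![0, 1]

theorem pr1_gen (s : Fin g) (b : Bool) : pr1 (gen s b 0) = gen s b 0 := by
  cases b <;> simp [pr1, pb_gen]

theorem pr2_gen (s : Fin g) (b : Bool) : pr2 (gen s b 0) = gen s b 1 := by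
  cases b <;> simp [pr2, pb_gen]

theorem pr1_act (u : Fin g → ℂ) (z : Coh g 1) : pr1 (act u z) = pb ![u, 0] z := by
  rw [pr1, pb_act]
  congr 2
  funext j
  fin_cases j
  · funext s; simp
  · funext s; simp

theorem pb_two_true (v : Fin 2 → Fin g → ℂ) (s : Fin g) :
    pb v (gen s true 0) = v 0 s • gen s true 0 + v 1 s • gen s true 1 := by
  simp [pb_gen_true, Fin.sum_univ_two]

theorem pb_two_false (v : Fin 2 → Fin g → ℂ) (s : Fin g) :
    pb v (gen s false 0) = conj (v 0 s) • gen s false 0 + conj (v 1 s) • gen s false 1 := by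
  simp [pb_gen_false, Fin.sum_univ_two]

/-! ### ordered products -/

/-- the ordered product -/
def lprod {R : Type*} [Monoid R] {n : ℕ} (a : Fin n → R) : R := (List.ofFn a).prod

theorem lprod_zero {R : Type*} [Monoid R] (a : Fin 0 → R) : lprod a = 1 := by
  simp [lprod]

theorem lprod_succ {R : Type*} [Monoid R] {n : ℕ} (a : Fin (n + 1) → R) :
    lprod a = a 0 * lprod fun i : Fin n => a i.succ := by
  simp [lprod, List.ofFn_succ]

theorem map_lprod {R S F : Type*} [Monoid R] [Monoid S] [FunLike F R S] [MonoidHomClass F R S]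
    {n : ℕ} (f : F) (a : Fin n → R) : f (lprod a) = lprod fun i => f (a i) := by
  induction n with
  | zero => simp [lprod_zero]
  | succ n ih => rw [lprod_succ, lprod_succ, map_mul, ih]

theorem lprod_comm {R : Type*} [CommMonoid R] {n : ℕ} (a : Fin n → R) : lprod a = ∏ i, a i := by
  simp [lprod, List.prod_ofFn]

theorem lprod_smul {n : ℕ} (c : Fin n → ℂ) (a : Fin n → Coh g m) :
    (lprod fun i => c i • a i) = (∏ i, c i) • lprod a := by
  induction n with
  | zero => simp [lprod_zero]
  | succ n ih => rw [lprod_succ, lprod_succ, ih, Fin.prod_univ_succ, smul_mul_smul_comm]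

theorem lprod_one {R : Type*} [Monoid R] {n : ℕ} : (lprod fun _ : Fin n => (1 : R)) = 1 := by
  induction n with
  | zero => simp [lprod_zero]
  | succ n ih => rw [lprod_succ, ih, one_mul]

theorem lprod_mem_gr {n : ℕ} {a : Fin n → Coh g m} {p : Fin n → ℕ} (h : ∀ i, a i ∈ gr g m (p i)) :
    lprod a ∈ gr g m (∑ i, p i) := by
  induction n with
  | zero => simpa [lprod_zero] using one_mem_gr
  | succ n ih =>
    rw [lprod_succ, Fin.sum_univ_succ]
    exact mul_mem_gr (h 0) (ih fun i => h i.succ)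

/-! ### letters and monomials -/

/-- the part of the class of the polarisation for `s` -/
noncomputable def dd (s : Fin g) : Coh g 1 := gen s true 0 * gen s false 0

theorem pol_eq : pol g = ∑ s, dd s := rfl

theorem dd_mem_gr (s : Fin g) : dd s ∈ gr g 1 2 := mul_mem_gr (gen_mem_gr _ _ _) (gen_mem_gr _ _ _)

/-- the letter at `s` of the monomial for `η` and `T` -/
noncomputable def lt (η : Fin g → ℤ) (T : Finset (Fin g)) (s : Fin g) : Coh g 1 :=
  if s ∈ T then dd s else if η s = 1 then gen s true 0 else if η s = -1 then gen s false 0 else 1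

/-- the degree of the letter -/
def lw (η : Fin g → ℤ) (T : Finset (Fin g)) (s : Fin g) : ℕ :=
  if s ∈ T then 2 else if η s = 1 then 1 else if η s = -1 then 1 else 0

/-- the monomial for `η` and `T` -/
noncomputable def mo (η : Fin g → ℤ) (T : Finset (Fin g)) : Coh g 1 := lprod (lt η T)

theorem mon_eq (η : Fin g → ℤ) : mon η = mo η ∅ := by
  have : lt η ∅ = fun s => if η s = 1 then gen s true 0 else if η s = -1 then gen s false 0
      else 1 := by
    funext s
    simp [lt]
  rw [mo, this]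
  rfl

theorem lt_mem_gr (η : Fin g → ℤ) (T : Finset (Fin g)) (s : Fin g) :
    lt η T s ∈ gr g 1 (lw η T s) := by
  unfold lt lw
  split_ifs
  · exact dd_mem_gr s
  · exact gen_mem_gr _ _ _
  · exact gen_mem_gr _ _ _
  · exact one_mem_gr

theorem mo_mem_gr (η : Fin g → ℤ) (T : Finset (Fin g)) : mo η T ∈ gr g 1 (∑ s, lw η T s) :=
  lprod_mem_gr fun s => lt_mem_gr η T s

/-- the set of the `s` with `η s ≠ 0` -/
def supp (η : Fin g → ℤ) : Finset (Fin g) := univ.filter fun s => η s ≠ 0

/-- the set of the `s` with `η s = 0` -/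
def zer (η : Fin g → ℤ) : Finset (Fin g) := univ.filter fun s => η s = 0

/-- the weights -/
def Wts (g : ℕ) : Finset (Fin g → ℤ) := Fintype.piFinset fun _ => {-1, 0, 1}

/-- the sign of a weight -/
def sg (η : Fin g → ℤ) : ℤ := ∏ s ∈ supp η, η s

/-- the monomial of the products of the `dd s`, for `s ∈ T` -/
noncomputable def dT (T : Finset (Fin g)) : Coh g 1 := mo 0 T

/-- the indices of the monomials of degree `d` -/
def idx (g d : ℕ) : Finset ((Fin g → ℤ) × Finset (Fin g)) :=
  (Wts g ×ˢ univ).filter fun p => p.2 ⊆ zer p.1 ∧ size p.1 + 2 * p.2.card = d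

end Pc0b458V
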