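import Pool.Agent.Lib.Pc0b458V.Mono

/-!
# Components for the action of the torus

Let `W` be a real subspace stable under all `act u`. For `z = ∑ c p • mo p` in `W` the partial sums
for the pairs `(η, T)`, `(-η, T)` are in `W`.

Proof. For a letter `l` at `s` (none, `gen s true 0`, `gen s false 0`, `dd s`) let `χ_l (w)`, for
`w : ℂ`, be `1`, `w`, `conj w`, `w * conj w`. For each letter `l₀` there are complex numbers
`k_w`, for `w ∈ {0, 1, -1, I, -I}`, with `∑ w, k_w * χ_l (w) = if l = l₀ then 1 else 0` for all `l`: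
none: `k_0 = 1`; `dd s`: `k_1 = k_{-1} = 1/2`, `k_0 = -1`; `gen s true 0`:
`k_1 = 1/4, k_{-1} = -1/4, k_I = -I/4, k_{-I} = I/4`; `gen s false 0`: the complex conjugates.
Multiplying these for all `s` (`Finset.prod_univ_sum`) one gets, for each `(η, T)`, finitely many
`u_i` and `c_i : ℂ` with `∑ i, c_i * chi θ U u_i = if θ = η and U = T then 1 else 0` for all indices
`(θ, U)`. Since `conj (chi θ U u) = chi (-θ) U u`, the sum `∑ i, (c_i + conj c_i) * chi θ U u_i` is
`(if (θ, U) = (η, T) then 1 else 0) + (if (θ, U) = (-η, T) then 1 else 0)`, and `c_i + conj c_i` is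
real. Apply `∑ i, (c_i + conj c_i) • act u_i` to `z` (`act_mo`).
-/

open Finset ComplexConjugate

namespace Pc0b458V

variable {g : ℕ}

theorem chi_neg (η : Fin g → ℤ) (T : Finset (Fin g)) (u : Fin g → ℂ) :
    chi (-η) T u = conj (chi η T u) := by
  unfold chi
  rw [map_prod]
  apply Finset.prod_congr rfl
  intro s _
  by_cases h1 : s ∈ T
  · rw [if_pos h1, if_pos h1, map_mul, Complex.conj_conj, mul_comm]
  · rw [if_neg h1, if_neg h1, Pi.neg_apply]
    by_cases h2 : η s = 1
    · rw [if_neg (by omega), if_pos (by omega), if_pos h2]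
    · by_cases h3 : η s = -1
      · rw [if_pos (by omega), if_neg h2, if_pos h3, Complex.conj_conj]
      · rw [if_neg (by omega), if_neg (by omega), if_neg h2, if_neg h3, map_one]

/-- the character of a letter -/
noncomputable def lchi (b : Prop) [Decidable b] (z : ℤ) (w : ℂ) : ℂ :=
  if b then w * conj w else if z = 1 then w else if z = -1 then conj w else 1

/-- the five test points -/
noncomputable def tpt : Fin 5 → ℂ := ![0, 1, -1, Complex.I, -Complex.I]

theorem exists_letter (b0 : Prop) [Decidable b0] (z0 : ℤ) (h0 : z0 = -1 ∨ z0 = 0 ∨ z0 = 1)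
    (hb0 : b0 → z0 = 0) :
    ∃ k : Fin 5 → ℂ, ∀ (b : Prop) [Decidable b] (z : ℤ), (z = -1 ∨ z = 0 ∨ z = 1) →
      (b → z = 0) → ∑ j, k j * lchi b z (tpt j) = if z = z0 ∧ (b ↔ b0) then 1 else 0 := by
  have hI : Complex.I * Complex.I = -1 := Complex.I_mul_I
  by_cases hb : b0
  · have hz0 := hb0 hb
    subst hz0
    refine ⟨![-1, 1 / 2, 1 / 2, 0, 0], ?_⟩
    intro b _ z hz hbz
    by_cases hbb : b
    · have hz0 := hbz hbb
      subst hz0
      rw [if_pos ⟨rfl, iff_of_true hbb hb⟩]
      simp [Fin.sum_univ_succ, lchi, tpt, hbb]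
      norm_num
    · rw [if_neg (fun h => hbb (h.2.2 hb))]
      rcases hz with rfl | rfl | rfl <;> simp [Fin.sum_univ_succ, lchi, tpt, hbb] <;> norm_num
  · rcases h0 with rfl | rfl | rfl
    · refine ⟨![0, 1 / 4, -1 / 4, Complex.I / 4, -Complex.I / 4], ?_⟩
      intro b _ z hz hbz
      by_cases hbb : b
      · have hz0 := hbz hbb
        subst hz0
        rw [if_neg (fun h => by simp at h)]
        simp [Fin.sum_univ_succ, lchi, tpt, hbb]
        ring_nf
        try simp
      · rcases hz with rfl | rfl | rfl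
        · rw [if_pos ⟨rfl, iff_of_false hbb hb⟩]
          simp [Fin.sum_univ_succ, lchi, tpt, hbb]
          ring_nf
          try simp
          try norm_num
        · rw [if_neg (fun h => by simp at h)]
          simp [Fin.sum_univ_succ, lchi, tpt, hbb]
          ring_nf
          try simp
        · rw [if_neg (fun h => by simp at h)]
          simp [Fin.sum_univ_succ, lchi, tpt, hbb]
          ring_nf
          try simp
          try norm_num
    · refine ⟨![1, 0, 0, 0, 0], ?_⟩
      intro b _ z hz hbz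
      by_cases hbb : b
      · have hz0 := hbz hbb
        subst hz0
        rw [if_neg (fun h => hb (h.2.1 hbb))]
        simp [Fin.sum_univ_succ, lchi, tpt, hbb]
      · rcases hz with rfl | rfl | rfl
        · rw [if_neg (fun h => by simp at h)]
          simp [Fin.sum_univ_succ, lchi, tpt, hbb]
        · rw [if_pos ⟨rfl, iff_of_false hbb hb⟩]
          simp [Fin.sum_univ_succ, lchi, tpt, hbb]
        · rw [if_neg (fun h => by simp at h)]
          simp [Fin.sum_univ_succ, lchi, tpt, hbb]
    · refine ⟨![0, 1 / 4, -1 / 4, -Complex.I / 4, Complex.I / 4], ?_⟩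
      intro b _ z hz hbz
      by_cases hbb : b
      · have hz0 := hbz hbb
        subst hz0
        rw [if_neg (fun h => by simp at h)]
        simp [Fin.sum_univ_succ, lchi, tpt, hbb]
        ring_nf
        try simp
      · rcases hz with rfl | rfl | rfl
        · rw [if_neg (fun h => by simp at h)]
          simp [Fin.sum_univ_succ, lchi, tpt, hbb]
          ring_nf
          try simp
          try norm_num
        · rw [if_neg (fun h => by simp at h)]
          simp [Fin.sum_univ_succ, lchi, tpt, hbb]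
          ring_nf
          try simp
        · rw [if_pos ⟨rfl, iff_of_false hbb hb⟩]
          simp [Fin.sum_univ_succ, lchi, tpt, hbb]
          ring_nf
          try simp
          try norm_num

/-- orthogonality of the characters -/
theorem exists_proj (η : Fin g → ℤ) (T : Finset (Fin g)) (hη : ∀ s, η s = -1 ∨ η s = 0 ∨ η s = 1)
    (hT : ∀ s ∈ T, η s = 0) :
    ∃ (ι : Type) (_ : Fintype ι) (c : ι → ℂ) (u : ι → Fin g → ℂ),
      ∀ (θ : Fin g → ℤ) (U : Finset (Fin g)), (∀ s, θ s = -1 ∨ θ s = 0 ∨ θ s = 1) →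
        (∀ s ∈ U, θ s = 0) →
        ∑ i, c i * chi θ U (u i) = if θ = η ∧ U = T then 1 else 0 := by
  choose k hk using fun s => exists_letter (s ∈ T) (η s) (hη s) (hT s)
  refine ⟨Fin g → Fin 5, inferInstance, fun i => ∏ s, k s (i s), fun i s => tpt (i s), ?_⟩
  intro θ U hθ hU
  have h1 : ∀ i : Fin g → Fin 5, (∏ s, k s (i s)) * chi θ U (fun s => tpt (i s)) =
      ∏ s, (k s (i s) * lchi (s ∈ U) (θ s) (tpt (i s))) := by
    intro i
    rw [Finset.prod_mul_distrib]
    rfl
  simp only [h1]
  have h2 := Finset.prod_univ_sum (fun _ : Fin g => (Finset.univ : Finset (Fin 5)))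
    (fun s j => k s j * lchi (s ∈ U) (θ s) (tpt j))
  rw [Fintype.piFinset_univ] at h2
  rw [← h2]
  have h3 : ∀ s, ∑ j, k s j * lchi (s ∈ U) (θ s) (tpt j) =
      if θ s = η s ∧ (s ∈ U ↔ s ∈ T) then (1 : ℂ) else 0 :=
    fun s => hk s (s ∈ U) (θ s) (hθ s) (hU s)
  simp only [h3]
  rw [Finset.prod_ite_zero, Finset.prod_const_one]
  by_cases h : θ = η ∧ U = T
  · obtain ⟨rfl, rfl⟩ := h
    rw [if_pos (by simp), if_pos ⟨rfl, rfl⟩]
  · rw [if_neg h, if_neg]
    intro h'
    apply h
    exact ⟨funext fun s => (h' s (Finset.mem_univ s)).1,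
      Finset.ext fun s => (h' s (Finset.mem_univ s)).2⟩

theorem comp (W : Submodule ℝ (Coh g 1)) (hW : ∀ u, ∀ z ∈ W, act u z ∈ W) {d : ℕ}
    (c : (Fin g → ℤ) × Finset (Fin g) → ℂ) (hz : ∑ p ∈ idx g d, c p • mo p.1 p.2 ∈ W)
    {η : Fin g → ℤ} {T : Finset (Fin g)} (h : (η, T) ∈ idx g d) :
    c (η, T) • mo η T + c (-η, T) • mo (-η) T ∈ W := by
  obtain ⟨h1, h2, h3⟩ := mem_idx.1 h
  obtain ⟨ι, _, e, u, he⟩ := exists_proj η T h1 h2
  have hmem : ∑ i, ((2 * (e i).re : ℝ) • act (u i) (∑ p ∈ idx g d, c p • mo p.1 p.2)) ∈ W :=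
    W.sum_mem fun i _ => W.smul_mem _ (hW _ _ hz)
  have hchi : ∀ p ∈ idx g d, ∑ i, (e i + conj (e i)) * chi p.1 p.2 (u i) =
      (if p = (η, T) then 1 else 0) + (if p = (-η, T) then (1 : ℂ) else 0) := by
    rintro ⟨θ, U⟩ hp
    obtain ⟨g1, g2, g3⟩ := mem_idx.1 hp
    have e1 := he θ U g1 g2
    have e2 := he (-θ) U (fun s => by rcases g1 s with h | h | h <;> simp [h])
      (fun s hs => by simp [g2 s hs])
    have e3 : ∑ i, conj (e i) * chi θ U (u i) = if -θ = η ∧ U = T then 1 else 0 := by
      have e4 := congrArg (starRingEnd ℂ) e2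
      rw [map_sum] at e4
      rw [show (if -θ = η ∧ U = T then (1 : ℂ) else 0) =
        conj (if -θ = η ∧ U = T then (1 : ℂ) else 0) by split_ifs <;> simp, ← e4]
      apply Finset.sum_congr rfl
      intro i _
      rw [map_mul, chi_neg, Complex.conj_conj]
    simp only [add_mul]
    rw [Finset.sum_add_distrib, e1, e3]
    simp only [Prod.mk.injEq, neg_eq_iff_eq_neg]
  have hsum : ∑ i, ((2 * (e i).re : ℝ) • act (u i) (∑ p ∈ idx g d, c p • mo p.1 p.2)) =
      c (η, T) • mo η T + c (-η, T) • mo (-η) T := by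
    have s1 : ∀ i, ((2 * (e i).re : ℝ) • act (u i) (∑ p ∈ idx g d, c p • mo p.1 p.2)) =
        ∑ p ∈ idx g d, (c p * ((e i + conj (e i)) * chi p.1 p.2 (u i))) • mo p.1 p.2 := by
      intro i
      rw [map_sum, Finset.smul_sum]
      apply Finset.sum_congr rfl
      intro p _
      rw [map_smul, act_mo, smul_smul]
      have e5 : ((2 * (e i).re : ℝ) • ((c p * chi p.1 p.2 (u i)) • mo p.1 p.2)) =
          (((2 * (e i).re : ℝ) : ℂ) * (c p * chi p.1 p.2 (u i))) • mo p.1 p.2 := by
        rw [← Complex.coe_smul (2 * (e i).re), smul_smul]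
      rw [e5]
      congr 1
      rw [Complex.add_conj]
      push_cast
      ring
    simp only [s1]
    rw [Finset.sum_comm]
    have s2 : ∀ p ∈ idx g d, ∑ i, (c p * ((e i + conj (e i)) * chi p.1 p.2 (u i))) • mo p.1 p.2 =
        (if p = (η, T) then c p • mo p.1 p.2 else 0) +
          (if p = (-η, T) then c p • mo p.1 p.2 else 0) := by
      intro p hp
      rw [← Finset.sum_smul, ← Finset.mul_sum, hchi p hp, mul_add, add_smul]
      congr 1
      · split_ifs <;> simp
      · split_ifs <;> simp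
    rw [Finset.sum_congr rfl s2, Finset.sum_add_distrib, Finset.sum_ite_eq', Finset.sum_ite_eq',
      if_pos h, if_pos (neg_mem_idx h)]
  rwa [hsum] at hmem

end Pc0b458V
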