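import Pool.Agent.Lib.Pc0b458V.Api

/-!
# Closed convex cones and real subspaces generated by classes of effective cycles
-/

open Finset ComplexConjugate

namespace Pc0b458V

section General

variable {M N : Type*} [AddCommGroup M] [Module ℝ M] [AddCommGroup N] [Module ℝ N]

/-- the closed convex cone generated by `S`, defined by duality -/
def cone (S : Set M) : Set M := {z | ∀ f : M →ₗ[ℝ] ℝ, (∀ x ∈ S, 0 ≤ f x) → 0 ≤ f z}

theorem subset_cone {S : Set M} {z : M} (hz : z ∈ S) : z ∈ cone S := fun _ hf => hf z hz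

theorem cone_zero (S : Set M) : (0 : M) ∈ cone S := fun f _ => by simp

theorem cone_add {S : Set M} {z w : M} (hz : z ∈ cone S) (hw : w ∈ cone S) : z + w ∈ cone S :=
  fun f hf => by rw [map_add]; exact add_nonneg (hz f hf) (hw f hf)

theorem cone_smul {S : Set M} {r : ℝ} (hr : 0 ≤ r) {z : M} (hz : z ∈ cone S) : r • z ∈ cone S :=
  fun f hf => by rw [map_smul, smul_eq_mul]; exact mul_nonneg hr (hz f hf)

theorem cone_map {S : Set M} {T : Set N} (φ : M →ₗ[ℝ] N) (h : ∀ x ∈ S, φ x ∈ cone T) {z : M}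
    (hz : z ∈ cone S) : φ z ∈ cone T := fun f hf => hz (f ∘ₗ φ) fun x hx => h x hx f hf

theorem cone_mul {B : Type*} [Ring B] [Algebra ℝ B] {S T U : Set B}
    (h : ∀ x ∈ S, ∀ y ∈ T, x * y ∈ U) {z w : B} (hz : z ∈ cone S) (hw : w ∈ cone T) :
    z * w ∈ cone U := by
  intro f hf
  have h1 : ∀ x ∈ S, 0 ≤ f (x * w) := by
    intro x hx
    have := hw (f ∘ₗ LinearMap.mulLeft ℝ x) (fun y hy => by
      simpa using hf _ (h x hx y hy))
    simpa using this
  have := hz (f ∘ₗ LinearMap.mulRight ℝ w) (fun x hx => by simpa using h1 x hx)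
  simpa using this

/-- a subspace is the intersection of the hyperplanes which contain it -/
theorem mem_of_dual (W : Submodule ℝ M) {z : M}
    (h : ∀ f : M →ₗ[ℝ] ℝ, (∀ x ∈ W, f x = 0) → f z = 0) : z ∈ W := by
  by_contra hz
  obtain ⟨f, hf, hW⟩ := Submodule.exists_dual_map_eq_bot_of_notMem hz inferInstance
  apply hf
  apply h f
  intro x hx
  have : f x ∈ W.map f := ⟨x, hx, rfl⟩
  rw [hW] at this
  simpa using this

end General

namespace CMAb

variable (A : CMAb)

/-- the closed cone generated by the classes of effective cycles on `A` -/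
def E1 (i : ℕ) : Set (Coh A.g 1) := cone (A.eff i)

/-- the closed cone generated by the classes of effective cycles on `A × A` -/
def E2 (i : ℕ) : Set (Coh A.g 2) := cone (A.eff2 i)

/-- the real span of the classes of cycles on `A` -/
noncomputable def R1 (i : ℕ) : Submodule ℝ (Coh A.g 1) := Submodule.span ℝ (A.eff i)

/-- the real span of the classes of cycles on `A × A` -/
noncomputable def R2 (i : ℕ) : Submodule ℝ (Coh A.g 2) := Submodule.span ℝ (A.eff2 i)

variable {A}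

theorem E1_add {i : ℕ} {z w : Coh A.g 1} (hz : z ∈ A.E1 i) (hw : w ∈ A.E1 i) : z + w ∈ A.E1 i :=
  cone_add hz hw

theorem E1_smul {i : ℕ} {r : ℝ} (hr : 0 ≤ r) {z : Coh A.g 1} (hz : z ∈ A.E1 i) :
    (r : ℂ) • z ∈ A.E1 i := by
  have := cone_smul hr hz
  exact this

theorem E1_mul {i j : ℕ} {z w : Coh A.g 1} (hz : z ∈ A.E1 i) (hw : w ∈ A.E1 j) :
    z * w ∈ A.E1 (i + j) := cone_mul (fun x hx y hy => A.mul_mem i j x hx y hy) hz hw

theorem E2_mul {i j : ℕ} {z w : Coh A.g 2} (hz : z ∈ A.E2 i) (hw : w ∈ A.E2 j) :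
    z * w ∈ A.E2 (i + j) := cone_mul (fun x hx y hy => A.mul_mem2 i j x hx y hy) hz hw

theorem one_mem_E1 : (1 : Coh A.g 1) ∈ A.E1 0 := subset_cone A.one_mem

theorem pol_mem_E1 : pol A.g ∈ A.E1 1 := subset_cone A.pol_mem

theorem pol_pow_mem_eff (i : ℕ) : pol A.g ^ i ∈ A.eff i := by
  induction i with
  | zero => simpa using A.one_mem
  | succ i ih => rw [pow_succ]; exact A.mul_mem i 1 _ ih _ A.pol_mem

theorem pol_pow_mem_E1 (i : ℕ) : pol A.g ^ i ∈ A.E1 i := subset_cone (pol_pow_mem_eff i)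

theorem R1_smul {i : ℕ} (r : ℝ) {z : Coh A.g 1} (hz : z ∈ A.R1 i) : (r : ℂ) • z ∈ A.R1 i :=
  (A.R1 i).smul_mem r hz

theorem R1_mul {i j : ℕ} {z w : Coh A.g 1} (hz : z ∈ A.R1 i) (hw : w ∈ A.R1 j) :
    z * w ∈ A.R1 (i + j) := by
  have : A.R1 i * A.R1 j ≤ A.R1 (i + j) := by
    rw [R1, R1, Submodule.span_mul_span]
    apply Submodule.span_mono
    rintro _ ⟨x, hx, y, hy, rfl⟩
    exact A.mul_mem i j x hx y hy
  exact this (Submodule.mul_mem_mul hz hw)

theorem R2_mul {i j : ℕ} {z w : Coh A.g 2} (hz : z ∈ A.R2 i) (hw : w ∈ A.R2 j) :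
    z * w ∈ A.R2 (i + j) := by
  have : A.R2 i * A.R2 j ≤ A.R2 (i + j) := by
    rw [R2, R2, Submodule.span_mul_span]
    apply Submodule.span_mono
    rintro _ ⟨x, hx, y, hy, rfl⟩
    exact A.mul_mem2 i j x hx y hy
  exact this (Submodule.mul_mem_mul hz hw)

theorem R1_gr {i : ℕ} {z : Coh A.g 1} (hz : z ∈ A.R1 i) : z ∈ gr A.g 1 (2 * i) := by
  have h : A.R1 i ≤ (gr A.g 1 (2 * i)).restrictScalars ℝ :=
    Submodule.span_le.2 fun x hx => A.eff_gr i x hx
  exact h hz

theorem gys_E2 {i : ℕ} {z : Coh A.g 2} (hz : z ∈ A.E2 (i + A.g)) : A.gys z ∈ A.E1 i :=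
  cone_map (A.gys.restrictScalars ℝ) (fun x hx => subset_cone (A.push i x hx)) hz

theorem gys_R2 {i : ℕ} {z : Coh A.g 2} (hz : z ∈ A.R2 (i + A.g)) : A.gys z ∈ A.R1 i := by
  have h : A.R2 (i + A.g) ≤ (A.R1 i).comap (A.gys.restrictScalars ℝ) :=
    Submodule.span_le.2 fun x hx => Submodule.subset_span (A.push i x hx)
  exact h hz

theorem int_E1 {z : Coh A.g 1} (hz : z ∈ A.E1 A.g) : ∃ r : ℝ, 0 ≤ r ∧ A.int z = r := by
  have hre := hz (Complex.reLm ∘ₗ A.int.restrictScalars ℝ) (fun x hx => by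
    obtain ⟨r, hr, h⟩ := A.int_eff x hx
    simp only [LinearMap.comp_apply, LinearMap.restrictScalars_apply, h, Complex.reLm_coe]
    simpa using hr)
  have him := hz (Complex.imLm ∘ₗ A.int.restrictScalars ℝ) (fun x hx => by
    obtain ⟨r, hr, h⟩ := A.int_eff x hx
    simp only [LinearMap.comp_apply, LinearMap.restrictScalars_apply, h, Complex.imLm_coe]
    simp)
  have him' := hz (-(Complex.imLm ∘ₗ A.int.restrictScalars ℝ)) (fun x hx => by
    obtain ⟨r, hr, h⟩ := A.int_eff x hx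
    simp only [LinearMap.neg_apply, LinearMap.comp_apply, LinearMap.restrictScalars_apply, h,
      Complex.imLm_coe]
    simp)
  simp only [LinearMap.neg_apply, LinearMap.comp_apply, LinearMap.restrictScalars_apply,
    Complex.reLm_coe, Complex.imLm_coe] at hre him him'
  refine ⟨(A.int z).re, hre, ?_⟩
  apply Complex.ext
  · simp
  · simp only [Complex.ofReal_im]
    linarith

theorem int_R1 {z : Coh A.g 1} (hz : z ∈ A.R1 A.g) : ∃ r : ℝ, A.int z = r := by
  have h : A.R1 A.g ≤ (LinearMap.ker (Complex.imLm ∘ₗ A.int.restrictScalars ℝ)) := by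
    refine Submodule.span_le.2 fun x hx => ?_
    obtain ⟨r, hr, h⟩ := A.int_eff x hx
    simp only [SetLike.mem_coe, LinearMap.mem_ker, LinearMap.comp_apply,
      LinearMap.restrictScalars_apply, h, Complex.imLm_coe]
    simp
  have h' := h hz
  simp only [LinearMap.mem_ker, LinearMap.comp_apply, LinearMap.restrictScalars_apply,
    Complex.imLm_coe] at h'
  exact ⟨(A.int z).re, by apply Complex.ext <;> simp [h']⟩

/-- a class of a real cycle plus a multiple of the power of the polarisation is effective -/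
theorem bound_R1 {i : ℕ} {z : Coh A.g 1} (hz : z ∈ A.R1 i) :
    ∃ r : ℝ, 0 < r ∧ (r : ℂ) • pol A.g ^ i + z ∈ A.E1 i := by
  have key : ∀ x ∈ A.eff i, ∀ c : ℝ, ∃ r : ℝ, 0 < r ∧
      (r : ℂ) • pol A.g ^ i + (c : ℂ) • x ∈ A.E1 i := by
    intro x hx c
    obtain ⟨q, hq⟩ := A.bound i x hx
    rcases le_total 0 c with hc | hc
    · refine ⟨1, one_pos, ?_⟩
      exact E1_add (E1_smul zero_le_one (pol_pow_mem_E1 i)) (E1_smul hc (subset_cone hx))
    · refine ⟨|(-c) * q| + 1, by positivity, ?_⟩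
      have h1 : ((-c : ℝ) : ℂ) • ((q : ℂ) • pol A.g ^ i - x) ∈ A.E1 i :=
        E1_smul (by linarith) (subset_cone hq)
      have h2 : ((|(-c) * q| + 1 - (-c) * q : ℝ) : ℂ) • pol A.g ^ i ∈ A.E1 i :=
        E1_smul (by linarith [le_abs_self ((-c) * q)]) (pol_pow_mem_E1 i)
      have := E1_add h1 h2
      convert this using 1
      push_cast
      module
  suffices h : ∀ c : ℝ, ∃ r : ℝ, 0 < r ∧ (r : ℂ) • pol A.g ^ i + (c : ℂ) • z ∈ A.E1 i by
    obtain ⟨r, hr, h⟩ := h 1
    exact ⟨r, hr, by simpa using h⟩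
  induction hz using Submodule.span_induction with
  | mem x hx => exact key x hx
  | zero => exact fun c => ⟨1, one_pos, by simpa using pol_pow_mem_E1 i⟩
  | add x y _ _ hx hy =>
    intro c
    obtain ⟨r, hr, h⟩ := hx c
    obtain ⟨r', hr', h'⟩ := hy c
    refine ⟨r + r', by positivity, ?_⟩
    have := E1_add h h'
    convert this using 1
    push_cast
    module
  | smul d x _ h =>
    intro c
    obtain ⟨r, hr, h⟩ := h (c * d)
    refine ⟨r, hr, ?_⟩
    convert h using 2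
    push_cast
    rw [mul_smul]
    rfl

end CMAb

end Pc0b458V
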