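import Pool.Agent.Lib.Pc0b458V.Cone

/-!
# Continuity of pull-backs in the coefficients, and closure of the cones under pull-backs

`pb_cont`: show first, by `coh_induction`, that for every `z` there are finitely many `w i` and
continuous functions `p i : (Fin m → Fin g → ℂ) → ℂ` with `pb v z = ∑ i, p i v • w i` for all `v`
(for instance: `∃ (n : ℕ) (p : Fin n → _ → ℂ) (w : Fin n → Coh g m), (∀ i, Continuous (p i)) ∧ ...`;
scalars: one term; vectors: `pb_iota`, and `pbOne v x` is the sum over the indices `i` of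
`(pbOne v x i) • Pi.single i 1`, where `pbOne v x i` is continuous in `v`; products: products of the
terms, indexed by `Fin n × Fin n'`; it is easier to allow arbitrary finite index types). Then
`f (c • w) = c.re * f w + c.im * f (Complex.I • w)` is continuous in `c`, for a real linear `f`.

`pull_E1`: for a linear form `f` which is nonnegative on `eff2 i` and `x ∈ eff i`, the set of the
`v` with `0 ≤ f (pb v x)` is closed and contains `![a, b]` for `a, b ∈ A.R`, which are dense; so it
is everything, and `f ∘ pb v` is nonnegative on `eff i`, hence on `E1 i`.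
`pull_R1` is the same for the linear forms which vanish on `R2 i`, with `mem_of_dual`.
-/

open Finset ComplexConjugate

namespace Pc0b458V

variable {g m : ℕ}

/-- the pull-back of a fixed class depends continuously on the coefficients -/
def Nice (z : Coh g 1) : Prop :=
  ∃ (ι : Type) (_ : Fintype ι) (p : ι → (Fin m → Fin g → ℂ) → ℂ) (w : ι → Coh g m),
    (∀ i, Continuous (p i)) ∧ ∀ v, pb v z = ∑ i, p i v • w i

theorem nice (z : Coh g 1) : Nice (m := m) z := by
  refine coh_induction (P := Nice (m := m)) ?_ ?_ ?_ ?_ z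
  · intro r
    refine ⟨Unit, inferInstance, fun _ _ => r, fun _ => 1, fun _ => continuous_const, ?_⟩
    intro v
    rw [AlgHom.commutes]
    simp [Algebra.algebraMap_eq_smul_one]
  · intro x
    refine ⟨Fin g × Bool × Fin m, inferInstance, fun i v => pbOne v x i,
      fun i => iota g m (Pi.single i 1), ?_, ?_⟩
    · rintro ⟨s, b, j⟩
      simp only [pbOne, LinearMap.coe_mk, AddHom.coe_mk]
      have h1 : Continuous fun v : Fin m → Fin g → ℂ => v j s :=
        (continuous_apply s).comp (continuous_apply j)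
      cases b
      · simp only [Bool.false_eq_true, if_false]
        exact (Complex.continuous_conj.comp h1).mul continuous_const
      · simp only [if_true]
        exact h1.mul continuous_const
    · intro v
      rw [pb_iota]
      have hx : pbOne v x = ∑ i, pbOne v x i • (Pi.single i 1 : Fin g × Bool × Fin m → ℂ) := by
        funext j
        simp [Finset.sum_apply, Pi.single_apply]
      conv_lhs => rw [hx]
      simp only [map_sum, map_smul]
  · rintro a b ⟨ι, _, p, w, hp, h⟩ ⟨ι', _, p', w', hp', h'⟩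
    refine ⟨ι × ι', inferInstance, fun i v => p i.1 v * p' i.2 v, fun i => w i.1 * w' i.2,
      fun i => (hp i.1).mul (hp' i.2), ?_⟩
    intro v
    rw [map_mul, h, h', Finset.sum_mul_sum, Fintype.sum_prod_type]
    refine Finset.sum_congr rfl fun i _ => Finset.sum_congr rfl fun j _ => ?_
    rw [smul_mul_smul_comm]
  · rintro a b ⟨ι, _, p, w, hp, h⟩ ⟨ι', _, p', w', hp', h'⟩
    refine ⟨ι ⊕ ι', inferInstance, Sum.elim p p', Sum.elim w w', ?_, ?_⟩
    · rintro (i | i)
      · exact hp i
      · exact hp' i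
    · intro v
      rw [map_add, h, h', Fintype.sum_sum_type]
      simp

theorem pb_cont (f : Coh g m →ₗ[ℝ] ℝ) (z : Coh g 1) :
    Continuous fun v : Fin m → Fin g → ℂ => f (pb v z) := by
  obtain ⟨ι, _, p, w, hp, h⟩ := nice (m := m) z
  have h2 : ∀ (c : ℂ) (i : ι), f (c • w i) = c.re * f (w i) + c.im * f (Complex.I • w i) := by
    intro c i
    have : c • w i = (c.re : ℝ) • w i + (c.im : ℝ) • (Complex.I • w i) := by
      change c • w i = (c.re : ℂ) • w i + (c.im : ℂ) • (Complex.I • w i)
      rw [smul_smul, ← add_smul, Complex.re_add_im]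
    rw [this, map_add, map_smul, map_smul, smul_eq_mul, smul_eq_mul]
  have h3 : (fun v : Fin m → Fin g → ℂ => f (pb v z)) = fun v =>
      ∑ i, ((p i v).re * f (w i) + (p i v).im * f (Complex.I • w i)) := by
    funext v
    rw [h, map_sum]
    exact Finset.sum_congr rfl fun i _ => h2 (p i v) i
  rw [h3]
  refine continuous_finsetSum _ fun i _ => ?_
  exact ((Complex.continuous_re.comp (hp i)).mul continuous_const).add
    ((Complex.continuous_im.comp (hp i)).mul continuous_const)

namespace CMAb

variable {A : CMAb}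

theorem dense_pairs : Dense {v : Fin 2 → Fin A.g → ℂ | v 0 ∈ A.R ∧ v 1 ∈ A.R} := by
  have h := A.dense
  have : {v : Fin 2 → Fin A.g → ℂ | v 0 ∈ A.R ∧ v 1 ∈ A.R} =
      Set.pi Set.univ fun _ : Fin 2 => A.R := by
    ext v
    simp [Fin.forall_fin_two]
  rw [this]
  exact dense_pi Set.univ fun _ _ => h

theorem pull_nonneg {i : ℕ} {f : Coh A.g 2 →ₗ[ℝ] ℝ} (hf : ∀ x ∈ A.eff2 i, 0 ≤ f x)
    (v : Fin 2 → Fin A.g → ℂ) {x : Coh A.g 1} (hx : x ∈ A.eff i) : 0 ≤ f (pb v x) := by
  have hc : IsClosed {v : Fin 2 → Fin A.g → ℂ | 0 ≤ f (pb v x)} :=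
    isClosed_le continuous_const (pb_cont f x)
  have hs : {v : Fin 2 → Fin A.g → ℂ | v 0 ∈ A.R ∧ v 1 ∈ A.R} ⊆ {v | 0 ≤ f (pb v x)} := by
    rintro v ⟨h0, h1⟩
    have hv : v = ![v 0, v 1] := by
      funext j
      fin_cases j <;> rfl
    rw [Set.mem_ofPred_eq, hv]
    exact hf _ (A.pull _ h0 _ h1 i x hx)
  have := (dense_pairs (A := A)).closure_eq ▸ closure_minimal hs hc
  exact this (Set.mem_univ v)

theorem pull_E1 (v : Fin 2 → Fin A.g → ℂ) {i : ℕ} {z : Coh A.g 1} (hz : z ∈ A.E1 i) :
    pb v z ∈ A.E2 i := by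
  intro f hf
  exact hz (f ∘ₗ (pb v).toLinearMap.restrictScalars ℝ) fun x hx => pull_nonneg hf v hx

theorem pull_R1 (v : Fin 2 → Fin A.g → ℂ) {i : ℕ} {z : Coh A.g 1} (hz : z ∈ A.R1 i) :
    pb v z ∈ A.R2 i := by
  apply mem_of_dual
  intro f hf
  have h1 : ∀ x ∈ A.eff i, f (pb v x) = 0 := by
    intro x hx
    have a1 := pull_nonneg (f := f) (fun y hy => (hf y (Submodule.subset_span hy)).ge) v hx
    have a2 := pull_nonneg (f := -f) (fun y hy => by
      rw [LinearMap.neg_apply, hf y (Submodule.subset_span hy), neg_zero]) v hx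
    rw [LinearMap.neg_apply] at a2
    linarith
  have h2 : A.R1 i ≤ LinearMap.ker (f ∘ₗ (pb v).toLinearMap.restrictScalars ℝ) :=
    Submodule.span_le.2 fun x hx => h1 x hx
  exact h2 hz

end CMAb

end Pc0b458V
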