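import Pool.Agent.Lib.Pc0b458V.Low

/-!
# Local computations

For `b : Bool` and `s` the vectors `vX b s r t = r • gen s b 0 + t • gen s b 1` of `Coh g 2`. Write
`x, x'` for `gen s b 0, gen s b 1` and `y, y'` for `gen s (!b) 0, gen s (!b) 1`, and
`X, X1, X2` for `vX b s r t`, ..., `Y, Y1` for `vX (!b) s p q`, .... Then
`x' * y' = sb b • pr2 (dd s)` and `x * y = sb b • pr1 (dd s)`, and a product of generators with one
or no factor among `x', y'` is in `Low g 2` (it is, up to sign, `pr1 _ * pr2 (gen _ _ _)` or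
`pr1 _ * pr2 1`).
-/

open Finset ComplexConjugate

namespace Pc0b458V

variable {g : ℕ}

/-- the sign of `b` -/
def sb (b : Bool) : ℂ := if b then 1 else -1

/-- the vectors for `s` and `b` -/
noncomputable def vX (b : Bool) (s : Fin g) (r t : ℂ) : Coh g 2 := r • gen s b 0 + t • gen s b 1

theorem vX_eq (b : Bool) (s : Fin g) (r t : ℂ) :
    vX b s r t = iota g 2 (r • Pi.single (s, b, 0) 1 + t • Pi.single (s, b, 1) 1) := by
  rw [map_add, map_smul, map_smul]
  rfl

theorem vX_mem (b : Bool) (s : Fin g) (r t : ℂ) : vX b s r t ∈ gr g 2 1 := by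
  rw [vX_eq]
  exact iota_mem_gr _

theorem vX_anti (b c : Bool) (s s' : Fin g) (r t r₁ t₁ : ℂ) :
    vX b s r t * vX c s' r₁ t₁ = -(vX c s' r₁ t₁ * vX b s r t) := by
  rw [vX_eq, vX_eq]
  exact iota_anti _ _

theorem vX_sq (b : Bool) (s : Fin g) (r t : ℂ) : vX b s r t * vX b s r t = 0 := by
  rw [vX_eq]
  exact iota_sq _

/-- the product of two vectors is central -/
theorem vX_comm (b c : Bool) (s s' : Fin g) (r t r₁ t₁ : ℂ) (z : Coh g 2) :
    vX b s r t * vX c s' r₁ t₁ * z = z * (vX b s r t * vX c s' r₁ t₁) := by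
  have h : vX b s r t * vX c s' r₁ t₁ ∈ gr g 2 (1 + 1) :=
    mul_mem_gr (vX_mem b s r t) (vX_mem c s' r₁ t₁)
  have h' : vX b s r t * vX c s' r₁ t₁ ∈ gr g 2 (2 * 1) := h
  exact even_comm h' z

theorem sb_sq (b : Bool) : sb b * sb b = 1 := by
  cases b <;> simp [sb]

theorem sb_not (b : Bool) : sb (!b) = -sb b := by
  cases b <;> simp [sb]

theorem gen_eq_pr1 (s : Fin g) (b : Bool) : (gen s b 0 : Coh g 2) = pr1 (gen s b 0) :=
  (pr1_gen s b).symm

theorem gen_eq_pr2 (s : Fin g) (b : Bool) : (gen s b 1 : Coh g 2) = pr2 (gen s b 0) :=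
  (pr2_gen s b).symm

theorem gen_mul_not (b : Bool) (s : Fin g) :
    (gen s b 0 : Coh g 1) * gen s (!b) 0 = sb b • dd s := by
  cases b
  · rw [gen_anti]
    simp [sb, dd]
  · simp [sb, dd]

theorem gen_mul_not0 (b : Bool) (s : Fin g) :
    (gen s b 0 : Coh g 2) * gen s (!b) 0 = sb b • pr1 (dd s) := by
  rw [gen_eq_pr1, gen_eq_pr1, ← map_mul, gen_mul_not, map_smul]

theorem gen_mul_not1 (b : Bool) (s : Fin g) :
    (gen s b 1 : Coh g 2) * gen s (!b) 1 = sb b • pr2 (dd s) := by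
  rw [gen_eq_pr2, gen_eq_pr2, ← map_mul, gen_mul_not, map_smul]

theorem vX_mul_same (b : Bool) (s : Fin g) (r t r₁ t₁ : ℂ) :
    vX b s r t * vX b s r₁ t₁ = (r * t₁ - t * r₁) • (gen s b 0 * gen s b 1 : Coh g 2) := by
  have h : (gen s b 1 : Coh g 2) * gen s b 0 = -(gen s b 0 * gen s b 1) := gen_anti _ _ _ _ _ _
  rw [vX, vX]
  simp only [add_mul, mul_add, smul_mul_assoc, mul_smul_comm, gen_sq, smul_zero, h]
  module

theorem vX_mul_not (b : Bool) (s : Fin g) (r t p q : ℂ) :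
    vX b s r t * vX (!b) s p q = (r * p * sb b) • (pr1 (dd s) : Coh g 2) +
      (r * q) • (gen s b 0 * gen s (!b) 1 : Coh g 2) -
      (t * p) • (gen s (!b) 0 * gen s b 1 : Coh g 2) +
      (t * q * sb b) • (pr2 (dd s) : Coh g 2) := by
  have h : (gen s b 1 : Coh g 2) * gen s (!b) 0 = -(gen s (!b) 0 * gen s b 1) :=
    gen_anti _ _ _ _ _ _
  rw [vX, vX]
  simp only [add_mul, mul_add, smul_mul_assoc, mul_smul_comm, h, gen_mul_not0, gen_mul_not1]
  module

theorem low_pr1 (x : Coh g 1) : (pr1 x : Coh g 2) ∈ Low g 2 := by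
  have h := mem_low (g := g) (k := 2) (l := 0) (by norm_num) x one_mem_gr
  rw [map_one, mul_one] at h
  exact h

theorem low_gen (x : Coh g 1) (s : Fin g) (b : Bool) :
    (pr1 x * gen s b 1 : Coh g 2) ∈ Low g 2 := by
  rw [gen_eq_pr2]
  exact mem_low (by norm_num) x (gen_mem_gr s b 0)

theorem local_iff {s : Fin g} {ρ : Coh g 2} {a : Coh g 1} :
    Local s ρ a ↔ ρ - pr1 a * pr2 (dd s) ∈ Low g 2 := Iff.rfl

theorem local_add {s : Fin g} {ρ ρ' : Coh g 2} {a a' : Coh g 1} (h : Local s ρ a)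
    (h' : Local s ρ' a') : Local s (ρ + ρ') (a + a') := by
  rw [local_iff] at *
  have e : ρ + ρ' - pr1 (a + a') * pr2 (dd s) =
      (ρ - pr1 a * pr2 (dd s)) + (ρ' - pr1 a' * pr2 (dd s)) := by
    rw [map_add, add_mul]
    abel
  rw [e]
  exact add_mem h h'

theorem local_smul {s : Fin g} {ρ : Coh g 2} {a : Coh g 1} (c : ℂ) (h : Local s ρ a) :
    Local s (c • ρ) (c • a) := by
  rw [local_iff] at *
  have e : c • ρ - pr1 (c • a) * pr2 (dd s) = c • (ρ - pr1 a * pr2 (dd s)) := by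
    rw [map_smul, smul_mul_assoc, smul_sub]
  rw [e]
  exact Submodule.smul_mem _ _ h

theorem local_of_low {s : Fin g} {ρ : Coh g 2} (h : ρ ∈ Low g 2) : Local s ρ 0 := by
  rw [local_iff, map_zero, zero_mul, sub_zero]
  exact h

/-- the second factor is integrated -/
theorem local_id (s : Fin g) (a : Coh g 1) : Local s (pr1 a * pr2 (dd s)) a := by
  rw [local_iff, sub_self]
  exact zero_mem _

theorem local_zero (s : Fin g) : Local s (0 : Coh g 2) 0 :=
  local_of_low (zero_mem _)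

theorem local_one (s : Fin g) : Local s (1 : Coh g 2) 0 := by
  apply local_of_low
  have h := low_pr1 (1 : Coh g 1)
  rw [map_one] at h
  exact h

theorem local_X (b : Bool) (s : Fin g) (r t : ℂ) : Local s (vX b s r t) 0 := by
  apply local_of_low
  have h1 := low_pr1 (gen s b 0 : Coh g 1)
  have h2 := low_gen (1 : Coh g 1) s b
  rw [pr1_gen] at h1
  rw [map_one, one_mul] at h2
  exact add_mem (Submodule.smul_mem _ _ h1) (Submodule.smul_mem _ _ h2)

theorem local_XX (b : Bool) (s : Fin g) (r t r₁ t₁ : ℂ) :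
    Local s (vX b s r t * vX b s r₁ t₁) 0 := by
  apply local_of_low
  rw [vX_mul_same]
  have h2 := low_gen (gen s b 0 : Coh g 1) s b
  rw [pr1_gen] at h2
  exact Submodule.smul_mem _ _ h2

/-- `X * Y` -/
theorem local_XY (b : Bool) (s : Fin g) (r t p q : ℂ) :
    Local s (vX b s r t * vX (!b) s p q) ((sb b * (t * q)) • (1 : Coh g 1)) := by
  rw [local_iff, vX_mul_not, map_smul, map_one, smul_mul_assoc, one_mul]
  have h1 := low_pr1 (dd s : Coh g 1)
  have h2 := low_gen (gen s b 0 : Coh g 1) s (!b)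
  have h3 := low_gen (gen s (!b) 0 : Coh g 1) s b
  rw [pr1_gen] at h2 h3
  have e : (r * p * sb b) • (pr1 (dd s) : Coh g 2) +
      (r * q) • (gen s b 0 * gen s (!b) 1 : Coh g 2) -
      (t * p) • (gen s (!b) 0 * gen s b 1 : Coh g 2) +
      (t * q * sb b) • (pr2 (dd s) : Coh g 2) - (sb b * (t * q)) • pr2 (dd s) =
      (r * p * sb b) • (pr1 (dd s) : Coh g 2) +
      (r * q) • (gen s b 0 * gen s (!b) 1 : Coh g 2) -
      (t * p) • (gen s (!b) 0 * gen s b 1 : Coh g 2) := by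
    rw [mul_comm (sb b)]
    abel
  rw [e]
  exact sub_mem (add_mem (Submodule.smul_mem _ _ h1) (Submodule.smul_mem _ _ h2))
    (Submodule.smul_mem _ _ h3)

/-- `X * X1 * Y` -/
theorem local_XXY (b : Bool) (s : Fin g) (r t r₁ t₁ p q : ℂ) :
    Local s (vX b s r t * vX b s r₁ t₁ * vX (!b) s p q)
      ((sb b * (r * t₁ - t * r₁) * q) • gen s b 0) := by
  have e1 : (gen s b 1 : Coh g 2) * gen s (!b) 0 = -(gen s (!b) 0 * gen s b 1) :=
    gen_anti _ _ _ _ _ _
  have e2 : (gen s b 0 * gen s b 1 : Coh g 2) * vX (!b) s p q =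
      -((p * sb b) • (pr1 (dd s) * gen s b 1 : Coh g 2)) +
        (q * sb b) • (pr1 (gen s b 0) * pr2 (dd s) : Coh g 2) := by
    rw [vX, mul_add, mul_smul_comm, mul_smul_comm, mul_assoc, e1, mul_neg, ← mul_assoc,
      gen_mul_not0, mul_assoc, gen_mul_not1, pr1_gen]
    simp only [smul_mul_assoc, mul_smul_comm, smul_neg, smul_smul]
  have h2 := low_gen (dd s : Coh g 1) s b
  rw [vX_mul_same, smul_mul_assoc, e2]
  have h3 : Local s (-((p * sb b) • (pr1 (dd s) * gen s b 1 : Coh g 2)) +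
        (q * sb b) • (pr1 (gen s b 0) * pr2 (dd s) : Coh g 2)) (0 + (q * sb b) • gen s b 0) :=
    local_add (local_of_low (neg_mem (Submodule.smul_mem _ _ h2)))
      (local_smul _ (local_id s _))
  have h4 := local_smul (r * t₁ - t * r₁) h3
  rw [zero_add, smul_smul] at h4
  have e3 : sb b * (r * t₁ - t * r₁) * q = (r * t₁ - t * r₁) * (q * sb b) := by ring
  rw [e3]
  exact h4

/-- `X * Y * Y1` -/
theorem local_XYY (b : Bool) (s : Fin g) (r t p q p₁ q₁ : ℂ) :
    Local s (vX b s r t * vX (!b) s p q * vX (!b) s p₁ q₁)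
      (-(sb b * t * (p * q₁ - q * p₁)) • gen s (!b) 0) := by
  have e0 : vX b s r t * vX (!b) s p q * vX (!b) s p₁ q₁ =
      vX (!b) s p q * vX (!b) s p₁ q₁ * vX b s r t := by
    rw [mul_assoc, ← vX_comm]
  have h := local_XXY (!b) s p q p₁ q₁ r t
  rw [Bool.not_not, sb_not] at h
  rw [e0]
  have e3 : -(sb b * t * (p * q₁ - q * p₁)) = -sb b * (p * q₁ - q * p₁) * t := by ring
  rw [e3]
  exact h

/-- `X * X1 * Y * Y1` -/
theorem local_XXYY (b : Bool) (s : Fin g) (r t r₁ t₁ p q p₁ q₁ : ℂ) :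
    Local s (vX b s r t * vX b s r₁ t₁ * vX (!b) s p q * vX (!b) s p₁ q₁)
      (-((r * t₁ - t * r₁) * (p * q₁ - q * p₁)) • dd s) := by
  have e1 : (gen s b 1 : Coh g 2) * gen s (!b) 0 = -(gen s (!b) 0 * gen s b 1) :=
    gen_anti _ _ _ _ _ _
  have e2 : (gen s b 0 * gen s b 1 : Coh g 2) * (gen s (!b) 0 * gen s (!b) 1) =
      -(pr1 (dd s) * pr2 (dd s) : Coh g 2) := by
    have : (gen s b 0 * gen s b 1 : Coh g 2) * (gen s (!b) 0 * gen s (!b) 1) =
        -((gen s b 0 * gen s (!b) 0) * (gen s b 1 * gen s (!b) 1)) := by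
      rw [mul_assoc, ← mul_assoc (gen s b 1), e1, neg_mul, mul_neg]
      simp only [mul_assoc]
    rw [this, gen_mul_not0, gen_mul_not1, smul_mul_smul_comm, sb_sq, one_smul]
  rw [mul_assoc (vX b s r t * vX b s r₁ t₁), vX_mul_same, vX_mul_same, smul_mul_smul_comm, e2,
    smul_neg, ← neg_smul]
  exact local_smul _ (local_id s _)

/-- three vectors in the plane -/
theorem vX_three (b : Bool) (s : Fin g) (r t r₁ t₁ r₂ t₂ : ℂ) :
    vX b s r t * vX b s r₁ t₁ * vX b s r₂ t₂ = 0 := by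
  have e1 : (gen s b 1 : Coh g 2) * gen s b 0 = -(gen s b 0 * gen s b 1) :=
    gen_anti _ _ _ _ _ _
  have e2 : (gen s b 0 * gen s b 1 : Coh g 2) * gen s b 0 = 0 := by
    rw [mul_assoc, e1, mul_neg, ← mul_assoc, gen_sq, zero_mul, neg_zero]
  have e3 : (gen s b 0 * gen s b 1 : Coh g 2) * gen s b 1 = 0 := by
    rw [mul_assoc, gen_sq, mul_zero]
  rw [vX_mul_same, smul_mul_assoc, vX, mul_add, mul_smul_comm, mul_smul_comm, e2, e3]
  simp

end Pc0b458V
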