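import Pool.Agent.Lib.Pc0b458V.ActM
import Pool.Agent.Lib.Pc0b458V.LocalA
import Pool.Agent.Lib.Pc0b458V.Comp
import Pool.Agent.Lib.Pc0b458V.PolPow

/-!
# Contraction

Let `K = pr2 (dT Tᶜ)`. For `z = mo η T`, with `T` disjoint from the support of `η`,
`gys (pb ![1, 1] z * K) = top • mo η ∅`: write the product as `lprod ρ` with
`ρ s = pb ![1, 1] (lt η T s) * (if s ∈ T then 1 else pr2 (dd s))` (`lprod_mul_comm`, the second
factors are central) and use `gys_lprod`: for `s ∈ T`, `pb ![1, 1] (dd s)` is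
`vX true s 1 1 * vX false s 1 1`, and `local_XY` gives `1`; for `s ∉ T` the terms with a generator of
the second factor are killed by `pr2 (dd s)`, so `ρ s = pr1 (lt η T s) * pr2 (dd s)`.
And `K ∈ R2 (g - |T|)`, so that `contr` follows (divide by `top`, which is real and positive).
`top_pos`: `pol g ^ g = g! • dT univ` (`pol_pow`), `int_eff`, `int_pol`, `pol_pow_mem_eff`.
-/

open Finset ComplexConjugate

namespace Pc0b458V

namespace CMAb

variable {A : CMAb}

theorem top_pos : ∃ r : ℝ, 0 < r ∧ A.top = r := by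
  obtain ⟨q, hq, h⟩ := int_pol_pos (A := A)
  have h1 : (en univ A.g : Coh A.g 1) = dT univ := by
    rw [en]
    have : powersetCard A.g (univ : Finset (Fin A.g)) = {univ} := by
      have h := Finset.powersetCard_self (univ : Finset (Fin A.g))
      rwa [Finset.card_univ, Fintype.card_fin] at h
    rw [this, Finset.sum_singleton]
  rw [pol_pow, h1, map_smul, smul_eq_mul] at h
  have hf : (0 : ℝ) < (A.g.factorial : ℝ) := by exact_mod_cast A.g.factorial_pos
  refine ⟨q / A.g.factorial, by positivity, ?_⟩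
  rw [top]
  push_cast
  rw [eq_div_iff (by exact_mod_cast hf.ne'), mul_comm]
  exact h

theorem gen_pr2_dd (s : Fin A.g) (b : Bool) :
    pb ![1, 1] (gen s b 0) * pr2 (dd s) = pr1 (gen s b 0) * pr2 (dd s) := by
  have h1 : pb ![1, 1] (gen s b 0) = (gen s b 0 : Coh A.g 2) + gen s b 1 := by
    cases b <;> simp [pb_gen, Fin.sum_univ_two]
  have h2 : pr2 (dd s) = (gen s true 1 : Coh A.g 2) * gen s false 1 := by
    rw [dd, map_mul, pr2_gen, pr2_gen]
  have h3 : (gen s b 1 : Coh A.g 2) * (gen s true 1 * gen s false 1) = 0 := by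
    cases b
    · rw [← mul_assoc, gen_anti s s false true, neg_mul, mul_assoc, gen_sq, mul_zero, neg_zero]
    · rw [← mul_assoc, gen_sq, zero_mul]
  rw [h1, h2, add_mul, h3, add_zero, pr1_gen]

theorem dd_pr2_dd (s : Fin A.g) :
    pb ![1, 1] (dd s) * pr2 (dd s) = pr1 (dd s) * pr2 (dd s) := by
  have hc : ∀ z : Coh A.g 2, pr2 (dd s) * z = z * pr2 (dd s) := by
    intro z
    have : pr2 (dd s) ∈ gr A.g 2 (2 * 1) := pb_mem_gr _ (dd_mem_gr s)
    exact even_comm this z
  have h1 := gen_pr2_dd s true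
  have h2 := gen_pr2_dd s false
  have e1 : pb ![1, 1] (dd s) = pb ![1, 1] (gen s true 0) * pb ![1, 1] (gen s false 0) := by
    rw [dd, map_mul]
  have e2 : pr1 (dd s) = pr1 (gen s true 0) * pr1 (gen s false 0) := by rw [dd, map_mul]
  rw [e1, e2]
  generalize pr2 (dd s) = D at h1 h2 hc
  rw [mul_assoc, h2, ← hc, ← mul_assoc, h1, mul_assoc, hc, mul_assoc]

theorem gys_contr {η : Fin A.g → ℤ} {T : Finset (Fin A.g)} (h : ∀ s ∈ T, η s = 0) :
    A.gys (pb ![1, 1] (mo η T) * pr2 (dT Tᶜ)) = A.top • mo η ∅ := by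
  rw [mo, dT, mo, map_lprod, map_lprod, lprod_mul_comm]
  · rw [gys_lprod (a := lt η ∅)]
    · rfl
    · intro s
      by_cases hs : s ∈ T
      · have e1 : lt η T s = dd s := by simp [lt, hs]
        have e2 : lt 0 Tᶜ s = 1 := by simp [lt, hs]
        have e3 : lt η ∅ s = 1 := by simp [lt, h s hs]
        rw [e1, e2, e3, map_one, mul_one, dd, map_mul]
        have := local_XY true s 1 1 1 1
        simp only [sb, vX, if_true, mul_one, one_smul, Bool.not_true] at this
        convert this using 2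
        · simp [pb_gen, Fin.sum_univ_two]
        · simp [pb_gen, Fin.sum_univ_two]
      · have e2 : lt 0 Tᶜ s = dd s := by simp [lt, hs]
        have e1 : lt η T s = lt η ∅ s := by simp [lt, hs]
        rw [e1, e2]
        have : pb ![1, 1] (lt η ∅ s) * pr2 (dd s) = pr1 (lt η ∅ s) * pr2 (dd s) := by
          unfold lt
          simp only [Finset.notMem_empty, if_false]
          split_ifs
          · exact gen_pr2_dd s true
          · exact gen_pr2_dd s false
          · rw [map_one, map_one]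
        rw [this]
        exact local_id s _
  · intro i j _
    have : pr2 (lt 0 Tᶜ i) ∈ gr A.g 2 (2 * (if i ∈ Tᶜ then 1 else 0)) := by
      apply pb_mem_gr
      simp only [lt]
      split_ifs
      · exact dd_mem_gr i
      · simp_all
      · simp_all
      · exact one_mem_gr
    exact (even_comm this _).symm

theorem contr {η : Fin A.g → ℤ} {T : Finset (Fin A.g)} (h : ∀ s ∈ T, η s = 0) {a a' : ℂ} {i : ℕ}
    (hz : a • mo η T + a' • mo (-η) T ∈ A.R1 (i + T.card)) :
    a • mo η ∅ + a' • mo (-η) ∅ ∈ A.R1 i := by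
  have h1 := pull_R1 ![1, 1] hz
  have h2 := pull_R1 ![0, 1] (dT_R1 Tᶜ)
  have h3 := R2_mul h1 h2
  have hc : i + T.card + Tᶜ.card = i + A.g := by
    have := Finset.card_add_card_compl T
    rw [Fintype.card_fin] at this
    omega
  rw [hc] at h3
  have h4 := gys_R2 h3
  have h' : ∀ s ∈ T, (-η) s = 0 := fun s hs => by simp [h s hs]
  have e : A.gys (pb ![1, 1] (a • mo η T + a' • mo (-η) T) * pb ![0, 1] (dT Tᶜ)) =
      A.top • (a • mo η ∅ + a' • mo (-η) ∅) := by
    rw [map_add, map_smul, map_smul, add_mul, map_add, smul_mul_assoc, smul_mul_assoc, map_smul,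
      map_smul]
    have e1 := gys_contr h
    have e2 := gys_contr h'
    simp only [pr2] at e1 e2
    rw [e1, e2, smul_add, smul_comm a, smul_comm a']
  rw [e] at h4
  obtain ⟨r, hr, ht⟩ := top_pos (A := A)
  rw [ht] at h4
  have h5 := R1_smul r⁻¹ h4
  rwa [smul_smul, ← Complex.ofReal_mul, inv_mul_cancel₀ hr.ne', Complex.ofReal_one, one_smul] at h5

variable (A) in
/-- the set of the pairs `(a, a')` such that `a • mon η + a' • mon (-η)` is a real algebraic
class -/
def P (η : Fin A.g → ℤ) (a a' : ℂ) : Prop :=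
  ∃ k, size η = 2 * k ∧ a • mo η ∅ + a' • mo (-η) ∅ ∈ A.R1 k

/-- the coefficients of an algebraic class (`comp` and `contr`) -/
theorem P_of_rep {n : ℕ} {x : Coh A.g 1} (hx : x ∈ A.R1 n)
    {c : (Fin A.g → ℤ) × Finset (Fin A.g) → ℂ} (hc : x = ∑ p ∈ idx A.g (2 * n), c p • mo p.1 p.2)
    {η : Fin A.g → ℤ} {T : Finset (Fin A.g)} (h : (η, T) ∈ idx A.g (2 * n)) :
    A.P η (c (η, T)) (c (-η, T)) := by
  have h1 := comp (A.R1 n) (fun u z hz => act_R1 u hz) c (hc ▸ hx) h
  obtain ⟨hη, hT, hs⟩ := mem_idx.1 h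
  refine ⟨n - T.card, by omega, contr hT ?_⟩
  have : n - T.card + T.card = n := by omega
  rw [this]
  exact h1

end CMAb

end Pc0b458V
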