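import Pool.Agent.Lib.Pc0b458V.PolPow

/-!
# Counting triples of subsets

For `J` with `2 n` elements, `n = 1` or `n = 2`, and `U ⊆ J` with `n` elements, the number of
triples `(T₀, T₁, T₂)` of subsets of `J` with `n` elements which cover `J`, have empty intersection
and for which `U` is the set of the elements which are in two of the sets is `3` for `n = 1` and `15`
for `n = 2`. (Choose for each element of `U` the set which does not contain it, and for each element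
of `J \ U` the set which contains it; the numbers must agree: the sum of `(n! / (i! j! k!)) ^ 2` over
`i + j + k = n`.) One can transport the statement along a bijection from `Fin (2 * n)` to `J`
(`powersetCard` of an image) and use `decide`, or write `J = {p, q}`, `J = {p, q, r, s}` explicitly.
`sum_cover` follows by grouping the triples according to `U` (which has `n` elements).
-/

open Finset ComplexConjugate

namespace Pc0b458V

/-- the number of triples -/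
def num3 (n : ℕ) : ℕ := if n = 1 then 3 else 15

namespace CountAAux

theorem fin_one : ∀ V ∈ powersetCard 1 (univ : Finset (Fin 2)),
    ((powersetCard 1 (univ : Finset (Fin 2)) ×ˢ powersetCard 1 (univ : Finset (Fin 2)) ×ˢ
      powersetCard 1 (univ : Finset (Fin 2))).filter fun p =>
      univ ⊆ p.1 ∪ p.2.1 ∪ p.2.2 ∧ p.1 ∩ p.2.1 ∩ p.2.2 = ∅ ∧
        (p.1 ∩ p.2.1) ∪ (p.1 ∩ p.2.2) ∪ (p.2.1 ∩ p.2.2) = V).card = 3 := by
  decide +kernel

theorem fin_two : ∀ V ∈ powersetCard 2 (univ : Finset (Fin 4)),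
    ((powersetCard 2 (univ : Finset (Fin 4)) ×ˢ powersetCard 2 (univ : Finset (Fin 4)) ×ˢ
      powersetCard 2 (univ : Finset (Fin 4))).filter fun p =>
      univ ⊆ p.1 ∪ p.2.1 ∪ p.2.2 ∧ p.1 ∩ p.2.1 ∩ p.2.2 = ∅ ∧
        (p.1 ∩ p.2.1) ∪ (p.1 ∩ p.2.2) ∪ (p.2.1 ∩ p.2.2) = V).card = 15 := by
  decide +kernel

theorem fin_all {n : ℕ} (hn : n = 1 ∨ n = 2) : ∀ V ∈ powersetCard n (univ : Finset (Fin (2 * n))),
    ((powersetCard n (univ : Finset (Fin (2 * n))) ×ˢ powersetCard n (univ : Finset (Fin (2 * n))) ×ˢ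
      powersetCard n (univ : Finset (Fin (2 * n)))).filter fun p =>
      univ ⊆ p.1 ∪ p.2.1 ∪ p.2.2 ∧ p.1 ∩ p.2.1 ∩ p.2.2 = ∅ ∧
        (p.1 ∩ p.2.1) ∪ (p.1 ∩ p.2.2) ∪ (p.2.1 ∩ p.2.2) = V).card = num3 n := by
  rcases hn with rfl | rfl
  · exact fin_one
  · exact fin_two

/-- the map of triples of sets -/
def tri {α β : Type*} (f : α ↪ β) :
    (Finset α × Finset α × Finset α) ↪ (Finset β × Finset β × Finset β) :=
  (Finset.mapEmbedding f).toEmbedding.prodMap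
    ((Finset.mapEmbedding f).toEmbedding.prodMap (Finset.mapEmbedding f).toEmbedding)

theorem tri_apply {α β : Type*} (f : α ↪ β) (p : Finset α × Finset α × Finset α) :
    tri f p = (p.1.map f, p.2.1.map f, p.2.2.map f) := rfl

theorem mem_pc {α β : Type*} (f : α ↪ β) [Fintype α] {n : ℕ} {T : Finset β} :
    T ∈ powersetCard n (univ.map f) ↔ ∃ S ∈ powersetCard n (univ : Finset α), S.map f = T := by
  rw [Finset.powersetCard_map]
  simp only [Finset.mem_map]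
  rfl

end CountAAux

open CountAAux

theorem card_cover {α : Type*} [DecidableEq α] {n : ℕ} (hn : n = 1 ∨ n = 2) {J U : Finset α}
    (hJ : J.card = 2 * n) (hU : U ∈ powersetCard n J) :
    ((powersetCard n J ×ˢ powersetCard n J ×ˢ powersetCard n J).filter fun p =>
      J ⊆ p.1 ∪ p.2.1 ∪ p.2.2 ∧ p.1 ∩ p.2.1 ∩ p.2.2 = ∅ ∧
        (p.1 ∩ p.2.1) ∪ (p.1 ∩ p.2.2) ∪ (p.2.1 ∩ p.2.2) = U).card = num3 n := by
  obtain ⟨f, hf⟩ : ∃ f : Fin (2 * n) ↪ α, univ.map f = J := by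
    refine ⟨(Finset.equivFinOfCardEq hJ).symm.toEmbedding.trans (Function.Embedding.subtype _), ?_⟩
    ext x
    simp only [Finset.mem_map, Finset.mem_univ, true_and, Function.Embedding.trans_apply,
      Function.Embedding.coe_subtype, Equiv.coe_toEmbedding]
    constructor
    · rintro ⟨i, rfl⟩
      exact ((Finset.equivFinOfCardEq hJ).symm i).2
    · intro hx
      exact ⟨Finset.equivFinOfCardEq hJ ⟨x, hx⟩, by simp⟩
  subst hf
  obtain ⟨V, hV, rfl⟩ := (mem_pc f).1 hU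
  rw [← fin_all hn V hV, ← Finset.card_map (tri f)]
  congr 1
  ext ⟨A, B, C⟩
  simp only [Finset.mem_filter, Finset.mem_product, Finset.mem_map, tri_apply, Prod.mk.injEq]
  constructor
  · rintro ⟨⟨hA, hB, hC⟩, h1, h2, h3⟩
    obtain ⟨A, hA2, rfl⟩ := (mem_pc f).1 hA
    obtain ⟨B, hB2, rfl⟩ := (mem_pc f).1 hB
    obtain ⟨C, hC2, rfl⟩ := (mem_pc f).1 hC
    simp only [← Finset.map_union, ← Finset.map_inter, Finset.map_subset_map, Finset.map_eq_empty,
      Finset.map_inj] at h1 h2 h3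
    exact ⟨(A, B, C), ⟨⟨hA2, hB2, hC2⟩, h1, h2, h3⟩, rfl, rfl, rfl⟩
  · rintro ⟨⟨A, B, C⟩, ⟨⟨hA, hB, hC⟩, h1, h2, h3⟩, rfl, rfl, rfl⟩
    refine ⟨⟨(mem_pc f).2 ⟨A, hA, rfl⟩, (mem_pc f).2 ⟨B, hB, rfl⟩, (mem_pc f).2 ⟨C, hC, rfl⟩⟩, ?_⟩
    simp only [← Finset.map_union, ← Finset.map_inter, Finset.map_subset_map, Finset.map_eq_empty,
      Finset.map_inj]
    exact ⟨h1, h2, h3⟩

namespace CountAAux

theorem card_two {α : Type*} [DecidableEq α] {J A B C : Finset α} (hA : A ⊆ J) (hB : B ⊆ J)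
    (hC : C ⊆ J) (h1 : J ⊆ A ∪ B ∪ C) (h2 : A ∩ B ∩ C = ∅) :
    A.card + B.card + C.card = J.card + ((A ∩ B) ∪ (A ∩ C) ∪ (B ∩ C)).card := by
  have key : ∀ S : Finset α, S ⊆ J → S.card = ∑ x ∈ J, if x ∈ S then 1 else 0 := by
    intro S hS
    rw [← Finset.card_filter, Finset.filter_mem_eq_inter, Finset.inter_eq_right.2 hS]
  rw [key A hA, key B hB, key C hC, key J subset_rfl, key ((A ∩ B) ∪ (A ∩ C) ∪ (B ∩ C))
    (by
      intro x hx
      simp only [Finset.mem_union, Finset.mem_inter] at hx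
      rcases hx with (hx | hx) | hx
      · exact hA hx.1
      · exact hA hx.1
      · exact hB hx.1),
    ← Finset.sum_add_distrib, ← Finset.sum_add_distrib, ← Finset.sum_add_distrib]
  refine Finset.sum_congr rfl fun x hx => ?_
  have h3 := h1 hx
  have h4 : x ∉ A ∩ B ∩ C := by rw [h2]; simp
  simp only [Finset.mem_union, Finset.mem_inter] at h3 h4 ⊢
  by_cases a : x ∈ A <;> by_cases b : x ∈ B <;> by_cases c : x ∈ C <;> simp_all

end CountAAux

theorem sum_cover {g n : ℕ} (hn : n = 1 ∨ n = 2) {J : Finset (Fin g)} (hJ : J.card = 2 * n) :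
    (∑ T₀ ∈ powersetCard n J, ∑ T₁ ∈ powersetCard n J, ∑ T₂ ∈ powersetCard n J,
      if J ⊆ T₀ ∪ T₁ ∪ T₂ ∧ T₀ ∩ T₁ ∩ T₂ = ∅ then
        (dT ((T₀ ∩ T₁) ∪ (T₀ ∩ T₂) ∪ (T₁ ∩ T₂)) : Coh g 1) else 0) = (num3 n : ℂ) • en J n := by
  have h1 : (∑ T₀ ∈ powersetCard n J, ∑ T₁ ∈ powersetCard n J, ∑ T₂ ∈ powersetCard n J,
      if J ⊆ T₀ ∪ T₁ ∪ T₂ ∧ T₀ ∩ T₁ ∩ T₂ = ∅ then
        (dT ((T₀ ∩ T₁) ∪ (T₀ ∩ T₂) ∪ (T₁ ∩ T₂)) : Coh g 1) else 0) =
      ∑ p ∈ (powersetCard n J ×ˢ powersetCard n J ×ˢ powersetCard n J).filter (fun p =>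
        J ⊆ p.1 ∪ p.2.1 ∪ p.2.2 ∧ p.1 ∩ p.2.1 ∩ p.2.2 = ∅),
        (dT ((p.1 ∩ p.2.1) ∪ (p.1 ∩ p.2.2) ∪ (p.2.1 ∩ p.2.2)) : Coh g 1) := by
    rw [Finset.sum_filter, Finset.sum_product]
    refine Finset.sum_congr rfl fun x _ => ?_
    rw [Finset.sum_product]
  rw [h1, ← Finset.sum_fiberwise_of_maps_to (t := powersetCard n J)
    (g := fun p => (p.1 ∩ p.2.1) ∪ (p.1 ∩ p.2.2) ∪ (p.2.1 ∩ p.2.2))]
  · rw [en, Finset.smul_sum]
    refine Finset.sum_congr rfl fun U hU => ?_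
    rw [Finset.filter_filter, Finset.sum_congr rfl (g := fun _ => (dT U : Coh g 1))]
    · rw [Finset.sum_const, ← Nat.cast_smul_eq_nsmul ℂ, ← card_cover hn hJ hU]
      simp only [and_assoc]
    · intro p hp
      rw [(Finset.mem_filter.1 hp).2.2]
  · rintro ⟨A, B, C⟩ hp
    simp only [Finset.mem_filter, Finset.mem_product, Finset.mem_powersetCard] at hp
    obtain ⟨⟨⟨hA, hA'⟩, ⟨hB, hB'⟩, hC, hC'⟩, h2, h3⟩ := hp
    have h4 := card_two hA hB hC h2 h3
    rw [Finset.mem_powersetCard]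
    refine ⟨?_, by simp only; omega⟩
    intro x hx
    simp only [Finset.mem_union, Finset.mem_inter] at hx
    rcases hx with (hx | hx) | hx
    · exact hA hx.1
    · exact hA hx.1
    · exact hB hx.1

end Pc0b458V
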