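import Pool.Agent.Lib.Pc0b458V.LocalA
import Pool.Agent.Lib.Pc0b458V.PolPow

/-!
# The axioms of `CMAb` can be satisfied in every dimension

The example is the `g`-th power of an elliptic curve with complex multiplication by `ℚ(i)`, with the
classes of effective cycles generated by the divisors `pb ![a, b] (dd s)`. This file is not used
elsewhere; it shows that the structure `CMAb` has members for every `g`.

The set `R` is the set of the `a : Fin g → ℂ` with all `a s` in `ℚ(i)`. The effective classes of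
codimension `i` on `A` are the sums of nonnegative rational multiples of the classes `dT T` with
`|T| = i`; those on `A × A` are the sums of nonnegative rational multiples of products of `i` classes
`DD (s, r, t)`, which is `pb ![a, b] (dd s)` for `a s = r` and `b s = t`. The trace map and
the push-forward are Berezin integrals, defined by contractions (`CliffordAlgebra.contractLeft`).
-/

open Finset ComplexConjugate

namespace Pc0b458V

namespace ExampleAux

variable {g m : ℕ}

/-! ### contractions -/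

/-- contraction with a linear form -/
noncomputable def ctr (d : Module.Dual ℂ (Fin g × Bool × Fin m → ℂ)) : Coh g m →ₗ[ℂ] Coh g m :=
  CliffordAlgebra.contractLeft (Q := (0 : QuadraticForm ℂ (Fin g × Bool × Fin m → ℂ))) d

theorem ctr_iota_mul (d : Module.Dual ℂ (Fin g × Bool × Fin m → ℂ)) (x : Fin g × Bool × Fin m → ℂ)
    (z : Coh g m) : ctr d (iota g m x * z) = d x • z - iota g m x * ctr d z :=
  CliffordAlgebra.contractLeft_ι_mul d x z

theorem ctr_algebraMap (d : Module.Dual ℂ (Fin g × Bool × Fin m → ℂ)) (r : ℂ) :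
    ctr d (algebraMap ℂ (Coh g m) r) = 0 :=
  CliffordAlgebra.contractLeft_algebraMap _ d r

theorem ctr_one (d : Module.Dual ℂ (Fin g × Bool × Fin m → ℂ)) : ctr d (1 : Coh g m) = 0 := by
  have := ctr_algebraMap (m := m) d 1
  rwa [map_one] at this

theorem left_induction {P : Coh g m → Prop} (algebraMap : ∀ r : ℂ, P (algebraMap ℂ (Coh g m) r))
    (add : ∀ a b, P a → P b → P (a + b)) (iota_mul : ∀ a x, P a → P (iota g m x * a))
    (a : Coh g m) : P a :=
  CliffordAlgebra.left_induction (Q := (0 : QuadraticForm ℂ (Fin g × Bool × Fin m → ℂ)))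
    algebraMap add (fun a x h => iota_mul a x h) a

theorem ctr_gr_aux (d : Module.Dual ℂ (Fin g × Bool × Fin m → ℂ)) {k : ℕ} {z : Coh g m}
    (hz : z ∈ gr g m k) : (∀ j, j + 1 = k → ctr d z ∈ gr g m j) ∧ (k = 0 → ctr d z = 0) := by
  refine gr_induction (P := fun k z => (∀ j, j + 1 = k → ctr d z ∈ gr g m j) ∧
    (k = 0 → ctr d z = 0)) ?_ ?_ ?_ ?_ hz
  · exact ⟨fun j h => by omega, fun _ => ctr_one d⟩
  · intro k x z hz ih
    refine ⟨fun j hj => ?_, fun h => by omega⟩
    obtain rfl : j = k := by omega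
    rw [ctr_iota_mul]
    refine sub_mem (Submodule.smul_mem _ _ hz) ?_
    rcases Nat.eq_zero_or_pos j with h | h
    · rw [ih.2 h, mul_zero]
      exact zero_mem _
    · have h1 := ih.1 (j - 1) (by omega)
      have h2 := mul_mem_gr (iota_mem_gr x) h1
      have e : 1 + (j - 1) = j := by omega
      rwa [e] at h2
  · intro k a b ha hb
    refine ⟨fun j hj => ?_, fun h => ?_⟩
    · rw [map_add]
      exact add_mem (ha.1 j hj) (hb.1 j hj)
    · rw [map_add, ha.2 h, hb.2 h, add_zero]
  · intro k c a ha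
    refine ⟨fun j hj => ?_, fun h => ?_⟩
    · rw [map_smul]
      exact Submodule.smul_mem _ _ (ha.1 j hj)
    · rw [map_smul, ha.2 h, smul_zero]

theorem ctr_gr (d : Module.Dual ℂ (Fin g × Bool × Fin m → ℂ)) {k : ℕ} {z : Coh g m}
    (hz : z ∈ gr g m (k + 1)) : ctr d z ∈ gr g m k :=
  (ctr_gr_aux d hz).1 k rfl

theorem ctr_gr_zero (d : Module.Dual ℂ (Fin g × Bool × Fin m → ℂ)) {z : Coh g m}
    (hz : z ∈ gr g m 0) : ctr d z = 0 :=
  (ctr_gr_aux d hz).2 rfl

/-- the coordinate forms -/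
noncomputable def ev (s : Fin g) (b : Bool) (j : Fin m) :
    Module.Dual ℂ (Fin g × Bool × Fin m → ℂ) := LinearMap.proj (s, b, j)

/-- integration of the pair of variables for `s` and `j` -/
noncomputable def Eop (s : Fin g) (j : Fin m) : Coh g m →ₗ[ℂ] Coh g m :=
  ctr (ev s false j) ∘ₗ ctr (ev s true j)

/-- integration of the variables in a list -/
noncomputable def opL : List (Fin g) → Fin m → (Coh g m →ₗ[ℂ] Coh g m)
  | [], _ => LinearMap.id
  | s :: L, j => opL L j ∘ₗ Eop s j

theorem opL_nil (j : Fin m) (z : Coh g m) : opL [] j z = z := rfl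

theorem opL_cons (s : Fin g) (L : List (Fin g)) (j : Fin m) (z : Coh g m) :
    opL (s :: L) j z = opL L j (Eop s j z) := rfl

theorem Eop_gr (s : Fin g) (j : Fin m) {k : ℕ} {z : Coh g m} (hz : z ∈ gr g m (k + 2)) :
    Eop s j z ∈ gr g m k :=
  ctr_gr _ (ctr_gr _ hz)

theorem Eop_gr_zero (s : Fin g) (j : Fin m) {k : ℕ} (hk : k < 2) {z : Coh g m}
    (hz : z ∈ gr g m k) : Eop s j z = 0 := by
  show ctr (ev s false j) (ctr (ev s true j) z) = 0
  rcases Nat.lt_or_ge 0 k with h | h
  · obtain rfl : k = 0 + 1 := by omega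
    exact ctr_gr_zero _ (ctr_gr _ hz)
  · obtain rfl : k = 0 := by omega
    rw [ctr_gr_zero _ hz, map_zero]

theorem opL_gr (L : List (Fin g)) (j : Fin m) {k : ℕ} {z : Coh g m}
    (hz : z ∈ gr g m (k + 2 * L.length)) : opL L j z ∈ gr g m k := by
  induction L generalizing z with
  | nil => exact hz
  | cons s L ih =>
    rw [opL_cons]
    apply ih
    apply Eop_gr
    have e : k + 2 * (s :: L).length = k + 2 * L.length + 2 := by
      rw [List.length_cons]; ring
    rwa [e] at hz

theorem opL_gr_zero (L : List (Fin g)) (j : Fin m) {k : ℕ} (hk : k < 2 * L.length) {z : Coh g m}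
    (hz : z ∈ gr g m k) : opL L j z = 0 := by
  induction L generalizing z k with
  | nil => simp at hk
  | cons s L ih =>
    rw [opL_cons]
    rw [List.length_cons] at hk
    rcases Nat.lt_or_ge k 2 with h | h
    · rw [Eop_gr_zero s j h hz, map_zero]
    · obtain ⟨k', rfl⟩ := Nat.exists_eq_add_of_le h
      exact ih (k := k') (by omega) (Eop_gr s j (by rwa [add_comm] at hz))

/-! ### the second factor -/

theorem ev_one_pbOne (s : Fin g) (b : Bool) (u : Fin g × Bool × Fin 1 → ℂ) :
    ev s b 1 (pbOne ![1, 0] u : Fin g × Bool × Fin 2 → ℂ) = 0 := by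
  show (if b then (![1, 0] : Fin 2 → Fin g → ℂ) 1 s
    else conj ((![1, 0] : Fin 2 → Fin g → ℂ) 1 s)) * u (s, b, 0) = 0
  cases b <;> simp

theorem ev_one_pbOne' (s : Fin g) (b : Bool) (u : Fin g × Bool × Fin 1 → ℂ) :
    ev s b 1 (pbOne ![0, 1] u : Fin g × Bool × Fin 2 → ℂ) = ev s b 0 u := by
  show (if b then (![0, 1] : Fin 2 → Fin g → ℂ) 1 s
    else conj ((![0, 1] : Fin 2 → Fin g → ℂ) 1 s)) * u (s, b, 0) = u (s, b, 0)
  cases b <;> simp

theorem Eop_pr1_mul (s : Fin g) (x : Coh g 1) (w : Coh g 2) :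
    Eop s 1 (pr1 x * w) = pr1 x * Eop s 1 w := by
  refine coh_induction (P := fun x => ∀ w, Eop s 1 (pr1 x * w) = pr1 x * Eop s 1 w)
    ?_ ?_ ?_ ?_ x w
  · intro r w
    rw [AlgHom.commutes, ← Algebra.smul_def, ← Algebra.smul_def, map_smul]
  · intro u w
    show ctr (ev s false 1) (ctr (ev s true 1) (pr1 (iota g 1 u) * w)) =
      pr1 (iota g 1 u) * ctr (ev s false 1) (ctr (ev s true 1) w)
    rw [pr1, pb_iota, ctr_iota_mul, ev_one_pbOne, zero_smul, zero_sub, map_neg, ctr_iota_mul,
      ev_one_pbOne, zero_smul, zero_sub, neg_neg]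
  · intro a b ha hb w
    rw [map_mul pr1 a b, mul_assoc, ha, hb, mul_assoc]
  · intro a b ha hb w
    rw [map_add pr1 a b, add_mul, map_add, ha, hb, add_mul]

theorem opL_pr1_mul (L : List (Fin g)) (x : Coh g 1) (w : Coh g 2) :
    opL L 1 (pr1 x * w) = pr1 x * opL L 1 w := by
  induction L generalizing w with
  | nil => rfl
  | cons s L ih => rw [opL_cons, opL_cons, Eop_pr1_mul, ih]

theorem ctr_pr2 (s : Fin g) (b : Bool) (y : Coh g 1) :
    ctr (ev s b 1) (pr2 y) = pr2 (ctr (ev s b 0) y) := by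
  refine left_induction (P := fun y => ctr (ev s b 1) (pr2 y) = pr2 (ctr (ev s b 0) y))
    ?_ ?_ ?_ y
  · intro r
    rw [AlgHom.commutes, ctr_algebraMap, ctr_algebraMap, map_zero]
  · intro a a' ha hb
    rw [map_add, map_add, ha, hb, map_add, map_add]
  · intro a x ha
    rw [map_mul pr2, ctr_iota_mul, map_sub, map_smul, map_mul pr2, ← ha, pr2, pb_iota,
      ctr_iota_mul, ev_one_pbOne']

theorem opL_pr2 (L : List (Fin g)) (y : Coh g 1) : opL L 1 (pr2 y) = pr2 (opL L 0 y) := by
  induction L generalizing y with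
  | nil => rfl
  | cons s L ih =>
    rw [opL_cons, opL_cons]
    have : Eop s 1 (pr2 y) = pr2 (Eop s 0 y) := by
      show ctr (ev s false 1) (ctr (ev s true 1) (pr2 y)) =
        pr2 (ctr (ev s false 0) (ctr (ev s true 0) y))
      rw [ctr_pr2, ctr_pr2]
    rw [this, ih]

/-- restriction to the first factor, in degree one -/
noncomputable def resOne : (Fin g × Bool × Fin 2 → ℂ) →ₗ[ℂ] (Fin g × Bool × Fin 1 → ℂ) where
  toFun f i := f (i.1, i.2.1, 0)
  map_add' _ _ := rfl
  map_smul' _ _ := rfl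

/-- restriction to the first factor -/
noncomputable def res : Coh g 2 →ₐ[ℂ] Coh g 1 := ExteriorAlgebra.map resOne

theorem res_iota (x : Fin g × Bool × Fin 2 → ℂ) : res (iota g 2 x) = iota g 1 (resOne x) :=
  ExteriorAlgebra.map_apply_ι resOne x

/-- the component of degree zero -/
noncomputable def eps : Coh g 1 →ₐ[ℂ] ℂ :=
  (ExteriorAlgebra.algebraMapInv : ExteriorAlgebra ℂ (Fin g × Bool × Fin 1 → ℂ) →ₐ[ℂ] ℂ)

theorem eps_iota (x : Fin g × Bool × Fin 1 → ℂ) : eps (iota g 1 x) = 0 := by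
  show ExteriorAlgebra.algebraMapInv (ExteriorAlgebra.ι ℂ x) = 0
  simp [ExteriorAlgebra.algebraMapInv]

theorem eps_gr {k : ℕ} (hk : 0 < k) {z : Coh g 1} (hz : z ∈ gr g 1 k) : eps z = 0 := by
  refine gr_induction (P := fun k (z : Coh g 1) => 0 < k → eps z = 0) ?_ ?_ ?_ ?_ hz hk
  · intro h
    omega
  · intro k x z _ _ _
    rw [map_mul, eps_iota, zero_mul]
  · intro k a b ha hb h
    rw [map_add, ha h, hb h, add_zero]
  · intro k c a ha h
    rw [map_smul, ha h, smul_zero]

theorem res_pr1 (x : Coh g 1) : res (pr1 x) = x := by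
  have : res.comp pr1 = AlgHom.id ℂ (Coh g 1) := by
    apply hom_ext
    intro x
    rw [AlgHom.comp_apply, pr1, pb_iota, res_iota]
    have : resOne (pbOne ![1, 0] x : Fin g × Bool × Fin 2 → ℂ) = x := by
      funext i
      obtain ⟨s, b, j⟩ := i
      have hj : j = 0 := Subsingleton.elim _ _
      subst hj
      show (if b then (![1, 0] : Fin 2 → Fin g → ℂ) 0 s
        else conj ((![1, 0] : Fin 2 → Fin g → ℂ) 0 s)) * x (s, b, 0) = x (s, b, 0)
      cases b <;> simp
    rw [this]
    rfl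
  exact DFunLike.congr_fun this x

theorem res_pr2 (y : Coh g 1) : res (pr2 y) = algebraMap ℂ (Coh g 1) (eps y) := by
  have : res.comp pr2 = (Algebra.ofId ℂ (Coh g 1)).comp eps := by
    apply hom_ext
    intro x
    rw [AlgHom.comp_apply, AlgHom.comp_apply, eps_iota, map_zero, pr2, pb_iota, res_iota]
    have : resOne (pbOne ![0, 1] x : Fin g × Bool × Fin 2 → ℂ) = 0 := by
      funext i
      obtain ⟨s, b, j⟩ := i
      show (if b then (![0, 1] : Fin 2 → Fin g → ℂ) 0 s
        else conj ((![0, 1] : Fin 2 → Fin g → ℂ) 0 s)) * x (s, b, 0) = 0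
      cases b <;> simp
    rw [this, map_zero]
  exact DFunLike.congr_fun this y

/-- the trace map -/
noncomputable def intE (g : ℕ) : Coh g 1 →ₗ[ℂ] ℂ :=
  eps.toLinearMap ∘ₗ opL (List.finRange g) 0

/-- the push-forward -/
noncomputable def gysE (g : ℕ) : Coh g 2 →ₗ[ℂ] Coh g 1 :=
  res.toLinearMap ∘ₗ opL (List.finRange g) 1

theorem gysE_mul (x y : Coh g 1) : gysE g (pr1 x * pr2 y) = intE g y • x := by
  show res (opL (List.finRange g) 1 (pr1 x * pr2 y)) = eps (opL (List.finRange g) 0 y) • x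
  rw [opL_pr1_mul, opL_pr2, map_mul, res_pr1, res_pr2, ← Algebra.commutes, ← Algebra.smul_def]

theorem intE_gr {k : ℕ} (hk : k ≠ 2 * g) {x : Coh g 1} (hx : x ∈ gr g 1 k) : intE g x = 0 := by
  show eps (opL (List.finRange g) 0 x) = 0
  rcases Nat.lt_or_ge k (2 * g) with h | h
  · rw [opL_gr_zero (k := k) _ _ (by rw [List.length_finRange]; exact h) hx, map_zero]
  · obtain ⟨k', rfl⟩ := Nat.exists_eq_add_of_le h
    have h1 : x ∈ gr g 1 (k' + 2 * (List.finRange g).length) := by
      rw [List.length_finRange, add_comm]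
      exact hx
    exact eps_gr (by omega) (opL_gr (List.finRange g) 0 h1)

/-! ### the volume -/

theorem ev_single (s t : Fin g) (b c : Bool) :
    ev s b 0 (Pi.single (t, c, 0) 1 : Fin g × Bool × Fin 1 → ℂ) =
      if s = t ∧ b = c then 1 else 0 := by
  show (Pi.single (t, c, 0) 1 : Fin g × Bool × Fin 1 → ℂ) (s, b, 0) = _
  rw [Pi.single_apply]
  simp

theorem ctr_dd_mul {s t : Fin g} (h : s ≠ t) (b : Bool) (z : Coh g 1) :
    ctr (ev s b 0) (dd t * z) = dd t * ctr (ev s b 0) z := by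
  rw [dd, mul_assoc]
  show ctr (ev s b 0) (iota g 1 _ * (iota g 1 _ * z)) = _
  rw [ctr_iota_mul, ctr_iota_mul, ev_single, ev_single, if_neg (fun h' => h h'.1),
    if_neg (fun h' => h h'.1)]
  simp only [zero_smul, zero_sub, mul_neg, neg_neg]
  rw [← mul_assoc]
  rfl

theorem Eop_dd_mul {s : Fin g} {z : Coh g 1} (h1 : ctr (ev s true 0) z = 0)
    (h2 : ctr (ev s false 0) z = 0) : Eop s 0 (dd s * z) = z := by
  show ctr (ev s false 0) (ctr (ev s true 0) (dd s * z)) = z
  rw [dd, mul_assoc]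
  show ctr (ev s false 0) (ctr (ev s true 0) (iota g 1 _ * (iota g 1 _ * z))) = z
  rw [ctr_iota_mul, ctr_iota_mul, ev_single, ev_single, h1, if_pos ⟨rfl, rfl⟩,
    if_neg (fun h => by simp at h)]
  simp only [one_smul, zero_smul, mul_zero, sub_zero]
  rw [ctr_iota_mul, ev_single, h2, if_pos ⟨rfl, rfl⟩, one_smul, mul_zero, sub_zero]

theorem ctr_prod_dd {s : Fin g} (b : Bool) {L : List (Fin g)} (h : s ∉ L) :
    ctr (ev s b 0) (L.map dd).prod = 0 := by
  induction L with
  | nil => exact ctr_one _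
  | cons t L ih =>
    rw [List.mem_cons, not_or] at h
    rw [List.map_cons, List.prod_cons, ctr_dd_mul h.1, ih h.2, mul_zero]

theorem opL_prod_dd {L : List (Fin g)} (h : L.Nodup) : opL L 0 (L.map dd).prod = 1 := by
  induction L with
  | nil => rfl
  | cons t L ih =>
    rw [List.nodup_cons] at h
    rw [List.map_cons, List.prod_cons, opL_cons, Eop_dd_mul (ctr_prod_dd _ h.1)
      (ctr_prod_dd _ h.1), ih h.2]

theorem dT_eq_lprod (T : Finset (Fin g)) :
    (dT T : Coh g 1) = lprod fun s => if s ∈ T then dd s else 1 := by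
  rw [dT, mo]
  have : lt (0 : Fin g → ℤ) T = fun s => if s ∈ T then dd s else 1 := by
    funext s
    simp [lt]
  rw [this]

theorem lprod_eq_list {R : Type*} [Monoid R] {n : ℕ} (a : Fin n → R) :
    lprod a = ((List.finRange n).map a).prod := by
  rw [lprod, List.ofFn_eq_map]

theorem intE_dT : intE g (dT univ) = 1 := by
  show eps (opL (List.finRange g) 0 (dT univ)) = 1
  have h : (dT univ : Coh g 1) = ((List.finRange g).map dd).prod := by
    rw [dT_eq_lprod, ← lprod_eq_list]
    simp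
  rw [h, opL_prod_dd (List.nodup_finRange g), map_one]

theorem gysE_low {z : Coh g 2} (hz : z ∈ Low g (2 * g)) : gysE g z = 0 := by
  have : Low g (2 * g) ≤ LinearMap.ker (gysE g) := by
    rw [Low, Submodule.span_le]
    rintro _ ⟨l, x, y, hl, hy, rfl⟩
    rw [SetLike.mem_coe, LinearMap.mem_ker, gysE_mul, intE_gr (by omega) hy, zero_smul]
  exact this hz

theorem gysE_lprod {ρ : Fin g → Coh g 2} {a : Fin g → Coh g 1}
    (h : ∀ s, Local s (ρ s) (a s)) : gysE g (lprod ρ) = lprod a := by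
  have h1 := lprod_low (c := dd) (fun i => dd_mem_gr i) h
  have h2 := gysE_low h1
  rw [map_sub, sub_eq_zero] at h2
  have h3 : (lprod (dd : Fin g → Coh g 1)) = dT univ := by
    rw [dT_eq_lprod]
    simp
  rw [h2, h3, gysE_mul, intE_dT, one_smul]

/-! ### Gaussian numbers -/

/-- `z` is in `ℚ(i)` -/
def GR (z : ℂ) : Prop := ∃ p q : ℚ, z = (p : ℂ) + (q : ℂ) * Complex.I

theorem GR.mul {z w : ℂ} (hz : GR z) (hw : GR w) : GR (z * w) := by
  obtain ⟨p, q, rfl⟩ := hz
  obtain ⟨p', q', rfl⟩ := hw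
  refine ⟨p * p' - q * q', p * q' + q * p', ?_⟩
  push_cast
  linear_combination (q : ℂ) * q' * Complex.I_mul_I

theorem GR.sub {z w : ℂ} (hz : GR z) (hw : GR w) : GR (z - w) := by
  obtain ⟨p, q, rfl⟩ := hz
  obtain ⟨p', q', rfl⟩ := hw
  refine ⟨p - p', q - q', ?_⟩
  push_cast
  ring

theorem GR.norm {z : ℂ} (hz : GR z) : ∃ r : ℚ, 0 ≤ r ∧ z * conj z = r := by
  obtain ⟨p, q, rfl⟩ := hz
  refine ⟨p ^ 2 + q ^ 2, by positivity, ?_⟩
  simp only [map_add, map_mul, Complex.conj_I, map_ratCast]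
  push_cast
  linear_combination -(q : ℂ) ^ 2 * Complex.I_mul_I

theorem dense_GR : Dense {z : ℂ | GR z} := by
  have h1 : DenseRange (fun p : ℚ × ℚ => ((p.1 : ℝ), (p.2 : ℝ))) :=
    Rat.denseRange_cast.prodMap Rat.denseRange_cast
  have h2 : DenseRange (fun p : ℝ × ℝ => Complex.equivRealProdCLM.symm p) :=
    Complex.equivRealProdCLM.symm.surjective.denseRange
  have h3 := h2.comp h1 Complex.equivRealProdCLM.symm.continuous
  refine h3.mono ?_
  rintro _ ⟨⟨p, q⟩, rfl⟩
  refine ⟨p, q, ?_⟩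
  show Complex.equivRealProdCLM.symm ((p : ℝ), (q : ℝ)) = _
  rw [Complex.equivRealProdCLM_symm_apply]
  push_cast
  rfl

/-- the vectors with coordinates in `ℚ(i)` -/
def Rset (g : ℕ) : Set (Fin g → ℂ) := {a | ∀ s, GR (a s)}

theorem dense_Rset (g : ℕ) : Dense (Rset g) := by
  have h := dense_pi (Set.univ : Set (Fin g)) (s := fun _ => {z : ℂ | GR z})
    (fun _ _ => dense_GR)
  refine h.mono ?_
  intro a ha s
  exact ha s (Set.mem_univ s)

/-! ### effective classes on `A` -/

/-- the effective classes on `A` -/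
noncomputable def effS (g i : ℕ) : AddSubmonoid (Coh g 1) :=
  AddSubmonoid.closure {x | ∃ (r : ℚ) (T : Finset (Fin g)), 0 ≤ r ∧ T.card = i ∧
    x = (r : ℂ) • dT T}

theorem mem_effS {i : ℕ} {r : ℚ} (hr : 0 ≤ r) {T : Finset (Fin g)} (hT : T.card = i) :
    (r : ℂ) • dT T ∈ effS g i :=
  AddSubmonoid.subset_closure ⟨r, T, hr, hT, rfl⟩

theorem effS_induction {i : ℕ} {P : Coh g 1 → Prop}
    (gen : ∀ (r : ℚ) (T : Finset (Fin g)), 0 ≤ r → T.card = i → P ((r : ℂ) • dT T))
    (zero : P 0) (add : ∀ x y, P x → P y → P (x + y)) {x : Coh g 1} (hx : x ∈ effS g i) : P x := by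
  induction hx using AddSubmonoid.closure_induction with
  | mem x h =>
    obtain ⟨r, T, hr, hT, rfl⟩ := h
    exact gen r T hr hT
  | zero => exact zero
  | add x y _ _ hx hy => exact add x y hx hy

theorem dT_mem_gr (T : Finset (Fin g)) : (dT T : Coh g 1) ∈ gr g 1 (2 * T.card) := by
  refine mo_mem ?_
  rw [mem_idx]
  refine ⟨fun s => Or.inr (Or.inl rfl), fun s _ => rfl, ?_⟩
  simp [size]

theorem effS_gr {i : ℕ} {x : Coh g 1} (hx : x ∈ effS g i) : x ∈ gr g 1 (2 * i) := by
  refine effS_induction ?_ (zero_mem _) (fun x y hx hy => add_mem hx hy) hx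
  rintro r T _ rfl
  exact Submodule.smul_mem _ _ (dT_mem_gr T)

theorem effS_smul {i : ℕ} {r : ℚ} (hr : 0 ≤ r) {x : Coh g 1} (hx : x ∈ effS g i) :
    (r : ℂ) • x ∈ effS g i := by
  refine effS_induction (P := fun x => (r : ℂ) • x ∈ effS g i) ?_ ?_ ?_ hx
  · intro r' T hr' hT
    rw [smul_smul, ← Rat.cast_mul]
    exact mem_effS (mul_nonneg hr hr') hT
  · rw [smul_zero]
    exact zero_mem _
  · intro x y hx hy
    rw [smul_add]
    exact add_mem hx hy

theorem effS_mul {i j : ℕ} {x y : Coh g 1} (hx : x ∈ effS g i) (hy : y ∈ effS g j) :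
    x * y ∈ effS g (i + j) := by
  refine effS_induction (P := fun x => x * y ∈ effS g (i + j)) ?_ ?_ ?_ hx
  · intro r T hr hT
    refine effS_induction (P := fun y => (r : ℂ) • dT T * y ∈ effS g (i + j)) ?_ ?_ ?_ hy
    · intro r' T' hr' hT'
      rw [smul_mul_smul_comm]
      by_cases h : Disjoint T T'
      · rw [dT_mul h, ← Rat.cast_mul]
        exact mem_effS (mul_nonneg hr hr') (by rw [card_union_of_disjoint h, hT, hT'])
      · rw [dT_mul_zero h, smul_zero]
        exact zero_mem _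
    · rw [mul_zero]
      exact zero_mem _
    · intro x y hx hy
      rw [mul_add]
      exact add_mem hx hy
  · rw [zero_mul]
    exact zero_mem _
  · intro x y hx hy
    rw [add_mul]
    exact add_mem hx hy

theorem effS_bound {i : ℕ} {x : Coh g 1} (hx : x ∈ effS g i) :
    ∃ r : ℚ, (r : ℂ) • pol g ^ i - x ∈ effS g i := by
  refine effS_induction (P := fun x => ∃ r : ℚ, (r : ℂ) • pol g ^ i - x ∈ effS g i) ?_ ?_ ?_ hx
  · intro r T hr hT
    refine ⟨r / (i.factorial : ℚ), ?_⟩
    have hf : ((i.factorial : ℕ) : ℂ) ≠ 0 := by exact_mod_cast i.factorial_ne_zero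
    have e : ((r / (i.factorial : ℚ) : ℚ) : ℂ) • pol g ^ i =
        ∑ T' ∈ powersetCard i univ, (r : ℂ) • (dT T' : Coh g 1) := by
      rw [pol_pow, smul_smul, en, Finset.smul_sum]
      refine Finset.sum_congr rfl fun T' _ => ?_
      congr 1
      push_cast
      field_simp
    have hT' : T ∈ powersetCard i (univ : Finset (Fin g)) :=
      mem_powersetCard.2 ⟨subset_univ _, hT⟩
    rw [e, ← Finset.add_sum_erase _ _ hT', add_sub_cancel_left]
    refine sum_mem fun T' h => mem_effS hr ?_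
    exact (mem_powersetCard.1 (mem_of_mem_erase h)).2
  · refine ⟨0, ?_⟩
    simp
  · rintro x y ⟨r, hr⟩ ⟨r', hr'⟩
    refine ⟨r + r', ?_⟩
    have e : ((r + r' : ℚ) : ℂ) • pol g ^ i - (x + y) =
        ((r : ℂ) • pol g ^ i - x) + ((r' : ℂ) • pol g ^ i - y) := by
      rw [Rat.cast_add, add_smul]
      abel
    rw [e]
    exact add_mem hr hr'

theorem effS_int {x : Coh g 1} (hx : x ∈ effS g g) : ∃ r : ℚ, 0 ≤ r ∧ intE g x = r := by
  refine effS_induction (P := fun x => ∃ r : ℚ, 0 ≤ r ∧ intE g x = r) ?_ ?_ ?_ hx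
  · intro r T hr hT
    have : T = univ := by
      rw [← Finset.card_eq_iff_eq_univ, Fintype.card_fin, hT]
    refine ⟨r, hr, ?_⟩
    rw [map_smul, this, intE_dT, smul_eq_mul, mul_one]
  · exact ⟨0, le_rfl, by simp⟩
  · rintro x y ⟨r, hr, h⟩ ⟨r', hr', h'⟩
    refine ⟨r + r', add_nonneg hr hr', ?_⟩
    rw [map_add, h, h', Rat.cast_add]

theorem intE_pol : intE g (pol g ^ g) ≠ 0 := by
  have h1 : (en univ g : Coh g 1) = dT univ := by
    rw [en]
    have : powersetCard g (univ : Finset (Fin g)) = {univ} := by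
      have := powersetCard_self (univ : Finset (Fin g))
      rwa [card_univ, Fintype.card_fin] at this
    rw [this, sum_singleton]
  rw [pol_pow, h1, map_smul, intE_dT, smul_eq_mul, mul_one]
  exact_mod_cast g.factorial_ne_zero

theorem pol_mem_effS : pol g ∈ effS g 1 := by
  rw [pol_eq]
  refine sum_mem fun s _ => ?_
  have := mem_effS (g := g) (r := 1) zero_le_one (T := {s}) (card_singleton s)
  rwa [Rat.cast_one, one_smul, dT_singleton] at this

theorem one_mem_effS : (1 : Coh g 1) ∈ effS g 0 := by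
  have := mem_effS (g := g) (r := 1) zero_le_one (T := ∅) card_empty
  rwa [Rat.cast_one, one_smul, dT_empty] at this

/-! ### effective classes on `A × A` -/

/-- the divisor `pb ![a, b] (dd s)` -/
noncomputable def DD (p : Fin g × ℂ × ℂ) : Coh g 2 :=
  vX true p.1 p.2.1 p.2.2 * vX false p.1 (conj p.2.1) (conj p.2.2)

theorem pb_dd (a b : Fin g → ℂ) (s : Fin g) : pb ![a, b] (dd s) = DD (s, a s, b s) := by
  rw [dd, map_mul, pb_two_true, pb_two_false]
  rfl

theorem DD_comm (p : Fin g × ℂ × ℂ) (z : Coh g 2) : DD p * z = z * DD p :=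
  vX_comm _ _ _ _ _ _ _ _ z

theorem local_DD (s : Fin g) (r t : ℂ) : Local s (DD (s, r, t)) ((t * conj t) • (1 : Coh g 1)) := by
  have h := local_XY true s r t (conj r) (conj t)
  rw [sb, if_pos rfl, one_mul] at h
  exact h

theorem DD_mul (s : Fin g) (r t r₁ t₁ : ℂ) :
    DD (s, r, t) * DD (s, r₁, t₁) =
      vX true s r t * vX true s r₁ t₁ * vX false s (conj r₁) (conj t₁) *
        vX false s (conj r) (conj t) := by
  have h := DD_comm (s, r₁, t₁) (vX false s (conj r) (conj t))
  show vX true s r t * vX false s (conj r) (conj t) * DD (s, r₁, t₁) = _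
  rw [mul_assoc, ← h]
  simp only [DD, mul_assoc]

theorem local_DD_DD (s : Fin g) (r t r₁ t₁ : ℂ) :
    Local s (DD (s, r, t) * DD (s, r₁, t₁))
      (((r * t₁ - t * r₁) * conj (r * t₁ - t * r₁)) • dd s) := by
  have h := local_XXYY true s r t r₁ t₁ (conj r₁) (conj t₁) (conj r) (conj t)
  rw [DD_mul]
  have e : (r * t₁ - t * r₁) * conj (r * t₁ - t * r₁) =
      -((r * t₁ - t * r₁) * (conj r₁ * conj t - conj t₁ * conj r)) := by
    simp only [map_sub, map_mul]
    ring
  rw [e]
  exact h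

theorem DD_three (s : Fin g) (r t r₁ t₁ r₂ t₂ : ℂ) :
    DD (s, r, t) * (DD (s, r₁, t₁) * DD (s, r₂, t₂)) = 0 := by
  have h := DD_comm (s, r₂, t₂) (vX false s (conj r₁) (conj t₁) * vX false s (conj r) (conj t))
  rw [← mul_assoc, DD_mul, mul_assoc (vX true s r t * vX true s r₁ t₁), mul_assoc
    (vX true s r t * vX true s r₁ t₁), ← h, ← mul_assoc]
  have e : DD (s, r₂, t₂) = vX true s r₂ t₂ * vX false s (conj r₂) (conj t₂) := rfl
  rw [e, ← mul_assoc (vX true s r t * vX true s r₁ t₁), vX_three, zero_mul, zero_mul]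

/-- the product of the divisors in a list -/
noncomputable def PP (l : List (Fin g × ℂ × ℂ)) : Coh g 2 := (l.map DD).prod

/-- the factor for `s` -/
noncomputable def rho (l : List (Fin g × ℂ × ℂ)) (s : Fin g) : Coh g 2 :=
  PP (l.filter fun p => p.1 = s)

theorem central_lprod {n : ℕ} {c : Coh g 2} (hc : ∀ z, c * z = z * c) (s₀ : Fin n)
    (ρ : Fin n → Coh g 2) :
    c * lprod ρ = lprod fun s => if s₀ = s then c * ρ s else ρ s := by
  induction n with
  | zero => exact s₀.elim0
  | succ n ih =>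
    rw [lprod_succ, lprod_succ]
    refine Fin.cases ?_ (fun i => ?_) s₀
    · rw [if_pos rfl, ← mul_assoc]
      congr 1
    · rw [if_neg (Fin.succ_ne_zero i), ← mul_assoc, hc, mul_assoc, ih i]
      simp only [Fin.succ_inj]

theorem PP_cons (p : Fin g × ℂ × ℂ) (l : List (Fin g × ℂ × ℂ)) : PP (p :: l) = DD p * PP l := by
  rw [PP, List.map_cons, List.prod_cons]
  rfl

theorem PP_append (l l' : List (Fin g × ℂ × ℂ)) : PP (l ++ l') = PP l * PP l' := by
  rw [PP, List.map_append, List.prod_append]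
  rfl

theorem PP_eq (l : List (Fin g × ℂ × ℂ)) : PP l = lprod (rho l) := by
  induction l with
  | nil =>
    have : (rho [] : Fin g → Coh g 2) = fun _ => 1 := rfl
    rw [this, lprod_one]
    rfl
  | cons p l ih =>
    rw [PP_cons, ih, central_lprod (DD_comm p) p.1]
    congr 1
    funext s
    unfold rho
    rw [List.filter_cons]
    by_cases h : p.1 = s
    · rw [if_pos h, if_pos (by simpa using h), PP_cons]
    · rw [if_neg h, if_neg (by simpa using h)]

theorem sum_filter_length (l : List (Fin g × ℂ × ℂ)) :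
    ∑ s, (l.filter fun p => p.1 = s).length = l.length := by
  induction l with
  | nil => simp
  | cons p l ih =>
    rw [List.length_cons, ← ih]
    have : ∀ s, ((p :: l).filter fun p => p.1 = s).length =
        (l.filter fun p => p.1 = s).length + if p.1 = s then 1 else 0 := by
      intro s
      rw [List.filter_cons]
      by_cases h : p.1 = s
      · rw [if_pos (by simpa using h), if_pos h, List.length_cons]
      · rw [if_neg (by simpa using h), if_neg h, add_zero]
    simp only [this]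
    rw [Finset.sum_add_distrib]
    simp

theorem local_list (s : Fin g) (l : List (Fin g × ℂ × ℂ)) (h1 : ∀ p ∈ l, p.1 = s)
    (h2 : ∀ p ∈ l, GR p.2.1 ∧ GR p.2.2) :
    ∃ (c : ℚ) (b : Bool), 0 ≤ c ∧
      Local s (PP l) ((c : ℂ) • (if b = true then dd s else (1 : Coh g 1))) ∧
      (c ≠ 0 → l.length = if b = true then 2 else 1) := by
  rcases l with _ | ⟨⟨s₁, r₁, t₁⟩, _ | ⟨⟨s₂, r₂, t₂⟩, _ | ⟨⟨s₃, r₃, t₃⟩, l⟩⟩⟩
  · refine ⟨0, false, le_rfl, ?_, fun h => absurd rfl h⟩
    rw [Rat.cast_zero, zero_smul]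
    exact local_one s
  · obtain rfl : s₁ = s := h1 (s₁, r₁, t₁) (by simp)
    obtain ⟨-, ht⟩ := h2 (s₁, r₁, t₁) (by simp)
    obtain ⟨c, hc, he⟩ := ht.norm
    refine ⟨c, false, hc, ?_, fun _ => by simp⟩
    have h := local_DD s₁ r₁ t₁
    rw [show t₁ * conj t₁ = c from he] at h
    have e : PP [(s₁, r₁, t₁)] = DD (s₁, r₁, t₁) := by
      rw [PP_cons]
      exact mul_one _
    rw [e]
    simpa using h
  · obtain rfl : s₁ = s := h1 (s₁, r₁, t₁) (by simp)
    obtain rfl : s₂ = s₁ := h1 (s₂, r₂, t₂) (by simp)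
    obtain ⟨hr₁, ht₁⟩ := h2 (s₂, r₁, t₁) (by simp)
    obtain ⟨hr₂, ht₂⟩ := h2 (s₂, r₂, t₂) (by simp)
    obtain ⟨c, hc, he⟩ := ((hr₁.mul ht₂).sub (ht₁.mul hr₂)).norm
    refine ⟨c, true, hc, ?_, fun _ => by simp⟩
    have h := local_DD_DD s₂ r₁ t₁ r₂ t₂
    rw [show (r₁ * t₂ - t₁ * r₂) * conj (r₁ * t₂ - t₁ * r₂) = c from he] at h
    have e : PP [(s₂, r₁, t₁), (s₂, r₂, t₂)] = DD (s₂, r₁, t₁) * DD (s₂, r₂, t₂) := by
      rw [PP_cons, PP_cons]
      congr 1
      exact mul_one _
    rw [e]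
    simpa using h
  · obtain rfl : s₁ = s := h1 (s₁, r₁, t₁) (by simp)
    obtain rfl : s₂ = s₁ := h1 (s₂, r₂, t₂) (by simp)
    obtain rfl : s₃ = s₂ := h1 (s₃, r₃, t₃) (by simp)
    refine ⟨0, false, le_rfl, ?_, fun h => absurd rfl h⟩
    rw [Rat.cast_zero, zero_smul]
    have e : PP ((s₃, r₁, t₁) :: (s₃, r₂, t₂) :: (s₃, r₃, t₃) :: l) = 0 := by
      rw [PP_cons, PP_cons, PP_cons, ← mul_assoc (DD (s₃, r₂, t₂)), ← mul_assoc, DD_three,
        zero_mul]
    rw [e]
    exact local_zero s₃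

theorem gysE_PP {i : ℕ} {l : List (Fin g × ℂ × ℂ)} (hl : l.length = i + g)
    (h : ∀ p ∈ l, GR p.2.1 ∧ GR p.2.2) : gysE g (PP l) ∈ effS g i := by
  have h1 : ∀ s, ∃ (c : ℚ) (b : Bool), 0 ≤ c ∧
      Local s (rho l s) ((c : ℂ) • (if b = true then dd s else (1 : Coh g 1))) ∧
      (c ≠ 0 → (l.filter fun p => p.1 = s).length = if b = true then 2 else 1) := by
    intro s
    refine local_list s (l.filter fun p => p.1 = s) ?_ ?_
    · intro p hp
      simpa using (List.mem_filter.1 hp).2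
    · intro p hp
      exact h p (List.mem_filter.1 hp).1
  choose c b hc hloc hlen using h1
  rw [PP_eq, gysE_lprod hloc, lprod_smul]
  by_cases hz : ∀ s, c s ≠ 0
  · have e : (lprod fun s => if b s = true then dd s else (1 : Coh g 1)) =
        dT (univ.filter fun s => b s = true) := by
      rw [dT_eq_lprod]
      congr 1
      funext s
      simp
    rw [e]
    have e2 : ∏ s, (c s : ℂ) = ((∏ s, c s : ℚ) : ℂ) := by push_cast; rfl
    rw [e2]
    refine mem_effS (Finset.prod_nonneg fun s _ => hc s) ?_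
    have h3 := sum_filter_length l
    rw [hl] at h3
    have h4 : ∑ s : Fin g, (l.filter fun p => p.1 = s).length =
        ∑ s : Fin g, ((if b s = true then 1 else 0) + 1) := by
      refine Finset.sum_congr rfl fun s _ => ?_
      rw [hlen s (hz s)]
      split_ifs <;> rfl
    rw [h4, Finset.sum_add_distrib] at h3
    simp only [sum_const, card_univ, Fintype.card_fin, smul_eq_mul, mul_one] at h3
    rw [Finset.card_filter]
    omega
  · push Not at hz
    obtain ⟨s, hs⟩ := hz
    rw [Finset.prod_eq_zero (mem_univ s) (by rw [hs, Rat.cast_zero]), zero_smul]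
    exact zero_mem _

/-- the effective classes on `A × A` -/
noncomputable def eff2S (g i : ℕ) : AddSubmonoid (Coh g 2) :=
  AddSubmonoid.closure {x | ∃ (r : ℚ) (l : List (Fin g × ℂ × ℂ)), 0 ≤ r ∧ l.length = i ∧
    (∀ p ∈ l, GR p.2.1 ∧ GR p.2.2) ∧ x = (r : ℂ) • PP l}

theorem mem_eff2S {i : ℕ} {r : ℚ} (hr : 0 ≤ r) {l : List (Fin g × ℂ × ℂ)} (hl : l.length = i)
    (h : ∀ p ∈ l, GR p.2.1 ∧ GR p.2.2) : (r : ℂ) • PP l ∈ eff2S g i :=
  AddSubmonoid.subset_closure ⟨r, l, hr, hl, h, rfl⟩

theorem eff2S_induction {i : ℕ} {P : Coh g 2 → Prop}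
    (gen : ∀ (r : ℚ) (l : List (Fin g × ℂ × ℂ)), 0 ≤ r → l.length = i →
      (∀ p ∈ l, GR p.2.1 ∧ GR p.2.2) → P ((r : ℂ) • PP l))
    (zero : P 0) (add : ∀ x y, P x → P y → P (x + y)) {x : Coh g 2} (hx : x ∈ eff2S g i) :
    P x := by
  induction hx using AddSubmonoid.closure_induction with
  | mem x h =>
    obtain ⟨r, l, hr, hl, h, rfl⟩ := h
    exact gen r l hr hl h
  | zero => exact zero
  | add x y _ _ hx hy => exact add x y hx hy

theorem eff2S_mul {i j : ℕ} {x y : Coh g 2} (hx : x ∈ eff2S g i) (hy : y ∈ eff2S g j) :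
    x * y ∈ eff2S g (i + j) := by
  refine eff2S_induction (P := fun x => x * y ∈ eff2S g (i + j)) ?_ ?_ ?_ hx
  · intro r l hr hl h
    refine eff2S_induction (P := fun y => (r : ℂ) • PP l * y ∈ eff2S g (i + j)) ?_ ?_ ?_ hy
    · intro r' l' hr' hl' h'
      rw [smul_mul_smul_comm, ← PP_append, ← Rat.cast_mul]
      refine mem_eff2S (mul_nonneg hr hr') (by rw [List.length_append, hl, hl']) ?_
      intro p hp
      rcases List.mem_append.1 hp with hp | hp
      · exact h p hp
      · exact h' p hp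
    · rw [mul_zero]
      exact zero_mem _
    · intro x y hx hy
      rw [mul_add]
      exact add_mem hx hy
  · rw [zero_mul]
    exact zero_mem _
  · intro x y hx hy
    rw [add_mul]
    exact add_mem hx hy

theorem prod_ite_list (L : List (Fin g)) (T : Finset (Fin g)) (f : Fin g → Coh g 2) :
    (L.map fun s => if s ∈ T then f s else 1).prod = ((L.filter fun s => s ∈ T).map f).prod := by
  induction L with
  | nil => simp
  | cons s L ih =>
    rw [List.map_cons, List.prod_cons, List.filter_cons, ih]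
    by_cases h : s ∈ T
    · rw [if_pos h, if_pos (by simpa using h), List.map_cons, List.prod_cons]
    · rw [if_neg h, if_neg (by simpa using h), one_mul]

theorem length_filter_finRange (T : Finset (Fin g)) :
    ((List.finRange g).filter fun s => s ∈ T).length = T.card := by
  have h1 : ((List.finRange g).filter fun s => s ∈ T).Nodup :=
    (List.nodup_finRange g).filter _
  rw [← List.toFinset_card_of_nodup h1]
  congr 1
  ext s
  simp

theorem eff2S_pull {a b : Fin g → ℂ} (ha : a ∈ Rset g) (hb : b ∈ Rset g) {i : ℕ} {x : Coh g 1}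
    (hx : x ∈ effS g i) : pb ![a, b] x ∈ eff2S g i := by
  refine effS_induction (P := fun x => pb ![a, b] x ∈ eff2S g i) ?_ ?_ ?_ hx
  · intro r T hr hT
    have e : pb ![a, b] (dT T) =
        PP (((List.finRange g).filter fun s => s ∈ T).map fun s => (s, a s, b s)) := by
      rw [dT_eq_lprod, map_lprod, lprod_eq_list, PP, List.map_map]
      have : (fun i => pb ![a, b] (if i ∈ T then dd i else 1)) =
          fun s => if s ∈ T then (DD ∘ fun s => (s, a s, b s)) s else (1 : Coh g 2) := by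
        funext s
        split_ifs
        · exact pb_dd a b s
        · exact map_one _
      rw [this, prod_ite_list]
    rw [map_smul, e]
    refine mem_eff2S hr (by rw [List.length_map, length_filter_finRange, hT]) ?_
    intro p hp
    obtain ⟨s, -, rfl⟩ := List.mem_map.1 hp
    exact ⟨ha s, hb s⟩
  · rw [map_zero]
    exact zero_mem _
  · intro x y hx hy
    rw [map_add]
    exact add_mem hx hy

theorem eff2S_push {i : ℕ} {x : Coh g 2} (hx : x ∈ eff2S g (i + g)) : gysE g x ∈ effS g i := by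
  refine eff2S_induction (P := fun x => gysE g x ∈ effS g i) ?_ ?_ ?_ hx
  · intro r l hr hl h
    rw [map_smul]
    exact effS_smul hr (gysE_PP hl h)
  · rw [map_zero]
    exact zero_mem _
  · intro x y hx hy
    rw [map_add]
    exact add_mem hx hy

/-- the example -/
noncomputable def ex (g : ℕ) : CMAb where
  g := g
  R := Rset g
  dense := dense_Rset g
  eff i := effS g i
  eff2 i := eff2S g i
  eff_gr _ _ hx := effS_gr hx
  one_mem := one_mem_effS
  add_mem _ _ hx _ hy := add_mem hx hy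
  smul_mem _ _ hr _ hx := effS_smul hr hx
  mul_mem _ _ _ hx _ hy := effS_mul hx hy
  mul_mem2 _ _ _ hx _ hy := eff2S_mul hx hy
  pol_mem := pol_mem_effS
  bound _ _ hx := effS_bound hx
  pull _ ha _ hb _ _ hx := eff2S_pull ha hb hx
  int := intE g
  int_gr _ hk _ hx := intE_gr hk hx
  int_eff _ hx := effS_int hx
  int_pol := intE_pol
  gys := gysE g
  gys_mul x y := gysE_mul x y
  push _ _ hx := eff2S_push hx

end ExampleAux

/-- the axioms of `CMAb` can be satisfied in every dimension -/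
theorem exists_cmab (g : ℕ) : ∃ A : CMAb, A.g = g := ⟨ExampleAux.ex g, rfl⟩

end Pc0b458V
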