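import Pool.Agent.Lib.Pc0b458V.TriA

/-!
# The cubic operation on monomials of weights `η`, `-η`, `0`

The product `pb v₀ (mo η ∅) * pb v₁ (mo (-η) ∅)` is, by `lprod_mul_odd` with `J = supp η`,
`(-1) ^ k • lprod (X_0 * Y_1)` where `X_i = vX b s r_i 1`, `Y_i = vX (!b) s (conj r_i) 1` for
`s ∈ supp η` and `1` for `s ∉ supp η` (`Vec.pb_letter`, `Vec.pb_letter_neg`). Multiply with the other
factors by `lprod_mul_comm`; `gys_lprod`. For `s ∉ supp η` the local factor is `pr2 (dd s)`. For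
`s ∈ supp η \ T`: `X_0 * Y_1` gives `sb b` (`local_XY`); for `s ∈ T`,
`X_0 * Y_1 * D_2 = - sb b • (X_0 * X_2 * Y_1 * Y_2)` gives
`sb b * (r₀ - r₂) * conj (r₁ - r₂) • dd s` (`local_XXYY`). The product of the `sb b` is `sg η`.
-/

open Finset ComplexConjugate

namespace Pc0b458V

section

variable {g m : ℕ} {η : Fin g → ℤ}

theorem lt_out {s : Fin g} (hs : s ∉ supp η) : lt η ∅ s = 1 := by
  have h : η s = 0 := by simpa [supp] using hs
  simp [lt, h]

theorem lt_out_neg {s : Fin g} (hs : s ∉ supp η) : lt (-η) ∅ s = 1 := by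
  have h : η s = 0 := by simpa [supp] using hs
  simp [lt, h]

theorem lt_eq_gen {s : Fin g} (hs : η s = 1 ∨ η s = -1) :
    lt η ∅ s = gen s (decide (η s = 1)) 0 := by
  rcases hs with hs | hs
  · simp [lt, hs]
  · simp [lt, hs]

theorem pb_mo (v : Fin m → Fin g → ℂ) (η : Fin g → ℤ) :
    pb v (mo η ∅) = lprod fun s => pb v (lt η ∅ s) := by
  rw [mo, map_lprod]

/-- a product over the support, as a product over all indices -/
theorem prod_supp (f : Fin g → ℂ) (S : Finset (Fin g)) :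
    (∏ s, if s ∈ S then f s else 1) = ∏ s ∈ S, f s := by
  rw [Finset.prod_ite_mem, Finset.univ_inter]

theorem prod_supp_const (w : ℂ) (S : Finset (Fin g)) :
    (∏ s, if s ∈ S then w else 1) = w ^ S.card := by
  rw [prod_supp (fun _ => w), Finset.prod_const]

end

/-- the sign of the weight as a product over its support -/
theorem prod_sb {g : ℕ} {η : Fin g → ℤ} (hη : ∀ s, η s = -1 ∨ η s = 0 ∨ η s = 1) :
    ∏ s ∈ supp η, sb (decide (η s = 1)) = (sg η : ℂ) := by
  rw [sg, Int.cast_prod]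
  refine Finset.prod_congr rfl fun s hs => ?_
  rcases supp_cases hη hs with h | h
  · simp [h, sb]
  · simp [h, sb]

namespace CMAb

variable (A : CMAb)

theorem tri_neg_dT {η : Fin A.g → ℤ} (hη : ∀ s, η s = -1 ∨ η s = 0 ∨ η s = 1) {k : ℕ}
    (hk : size η = 2 * k) {r₀ r₁ r₂ : ℂ} {v₀ v₁ v₂ : Fin 2 → Fin A.g → ℂ} (h₀ : Vec η r₀ v₀)
    (h₁ : Vec η r₁ v₁) (h₂ : Vec η r₂ v₂) {T : Finset (Fin A.g)} (hT : T ⊆ supp η) :
    A.tri η v₀ v₁ v₂ (mo η ∅) (mo (-η) ∅) (dT T) =
      (A.top * ((-1) ^ k * (sg η : ℂ) * ((r₀ - r₂) * conj (r₁ - r₂)) ^ T.card)) • dT T := by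
  have key : ∀ s, Local s (pb v₀ (lt η ∅ s) * pb v₁ (lt (-η) ∅ s) * pb v₂ (lt 0 T s) *
      pr2 (lt 0 (zer η) s))
      (((if s ∈ supp η then sb (decide (η s = 1)) else 1) *
        (if s ∈ T then (r₀ - r₂) * conj (r₁ - r₂) else 1)) • lt 0 T s) := by
    intro s
    by_cases hs : s ∈ supp η
    · have hc := supp_cases hη hs
      have hz := not_mem_zer_of hs
      rw [h₀.pb_letter hc, h₁.pb_letter_neg hc]
      simp only [lt_zero, hz, if_false, map_one, mul_one, hs, if_true]
      by_cases c : s ∈ T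
      · simp only [c, if_true]
        rw [h₂.pb_dd hc, mul_smul_comm, vX_four]
        have h1 := local_smul (-sb (decide (η s = 1)))
          (local_XXYY (decide (η s = 1)) s r₀ 1 r₂ 1 (conj r₁) 1 (conj r₂) 1)
        rw [smul_smul, neg_smul] at h1
        have e : -sb (decide (η s = 1)) * -((r₀ * 1 - 1 * r₂) * (conj r₁ * 1 - 1 * conj r₂)) =
            sb (decide (η s = 1)) * ((r₀ - r₂) * conj (r₁ - r₂)) := by
          rw [map_sub]
          ring
        rw [e] at h1
        rw [smul_neg]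
        exact h1
      · simp only [c, if_false, map_one, mul_one]
        have h1 := local_XY (decide (η s = 1)) s r₀ 1 (conj r₁) 1
        rw [mul_one, mul_one] at h1
        exact h1
    · have hz := mem_zer_of hs
      have c : s ∉ T := fun h => hs (hT h)
      rw [lt_out hs, lt_out_neg hs]
      simp only [lt_zero, hz, if_true, map_one, mul_one, one_mul, hs, if_false, c, one_smul]
      exact local_pr2_dd s
  have h1 := A.gys_lprod key
  rw [lprod_smul, Finset.prod_mul_distrib, prod_supp, prod_supp_const, prod_sb hη] at h1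
  have h2 : pb v₀ (mo η ∅) * pb v₁ (mo (-η) ∅) =
      (-1 : ℂ) ^ k • lprod fun s => pb v₀ (lt η ∅ s) * pb v₁ (lt (-η) ∅ s) := by
    rw [pb_mo, pb_mo]
    refine lprod_mul_odd (supp η) k (by rw [← size_eq_card hη, hk]) ?_ ?_ ?_
    · intro i hi
      rw [lt_out hi, map_one]
    · intro i hi
      rw [lt_out_neg hi, map_one]
    · intro i hi j hj _
      rw [h₀.pb_letter (supp_cases hη hj), h₁.pb_letter_neg (supp_cases hη hi)]
      exact vX_anti _ _ _ _ _ _ _ _
  rw [tri, h2, smul_mul_assoc, smul_mul_assoc, lprod_mul_pb_dT, pr2, lprod_mul_pb_dT, map_smul]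
  have h3 : (lprod (lt 0 T) : Coh A.g 1) = dT T := rfl
  rw [h3] at h1
  have h4 := congrArg (fun z => (-1 : ℂ) ^ k • z) h1
  simp only [pr2] at h4
  rw [h4, smul_smul, smul_smul]
  congr 1
  ring

end CMAb

end Pc0b458V
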