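import Pool.Agent.Lib.Pc0b458V.TriB

/-!
# The cubic operation on a monomial of weight `η` and two monomials `dT`

All factors commute except the letters of `mo η ∅`, so `lprod_mul_comm` applies (the letters of
`dT` are products of two vectors). For `s ∉ supp η` the local factor is `pr2 (dd s)`; for
`s ∈ supp η`, with `X_i = vX b s r_i 1`, `Y_i = vX (!b) s (conj r_i) 1`, `D_i = sb b • (X_i * Y_i)`:
`X_0` gives `0` (`local_X`), `X_0 * D_i` gives `(r₀ - r_i) • gen s b 0` (`local_XXY`,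
`sb b * sb b = 1`), which is `(r₀ - r_i) • lt η ∅ s`, and `X_0 * D_1 * D_2 = 0` (`vX_three`).
-/

open Finset ComplexConjugate

namespace Pc0b458V

section

variable {g : ℕ} {η : Fin g → ℤ} {r₀ r₁ r₂ : ℂ} {v₀ v₁ v₂ : Fin 2 → Fin g → ℂ}

theorem vX_five (b : Bool) (s : Fin g) (r t r₁ t₁ p₁ q₁ r₂ t₂ p₂ q₂ : ℂ) :
    vX b s r t * (vX b s r₁ t₁ * vX (!b) s p₁ q₁) * (vX b s r₂ t₂ * vX (!b) s p₂ q₂) = 0 := by
  have h : vX b s r t * (vX b s r₁ t₁ * vX (!b) s p₁ q₁) * (vX b s r₂ t₂ * vX (!b) s p₂ q₂) =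
      -(vX b s r t * vX b s r₁ t₁ * vX b s r₂ t₂ * vX (!b) s p₁ q₁ * vX (!b) s p₂ q₂) := by
    rw [mul_assoc (vX b s r t), vX_four]
    simp only [mul_neg, mul_assoc]
  rw [h, vX_three, zero_mul, zero_mul, neg_zero]

theorem Vec.local_lt_dd (h₀ : Vec η r₀ v₀) (h₁ : Vec η r₁ v₁) {s : Fin g}
    (hs : η s = 1 ∨ η s = -1) :
    Local s (pb v₀ (lt η ∅ s) * pb v₁ (dd s)) ((r₀ - r₁) • lt η ∅ s) := by
  rw [h₀.pb_letter hs, h₁.pb_dd hs, mul_smul_comm, ← mul_assoc, lt_eq_gen hs]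
  have h1 := local_smul (sb (decide (η s = 1)))
    (local_XXY (decide (η s = 1)) s r₀ 1 r₁ 1 (conj r₁) 1)
  rw [smul_smul] at h1
  have e : sb (decide (η s = 1)) * (sb (decide (η s = 1)) * (r₀ * 1 - 1 * r₁) * 1) = r₀ - r₁ := by
    have h2 := sb_sq (decide (η s = 1))
    linear_combination (r₀ - r₁) * h2
  rw [e] at h1
  exact h1

theorem Vec.lt_dd_dd (h₀ : Vec η r₀ v₀) (h₁ : Vec η r₁ v₁) (h₂ : Vec η r₂ v₂) {s : Fin g}
    (hs : η s = 1 ∨ η s = -1) :
    pb v₀ (lt η ∅ s) * pb v₁ (dd s) * pb v₂ (dd s) = 0 := by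
  rw [h₀.pb_letter hs, h₁.pb_dd hs, h₂.pb_dd hs, mul_smul_comm, mul_smul_comm, smul_mul_assoc,
    vX_five, smul_zero, smul_zero]

end

namespace CMAb

variable (A : CMAb)

theorem tri_dT_dT {η : Fin A.g → ℤ} (hη : ∀ s, η s = -1 ∨ η s = 0 ∨ η s = 1) {r₀ r₁ r₂ : ℂ}
    {v₀ v₁ v₂ : Fin 2 → Fin A.g → ℂ} (h₀ : Vec η r₀ v₀) (h₁ : Vec η r₁ v₁) (h₂ : Vec η r₂ v₂)
    {T T' : Finset (Fin A.g)} (hT : T ⊆ supp η) (hT' : T' ⊆ supp η) :
    A.tri η v₀ v₁ v₂ (mo η ∅) (dT T) (dT T') =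
      if T' = supp η \ T then
        (A.top * ((r₀ - r₁) ^ T.card * (r₀ - r₂) ^ T'.card)) • mo η ∅ else 0 := by
  have key : ∀ s, Local s (pb v₀ (lt η ∅ s) * pb v₁ (lt 0 T s) * pb v₂ (lt 0 T' s) *
      pr2 (lt 0 (zer η) s))
      (if s ∈ supp η ∧ (s ∈ T ↔ s ∈ T') then 0 else
        ((if s ∈ T then r₀ - r₁ else 1) * (if s ∈ T' then r₀ - r₂ else 1)) • lt η ∅ s) := by
    intro s
    by_cases hs : s ∈ supp η
    · have hc := supp_cases hη hs
      have hz := not_mem_zer_of hs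
      simp only [lt_zero, hz, if_false, map_one, mul_one, hs, true_and]
      by_cases c : s ∈ T <;> by_cases c' : s ∈ T'
      · simp only [c, c', if_true]
        rw [h₀.lt_dd_dd h₁ h₂ hc]
        exact local_zero s
      · simp only [c, c', if_true, if_false, iff_false, not_true, map_one, mul_one]
        exact h₀.local_lt_dd h₁ hc
      · simp only [c, c', if_true, if_false, iff_true, map_one, mul_one, one_mul]
        exact h₀.local_lt_dd h₂ hc
      · simp only [c, c', if_true, if_false, map_one, mul_one]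
        rw [h₀.pb_letter hc]
        exact local_X _ _ _ _
    · have hz := mem_zer_of hs
      have c : s ∉ T := fun h => hs (hT h)
      have c' : s ∉ T' := fun h => hs (hT' h)
      rw [lt_out hs]
      simp only [lt_zero, hz, if_true, map_one, mul_one, one_mul, hs, false_and, if_false, c, c',
        one_smul]
      exact local_pr2_dd s
  have h1 := A.gys_lprod key
  have h2 : A.tri η v₀ v₁ v₂ (mo η ∅) (dT T) (dT T') =
      A.gys (lprod fun s => pb v₀ (lt η ∅ s) * pb v₁ (lt 0 T s) * pb v₂ (lt 0 T' s) *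
        pr2 (lt 0 (zer η) s)) := by
    rw [tri, pb_mo, lprod_mul_pb_dT, lprod_mul_pb_dT, pr2, lprod_mul_pb_dT]
  rw [h2, h1]
  split_ifs with hif
  · have e : (fun s => if s ∈ supp η ∧ (s ∈ T ↔ s ∈ T') then (0 : Coh A.g 1) else
        ((if s ∈ T then r₀ - r₁ else 1) * (if s ∈ T' then r₀ - r₂ else 1)) • lt η ∅ s) =
        fun s => ((if s ∈ T then r₀ - r₁ else 1) * (if s ∈ T' then r₀ - r₂ else 1)) • lt η ∅ s := by
      funext s
      rw [if_neg]
      rintro ⟨hs, hs'⟩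
      rw [hif, Finset.mem_sdiff] at hs'
      tauto
    rw [e, lprod_smul, Finset.prod_mul_distrib, prod_supp_const, prod_supp_const, smul_smul]
    rfl
  · obtain ⟨s, hs⟩ : ∃ s, s ∈ supp η ∧ (s ∈ T ↔ s ∈ T') := by
      by_contra hcon
      push Not at hcon
      apply hif
      ext s
      rw [Finset.mem_sdiff]
      have h3 := hcon s
      constructor
      · intro h4
        have h5 := hT' h4
        have h6 := h3 h5
        tauto
      · rintro ⟨h4, h5⟩
        have h6 := h3 h4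
        tauto
    rw [lprod_eq_zero s (if_pos hs), smul_zero]

end CMAb

end Pc0b458V
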