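import Pool.Agent.Lib.Pc0b458V.TriC

/-!
# The cubic operation on monomials of weights `η`, `η`, `-η`; vanishing

`pb v₀ (mo η ∅) * pb v₁ (mo η ∅)` is `(-1) ^ k • lprod (X_0 * X_1)` by `lprod_mul_odd`; multiply by
the letters of `mo (-η) ∅` with `lprod_mul_comm` (`X_0 * X_1` is central, `vX_comm`). Local factors
for `s ∈ supp η`: `X_0 * X_1 * Y_2` gives `sb b * (r₀ - r₁) • gen s b 0` (`local_XXY`). Vanishing:
for `s ∈ supp η` (not empty, since `η ≠ 0` is a weight) the local factor is `X_0 * X_1` (which gives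
`0`, `local_XX`), `X_0 * X_1 * D_2` or `X_0 * X_1 * X_2` (which are `0`, `vX_three`; for the last
product one may also use `vX_three` after reordering the whole product up to sign).
-/

open Finset ComplexConjugate

namespace Pc0b458V

namespace CMAb

variable (A : CMAb)

theorem pb_mo_mul_pb_mo {η : Fin A.g → ℤ} (hη : ∀ s, η s = -1 ∨ η s = 0 ∨ η s = 1) {k : ℕ}
    (hk : size η = 2 * k) {r₀ r₁ : ℂ} {v₀ v₁ : Fin 2 → Fin A.g → ℂ} (h₀ : Vec η r₀ v₀)
    (h₁ : Vec η r₁ v₁) :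
    pb v₀ (mo η ∅) * pb v₁ (mo η ∅) =
      (-1 : ℂ) ^ k • lprod fun s => pb v₀ (lt η ∅ s) * pb v₁ (lt η ∅ s) := by
  rw [pb_mo, pb_mo]
  refine lprod_mul_odd (supp η) k (by rw [← size_eq_card hη, hk]) ?_ ?_ ?_
  · intro i hi
    rw [lt_out hi, map_one]
  · intro i hi
    rw [lt_out hi, map_one]
  · intro i hi j hj _
    rw [h₀.pb_letter (supp_cases hη hj), h₁.pb_letter (supp_cases hη hi)]
    exact vX_anti _ _ _ _ _ _ _ _

/-- the product of two letters is central -/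
theorem letters_comm {η : Fin A.g → ℤ} (hη : ∀ s, η s = -1 ∨ η s = 0 ∨ η s = 1) {r₀ r₁ : ℂ}
    {v₀ v₁ : Fin 2 → Fin A.g → ℂ} (h₀ : Vec η r₀ v₀) (h₁ : Vec η r₁ v₁) (s : Fin A.g)
    (z : Coh A.g 2) :
    pb v₀ (lt η ∅ s) * pb v₁ (lt η ∅ s) * z = z * (pb v₀ (lt η ∅ s) * pb v₁ (lt η ∅ s)) := by
  by_cases hs : s ∈ supp η
  · have hc := supp_cases hη hs
    rw [h₀.pb_letter hc, h₁.pb_letter hc]
    exact vX_comm _ _ _ _ _ _ _ _ _
  · rw [lt_out hs, map_one, map_one, mul_one, one_mul, mul_one]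

theorem tri_pos_neg {η : Fin A.g → ℤ} (hη : ∀ s, η s = -1 ∨ η s = 0 ∨ η s = 1) {k : ℕ}
    (hk : size η = 2 * k) {r₀ r₁ r₂ : ℂ} {v₀ v₁ v₂ : Fin 2 → Fin A.g → ℂ} (h₀ : Vec η r₀ v₀)
    (h₁ : Vec η r₁ v₁) (h₂ : Vec η r₂ v₂) :
    A.tri η v₀ v₁ v₂ (mo η ∅) (mo η ∅) (mo (-η) ∅) =
      (A.top * ((-1) ^ k * (sg η : ℂ) * (r₀ - r₁) ^ (2 * k))) • mo η ∅ := by
  have key : ∀ s, Local s (pb v₀ (lt η ∅ s) * pb v₁ (lt η ∅ s) * pb v₂ (lt (-η) ∅ s) *
      pr2 (lt 0 (zer η) s))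
      (((if s ∈ supp η then sb (decide (η s = 1)) else 1) *
        (if s ∈ supp η then r₀ - r₁ else 1)) • lt η ∅ s) := by
    intro s
    by_cases hs : s ∈ supp η
    · have hc := supp_cases hη hs
      have hz := not_mem_zer_of hs
      rw [h₀.pb_letter hc, h₁.pb_letter hc, h₂.pb_letter_neg hc, lt_eq_gen hc]
      simp only [lt_zero, hz, if_false, map_one, mul_one, hs, if_true]
      have h1 := local_XXY (decide (η s = 1)) s r₀ 1 r₁ 1 (conj r₂) 1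
      rw [mul_one, mul_one, one_mul] at h1
      exact h1
    · have hz := mem_zer_of hs
      rw [lt_out hs, lt_out_neg hs]
      simp only [lt_zero, hz, if_true, map_one, mul_one, one_mul, hs, if_false, one_smul]
      exact local_pr2_dd s
  have h1 := A.gys_lprod key
  rw [lprod_smul, Finset.prod_mul_distrib, prod_supp, prod_supp_const, prod_sb hη,
    ← size_eq_card hη, hk] at h1
  have h2 : (lprod fun s => pb v₀ (lt η ∅ s) * pb v₁ (lt η ∅ s)) * pb v₂ (mo (-η) ∅) =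
      lprod fun s => pb v₀ (lt η ∅ s) * pb v₁ (lt η ∅ s) * pb v₂ (lt (-η) ∅ s) := by
    rw [pb_mo v₂]
    exact lprod_mul_comm fun i j _ => A.letters_comm hη h₀ h₁ j _
  rw [tri, A.pb_mo_mul_pb_mo hη hk h₀ h₁, smul_mul_assoc, smul_mul_assoc, h2, pr2,
    lprod_mul_pb_dT, map_smul]
  have h3 : (lprod (lt η ∅) : Coh A.g 1) = mo η ∅ := rfl
  rw [h3] at h1
  have h4 := congrArg (fun z => (-1 : ℂ) ^ k • z) h1
  simp only [pr2] at h4
  rw [h4, smul_smul, smul_smul]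
  congr 1
  ring

theorem tri_pos_dT {η : Fin A.g → ℤ} (hη : ∀ s, η s = -1 ∨ η s = 0 ∨ η s = 1) (h0 : η ≠ 0) {k : ℕ}
    (hk : size η = 2 * k) {r₀ r₁ r₂ : ℂ} {v₀ v₁ v₂ : Fin 2 → Fin A.g → ℂ} (h₀ : Vec η r₀ v₀)
    (h₁ : Vec η r₁ v₁) (h₂ : Vec η r₂ v₂) {T : Finset (Fin A.g)} (hT : T ⊆ supp η) :
    A.tri η v₀ v₁ v₂ (mo η ∅) (mo η ∅) (dT T) = 0 := by
  have key : ∀ s, Local s (pb v₀ (lt η ∅ s) * pb v₁ (lt η ∅ s) * pb v₂ (lt 0 T s) *
      pr2 (lt 0 (zer η) s)) (if s ∈ supp η then 0 else 1) := by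
    intro s
    by_cases hs : s ∈ supp η
    · have hc := supp_cases hη hs
      have hz := not_mem_zer_of hs
      rw [h₀.pb_letter hc, h₁.pb_letter hc]
      simp only [lt_zero, hz, if_false, map_one, mul_one, hs, if_true]
      by_cases c : s ∈ T
      · simp only [c, if_true]
        rw [h₂.pb_dd hc, mul_smul_comm, ← mul_assoc, vX_three, zero_mul, smul_zero]
        exact local_zero s
      · simp only [c, if_false, map_one, mul_one]
        exact local_XX _ _ _ _ _ _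
    · have hz := mem_zer_of hs
      have c : s ∉ T := fun h => hs (hT h)
      rw [lt_out hs]
      simp only [lt_zero, hz, if_true, map_one, mul_one, one_mul, hs, if_false, c]
      exact local_pr2_dd s
  have h1 := A.gys_lprod key
  obtain ⟨s, hs⟩ : ∃ s, η s ≠ 0 := by
    by_contra hcon
    push Not at hcon
    exact h0 (funext hcon)
  have hs' : s ∈ supp η := by simpa [supp] using hs
  have h5 := lprod_eq_zero (a := fun s => if s ∈ supp η then (0 : Coh A.g 1) else 1) s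
    (if_pos hs')
  rw [h5, smul_zero] at h1
  rw [tri, A.pb_mo_mul_pb_mo hη hk h₀ h₁, smul_mul_assoc, smul_mul_assoc, lprod_mul_pb_dT, pr2,
    lprod_mul_pb_dT, map_smul]
  simp only [pr2] at h1
  rw [h1, smul_zero]

theorem tri_pos_pos {η : Fin A.g → ℤ} (hη : ∀ s, η s = -1 ∨ η s = 0 ∨ η s = 1) (h0 : η ≠ 0) {k : ℕ}
    (hk : size η = 2 * k) {r₀ r₁ r₂ : ℂ} {v₀ v₁ v₂ : Fin 2 → Fin A.g → ℂ} (h₀ : Vec η r₀ v₀)
    (h₁ : Vec η r₁ v₁) (h₂ : Vec η r₂ v₂) :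
    A.tri η v₀ v₁ v₂ (mo η ∅) (mo η ∅) (mo η ∅) = 0 := by
  obtain ⟨s, hs⟩ : ∃ s, η s ≠ 0 := by
    by_contra hcon
    push Not at hcon
    exact h0 (funext hcon)
  have hs' : s ∈ supp η := by simpa [supp] using hs
  have hc := supp_cases hη hs'
  have h2 : (lprod fun s => pb v₀ (lt η ∅ s) * pb v₁ (lt η ∅ s)) * pb v₂ (mo η ∅) = 0 := by
    rw [pb_mo v₂, lprod_mul_comm fun i j _ => A.letters_comm hη h₀ h₁ j _]
    apply lprod_eq_zero s
    rw [h₀.pb_letter hc, h₁.pb_letter hc, h₂.pb_letter hc, vX_three]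
  rw [tri, A.pb_mo_mul_pb_mo hη hk h₀ h₁, smul_mul_assoc, smul_mul_assoc, h2, zero_mul, smul_zero,
    map_zero]

end CMAb

end Pc0b458V
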