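import Pool.Agent.Lib.Pc0b458V.TriA
import Pool.Agent.Lib.Pc0b458V.TriB
import Pool.Agent.Lib.Pc0b458V.TriC
import Pool.Agent.Lib.Pc0b458V.TriD
import Pool.Agent.Lib.Pc0b458V.CountA

/-!
# The cubic operation on the test classes

Let `E = en (supp η) n`, `M = mo η ∅`, `N = mo (-η) ∅`, all of degree `2 n`, and `y = sg η * a * a'`.
Expand `tri (E + b ψ₀ a M + b conj ψ₀ a' N) (...) (...)` into 27 terms (it is additive and
homogeneous in each argument). By `tri_swap01`, `tri_swap12` the order of the pairs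
`(v_i, x_i)` does not matter. For `{i, j, k} = {0, 1, 2}`:
`(E, E, E)`: `top * num3 n • E` (`tri_dT`, `sum_cover`);
`(M_i, N_j, E_k)` (six terms): `tri_neg_dT` for each `T`, with the fourth condition on `ψ`:
`top * b ^ 2 * a * a' * ψ_i * conj ψ_j * (-1) ^ n * sg η * (...) ^ n • E = top * b ^ 2 * y • E`;
`(M_i, E_j, E_k)`: `tri_dT_dT` summed over `T, T'`: there are `(2 n).choose n` pairs with
`T' = supp η \ T`, and each gives, with the third condition, `top * b * a • M`; similarly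
`(N_i, E_j, E_k)` gives `top * (2 n).choose n * b * a' • N` (use `tri_neg`, `Vec.symm` and
the complex conjugate of the condition);
`(M_i, M_j, N_k)`: `tri_pos_neg` and the fifth condition: `top * b ^ 3 * y * a • M`; similarly
`(N_i, N_j, M_k)` gives `top * b ^ 3 * y * a' • N` (`sg_neg`);
`(M, M, E)`, `(N, N, E)`, `(M, M, M)`, `(N, N, N)`: zero (`tri_pos_dT`, `tri_pos_pos`).
-/

open Finset ComplexConjugate

namespace Pc0b458V

/-! ### auxiliary facts on signs and degrees -/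

theorem ff_supp_neg {g : ℕ} (η : Fin g → ℤ) : supp (-η) = supp η := by
  ext s
  simp [supp]

theorem ff_sg_neg {g : ℕ} {η : Fin g → ℤ} {n : ℕ} (hc : (supp η).card = 2 * n) :
    sg (-η) = sg η := by
  unfold sg
  rw [ff_supp_neg]
  simp only [Pi.neg_apply]
  rw [Finset.prod_neg, hc, pow_mul]
  norm_num

theorem ff_wt_neg {g : ℕ} {η : Fin g → ℤ} (hη : ∀ s, η s = -1 ∨ η s = 0 ∨ η s = 1) :
    ∀ s, (-η) s = -1 ∨ (-η) s = 0 ∨ (-η) s = 1 := by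
  intro s
  have := hη s
  simp only [Pi.neg_apply]
  omega

theorem ff_mo_mem {g : ℕ} {η : Fin g → ℤ} (hη : ∀ s, η s = -1 ∨ η s = 0 ∨ η s = 1) {n : ℕ}
    (hs : size η = 2 * n) : mo η ∅ ∈ gr g 1 (2 * n) := by
  apply mo_mem
  rw [mem_idx]
  refine ⟨hη, ?_, ?_⟩
  · intro s hs
    simp at hs
  · simpa using hs

theorem ff_en_mem {g : ℕ} (J : Finset (Fin g)) (n : ℕ) : en J n ∈ gr g 1 (2 * n) := by
  unfold en
  apply Submodule.sum_mem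
  intro T hT
  unfold dT
  apply mo_mem
  rw [mem_idx]
  refine ⟨fun s => Or.inr (Or.inl rfl), fun s _ => rfl, ?_⟩
  rw [(mem_powersetCard.1 hT).2]
  simp [size]

namespace CMAb

variable (A : CMAb)

/-! ### the operation is trilinear -/

section lin

variable (η : Fin A.g → ℤ) (v₀ v₁ v₂ : Fin 2 → Fin A.g → ℂ)

theorem ff_add0 (x x' y z : Coh A.g 1) :
    A.tri η v₀ v₁ v₂ (x + x') y z = A.tri η v₀ v₁ v₂ x y z + A.tri η v₀ v₁ v₂ x' y z := by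
  simp only [tri, map_add, add_mul]

theorem ff_add1 (x y y' z : Coh A.g 1) :
    A.tri η v₀ v₁ v₂ x (y + y') z = A.tri η v₀ v₁ v₂ x y z + A.tri η v₀ v₁ v₂ x y' z := by
  simp only [tri, map_add, mul_add, add_mul]

theorem ff_add2 (x y z z' : Coh A.g 1) :
    A.tri η v₀ v₁ v₂ x y (z + z') = A.tri η v₀ v₁ v₂ x y z + A.tri η v₀ v₁ v₂ x y z' := by
  simp only [tri, map_add, mul_add, add_mul]

theorem ff_smul0 (c : ℂ) (x y z : Coh A.g 1) :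
    A.tri η v₀ v₁ v₂ (c • x) y z = c • A.tri η v₀ v₁ v₂ x y z := by
  simp only [tri, map_smul, smul_mul_assoc]

theorem ff_smul1 (c : ℂ) (x y z : Coh A.g 1) :
    A.tri η v₀ v₁ v₂ x (c • y) z = c • A.tri η v₀ v₁ v₂ x y z := by
  simp only [tri, map_smul, smul_mul_assoc, mul_smul_comm]

theorem ff_smul2 (c : ℂ) (x y z : Coh A.g 1) :
    A.tri η v₀ v₁ v₂ x y (c • z) = c • A.tri η v₀ v₁ v₂ x y z := by
  simp only [tri, map_smul, smul_mul_assoc, mul_smul_comm]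

theorem ff_sum0 {ι : Type*} (S : Finset ι) (f : ι → Coh A.g 1) (y z : Coh A.g 1) :
    A.tri η v₀ v₁ v₂ (∑ i ∈ S, f i) y z = ∑ i ∈ S, A.tri η v₀ v₁ v₂ (f i) y z := by
  simp only [tri, map_sum, Finset.sum_mul]

theorem ff_sum1 {ι : Type*} (S : Finset ι) (f : ι → Coh A.g 1) (x z : Coh A.g 1) :
    A.tri η v₀ v₁ v₂ x (∑ i ∈ S, f i) z = ∑ i ∈ S, A.tri η v₀ v₁ v₂ x (f i) z := by
  simp only [tri, map_sum, Finset.sum_mul, Finset.mul_sum]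

theorem ff_sum2 {ι : Type*} (S : Finset ι) (f : ι → Coh A.g 1) (x y : Coh A.g 1) :
    A.tri η v₀ v₁ v₂ x y (∑ i ∈ S, f i) = ∑ i ∈ S, A.tri η v₀ v₁ v₂ x y (f i) := by
  simp only [tri, map_sum, Finset.sum_mul, Finset.mul_sum]

theorem ff_expand (E M N : Coh A.g 1) (α₀ α₁ α₂ β₀ β₁ β₂ : ℂ) :
    A.tri η v₀ v₁ v₂ (E + α₀ • M + β₀ • N) (E + α₁ • M + β₁ • N) (E + α₂ • M + β₂ • N) =
      A.tri η v₀ v₁ v₂ E E E
      + (α₀ • A.tri η v₀ v₁ v₂ M E E + α₁ • A.tri η v₀ v₁ v₂ E M E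
        + α₂ • A.tri η v₀ v₁ v₂ E E M)
      + (β₀ • A.tri η v₀ v₁ v₂ N E E + β₁ • A.tri η v₀ v₁ v₂ E N E
        + β₂ • A.tri η v₀ v₁ v₂ E E N)
      + ((α₀ * β₁) • A.tri η v₀ v₁ v₂ M N E + (α₀ * β₂) • A.tri η v₀ v₁ v₂ M E N
        + (α₁ * β₀) • A.tri η v₀ v₁ v₂ N M E + (α₁ * β₂) • A.tri η v₀ v₁ v₂ E M N
        + (α₂ * β₀) • A.tri η v₀ v₁ v₂ N E M + (α₂ * β₁) • A.tri η v₀ v₁ v₂ E N M)
      + ((α₀ * α₁ * β₂) • A.tri η v₀ v₁ v₂ M M N + (α₀ * α₂ * β₁) • A.tri η v₀ v₁ v₂ M N M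
        + (α₁ * α₂ * β₀) • A.tri η v₀ v₁ v₂ N M M)
      + ((β₀ * β₁ * α₂) • A.tri η v₀ v₁ v₂ N N M + (β₀ * β₂ * α₁) • A.tri η v₀ v₁ v₂ N M N
        + (β₁ * β₂ * α₀) • A.tri η v₀ v₁ v₂ M N N)
      + ((α₀ * α₁) • A.tri η v₀ v₁ v₂ M M E + (α₀ * α₂) • A.tri η v₀ v₁ v₂ M E M
        + (α₁ * α₂) • A.tri η v₀ v₁ v₂ E M M)
      + ((β₀ * β₁) • A.tri η v₀ v₁ v₂ N N E + (β₀ * β₂) • A.tri η v₀ v₁ v₂ N E N
        + (β₁ * β₂) • A.tri η v₀ v₁ v₂ E N N)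
      + ((α₀ * α₁ * α₂) • A.tri η v₀ v₁ v₂ M M M + (β₀ * β₁ * β₂) • A.tri η v₀ v₁ v₂ N N N) := by
  simp only [ff_add0, ff_add1, ff_add2, ff_smul0, ff_smul1, ff_smul2]
  module

end lin

section vals

variable {η : Fin A.g → ℤ} (hη : ∀ s, η s = -1 ∨ η s = 0 ∨ η s = 1) (h0 : η ≠ 0) {n : ℕ}
  (hs : size η = 2 * n) {r₀ r₁ r₂ : ℂ} {v₀ v₁ v₂ : Fin 2 → Fin A.g → ℂ}
  (h₀ : Vec η r₀ v₀) (h₁ : Vec η r₁ v₁) (h₂ : Vec η r₂ v₂)

include hη hs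

theorem ff_card : (supp η).card = 2 * n := by rw [← size_eq_card hη, hs]

include h₀ h₁ h₂

theorem ff_EEE (hn : n = 1 ∨ n = 2) (h01 : (r₀ - r₁) * conj (r₀ - r₁) = 1)
    (h02 : (r₀ - r₂) * conj (r₀ - r₂) = 1) (h12 : (r₁ - r₂) * conj (r₁ - r₂) = 1) :
    A.tri η v₀ v₁ v₂ (en (supp η) n) (en (supp η) n) (en (supp η) n) =
      (A.top * (num3 n : ℂ)) • en (supp η) n := by
  have hJ := ff_card A hη hs
  have h : A.tri η v₀ v₁ v₂ (en (supp η) n) (en (supp η) n) (en (supp η) n) =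
      A.top • (∑ T₀ ∈ powersetCard n (supp η), ∑ T₁ ∈ powersetCard n (supp η),
        ∑ T₂ ∈ powersetCard n (supp η),
        if supp η ⊆ T₀ ∪ T₁ ∪ T₂ ∧ T₀ ∩ T₁ ∩ T₂ = ∅ then
        (dT ((T₀ ∩ T₁) ∪ (T₀ ∩ T₂) ∪ (T₁ ∩ T₂)) : Coh A.g 1) else 0) := by
    conv_lhs => rw [en]
    rw [ff_sum0, Finset.smul_sum]
    apply Finset.sum_congr rfl
    intro T₀ hT₀
    rw [ff_sum1, Finset.smul_sum]
    apply Finset.sum_congr rfl
    intro T₁ hT₁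
    rw [ff_sum2, Finset.smul_sum]
    apply Finset.sum_congr rfl
    intro T₂ hT₂
    rw [tri_dT A hη h₀ h₁ h₂ h01 h02 h12 (mem_powersetCard.1 hT₀).1 (mem_powersetCard.1 hT₁).1
      (mem_powersetCard.1 hT₂).1, smul_ite, smul_zero]
  rw [h, sum_cover hn hJ, smul_smul]

theorem ff_MEE : A.tri η v₀ v₁ v₂ (mo η ∅) (en (supp η) n) (en (supp η) n) =
      (A.top * ((2 * n).choose n : ℂ) * ((r₀ - r₁) ^ n * (r₀ - r₂) ^ n)) • mo η ∅ := by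
  have hJ := ff_card A hη hs
  have h : A.tri η v₀ v₁ v₂ (mo η ∅) (en (supp η) n) (en (supp η) n) =
      ∑ T ∈ powersetCard n (supp η), (A.top * ((r₀ - r₁) ^ n * (r₀ - r₂) ^ n)) • mo η ∅ := by
    conv_lhs => rw [en]
    rw [ff_sum1]
    apply Finset.sum_congr rfl
    intro T hT
    have hT' := mem_powersetCard.1 hT
    rw [ff_sum2]
    have hc : (supp η \ T).card = n := by
      rw [Finset.card_sdiff_of_subset hT'.1, hJ, hT'.2]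
      omega
    rw [Finset.sum_eq_single (supp η \ T)]
    · rw [tri_dT_dT A hη h₀ h₁ h₂ hT'.1 Finset.sdiff_subset, if_pos rfl, hc, hT'.2]
    · intro T' hT2 hne
      rw [tri_dT_dT A hη h₀ h₁ h₂ hT'.1 (mem_powersetCard.1 hT2).1, if_neg hne]
    · intro hne
      exact absurd (mem_powersetCard.2 ⟨Finset.sdiff_subset, hc⟩) hne
  rw [h, Finset.sum_const, card_powersetCard, hJ, ← Nat.cast_smul_eq_nsmul ℂ, smul_smul]
  congr 1
  ring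

theorem ff_MNE : A.tri η v₀ v₁ v₂ (mo η ∅) (mo (-η) ∅) (en (supp η) n) =
      (A.top * ((-1) ^ n * (sg η : ℂ) * ((r₀ - r₂) * conj (r₁ - r₂)) ^ n)) • en (supp η) n := by
  conv_lhs => rw [en]
  rw [ff_sum2, en, Finset.smul_sum]
  apply Finset.sum_congr rfl
  intro T hT
  rw [tri_neg_dT A hη hs h₀ h₁ h₂ (mem_powersetCard.1 hT).1, (mem_powersetCard.1 hT).2]

theorem ff_MME (h0 : η ≠ 0) : A.tri η v₀ v₁ v₂ (mo η ∅) (mo η ∅) (en (supp η) n) = 0 := by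
  rw [en, ff_sum2]
  apply Finset.sum_eq_zero
  intro T hT
  exact tri_pos_dT A hη h0 hs h₀ h₁ h₂ (mem_powersetCard.1 hT).1

end vals

theorem ff_sw3 (η : Fin A.g → ℤ) (v₀ v₁ v₂ : Fin 2 → Fin A.g → ℂ) {x y z : Coh A.g 1} {k : ℕ}
    (hx : x ∈ gr A.g 1 (2 * k)) (hy : y ∈ gr A.g 1 (2 * k)) :
    A.tri η v₀ v₁ v₂ x y z = A.tri η v₂ v₀ v₁ z x y := by
  rw [A.tri_swap12 η v₀ v₁ v₂ hy, A.tri_swap01 η v₀ v₂ v₁ hx]

theorem tri_xi {η : Fin A.g → ℤ} (hη : ∀ s, η s = -1 ∨ η s = 0 ∨ η s = 1) (h0 : η ≠ 0) {n : ℕ}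
    (hn : n = 1 ∨ n = 2) (hs : size η = 2 * n) {r ψ : Fin 3 → ℂ}
    {v : Fin 3 → Fin 2 → Fin A.g → ℂ} (hv : ∀ i, Vec η (r i) (v i))
    (h1 : ∀ i j, i ≠ j → (r i - r j) * conj (r i - r j) = 1)
    (h2 : ∀ i j k, i ≠ j → i ≠ k → j ≠ k → ψ i * ((r i - r j) ^ n * (r i - r k) ^ n) = 1)
    (h3 : ∀ i j k, i ≠ j → i ≠ k → j ≠ k →
      ψ i * conj (ψ j) * ((r i - r k) * conj (r j - r k)) ^ n = (-1) ^ n)
    (h4 : ∀ i j k, i ≠ j → i ≠ k → j ≠ k →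
      ψ i * ψ j * conj (ψ k) * (r i - r j) ^ (2 * n) = (-1) ^ n) (a a' b : ℂ) :
    A.tri η (v 0) (v 1) (v 2)
      (en (supp η) n + (b * (ψ 0 * a)) • mo η ∅ + (b * (conj (ψ 0) * a')) • mo (-η) ∅)
      (en (supp η) n + (b * (ψ 1 * a)) • mo η ∅ + (b * (conj (ψ 1) * a')) • mo (-η) ∅)
      (en (supp η) n + (b * (ψ 2 * a)) • mo η ∅ + (b * (conj (ψ 2) * a')) • mo (-η) ∅) =
    A.top • (((num3 n : ℂ) + 6 * ((sg η : ℂ) * a * a') * b ^ 2) • en (supp η) n +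
      (3 * ((2 * n).choose n : ℂ) * b + 3 * ((sg η : ℂ) * a * a') * b ^ 3) •
        (a • mo η ∅ + a' • mo (-η) ∅)) := by
  have hηn := ff_wt_neg hη
  have hsn : size (-η) = 2 * n := by rw [size_neg, hs]
  have hc : (supp η).card = 2 * n := ff_card A hη hs
  have h0n : -η ≠ 0 := neg_ne_zero.2 h0
  have hvn : ∀ i, Vec (-η) (conj (r i)) (v i) := fun i => (hv i).symm
  have hM : mo η ∅ ∈ gr A.g 1 (2 * n) := ff_mo_mem hη hs
  have hN : mo (-η) ∅ ∈ gr A.g 1 (2 * n) := ff_mo_mem hηn hsn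
  have hE : en (supp η) n ∈ gr A.g 1 (2 * n) := ff_en_mem _ n
  -- values
  have kMEE : ∀ i j k, i ≠ j → i ≠ k → j ≠ k →
      (b * (ψ i * a)) • A.tri η (v i) (v j) (v k) (mo η ∅) (en (supp η) n) (en (supp η) n) =
        (A.top * (((2 * n).choose n : ℂ) * b * a)) • mo η ∅ := by
    intro i j k hij hik hjk
    rw [ff_MEE A hη hs (hv i) (hv j) (hv k), smul_smul]
    congr 1
    have e := h2 i j k hij hik hjk
    linear_combination (b * a * A.top * ((2 * n).choose n : ℂ)) * e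
  have kNEE : ∀ i j k, i ≠ j → i ≠ k → j ≠ k →
      (b * (conj (ψ i) * a')) • A.tri η (v i) (v j) (v k) (mo (-η) ∅) (en (supp η) n)
        (en (supp η) n) = (A.top * (((2 * n).choose n : ℂ) * b * a')) • mo (-η) ∅ := by
    intro i j k hij hik hjk
    have e0 := ff_MEE A hηn hsn (hvn i) (hvn j) (hvn k)
    rw [A.tri_neg, ff_supp_neg] at e0
    rw [e0, smul_smul]
    congr 1
    have e := congrArg conj (h2 i j k hij hik hjk)
    simp only [map_mul, map_pow, map_sub, map_one] at e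
    linear_combination (b * a' * A.top * ((2 * n).choose n : ℂ)) * e
  have kMNE : ∀ i j k, i ≠ j → i ≠ k → j ≠ k →
      (b * (ψ i * a) * (b * (conj (ψ j) * a'))) •
        A.tri η (v i) (v j) (v k) (mo η ∅) (mo (-η) ∅) (en (supp η) n) =
        (A.top * ((sg η : ℂ) * a * a' * b ^ 2)) • en (supp η) n := by
    intro i j k hij hik hjk
    rw [ff_MNE A hη hs (hv i) (hv j) (hv k), smul_smul]
    congr 1
    have e := h3 i j k hij hik hjk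
    have e1 : ((-1 : ℂ) ^ n) * (-1) ^ n = 1 := by
      rw [← mul_pow]; norm_num
    linear_combination (b ^ 2 * a * a' * A.top * (-1) ^ n * (sg η : ℂ)) * e +
      (b ^ 2 * a * a' * A.top * (sg η : ℂ)) * e1
  have kMMN : ∀ i j k, i ≠ j → i ≠ k → j ≠ k →
      (b * (ψ i * a) * (b * (ψ j * a)) * (b * (conj (ψ k) * a'))) •
        A.tri η (v i) (v j) (v k) (mo η ∅) (mo η ∅) (mo (-η) ∅) =
        (A.top * ((sg η : ℂ) * a * a' * b ^ 3 * a)) • mo η ∅ := by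
    intro i j k hij hik hjk
    rw [tri_pos_neg A hη hs (hv i) (hv j) (hv k), smul_smul]
    congr 1
    have e := h4 i j k hij hik hjk
    have e1 : ((-1 : ℂ) ^ n) * (-1) ^ n = 1 := by
      rw [← mul_pow]; norm_num
    linear_combination (b ^ 3 * a ^ 2 * a' * A.top * (-1) ^ n * (sg η : ℂ)) * e +
      (b ^ 3 * a ^ 2 * a' * A.top * (sg η : ℂ)) * e1
  have kNNM : ∀ i j k, i ≠ j → i ≠ k → j ≠ k →
      (b * (conj (ψ i) * a') * (b * (conj (ψ j) * a')) * (b * (ψ k * a))) •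
        A.tri η (v i) (v j) (v k) (mo (-η) ∅) (mo (-η) ∅) (mo η ∅) =
        (A.top * ((sg η : ℂ) * a * a' * b ^ 3 * a')) • mo (-η) ∅ := by
    intro i j k hij hik hjk
    have e0 := tri_pos_neg A hηn hsn (hvn i) (hvn j) (hvn k)
    rw [A.tri_neg, neg_neg, ff_sg_neg hc] at e0
    rw [e0, smul_smul]
    congr 1
    have e := congrArg conj (h4 i j k hij hik hjk)
    simp only [map_mul, map_pow, map_sub, map_neg, map_one, Complex.conj_conj] at e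
    have e1 : ((-1 : ℂ) ^ n) * (-1) ^ n = 1 := by
      rw [← mul_pow]; norm_num
    linear_combination (b ^ 3 * a * a' ^ 2 * A.top * (-1) ^ n * (sg η : ℂ)) * e +
      (b ^ 3 * a * a' ^ 2 * A.top * (sg η : ℂ)) * e1
  have kMME : ∀ i j k, A.tri η (v i) (v j) (v k) (mo η ∅) (mo η ∅) (en (supp η) n) = 0 :=
    fun i j k => ff_MME A hη hs (hv i) (hv j) (hv k) h0
  have kNNE : ∀ i j k, A.tri η (v i) (v j) (v k) (mo (-η) ∅) (mo (-η) ∅) (en (supp η) n) = 0 := by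
    intro i j k
    have e0 := ff_MME A hηn hsn (hvn i) (hvn j) (hvn k) h0n
    rwa [A.tri_neg, ff_supp_neg] at e0
  have kMMM : A.tri η (v 0) (v 1) (v 2) (mo η ∅) (mo η ∅) (mo η ∅) = 0 :=
    tri_pos_pos A hη h0 hs (hv 0) (hv 1) (hv 2)
  have kNNN : A.tri η (v 0) (v 1) (v 2) (mo (-η) ∅) (mo (-η) ∅) (mo (-η) ∅) = 0 := by
    have e0 := tri_pos_pos A hηn h0n hsn (hvn 0) (hvn 1) (hvn 2)
    rwa [A.tri_neg] at e0
  have d01 : (0 : Fin 3) ≠ 1 := by decide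
  have d02 : (0 : Fin 3) ≠ 2 := by decide
  have d12 : (1 : Fin 3) ≠ 2 := by decide
  have d10 := d01.symm
  have d20 := d02.symm
  have d21 := d12.symm
  rw [ff_expand]
  rw [ff_EEE A hη hs (hv 0) (hv 1) (hv 2) hn (h1 0 1 d01) (h1 0 2 d02) (h1 1 2 d12)]
  -- one `M`
  rw [kMEE 0 1 2 d01 d02 d12]
  rw [A.tri_swap01 η (v 0) (v 1) (v 2) (y := mo η ∅) (z := en (supp η) n) hE,
    kMEE 1 0 2 d10 d12 d02]
  rw [A.ff_sw3 η (v 0) (v 1) (v 2) (z := mo η ∅) hE hE, kMEE 2 0 1 d20 d21 d01]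
  -- one `N`
  rw [kNEE 0 1 2 d01 d02 d12]
  rw [A.tri_swap01 η (v 0) (v 1) (v 2) (y := mo (-η) ∅) (z := en (supp η) n) hE,
    kNEE 1 0 2 d10 d12 d02]
  rw [A.ff_sw3 η (v 0) (v 1) (v 2) (z := mo (-η) ∅) hE hE, kNEE 2 0 1 d20 d21 d01]
  -- one `M`, one `N`
  rw [kMNE 0 1 2 d01 d02 d12]
  rw [A.tri_swap12 η (v 0) (v 1) (v 2) (x := mo η ∅) (z := mo (-η) ∅) hE,
    kMNE 0 2 1 d02 d01 d21]
  rw [A.tri_swap01 η (v 0) (v 1) (v 2) (x := mo (-η) ∅) (y := mo η ∅) (z := en (supp η) n) hN,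
    kMNE 1 0 2 d10 d12 d02]
  rw [← A.ff_sw3 η (v 1) (v 2) (v 0) (x := mo η ∅) (y := mo (-η) ∅) (z := en (supp η) n) hM hN,
    kMNE 1 2 0 d12 d10 d20]
  rw [A.ff_sw3 η (v 0) (v 1) (v 2) (x := mo (-η) ∅) (y := en (supp η) n) (z := mo η ∅) hN hE,
    kMNE 2 0 1 d20 d21 d01]
  rw [A.ff_sw3 η (v 0) (v 1) (v 2) (x := en (supp η) n) (y := mo (-η) ∅) (z := mo η ∅) hE hN,
    A.tri_swap12 η (v 2) (v 0) (v 1) (x := mo η ∅) (z := mo (-η) ∅) hE,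
    kMNE 2 1 0 d21 d20 d10]
  -- two `M`, one `N`
  rw [kMMN 0 1 2 d01 d02 d12]
  rw [A.tri_swap12 η (v 0) (v 1) (v 2) (x := mo η ∅) (y := mo (-η) ∅) (z := mo η ∅) hN,
    kMMN 0 2 1 d02 d01 d21]
  rw [← A.ff_sw3 η (v 1) (v 2) (v 0) (x := mo η ∅) (y := mo η ∅) (z := mo (-η) ∅) hM hM,
    kMMN 1 2 0 d12 d10 d20]
  -- two `N`, one `M`
  rw [kNNM 0 1 2 d01 d02 d12]
  rw [A.tri_swap12 η (v 0) (v 1) (v 2) (x := mo (-η) ∅) (y := mo η ∅) (z := mo (-η) ∅) hM,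
    kNNM 0 2 1 d02 d01 d21]
  rw [← A.ff_sw3 η (v 1) (v 2) (v 0) (x := mo (-η) ∅) (y := mo (-η) ∅) (z := mo η ∅) hN hN,
    kNNM 1 2 0 d12 d10 d20]
  -- zero terms
  rw [kMME 0 1 2]
  rw [A.tri_swap12 η (v 0) (v 1) (v 2) (x := mo η ∅) (y := en (supp η) n) (z := mo η ∅) hE,
    kMME 0 2 1]
  rw [← A.ff_sw3 η (v 1) (v 2) (v 0) (x := mo η ∅) (y := mo η ∅) (z := en (supp η) n) hM hM,
    kMME 1 2 0]
  rw [kNNE 0 1 2]
  rw [A.tri_swap12 η (v 0) (v 1) (v 2) (x := mo (-η) ∅) (y := en (supp η) n) (z := mo (-η) ∅) hE,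
    kNNE 0 2 1]
  rw [← A.ff_sw3 η (v 1) (v 2) (v 0) (x := mo (-η) ∅) (y := mo (-η) ∅) (z := en (supp η) n) hN hN,
    kNNE 1 2 0]
  rw [kMMM, kNNN]
  simp only [smul_zero, add_zero]
  module

end CMAb

end Pc0b458V
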