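import Pool.Agent.Lib.Pc0b458V.Pairing

/-!
# The quadratic form in terms of the coefficients

Expand `x`, `x` and `pol g ^ m = m! • ∑ U, dT U` (`pol_pow`) and use `int_mul_ne`, `int_mul_neg`.
For `(η, T) ∈ idx g (2 n)` one has `size η = 2 (n - |T|)`, and for `T' ⊆ zer η` with `|T'| = |T|`,
disjoint from `T`, the set `(supp η ∪ T ∪ T')ᶜ` has `g - 2 n` elements; the elements of
`idx g (2 n)` with first component `-η` are the `(-η, T')` with `T' ∈ powersetCard |T| (zer η)`.
-/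

open Finset ComplexConjugate

namespace Pc0b458V

namespace CMAb

variable (A : CMAb)

private theorem int_mul_pol_pow (z : Coh A.g 1) (k : ℕ) :
    A.int (z * pol A.g ^ k) =
      (k.factorial : ℂ) * ∑ W ∈ powersetCard k univ, A.int (z * dT W) := by
  rw [pol_pow, en, mul_smul_comm, mul_sum, map_smul, map_sum, smul_eq_mul]

private theorem sum_W {η : Fin A.g → ℤ} {T T' : Finset (Fin A.g)} {k l : ℕ}
    (hη : ∀ s, η s = -1 ∨ η s = 0 ∨ η s = 1) (hk : size η = 2 * k)
    (hT : ∀ s ∈ T, η s = 0) (hT' : ∀ s ∈ T', η s = 0)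
    (hl : 2 * k + T.card + T'.card + l = A.g) :
    ∑ W ∈ powersetCard l univ, A.int (mo η T * mo (-η) T' * dT W) =
      if Disjoint T T' then (-1 : ℂ) ^ k * (sg η : ℂ) * A.top else 0 := by
  have h1 : ∀ W ∈ powersetCard l (univ : Finset (Fin A.g)),
      A.int (mo η T * mo (-η) T' * dT W) =
      if Disjoint T T' ∧ W = (supp η ∪ T ∪ T')ᶜ then (-1 : ℂ) ^ k * (sg η : ℂ) * A.top else 0 :=
    fun W _ => A.int_mul_neg hη hk hT hT'
  rw [sum_congr rfl h1]
  by_cases hd : Disjoint T T'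
  · simp only [hd, true_and, if_true]
    rw [sum_ite_eq' (powersetCard l univ) ((supp η ∪ T ∪ T')ᶜ)
      (fun _ => (-1 : ℂ) ^ k * (sg η : ℂ) * A.top), if_pos]
    rw [mem_powersetCard]
    refine ⟨subset_univ _, ?_⟩
    have h2 : Disjoint (supp η) T := by
      rw [Finset.disjoint_left]
      intro s hs hs'
      exact (mem_filter.1 hs).2 (hT s hs')
    have h3 : Disjoint (supp η ∪ T) T' := by
      rw [Finset.disjoint_union_left]
      refine ⟨?_, hd⟩
      rw [Finset.disjoint_left]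
      intro s hs hs'
      exact (mem_filter.1 hs).2 (hT' s hs')
    rw [card_compl, card_union_of_disjoint h3, card_union_of_disjoint h2, Fintype.card_fin,
      ← size_eq_card hη, hk]
    omega
  · simp [hd]

theorem int_sq {n : ℕ} (hn : 2 * n ≤ A.g) (c : (Fin A.g → ℤ) × Finset (Fin A.g) → ℂ) :
    A.int ((∑ p ∈ idx A.g (2 * n), c p • mo p.1 p.2) * (∑ p ∈ idx A.g (2 * n), c p • mo p.1 p.2) *
        pol A.g ^ (A.g - 2 * n)) =
      ((A.g - 2 * n).factorial : ℂ) * A.top * ∑ p ∈ idx A.g (2 * n),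
        ∑ T' ∈ powersetCard p.2.card (zer p.1) with Disjoint p.2 T',
          (-1 : ℂ) ^ (n - p.2.card) * (sg p.1 : ℂ) * (c (p.1, p.2) * c (-p.1, T')) := by
  rw [int_mul_pol_pow]
  have h1 : ∀ W : Finset (Fin A.g), A.int ((∑ p ∈ idx A.g (2 * n), c p • mo p.1 p.2) *
      (∑ p ∈ idx A.g (2 * n), c p • mo p.1 p.2) * dT W) =
      ∑ p ∈ idx A.g (2 * n), ∑ q ∈ idx A.g (2 * n),
        c p * c q * A.int (mo p.1 p.2 * mo q.1 q.2 * dT W) := by
    intro W
    rw [sum_mul_sum, sum_mul, map_sum]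
    refine sum_congr rfl fun p _ => ?_
    rw [sum_mul, map_sum]
    refine sum_congr rfl fun q _ => ?_
    rw [smul_mul_smul_comm, smul_mul_assoc, map_smul, smul_eq_mul]
  simp only [h1]
  rw [sum_comm, mul_assoc]
  congr 1
  rw [mul_sum]
  refine sum_congr rfl fun p hp => ?_
  obtain ⟨η, T⟩ := p
  obtain ⟨hη, hT, hs⟩ := mem_idx.1 hp
  rw [sum_comm]
  have hk : size η = 2 * (n - T.card) := by omega
  have hval : ∀ T' ∈ powersetCard T.card (zer η),
      ∑ W ∈ powersetCard (A.g - 2 * n) univ, c (η, T) * c (-η, T') *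
        A.int (mo η T * mo (-η) T' * dT W) =
      if Disjoint T T' then c (η, T) * c (-η, T') *
        ((-1 : ℂ) ^ (n - T.card) * (sg η : ℂ) * A.top) else 0 := by
    intro T' hT'
    obtain ⟨hT'1, hT'2⟩ := mem_powersetCard.1 hT'
    rw [← mul_sum, A.sum_W hη hk hT (fun s hs => (mem_filter.1 (hT'1 hs)).2) (by omega)]
    split_ifs
    · rfl
    · rw [mul_zero]
  have hsub : ∑ q ∈ idx A.g (2 * n), ∑ W ∈ powersetCard (A.g - 2 * n) univ,
      c (η, T) * c q * A.int (mo η T * mo q.1 q.2 * dT W) =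
      ∑ T' ∈ powersetCard T.card (zer η), ∑ W ∈ powersetCard (A.g - 2 * n) univ,
        c (η, T) * c (-η, T') * A.int (mo η T * mo (-η) T' * dT W) := by
    refine Eq.trans ?_ (sum_map (powersetCard T.card (zer η))
      (⟨fun T' => (-η, T'), fun a b h => (Prod.mk.inj h).2⟩ :
        Finset (Fin A.g) ↪ (Fin A.g → ℤ) × Finset (Fin A.g))
      (fun q => ∑ W ∈ powersetCard (A.g - 2 * n) univ,
        c (η, T) * c q * A.int (mo η T * mo q.1 q.2 * dT W)))
    symm
    apply sum_subset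
    · intro q hq
      obtain ⟨T', hT', rfl⟩ := mem_map.1 hq
      obtain ⟨hT'1, hT'2⟩ := mem_powersetCard.1 hT'
      apply neg_mem_idx
      exact mem_idx.2 ⟨hη, fun s hs => (mem_filter.1 (hT'1 hs)).2, by omega⟩
    · rintro ⟨θ, T'⟩ hq hq'
      obtain ⟨hθ, hθT, hθs⟩ := mem_idx.1 hq
      have hne : θ ≠ -η := by
        rintro rfl
        apply hq'
        rw [mem_map]
        refine ⟨T', ?_, rfl⟩
        rw [mem_powersetCard]
        refine ⟨?_, ?_⟩
        · intro s hs
          refine mem_filter.2 ⟨mem_univ _, ?_⟩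
          have := hθT s hs
          simpa using this
        · rw [size_neg] at hθs
          omega
      apply sum_eq_zero
      intro W _
      rw [A.int_mul_ne hη hθ hT hθT hne, mul_zero]
  rw [hsub, sum_congr rfl hval, ← sum_filter, mul_sum]
  refine sum_congr rfl fun T' _ => ?_
  ring

theorem int_prim {n : ℕ} (hn : 2 * n ≤ A.g) (c : (Fin A.g → ℤ) × Finset (Fin A.g) → ℂ)
    {η : Fin A.g → ℤ} {U : Finset (Fin A.g)} {k : ℕ} (hη : ∀ s, η s = -1 ∨ η s = 0 ∨ η s = 1)
    (hU : ∀ s ∈ U, η s = 0) (hk : size η = 2 * k) (hn' : k + (U.card + 1) = n) :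
    A.int (pol A.g ^ (A.g - 2 * n + 1) * (∑ p ∈ idx A.g (2 * n), c p • mo p.1 p.2) * mo (-η) U) =
      ((A.g - 2 * n + 1).factorial : ℂ) * A.top * ((-1 : ℂ) ^ k * (sg η : ℂ) *
        ∑ T ∈ powersetCard (U.card + 1) (zer η) with Disjoint T U, c (η, T)) := by
  have hcomm : ∀ z : Coh A.g 1, pol A.g ^ (A.g - 2 * n + 1) * z = z * pol A.g ^ (A.g - 2 * n + 1) := by
    intro z
    rw [pol_pow, en, smul_mul_assoc, mul_smul_comm, sum_mul, mul_sum]
    congr 1
    exact sum_congr rfl fun W _ => dT_comm W z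
  rw [mul_assoc, hcomm, int_mul_pol_pow, mul_assoc]
  congr 1
  have h1 : ∀ W : Finset (Fin A.g), A.int ((∑ p ∈ idx A.g (2 * n), c p • mo p.1 p.2) *
      mo (-η) U * dT W) =
      ∑ p ∈ idx A.g (2 * n), c p * A.int (mo p.1 p.2 * mo (-η) U * dT W) := by
    intro W
    rw [sum_mul, sum_mul, map_sum]
    refine sum_congr rfl fun p _ => ?_
    rw [smul_mul_assoc, smul_mul_assoc, map_smul, smul_eq_mul]
  simp only [h1]
  rw [sum_comm]
  have hη' : ∀ s, (-η) s = -1 ∨ (-η) s = 0 ∨ (-η) s = 1 := by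
    intro s
    simp only [Pi.neg_apply]
    rcases hη s with h | h | h <;> simp [h]
  have hU' : ∀ s ∈ U, (-η) s = 0 := by
    intro s hs
    simp [hU s hs]
  have hval : ∀ T ∈ powersetCard (U.card + 1) (zer η),
      ∑ W ∈ powersetCard (A.g - 2 * n + 1) univ, c (η, T) *
        A.int (mo η T * mo (-η) U * dT W) =
      if Disjoint T U then c (η, T) * ((-1 : ℂ) ^ k * (sg η : ℂ) * A.top) else 0 := by
    intro T hT
    obtain ⟨hT1, hT2⟩ := mem_powersetCard.1 hT
    rw [← mul_sum, A.sum_W hη hk (fun s hs => (mem_filter.1 (hT1 hs)).2) hU (by omega)]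
    split_ifs
    · rfl
    · rw [mul_zero]
  have hsub : ∑ q ∈ idx A.g (2 * n), ∑ W ∈ powersetCard (A.g - 2 * n + 1) univ,
      c q * A.int (mo q.1 q.2 * mo (-η) U * dT W) =
      ∑ T ∈ powersetCard (U.card + 1) (zer η), ∑ W ∈ powersetCard (A.g - 2 * n + 1) univ,
        c (η, T) * A.int (mo η T * mo (-η) U * dT W) := by
    refine Eq.trans ?_ (sum_map (powersetCard (U.card + 1) (zer η))
      (⟨fun T' => (η, T'), fun a b h => (Prod.mk.inj h).2⟩ :
        Finset (Fin A.g) ↪ (Fin A.g → ℤ) × Finset (Fin A.g))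
      (fun q => ∑ W ∈ powersetCard (A.g - 2 * n + 1) univ,
        c q * A.int (mo q.1 q.2 * mo (-η) U * dT W)))
    symm
    apply sum_subset
    · intro q hq
      obtain ⟨T', hT', rfl⟩ := mem_map.1 hq
      obtain ⟨hT'1, hT'2⟩ := mem_powersetCard.1 hT'
      exact mem_idx.2 ⟨hη, fun s hs => (mem_filter.1 (hT'1 hs)).2, by omega⟩
    · rintro ⟨θ, T'⟩ hq hq'
      obtain ⟨hθ, hθT, hθs⟩ := mem_idx.1 hq
      have hne : -η ≠ -θ := by
        intro h
        have h2 : θ = η := (neg_injective h).symm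
        subst h2
        apply hq'
        rw [mem_map]
        refine ⟨T', ?_, rfl⟩
        rw [mem_powersetCard]
        refine ⟨?_, by omega⟩
        intro s hs
        exact mem_filter.2 ⟨mem_univ _, hθT s hs⟩
      apply sum_eq_zero
      intro W _
      rw [A.int_mul_ne hθ hη' hθT hU' hne, mul_zero]
  rw [hsub, sum_congr rfl hval, ← sum_filter, mul_sum, mul_sum]
  refine sum_congr rfl fun T' _ => ?_
  ring

end CMAb

end Pc0b458V
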