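import Pool.Agent.Lib.Pc0b458V.Contr
import Pool.Agent.Lib.Pc0b458V.Pairing

/-!
# Reality

`P_act`: apply `act u` to `a • mo η ∅ + a' • mo (-η) ∅`, with `u s = w` or `conj w` at one `s` in
the support of `η` (according to `η s = 1` or `η s = -1`) and `u t = 1` for `t ≠ s`.
`real_pair`: for `(a, a')` and `(b, b')` in `P η` and all `w : ℂ` the number
`int ((a • mo η ∅ + a' • mo (-η) ∅) * (w b • mo η ∅ + conj w b' • mo (-η) ∅) * dT (supp η)ᶜ)` is real
(`R1_mul`, `dT_R1`, `int_R1`), and it is `(-1)^k sg η top (a conj w b' + a' w b)` (`mo_mul_self`,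
`mo_mul_neg`, and `mo (-η) ∅ * mo η ∅ = mo η ∅ * mo (-η) ∅` by `even_comm`; `dT_mul`). Take
`w = 1` and `w = I`. `P_zero`: for `η = 0` the class is `(a + a') • 1`; multiply by `dT univ`.
-/

open Finset ComplexConjugate

namespace Pc0b458V

theorem weight_neg_aux {g : ℕ} {η : Fin g → ℤ} (hη : ∀ s, η s = -1 ∨ η s = 0 ∨ η s = 1) :
    ∀ s, (-η) s = -1 ∨ (-η) s = 0 ∨ (-η) s = 1 := fun s => by
  rcases hη s with h | h | h <;> simp [h]

theorem supp_union_zer_aux {g : ℕ} (η : Fin g → ℤ) : supp η ∪ zer η = univ := by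
  ext s
  simp [supp, zer, em']

theorem disjoint_supp_zer_aux {g : ℕ} (η : Fin g → ℤ) : Disjoint (supp η) (zer η) := by
  rw [Finset.disjoint_left]
  intro s hs hs'
  rw [supp, mem_filter] at hs
  rw [zer, mem_filter] at hs'
  exact hs.2 hs'.2

/-- a vector for which the character of the weight is `w` -/
theorem exists_chi_aux {g : ℕ} {η : Fin g → ℤ} (hη : ∀ s, η s = -1 ∨ η s = 0 ∨ η s = 1) (h0 : η ≠ 0)
    (w : ℂ) : ∃ u : Fin g → ℂ, chi η ∅ u = w := by
  obtain ⟨s, hs⟩ : ∃ s, η s ≠ 0 := by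
    by_contra hcon
    push Not at hcon
    exact h0 (funext hcon)
  refine ⟨fun t => if t = s then (if η s = 1 then w else conj w) else 1, ?_⟩
  rw [chi, Finset.prod_eq_single s]
  · rcases hη s with h | h | h
    · simp [h]
    · exact absurd h hs
    · simp [h]
  · intro t _ ht
    simp [ht]
  · intro h
    exact absurd (mem_univ s) h

namespace CMAb

variable {A : CMAb}

theorem P_act {η : Fin A.g → ℤ} (hη : ∀ s, η s = -1 ∨ η s = 0 ∨ η s = 1) (h0 : η ≠ 0) {a a' : ℂ}
    (h : A.P η a a') (w : ℂ) : A.P η (w * a) (conj w * a') := by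
  obtain ⟨k, hk, h⟩ := h
  obtain ⟨u, hu⟩ := exists_chi_aux hη h0 w
  refine ⟨k, hk, ?_⟩
  have h1 := act_R1 u h
  rw [map_add, map_smul, map_smul, act_mo, act_mo, chi_neg, hu, smul_smul, smul_smul, mul_comm a,
    mul_comm a'] at h1
  exact h1

theorem P_neg {η : Fin A.g → ℤ} {a a' : ℂ} (h : A.P η a a') : A.P (-η) a' a := by
  obtain ⟨k, hk, h⟩ := h
  refine ⟨k, by rw [size_neg]; exact hk, ?_⟩
  rw [neg_neg, add_comm]
  exact h

theorem real_pair_aux {η : Fin A.g → ℤ} (hη : ∀ s, η s = -1 ∨ η s = 0 ∨ η s = 1) (h0 : η ≠ 0)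
    {a a' b b' : ℂ} (h : A.P η a a') (h' : A.P η b b') : ∃ r : ℝ, a * b' + a' * b = r := by
  obtain ⟨k, hk, h⟩ := h
  obtain ⟨k', hk', h'⟩ := h'
  have hkk : k' = k := by omega
  subst hkk
  have h1 : (-η) ≠ 0 := fun h => h0 (by simpa using h)
  have h2 := R1_mul (R1_mul h h') (dT_R1 (zer η))
  have h3 := card_zer hη
  have h4 : k' + k' + (zer η).card = A.g := by omega
  rw [h4] at h2
  obtain ⟨r, hr⟩ := int_R1 h2
  have e1 : mo (-η) ∅ * mo η ∅ = mo η ∅ * mo (-η) ∅ := by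
    have h5 : mo (-η) ∅ ∈ gr A.g 1 (2 * k') := by
      apply mo_mem
      rw [mem_idx]
      exact ⟨weight_neg_aux hη, by simp, by rw [size_neg]; simp [hk]⟩
    exact even_comm h5 _
  have e2 : (a • mo η ∅ + a' • mo (-η) ∅) * (b • mo η ∅ + b' • mo (-η) ∅) * dT (zer η) =
      ((a * b' + a' * b) * ((-1 : ℂ) ^ k' * (sg η : ℂ))) • dT univ := by
    have e3 : (a • mo η ∅ + a' • mo (-η) ∅) * (b • mo η ∅ + b' • mo (-η) ∅) =
        ((a * b' + a' * b) * ((-1 : ℂ) ^ k' * (sg η : ℂ))) • dT (supp η) := by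
      rw [add_mul, mul_add, mul_add]
      simp only [smul_mul_smul_comm]
      rw [mo_mul_self hη h0, mo_mul_self (weight_neg_aux hη) h1, e1, mo_mul_neg hη hk]
      simp only [smul_zero, zero_add, add_zero, smul_smul]
      rw [← add_smul]
      congr 1
      ring
    rw [e3, smul_mul_assoc, dT_mul (disjoint_supp_zer_aux η), supp_union_zer_aux]
  rw [e2, map_smul, smul_eq_mul] at hr
  obtain ⟨t, ht, ht'⟩ := A.top_pos
  have e4 : A.int (dT univ) = t := ht'
  rw [e4] at hr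
  have hsg : (sg η : ℂ) * (sg η : ℂ) = 1 := by
    exact_mod_cast congrArg (fun z : ℤ => (z : ℂ)) (sg_sq hη)
  have hp : ((-1 : ℂ) ^ k') * ((-1 : ℂ) ^ k') = 1 := by
    rw [← mul_pow]; simp
  have ht0 : (t : ℂ) ≠ 0 := by exact_mod_cast ht.ne'
  refine ⟨(-1) ^ k' * (sg η : ℝ) * r / t, ?_⟩
  push_cast
  rw [← hr]
  field_simp
  linear_combination (-(a * b' + a' * b) * (-1) ^ k' * (-1) ^ k') * hsg -
    (a * b' + a' * b) * hp

theorem real_pair {η : Fin A.g → ℤ} (hη : ∀ s, η s = -1 ∨ η s = 0 ∨ η s = 1) (h0 : η ≠ 0)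
    {a a' b b' : ℂ} (h : A.P η a a') (h' : A.P η b b') : a * b' = conj (a' * b) := by
  obtain ⟨r, hr⟩ := real_pair_aux hη h0 h h'
  obtain ⟨q, hq⟩ := real_pair_aux hη h0 h (P_act hη h0 h' Complex.I)
  have h1 := congrArg Complex.im hr
  have h2 := congrArg Complex.im hq
  simp only [Complex.add_im, Complex.mul_im, Complex.mul_re, Complex.conj_I, Complex.neg_re,
    Complex.neg_im, Complex.I_re, Complex.I_im, Complex.ofReal_im] at h1 h2
  apply Complex.ext
  · simp only [map_mul, Complex.mul_re, Complex.conj_re, Complex.conj_im]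
    linarith
  · simp only [map_mul, Complex.mul_im, Complex.conj_re, Complex.conj_im]
    linarith

theorem P_zero {a a' : ℂ} (h : A.P 0 a a') : ∃ r : ℝ, a + a' = r := by
  obtain ⟨k, hk, h⟩ := h
  have hk0 : k = 0 := by
    have : size (0 : Fin A.g → ℤ) = 0 := by simp [size]
    omega
  subst hk0
  have e1 : a • mo (0 : Fin A.g → ℤ) ∅ + a' • mo (-0 : Fin A.g → ℤ) ∅ = (a + a') • 1 := by
    have e2 : mo (0 : Fin A.g → ℤ) ∅ = 1 := dT_empty
    rw [neg_zero, e2, ← add_smul]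
  rw [e1] at h
  have h2 := R1_mul h (dT_R1 univ)
  rw [zero_add, Finset.card_univ, Fintype.card_fin] at h2
  obtain ⟨r, hr⟩ := int_R1 h2
  rw [smul_mul_assoc, one_mul, map_smul, smul_eq_mul] at hr
  obtain ⟨t, ht, ht'⟩ := A.top_pos
  have e4 : A.int (dT univ) = t := ht'
  rw [e4] at hr
  have ht0 : (t : ℂ) ≠ 0 := by exact_mod_cast ht.ne'
  refine ⟨r / t, ?_⟩
  push_cast
  rw [← hr]
  field_simp

variable (A) in
/-- the weight has an algebraic class, and it has the right sign -/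
def Good (η : Fin A.g → ℤ) : Prop :=
  ∃ a a' : ℂ, A.P η a a' ∧ ∃ r : ℝ, 0 < r ∧ (sg η : ℂ) * a * a' = r

variable (A) in
/-- the weight has an algebraic class which is not isotropic -/
def NonNull (η : Fin A.g → ℤ) : Prop := ∃ a a' : ℂ, A.P η a a' ∧ a * a' ≠ 0

/-- the positivity for all classes follows from `real_pair` with the class in `Good` -/
theorem Good.pos {η : Fin A.g → ℤ} (hη : ∀ s, η s = -1 ∨ η s = 0 ∨ η s = 1) (h0 : η ≠ 0)
    (h : A.Good η) {b b' : ℂ} (hb : A.P η b b') : ∃ r : ℝ, 0 ≤ r ∧ (sg η : ℂ) * b * b' = r := by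
  obtain ⟨a, a', hP, r, hr, he⟩ := h
  have ha : a ≠ 0 := by
    rintro rfl
    simp only [mul_zero, zero_mul] at he
    have : r = 0 := by exact_mod_cast he.symm
    exact hr.ne' this
  have h1 := real_pair hη h0 hP hb
  have hn : 0 < Complex.normSq a := Complex.normSq_pos.2 ha
  refine ⟨Complex.normSq b * r / Complex.normSq a, ?_, ?_⟩
  · exact div_nonneg (mul_nonneg (Complex.normSq_nonneg b) hr.le) hn.le
  · have h2 : (sg η : ℂ) * conj a * conj a' = r := by
      have := congrArg conj he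
      simpa using this
    have e1 : ((Complex.normSq b * r / Complex.normSq a : ℝ) : ℂ) =
        (b * conj b) * r / (a * conj a) := by
      push_cast
      rw [← Complex.mul_conj, ← Complex.mul_conj]
    have hca : conj a ≠ 0 := by simpa using ha
    rw [e1, eq_div_iff (mul_ne_zero ha hca), ← h2]
    have h3 : a * b' = conj a' * conj b := by rw [h1, map_mul]
    linear_combination (sg η : ℂ) * b * conj a * h3

/-- if all classes are isotropic then the pairing vanishes -/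
theorem null_pair {η : Fin A.g → ℤ} (hη : ∀ s, η s = -1 ∨ η s = 0 ∨ η s = 1) (h0 : η ≠ 0)
    (h : ¬ A.NonNull η) {a a' b b' : ℂ} (ha : A.P η a a') (hb : A.P η b b') : a * b' = 0 := by
  have h1 : a * a' = 0 := by
    by_contra hcon
    exact h ⟨a, a', ha, hcon⟩
  rcases mul_eq_zero.1 h1 with h2 | h2
  · rw [h2, zero_mul]
  · rw [real_pair hη h0 ha hb, h2, zero_mul, map_zero]

end CMAb

end Pc0b458V
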