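import Pool.Agent.Lib.Pc0b458V.Form
import Pool.Agent.Lib.Pc0b458V.Reality

/-!
# The coefficients of a primitive class

`harm`. The condition in `Prim` extends from `y ∈ alg j` to the real span `R1 j` (`eff j` is
contained in `alg j`, since `x = (x + x) - x`). For `η = 0` take `y = dT U = mo (-0) U` in
`int_prim`. For `η ≠ 0` let `(b, b') ∈ P η` with `b * b' ≠ 0`; for `w : ℂ` take
`y = (w b • mo η ∅ + conj w b' • mo (-η) ∅) * dT U` (`P_act`, `dT_R1`, `mo_mul_dT`). By `int_prim`
for `η` and `-η` (`sg_neg`, `zer (-η) = zer η`) one gets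
`∑ T, (conj w b' c (η, T) + w b c (-η, T)) = 0`, where `b c (-η, T) = conj (b' c (η, T))` by
`real_pair` and `P_of_rep`. With `S = ∑ T, c (η, T)` this is `2 Re (conj w b' S) = 0` for all `w`,
so `S = 0`.
-/

open Finset ComplexConjugate

namespace Pc0b458V

namespace CMAb

variable {A : CMAb}

theorem alg_R1 {n : ℕ} {x : Coh A.g 1} (hx : x ∈ A.alg n) : x ∈ A.R1 n := by
  obtain ⟨y, hy, z, hz, rfl⟩ := hx
  exact sub_mem (Submodule.subset_span hy) (Submodule.subset_span hz)

/-- the condition for primitive classes extends to the real span -/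
theorem prim_R1 {n j : ℕ} {x : Coh A.g 1} (hx : A.Prim n x) (hj : j + 1 = n) {y : Coh A.g 1}
    (hy : y ∈ A.R1 j) : A.int (pol A.g ^ (A.g - 2 * n + 1) * x * y) = 0 := by
  have h : A.R1 j ≤ LinearMap.ker ((A.int.restrictScalars ℝ) ∘ₗ
      LinearMap.mulLeft ℝ (pol A.g ^ (A.g - 2 * n + 1) * x)) := by
    refine Submodule.span_le.2 fun z hz => ?_
    have h1 : z ∈ A.alg j := ⟨z + z, A.add_mem j z hz z hz, z, hz, by abel⟩
    exact hx.2 j hj z h1
  exact h hy

theorem fact_top_ne (m : ℕ) : ((m.factorial : ℕ) : ℂ) * A.top ≠ 0 := by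
  obtain ⟨r, hr, h⟩ := top_pos (A := A)
  rw [h]
  refine mul_ne_zero (by exact_mod_cast m.factorial_ne_zero) (by exact_mod_cast hr.ne')

theorem sg_ne {g : ℕ} {η : Fin g → ℤ} (hη : ∀ s, η s = -1 ∨ η s = 0 ∨ η s = 1) :
    ((sg η : ℤ) : ℂ) ≠ 0 := by
  rcases sg_cases hη with h | h <;> rw [h] <;> norm_num

theorem harm {n : ℕ} (hn : 2 * n ≤ A.g) {x : Coh A.g 1} (hx : A.Prim n x)
    {c : (Fin A.g → ℤ) × Finset (Fin A.g) → ℂ} (hc : x = ∑ p ∈ idx A.g (2 * n), c p • mo p.1 p.2)
    {η : Fin A.g → ℤ} {U : Finset (Fin A.g)} (hη : ∀ s, η s = -1 ∨ η s = 0 ∨ η s = 1)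
    (h : η = 0 ∨ A.NonNull η) (hU : U ⊆ zer η) (hs : size η + 2 * (U.card + 1) = 2 * n) :
    ∑ T ∈ powersetCard (U.card + 1) (zer η) with Disjoint T U, c (η, T) = 0 := by
  have hU' : ∀ s ∈ U, η s = 0 := fun s hs => (mem_filter.1 (hU hs)).2
  by_cases h0 : η = 0
  · subst h0
    have hsz : size (0 : Fin A.g → ℤ) = 2 * 0 := by simp [size]
    have hn' : 0 + (U.card + 1) = n := by
      rw [hsz] at hs
      omega
    have h1 := A.int_prim hn c hη hU' hsz hn'
    have h2 := prim_R1 hx (j := U.card) (by omega) (dT_R1 U)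
    rw [← hc, neg_zero] at h1
    have h3 : (mo 0 U : Coh A.g 1) = dT U := rfl
    rw [h3, h2] at h1
    have h4 := mul_eq_zero.1 h1.symm
    rcases h4 with h4 | h4
    · exact absurd h4 (fact_top_ne _)
    · rcases mul_eq_zero.1 h4 with h5 | h5
      · rw [pow_zero, one_mul] at h5
        exact absurd h5 (sg_ne hη)
      · exact h5
  · obtain ⟨a, a', hP, haa⟩ := h.resolve_left h0
    have hP' := hP
    obtain ⟨k, hk, hmem⟩ := hP
    have hn' : k + (U.card + 1) = n := by omega
    have hη' : ∀ s, (-η) s = -1 ∨ (-η) s = 0 ∨ (-η) s = 1 := by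
      intro s
      rcases hη s with h1 | h1 | h1 <;> simp [h1]
    have hU'' : ∀ s ∈ U, (-η) s = 0 := fun s hs => by simp [hU' s hs]
    have hzer : zer (-η) = zer η := by
      ext s
      simp [zer]
    have hk' : size (-η) = 2 * k := by rw [size_neg, hk]
    set S : ℂ := ∑ T ∈ powersetCard (U.card + 1) (zer η) with Disjoint T U, c (η, T) with hS
    set S' : ℂ := ∑ T ∈ powersetCard (U.card + 1) (zer η) with Disjoint T U, c (-η, T) with hS'
    have h1 := A.int_prim hn c hη hU' hk hn'
    have h2 := A.int_prim hn c hη' hU'' hk' hn'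
    rw [hzer, sg_neg hη hk, neg_neg] at h2
    rw [← hc] at h1 h2
    rw [← hS] at h1
    rw [← hS'] at h2
    -- the pairing with all multiples
    have h3 : ∀ w : ℂ, w * a * S' + conj w * a' * S = 0 := by
      intro w
      obtain ⟨k', hk2, hmem'⟩ := P_act hη h0 hP' w
      have hkk : k' = k := by omega
      subst hkk
      have h4 := R1_mul hmem' (dT_R1 U)
      have e1 : (mo η ∅ : Coh A.g 1) * dT U = mo η U := by
        rw [mo_mul_dT hU' (disjoint_empty_left _), empty_union]
      have e2 : (mo (-η) ∅ : Coh A.g 1) * dT U = mo (-η) U := by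
        rw [mo_mul_dT hU'' (disjoint_empty_left _), empty_union]
      rw [add_mul, smul_mul_assoc, smul_mul_assoc, e1, e2] at h4
      have h5 := prim_R1 hx (j := k' + U.card) (by omega) h4
      rw [mul_add, map_add, mul_smul_comm, mul_smul_comm, map_smul, map_smul, h1, h2,
        smul_eq_mul, smul_eq_mul] at h5
      have h6 : (((A.g - 2 * n + 1).factorial : ℕ) : ℂ) * A.top * ((-1 : ℂ) ^ k' * (sg η : ℂ)) *
          (w * a * S' + conj w * a' * S) = 0 := by
        linear_combination h5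
      rcases mul_eq_zero.1 h6 with h7 | h7
      · exfalso
        rcases mul_eq_zero.1 h7 with h8 | h8
        · exact fact_top_ne _ h8
        · rcases mul_eq_zero.1 h8 with h9 | h9
          · exact absurd h9 (pow_ne_zero _ (by norm_num))
          · exact sg_ne hη h9
      · exact h7
    have h4 : a * S' = conj (a' * S) := by
      rw [hS, hS', mul_sum, mul_sum, map_sum]
      refine sum_congr rfl fun T hT => ?_
      obtain ⟨hT1, hT2⟩ := mem_filter.1 hT
      obtain ⟨hT3, hT4⟩ := mem_powersetCard.1 hT1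
      have hidx : (η, T) ∈ idx A.g (2 * n) := by
        refine mem_idx.2 ⟨hη, fun s hs => (mem_filter.1 (hT3 hs)).2, ?_⟩
        rw [hT4, hs]
      exact real_pair hη h0 hP' (P_of_rep (alg_R1 hx.1) hc hidx)
    have h5 := h3 (a' * S)
    rw [mul_assoc, h4, mul_assoc (conj (a' * S)), mul_comm (conj (a' * S)) (a' * S),
      Complex.mul_conj, ← two_mul] at h5
    have h6 : Complex.normSq (a' * S) = 0 := by
      have := mul_eq_zero.1 h5
      rcases this with h7 | h7
      · norm_num at h7
      · exact_mod_cast h7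
    have h7 := Complex.normSq_eq_zero.1 h6
    rcases mul_eq_zero.1 h7 with h8 | h8
    · exact absurd (by rw [h8, mul_zero]) haa
    · exact h8

end CMAb

end Pc0b458V
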