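import Pool.Agent.Lib.Pc0b458V.Sgn

/-!
# Monomials

`mul_letter`: a vector times a monomial is a monomial, up to sign, or zero; so the monomials span
(`gr_induction`; `iota x` is a linear combination of the `gen s b 0`), and the degrees are
those of the indices: `gen t b 0 * mo η T` is `0` or `± mo η' T'` with `(η', T') ∈ idx g (d + 1)`
(only the letter at `t` changes; move `gen t b 0` past the letters at `i < t`).
-/

open Finset ComplexConjugate

namespace Pc0b458V

variable {g : ℕ}

theorem mem_idx {d : ℕ} {η : Fin g → ℤ} {T : Finset (Fin g)} :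
    (η, T) ∈ idx g d ↔ (∀ s, η s = -1 ∨ η s = 0 ∨ η s = 1) ∧ (∀ s ∈ T, η s = 0) ∧
      size η + 2 * T.card = d := by
  unfold idx Wts zer
  simp only [mem_filter, mem_product, Fintype.mem_piFinset, mem_insert, mem_singleton, mem_univ,
    and_true, subset_iff, true_and]

theorem size_neg (η : Fin g → ℤ) : size (-η) = size η := by
  unfold size
  simp only [Pi.neg_apply, Int.natAbs_neg]

theorem neg_mem_idx {d : ℕ} {η : Fin g → ℤ} {T : Finset (Fin g)} (h : (η, T) ∈ idx g d) :
    (-η, T) ∈ idx g d := by
  rw [mem_idx] at h ⊢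
  obtain ⟨h1, h2, h3⟩ := h
  refine ⟨fun s => ?_, fun s hs => ?_, ?_⟩
  · simp only [Pi.neg_apply]
    rcases h1 s with h | h | h <;> rw [h] <;> decide
  · simp only [Pi.neg_apply, h2 s hs, neg_zero]
  · rw [size_neg, h3]

theorem size_eq_card {η : Fin g → ℤ} (h : ∀ s, η s = -1 ∨ η s = 0 ∨ η s = 1) :
    size η = (supp η).card := by
  unfold size supp
  rw [card_filter]
  refine Finset.sum_congr rfl fun s _ => ?_
  rcases h s with h | h | h <;> rw [h] <;> decide

theorem card_zer {η : Fin g → ℤ} (h : ∀ s, η s = -1 ∨ η s = 0 ∨ η s = 1) :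
    (zer η).card + size η = g := by
  rw [size_eq_card h]
  unfold zer supp
  have := Finset.card_filter_add_card_filter_not (s := (univ : Finset (Fin g))) (fun s => η s = 0)
  rw [card_univ, Fintype.card_fin] at this
  exact this

theorem sum_lw {η : Fin g → ℤ} {T : Finset (Fin g)} (h : ∀ s, η s = -1 ∨ η s = 0 ∨ η s = 1)
    (hT : ∀ s ∈ T, η s = 0) : ∑ s, lw η T s = size η + 2 * T.card := by
  have e : T.card = ∑ s, if s ∈ T then 1 else 0 := by simp
  rw [e, Finset.mul_sum]
  unfold size
  rw [← Finset.sum_add_distrib]
  refine Finset.sum_congr rfl fun s _ => ?_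
  unfold lw
  by_cases hs : s ∈ T
  · rw [if_pos hs, if_pos hs, hT s hs]
    rfl
  · rw [if_neg hs, if_neg hs]
    rcases h s with h | h | h <;> rw [h] <;> decide

theorem mo_mem {d : ℕ} {η : Fin g → ℤ} {T : Finset (Fin g)} (h : (η, T) ∈ idx g d) :
    mo η T ∈ gr g 1 d := by
  rw [mem_idx] at h
  obtain ⟨h1, h2, h3⟩ := h
  rw [← h3, ← sum_lw h1 h2]
  exact mo_mem_gr η T

theorem gen_mul_dd (t : Fin g) (b : Bool) : gen t b 0 * dd t = 0 := by
  unfold dd
  cases b
  · rw [← mul_assoc, gen_anti t t false true, neg_mul, mul_assoc, gen_sq, mul_zero, neg_zero]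
  · rw [← mul_assoc, gen_sq, zero_mul]

theorem dd_mul_dd (t : Fin g) : dd t * dd t = 0 := by
  nth_rewrite 1 [dd]
  rw [mul_assoc, gen_mul_dd, mul_zero]

/-- the vector at `t` as an ordered product -/
theorem lprod_ite {m : ℕ} {n : ℕ} (t : Fin n) (x : Coh g m) :
    (lprod fun i : Fin n => if i = t then x else 1) = x := by
  induction n with
  | zero => exact t.elim0
  | succ n ih =>
    rw [lprod_succ]
    rcases Fin.eq_zero_or_eq_succ t with rfl | ⟨j, rfl⟩
    · have : (fun i : Fin n => if i.succ = (0 : Fin (n + 1)) then x else 1) = fun _ => 1 := by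
        funext i
        rw [if_neg (Fin.succ_ne_zero i)]
      rw [this, lprod_one, if_pos rfl, mul_one]
    · have : (fun i : Fin n => if i.succ = j.succ then x else 1) =
          fun i : Fin n => if i = j then x else 1 := by
        funext i
        simp only [Fin.succ_inj]
      rw [this, ih j, if_neg (Fin.succ_ne_zero j).symm, one_mul]

/-- a vector times a monomial, as an ordered product -/
theorem gen_mul_lprod (η : Fin g → ℤ) (T : Finset (Fin g)) (t : Fin g) (b : Bool) :
    ∃ N : ℕ, gen t b 0 * mo η T = (-1 : ℂ) ^ N • lprod fun i =>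
      (if i = t then gen t b 0 else 1) * lt η T i := by
  have h := lprod_mul_sign (a := fun i : Fin g => if i = t then gen t b 0 else (1 : Coh g 1))
    (b := lt η T) (fun j => if j = t then 1 else 0) (lw η T) (fun i j _ => by
      by_cases hj : j = t
      · simp only [hj, if_true]
        exact gr_comm (gen_mem_gr _ _ _) (lt_mem_gr η T i)
      · simp [hj])
  rw [lprod_ite] at h
  exact ⟨_, h⟩

/-- changing one letter -/
theorem lprod_update {η η' : Fin g → ℤ} {T T' : Finset (Fin g)} (t : Fin g) (x : Coh g 1) (c : ℂ)
    (ht : x * lt η T t = c • lt η' T' t) (h : ∀ i, i ≠ t → lt η T i = lt η' T' i) :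
    (lprod fun i => (if i = t then x else 1) * lt η T i) = c • mo η' T' := by
  have e : (fun i => (if i = t then x else 1) * lt η T i) =
      fun i => (if i = t then c else 1) • lt η' T' i := by
    funext i
    by_cases hi : i = t
    · subst hi
      rw [if_pos rfl, if_pos rfl, ht]
    · rw [if_neg hi, if_neg hi, one_mul, one_smul, h i hi]
  rw [e, lprod_smul, Finset.prod_ite_eq' univ t (fun _ => c), if_pos (mem_univ t)]
  rfl

/-- a vector times a monomial -/
theorem gen_mul_mo {d : ℕ} {η : Fin g → ℤ} {T : Finset (Fin g)} (h : (η, T) ∈ idx g d)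
    (t : Fin g) (b : Bool) :
    gen t b 0 * mo η T = 0 ∨ ∃ p ∈ idx g (d + 1), ∃ c : ℂ, gen t b 0 * mo η T = c • mo p.1 p.2 := by
  obtain ⟨N, hN⟩ := gen_mul_lprod η T t b
  rw [mem_idx] at h
  obtain ⟨h1, h2, h3⟩ := h
  have hzero : gen t b 0 * lt η T t = 0 → gen t b 0 * mo η T = 0 := by
    intro h0
    rw [hN, lprod_eq_zero t, smul_zero]
    rw [if_pos rfl, h0]
  have hmain : ∀ (η' : Fin g → ℤ) (T' : Finset (Fin g)) (c : ℂ), (η', T') ∈ idx g (d + 1) →
      gen t b 0 * lt η T t = c • lt η' T' t → (∀ i, i ≠ t → lt η T i = lt η' T' i) →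
      ∃ p ∈ idx g (d + 1), ∃ c : ℂ, gen t b 0 * mo η T = c • mo p.1 p.2 := by
    intro η' T' c hm hc hr
    refine ⟨(η', T'), hm, (-1) ^ N * c, ?_⟩
    rw [hN, lprod_update t _ c hc hr, smul_smul]
  by_cases ht : t ∈ T
  · left
    apply hzero
    unfold lt
    rw [if_pos ht]
    exact gen_mul_dd t b
  · have hT : ∀ i, i ≠ t → (i ∈ insert t T ↔ i ∈ T) := by
      intro i hi
      rw [mem_insert]
      exact ⟨fun h => h.resolve_left hi, Or.inr⟩
    -- the case where the vector fills the pair at `t`
    have hfill : ∀ c : ℂ, η t ≠ 0 → gen t b 0 * lt η T t = c • dd t →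
        ∃ p ∈ idx g (d + 1), ∃ c : ℂ, gen t b 0 * mo η T = c • mo p.1 p.2 := by
      intro c hη hc
      refine hmain (Function.update η t 0) (insert t T) c ?_ ?_ ?_
      · rw [mem_idx]
        refine ⟨fun s => ?_, fun s hs => ?_, ?_⟩
        · by_cases hst : s = t
          · subst hst
            simp
          · rw [Function.update_of_ne hst]
            exact h1 s
        · by_cases hst : s = t
          · subst hst
            simp
          · rw [Function.update_of_ne hst]
            exact h2 s ((hT s hst).1 hs)
        · have hs1 : size (Function.update η t 0) + 1 = size η := by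
            unfold size
            rw [← Finset.add_sum_erase univ _ (mem_univ t),
              ← Finset.add_sum_erase univ (fun s => (η s).natAbs) (mem_univ t)]
            have e1 : ∑ x ∈ univ.erase t, (Function.update η t 0 x).natAbs =
                ∑ x ∈ univ.erase t, (η x).natAbs := by
              refine Finset.sum_congr rfl fun x hx => ?_
              rw [Function.update_of_ne (ne_of_mem_erase hx)]
            rw [e1, Function.update_self]
            have e2 : (η t).natAbs = 1 := by
              rcases h1 t with h | h | h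
              · rw [h]; rfl
              · exact absurd h hη
              · rw [h]; rfl
            rw [e2]
            simp only [Int.natAbs_zero]
            omega
          rw [card_insert_of_notMem ht]
          omega
      · rw [hc]
        congr 1
        unfold lt
        rw [if_pos (mem_insert_self t T)]
      · intro i hi
        unfold lt
        rw [Function.update_of_ne hi]
        by_cases hiT : i ∈ T
        · rw [if_pos hiT, if_pos ((hT i hi).2 hiT)]
        · rw [if_neg hiT, if_neg (fun h => hiT ((hT i hi).1 h))]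
    rcases h1 t with h0 | h0 | h0
    · -- `η t = -1`
      have hl : lt η T t = gen t false 0 := by
        unfold lt
        rw [if_neg ht, if_neg (by rw [h0]; decide), if_pos h0]
      cases b
      · left
        apply hzero
        rw [hl, gen_sq]
      · right
        exact hfill 1 (by rw [h0]; decide) (by rw [hl, one_smul]; rfl)
    · -- `η t = 0`
      right
      have hl : lt η T t = 1 := by
        unfold lt
        rw [if_neg ht, if_neg (by rw [h0]; decide), if_neg (by rw [h0]; decide)]
      refine hmain (Function.update η t (if b then 1 else -1)) T 1 ?_ ?_ ?_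
      · rw [mem_idx]
        refine ⟨fun s => ?_, fun s hs => ?_, ?_⟩
        · by_cases hst : s = t
          · subst hst
            rw [Function.update_self]
            cases b <;> simp
          · rw [Function.update_of_ne hst]
            exact h1 s
        · have hst : s ≠ t := fun h => ht (h ▸ hs)
          rw [Function.update_of_ne hst]
          exact h2 s hs
        · have hs1 : size (Function.update η t (if b then 1 else -1)) = size η + 1 := by
            unfold size
            rw [← Finset.add_sum_erase univ _ (mem_univ t),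
              ← Finset.add_sum_erase univ (fun s => (η s).natAbs) (mem_univ t)]
            have e1 : ∑ x ∈ univ.erase t, (Function.update η t (if b then 1 else -1) x).natAbs =
                ∑ x ∈ univ.erase t, (η x).natAbs := by
              refine Finset.sum_congr rfl fun x hx => ?_
              rw [Function.update_of_ne (ne_of_mem_erase hx)]
            rw [e1, Function.update_self, h0]
            have e2 : ((if b then 1 else -1 : ℤ)).natAbs = 1 := by cases b <;> rfl
            rw [e2]
            simp only [Int.natAbs_zero]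
            omega
          omega
      · rw [hl, mul_one, one_smul]
        unfold lt
        rw [if_neg ht, Function.update_self]
        cases b
        · rw [if_neg (by decide), if_pos (by decide)]
        · rw [if_pos (by decide)]
      · intro i hi
        unfold lt
        rw [Function.update_of_ne hi]
    · -- `η t = 1`
      have hl : lt η T t = gen t true 0 := by
        unfold lt
        rw [if_neg ht, if_pos h0]
      cases b
      · right
        refine hfill (-1) (by rw [h0]; decide) ?_
        rw [hl, gen_anti, neg_smul, one_smul]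
        rfl
      · left
        apply hzero
        rw [hl, gen_sq]

theorem iota_eq_sum (x : Fin g × Bool × Fin 1 → ℂ) :
    iota g 1 x = ∑ i : Fin g × Bool × Fin 1, x i • gen i.1 i.2.1 0 := by
  have hx : x = ∑ i, x i • (Pi.single i 1 : Fin g × Bool × Fin 1 → ℂ) := by
    funext j
    simp [Finset.sum_apply, Pi.single_apply]
  conv_lhs => rw [hx]
  rw [map_sum]
  refine Finset.sum_congr rfl fun i _ => ?_
  obtain ⟨s, b, j⟩ := i
  have hj : j = 0 := Subsingleton.elim _ _
  subst hj
  rw [map_smul]
  rfl

/-- the monomials of degree `d` span -/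
theorem rep {d : ℕ} {z : Coh g 1} (hz : z ∈ gr g 1 d) :
    ∃ c : (Fin g → ℤ) × Finset (Fin g) → ℂ, z = ∑ p ∈ idx g d, c p • mo p.1 p.2 := by
  have key : z ∈ Submodule.span ℂ ((fun p : (Fin g → ℤ) × Finset (Fin g) => mo p.1 p.2) ''
      (idx g d : Set ((Fin g → ℤ) × Finset (Fin g)))) := by
    refine gr_induction (P := fun d z => z ∈ Submodule.span ℂ
      ((fun p : (Fin g → ℤ) × Finset (Fin g) => mo p.1 p.2) ''
      (idx g d : Set ((Fin g → ℤ) × Finset (Fin g))))) ?_ ?_ ?_ ?_ hz
    · refine Submodule.subset_span ⟨(0, ∅), ?_, ?_⟩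
      · rw [Finset.mem_coe, mem_idx]
        refine ⟨fun s => ?_, fun s hs => ?_, ?_⟩
        · simp
        · simp
        · simp [size]
      · show mo 0 ∅ = 1
        unfold mo
        have : lt (0 : Fin g → ℤ) ∅ = fun _ => 1 := by
          funext s
          simp [lt]
        rw [this, lprod_one]
    · intro k x w hw ih
      clear hw
      rw [iota_eq_sum, Finset.sum_mul]
      refine Submodule.sum_mem _ fun i _ => ?_
      rw [smul_mul_assoc]
      refine Submodule.smul_mem _ _ ?_
      induction ih using Submodule.span_induction with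
      | mem y hy =>
        obtain ⟨p, hp, rfl⟩ := hy
        rcases gen_mul_mo (Finset.mem_coe.1 hp) i.1 i.2.1 with h | ⟨q, hq, c, h⟩
        · show gen i.1 i.2.1 0 * mo p.1 p.2 ∈ _
          rw [h]
          exact Submodule.zero_mem _
        · show gen i.1 i.2.1 0 * mo p.1 p.2 ∈ _
          rw [h]
          exact Submodule.smul_mem _ _ (Submodule.subset_span ⟨q, Finset.mem_coe.2 hq, rfl⟩)
      | zero =>
        rw [mul_zero]
        exact Submodule.zero_mem _
      | add a b _ _ ha hb =>
        rw [mul_add]
        exact Submodule.add_mem _ ha hb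
      | smul c a _ ha =>
        rw [mul_smul_comm]
        exact Submodule.smul_mem _ _ ha
    · exact fun k a b ha hb => Submodule.add_mem _ ha hb
    · exact fun k c a ha => Submodule.smul_mem _ _ ha
  obtain ⟨c, hc⟩ := (Submodule.mem_span_image_finset_iff_exists_fun ℂ).1 key
  classical
  refine ⟨fun p => if h : p ∈ idx g d then c ⟨p, h⟩ else 0, ?_⟩
  rw [← hc, ← Finset.sum_coe_sort (idx g d)]
  refine Finset.sum_congr rfl fun p _ => ?_
  have e : (if h : (p : (Fin g → ℤ) × Finset (Fin g)) ∈ idx g d then c ⟨p, h⟩ else 0) = c p :=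
    dif_pos p.2
  exact congrArg (fun t : ℂ => t • mo (p : (Fin g → ℤ) × Finset (Fin g)).1
    (p : (Fin g → ℤ) × Finset (Fin g)).2) e.symm

/-- the character of the monomial -/
noncomputable def chi (η : Fin g → ℤ) (T : Finset (Fin g)) (u : Fin g → ℂ) : ℂ :=
  ∏ s, if s ∈ T then u s * conj (u s) else if η s = 1 then u s else if η s = -1 then conj (u s)
    else 1

theorem act_mo (u : Fin g → ℂ) (η : Fin g → ℤ) (T : Finset (Fin g)) :
    act u (mo η T) = chi η T u • mo η T := by
  unfold mo chi
  rw [map_lprod, ← lprod_smul]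
  congr 1
  funext s
  unfold lt
  split_ifs
  · unfold dd
    rw [map_mul, act_gen_true, act_gen_false, smul_mul_smul_comm]
  · rw [act_gen_true]
  · rw [act_gen_false]
  · rw [map_one, one_smul]

theorem lt_zero (U : Finset (Fin g)) (s : Fin g) :
    lt 0 U s = if s ∈ U then dd s else 1 := by
  unfold lt
  simp

theorem lt_zero_comm (U : Finset (Fin g)) (s : Fin g) (z : Coh g 1) :
    lt 0 U s * z = z * lt 0 U s := by
  rw [lt_zero]
  split_ifs
  · exact even_comm (k := 1) (dd_mem_gr s) z
  · rw [one_mul, mul_one]

/-- the monomial is the product of its two parts -/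
theorem mo_mul_dT {η : Fin g → ℤ} {T U : Finset (Fin g)} (hU : ∀ s ∈ U, η s = 0)
    (h : Disjoint T U) : mo η T * dT U = mo η (T ∪ U) := by
  unfold dT mo
  rw [lprod_mul_comm (fun i j _ => (lt_zero_comm U i _).symm)]
  congr 1
  funext s
  rw [lt_zero]
  unfold lt
  by_cases hs : s ∈ U
  · have hT : s ∉ T := fun h' => Finset.disjoint_left.1 h h' hs
    rw [if_pos hs, if_neg hT, if_pos (mem_union_right T hs), hU s hs, if_neg (by decide),
      if_neg (by decide), one_mul]
  · rw [if_neg hs, mul_one]
    have : (s ∈ T ∪ U) ↔ s ∈ T := by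
      rw [mem_union]
      exact ⟨fun h => h.resolve_right hs, Or.inl⟩
    simp only [this]

theorem mo_mul_dT_zero {η : Fin g → ℤ} {T U : Finset (Fin g)}
    (h : ¬ (Disjoint T U ∧ ∀ s ∈ U, η s ≠ 1 ∧ η s ≠ -1)) : mo η T * dT U = 0 := by
  unfold dT mo
  rw [lprod_mul_comm (fun i j _ => (lt_zero_comm U i _).symm)]
  have hex : ∃ s ∈ U, s ∈ T ∨ η s = 1 ∨ η s = -1 := by
    by_contra hcon
    push Not at hcon
    apply h
    refine ⟨?_, fun s hs => (hcon s hs).2⟩
    rw [Finset.disjoint_left]
    exact fun s hs hs' => (hcon s hs').1 hs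
  obtain ⟨s, hs, hcase⟩ := hex
  refine lprod_eq_zero s ?_
  rw [lt_zero, if_pos hs]
  unfold lt
  split_ifs with h1 h2 h3
  · exact dd_mul_dd s
  · exact gen_mul_dd s true
  · exact gen_mul_dd s false
  · exact absurd hcase (by tauto)

theorem dT_comm (T : Finset (Fin g)) (z : Coh g 1) : dT T * z = z * dT T := by
  have h1 : mo 0 T ∈ gr g 1 (∑ s, lw 0 T s) := mo_mem_gr 0 T
  have h2 : ∑ s, lw (0 : Fin g → ℤ) T s = 2 * T.card := by
    rw [sum_lw (η := 0) (fun s => by simp) (fun s _ => rfl)]
    simp [size]
  rw [h2] at h1
  exact even_comm h1 z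

end Pc0b458V
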