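import Pool.Agent.Lib.Pc0b458V.Api

/-!
# Products of ordered products

`lprod_mul_sign` is by induction on the number of factors: `(a 0 * A') * (b 0 * B')`, where
`A' * b 0 = (-1) ^ (∑ j, p (j + 1) * q 0) • (b 0 * A')` by another induction. The two corollaries are
the cases where no sign appears and where all letters in `J` are odd.
-/

open Finset ComplexConjugate

namespace Pc0b458V

variable {g m : ℕ}

theorem lprod_mul_left {n : ℕ} {a : Fin n → Coh g m} {b : Coh g m} (p : Fin n → ℕ)
    (h : ∀ j, a j * b = (-1 : ℂ) ^ p j • (b * a j)) :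
    lprod a * b = (-1 : ℂ) ^ (∑ j, p j) • (b * lprod a) := by
  induction n with
  | zero => simp [lprod_zero]
  | succ n ih =>
    rw [lprod_succ, Fin.sum_univ_succ, mul_assoc, ih (fun j => p j.succ) fun j => h j.succ,
      mul_smul_comm, ← mul_assoc, h 0, smul_mul_assoc, smul_smul, ← pow_add, mul_assoc,
      add_comm]

theorem lprod_mul_sign {n : ℕ} {a b : Fin n → Coh g m} (p q : Fin n → ℕ)
    (h : ∀ i j, i < j → a j * b i = (-1 : ℂ) ^ (p j * q i) • (b i * a j)) :
    lprod a * lprod b =
      (-1 : ℂ) ^ (∑ i, ∑ j, if i < j then p j * q i else 0) • lprod fun i => a i * b i := by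
  induction n with
  | zero => simp [lprod_zero]
  | succ n ih =>
    have h1 := ih (a := fun i => a i.succ) (b := fun i => b i.succ) (fun i => p i.succ)
      (fun i => q i.succ) (fun i j hij => h i.succ j.succ (Fin.succ_lt_succ_iff.2 hij))
    have h2 : (lprod fun i : Fin n => a i.succ) * b 0 =
        (-1 : ℂ) ^ (∑ j : Fin n, p j.succ * q 0) • (b 0 * lprod fun i : Fin n => a i.succ) :=
      lprod_mul_left _ fun j => h 0 j.succ (Fin.succ_pos j)
    rw [lprod_succ a, lprod_succ b, lprod_succ fun i => a i * b i]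
    have e : a 0 * (lprod fun i : Fin n => a i.succ) * (b 0 * lprod fun i : Fin n => b i.succ) =
        (-1 : ℂ) ^ (∑ j : Fin n, p j.succ * q 0) • (a 0 * b 0 *
          ((lprod fun i : Fin n => a i.succ) * lprod fun i : Fin n => b i.succ)) := by
      rw [mul_assoc, ← mul_assoc (lprod fun i : Fin n => a i.succ) (b 0), h2, smul_mul_assoc,
        mul_smul_comm]
      simp only [mul_assoc]
    rw [e, h1, mul_smul_comm, smul_smul, ← pow_add]
    congr 2
    rw [Fin.sum_univ_succ]
    congr 1
    · rw [Fin.sum_univ_succ]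
      simp
    · refine Finset.sum_congr rfl fun i _ => ?_
      rw [Fin.sum_univ_succ]
      simp

theorem lprod_mul_comm {n : ℕ} {a b : Fin n → Coh g m}
    (h : ∀ i j, i < j → a j * b i = b i * a j) :
    lprod a * lprod b = lprod fun i => a i * b i := by
  have := lprod_mul_sign (a := a) (b := b) (fun _ => 0) (fun _ => 0)
    (fun i j hij => by simpa using h i j hij)
  simpa using this

theorem card_pairs {n : ℕ} (J : Finset (Fin n)) :
    2 * (∑ i, ∑ j, if i < j then (if j ∈ J then 1 else 0) * (if i ∈ J then 1 else 0) else 0) +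
      J.card = J.card * J.card := by
  have h1 : J.card * J.card = ∑ i, ∑ j, (if j ∈ J then 1 else 0) * (if i ∈ J then 1 else 0) := by
    rw [Finset.sum_comm, ← Finset.sum_mul_sum]
    simp
  have h2 : (∑ i, ∑ j, if i < j then (if j ∈ J then 1 else 0) * (if i ∈ J then 1 else 0) else 0) =
      ∑ i, ∑ j, if j < i then (if j ∈ J then 1 else 0) * (if i ∈ J then 1 else 0) else 0 := by
    rw [Finset.sum_comm]
    refine Finset.sum_congr rfl fun i _ => Finset.sum_congr rfl fun j _ => ?_
    rw [mul_comm]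
  have h3 : J.card = ∑ i, ∑ j, if i = j then (if j ∈ J then 1 else 0) * (if i ∈ J then 1 else 0)
      else 0 := by
    simp
  rw [h1, two_mul]
  nth_rewrite 2 [h2]
  nth_rewrite 1 [h3]
  rw [← Finset.sum_add_distrib, ← Finset.sum_add_distrib]
  refine Finset.sum_congr rfl fun i _ => ?_
  rw [← Finset.sum_add_distrib, ← Finset.sum_add_distrib]
  refine Finset.sum_congr rfl fun j _ => ?_
  rcases lt_trichotomy i j with h | h | h
  · simp [h, h.ne, h.not_gt]
  · simp [h]
  · simp [h, h.ne', h.not_gt]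

theorem lprod_mul_odd {n : ℕ} {a b : Fin n → Coh g m} (J : Finset (Fin n)) (k : ℕ)
    (hk : J.card = 2 * k) (ha : ∀ i ∉ J, a i = 1) (hb : ∀ i ∉ J, b i = 1)
    (h : ∀ i ∈ J, ∀ j ∈ J, i < j → a j * b i = -(b i * a j)) :
    lprod a * lprod b = (-1 : ℂ) ^ k • lprod fun i => a i * b i := by
  have h1 := lprod_mul_sign (a := a) (b := b) (fun j => if j ∈ J then 1 else 0)
    (fun i => if i ∈ J then 1 else 0) (fun i j hij => by
      by_cases hi : i ∈ J
      · by_cases hj : j ∈ J
        · simp [hi, hj, h i hi j hj hij]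
        · simp [hj, ha j hj]
      · simp [hi, hb i hi])
  rw [h1]
  congr 1
  have h2 := card_pairs J
  set N := ∑ i, ∑ j, if i < j then (if j ∈ J then 1 else 0) * (if i ∈ J then 1 else 0) else 0
  rw [hk] at h2
  have h3 : N + k = 2 * (k * k) := by nlinarith
  have h4 : ((-1 : ℂ) ^ N) * (-1) ^ k = 1 := by
    rw [← pow_add, h3, pow_mul]
    simp
  have h5 : ((-1 : ℂ) ^ k) * (-1) ^ k = 1 := by
    rw [← pow_add, ← two_mul, pow_mul]
    simp
  calc (-1 : ℂ) ^ N = (-1) ^ N * ((-1) ^ k * (-1) ^ k) := by rw [h5, mul_one]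
    _ = ((-1 : ℂ) ^ N * (-1) ^ k) * (-1) ^ k := by ring
    _ = (-1) ^ k := by rw [h4, one_mul]

/-- an ordered product with a factor `0` vanishes -/
theorem lprod_eq_zero {n : ℕ} {a : Fin n → Coh g m} (i : Fin n) (h : a i = 0) : lprod a = 0 := by
  induction n with
  | zero => exact i.elim0
  | succ n ih =>
    rw [lprod_succ]
    rcases Fin.eq_zero_or_eq_succ i with rfl | ⟨j, rfl⟩
    · rw [h, zero_mul]
    · rw [ih j h, mul_zero]

/-- an ordered product of scalars -/
theorem lprod_scalar {n : ℕ} (c : Fin n → ℂ) :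
    (lprod fun i => c i • (1 : Coh g m)) = (∏ i, c i) • 1 := by
  rw [lprod_smul, lprod_one]

end Pc0b458V
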