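import Mathlib

/-!
# Classes of algebraic cycles on an abelian variety with complex multiplication

The setting of `MP_c0b458_ag`. Let `A` be an abelian variety of dimension `g` with complex
multiplication over an algebraically closed field, with a polarisation `L`, and let `R` be a CM
algebra of degree `2 g` in `End(A) ⊗ ℚ`, stable under the Rosati involution of `L`. The homomorphisms
`R → ℂ` are the coordinates `s : Fin g` of an embedding of `R` in `ℂ^g` and their complex conjugates.
The cohomology ring of `A^m`, with complex coefficients, is the exterior algebra `Coh g m` of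
its first cohomology. The generator `gen s true j` spans the part of the first cohomology of the
factor `j` on which `R` acts through `s`, and `gen s false j` the part where it acts through the
complex conjugate of `s`.
-/

universe u

namespace Pc0b458Z

open ComplexConjugate

/-- the ring structure of the exterior algebra -/
@[instance_reducible] noncomputable def ringExt (V : Type) [AddCommGroup V] [Module ℂ V] :
    Ring (ExteriorAlgebra ℂ V) := inferInstance

/-- the algebra structure of the exterior algebra -/
@[instance_reducible] noncomputable def algExt (V : Type) [AddCommGroup V] [Module ℂ V] :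
    Algebra ℂ (ExteriorAlgebra ℂ V) := inferInstance

/-- `x` is homogeneous of degree `k` in the exterior algebra -/
def degExt (V : Type) [AddCommGroup V] [Module ℂ V] (k : ℕ) (x : ExteriorAlgebra ℂ V) : Prop :=
  x ∈ ⋀[ℂ]^k V

/-- the homomorphism of exterior algebras given by a linear map -/
noncomputable def mapExt {V W : Type} [AddCommGroup V] [Module ℂ V] [AddCommGroup W] [Module ℂ W]
    (f : V →ₗ[ℂ] W) (x : ExteriorAlgebra ℂ V) : ExteriorAlgebra ℂ W :=
  ExteriorAlgebra.map f x

/-- the cohomology ring of `A^m` -/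
def Coh (g m : ℕ) : Type := ExteriorAlgebra ℂ (Fin g × Bool × Fin m → ℂ)

noncomputable instance instRing (g m : ℕ) : Ring (Coh g m) := ringExt _

noncomputable instance instAlgebra (g m : ℕ) : Algebra ℂ (Coh g m) := algExt _

/-- the first cohomology in the cohomology ring -/
noncomputable def iota (g m : ℕ) : (Fin g × Bool × Fin m → ℂ) →ₗ[ℂ] Coh g m :=
  ExteriorAlgebra.ι ℂ

section

variable {g m : ℕ}

/-- `x` is in the cohomology of degree `k` -/
def InDeg (k : ℕ) (x : Coh g m) : Prop :=
  degExt (Fin g × Bool × Fin m → ℂ) k x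

/-- the generators of the cohomology ring -/
noncomputable def gen (s : Fin g) (b : Bool) (j : Fin m) : Coh g m :=
  iota g m (Pi.single (s, b, j) 1)

/-- pull-back on the first cohomology under the homomorphism `A^m → A` with coefficients `v` -/
noncomputable def pbOne (v : Fin m → Fin g → ℂ) :
    (Fin g × Bool × Fin 1 → ℂ) →ₗ[ℂ] (Fin g × Bool × Fin m → ℂ) :=
  LinearMap.pi fun i => (if i.2.1 then v i.2.2 i.1 else conj (v i.2.2 i.1)) •
    LinearMap.proj (i.1, i.2.1, 0)

/-- pull-back under the homomorphism `A^m → A` with coefficients `v`: it maps `gen s true 0` to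
the sum over `j` of `v j s • gen s true j`, and `gen s false 0` to the sum over `j` of
`conj (v j s) • gen s false j` -/
noncomputable def pb (v : Fin m → Fin g → ℂ) (x : Coh g 1) : Coh g m :=
  mapExt (pbOne v) x

end

/-- the class of the polarisation, for suitable generators -/
noncomputable def pol (g : ℕ) : Coh g 1 := ∑ s, gen s true 0 * gen s false 0

/-- The classes of effective cycles, with nonnegative rational coefficients, on an abelian variety
`A` with complex multiplication, over an algebraically closed field, and on `A × A`. -/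
structure CMAb where
  /-- the dimension of `A` -/
  g : ℕ
  /-- the elements of the CM algebra `R`, embedded in `ℂ^g` -/
  R : Set (Fin g → ℂ)
  dense : Dense R
  /-- the classes of the effective cycles of codimension `i` on `A` -/
  eff : ℕ → Set (Coh g 1)
  /-- the classes of the effective cycles of codimension `i` on `A × A` -/
  eff2 : ℕ → Set (Coh g 2)
  eff_deg : ∀ i, ∀ x ∈ eff i, InDeg (2 * i) x
  one_mem : 1 ∈ eff 0
  add_mem : ∀ i, ∀ x ∈ eff i, ∀ y ∈ eff i, x + y ∈ eff i
  smul_mem : ∀ i, ∀ r : ℚ, 0 ≤ r → ∀ x ∈ eff i, (r : ℂ) • x ∈ eff i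
  /-- after a translation two cycles on an abelian variety meet properly -/
  mul_mem : ∀ i j, ∀ x ∈ eff i, ∀ y ∈ eff j, x * y ∈ eff (i + j)
  mul_mem2 : ∀ i j, ∀ x ∈ eff2 i, ∀ y ∈ eff2 j, x * y ∈ eff2 (i + j)
  pol_mem : pol g ∈ eff 1
  /-- a subvariety is a component of an intersection of divisors whose class is a multiple of the
  polarisation -/
  bound : ∀ i, ∀ x ∈ eff i, ∃ r : ℚ, (r : ℂ) • pol g ^ i - x ∈ eff i
  /-- pull-back under the homomorphism `A × A → A` with coefficients `a` and `b` -/
  pull : ∀ a ∈ R, ∀ b ∈ R, ∀ i, ∀ x ∈ eff i, pb ![a, b] x ∈ eff2 i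
  /-- the trace map; on classes of codimension `g` it is the degree -/
  int : Coh g 1 → ℂ
  int_linear : ∀ (c : ℂ) (x y : Coh g 1), int (c • x + y) = c * int x + int y
  int_deg : ∀ k, k ≠ 2 * g → ∀ x, InDeg k x → int x = 0
  int_eff : ∀ x ∈ eff g, ∃ r : ℚ, 0 ≤ r ∧ int x = r
  int_pol : int (pol g ^ g) ≠ 0
  /-- push-forward under the first projection `A × A → A` -/
  gys : Coh g 2 → Coh g 1
  gys_linear : ∀ (c : ℂ) (x y : Coh g 2), gys (c • x + y) = c • gys x + gys y
  /-- the projection formula -/
  gys_mul : ∀ x y, gys (pb ![1, 0] x * pb ![0, 1] y) = int y • x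
  push : ∀ i, ∀ x ∈ eff2 (i + g), gys x ∈ eff i

namespace CMAb

variable (A : CMAb)

/-- the classes of the algebraic cycles of codimension `i` on `A`, with rational coefficients -/
def alg (i : ℕ) : Set (Coh A.g 1) := {x | ∃ y ∈ A.eff i, ∃ z ∈ A.eff i, x = y - z}

/-- `x` is the class of an algebraic cycle of codimension `n` which is primitive for numerical
equivalence -/
def Prim (n : ℕ) (x : Coh A.g 1) : Prop :=
  x ∈ A.alg n ∧ ∀ j, j + 1 = n → ∀ y ∈ A.alg j, A.int (pol A.g ^ (A.g - 2 * n + 1) * x * y) = 0

end CMAb

section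

variable {g : ℕ}

/-- the class of weight `η`, for `η` with values in `{-1, 0, 1}`: the product over `s` of
`gen s true 0`, if `η s = 1`, and `gen s false 0`, if `η s = -1` -/
noncomputable def mon (η : Fin g → ℤ) : Coh g 1 :=
  (List.ofFn fun s => if η s = 1 then gen s true 0 else if η s = -1 then gen s false 0 else 1).prod

/-- the degree of `mon η` -/
def size (η : Fin g → ℤ) : ℕ := ∑ s, (η s).natAbs

end

/-- The weight `η` is algebraic: the classes of weights `η` and `-η` are linear combinations, with
complex coefficients, of classes of algebraic cycles. -/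
def CMAb.Algebraic (A : CMAb) (η : Fin A.g → ℤ) : Prop :=
  (∀ s, |η s| ≤ 1) ∧ ∃ k, size η = 2 * k ∧
    mon η ∈ Submodule.span ℂ (A.eff k) ∧ mon (-η) ∈ Submodule.span ℂ (A.eff k)

/-- the weights which are sums of algebraic weights of size at most four -/
inductive CMAb.Generated (A : CMAb) : (Fin A.g → ℤ) → Prop
  | base (η : Fin A.g → ℤ) (h : A.Algebraic η) (hs : size η ≤ 4) : A.Generated η
  | add (η θ : Fin A.g → ℤ) (hη : A.Generated η) (hθ : A.Generated θ)
      (h : ∀ s, |η s + θ s| ≤ 1) : A.Generated (η + θ)

/-- The ring of algebraic cycles, with rational coefficients, modulo numerical equivalence on an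
abelian variety `X` over a field, with a polarisation `L`. -/
structure NumAb where
  /-- the dimension of `X` -/
  g : ℕ
  Z : Type u
  [commRing : CommRing Z]
  /-- the classes of the cycles of codimension `i` -/
  cod : ℕ → Set Z
  add_mem : ∀ i, ∀ x ∈ cod i, ∀ y ∈ cod i, x + y ∈ cod i
  neg_mem : ∀ i, ∀ x ∈ cod i, -x ∈ cod i
  mul_mem : ∀ i j, ∀ x ∈ cod i, ∀ y ∈ cod j, x * y ∈ cod (i + j)
  /-- the degree of cycles of dimension zero -/
  deg : Z → ℚ
  deg_add : ∀ x y, deg (x + y) = deg x + deg y
  /-- the class of the polarisation -/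
  L : Z
  L_mem : L ∈ cod 1
  /-- numerical equivalence -/
  num : ∀ i, ∀ x ∈ cod i, (∀ j, i + j = g → ∀ y ∈ cod j, deg (x * y) = 0) → x = 0
  /-- the Lefschetz standard conjecture for `X` and `L` -/
  lef : ∀ n, 2 * n ≤ g → ∀ z ∈ cod (g - n), ∃ x ∈ cod n, z = L ^ (g - 2 * n) * x

attribute [instance] NumAb.commRing

/-- the statement of Q1 for `X` and `L` in codimension `n` -/
def NumAb.Positive (X : NumAb.{u}) (n : ℕ) : Prop :=
  ∀ x ∈ X.cod n, X.L ^ (X.g - 2 * n + 1) * x = 0 → x ≠ 0 →
    0 < (-1) ^ n * X.deg (x * x * X.L ^ (X.g - 2 * n))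

/-- `A` is a reduction of `X`, or `X` itself: a primitive class is the class of a cycle whose
specialisation is primitive and has the same self intersection. -/
structure Reduction (X : NumAb.{u}) (A : CMAb) : Prop where
  dim : X.g = A.g
  spec : ∀ n, 2 * n ≤ X.g → ∀ x ∈ X.cod n, X.L ^ (X.g - 2 * n + 1) * x = 0 →
    ∃ y, A.Prim n y ∧ A.int (y * y * pol A.g ^ (A.g - 2 * n)) = X.deg (x * x * X.L ^ (X.g - 2 * n))

end Pc0b458Z
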