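import Pool.Agent.Lib.Pc0b458V.Reality

/-!
# The cubic operation

`Vec η r v` says that `v` are the coefficients of a homomorphism `A × A → A` for which
`pb v (gen s b 0) = vX b s r 1` and `pb v (gen s (!b) 0) = vX (!b) s (conj r) 1`, for `s` in the
support of `η` and `b = decide (η s = 1)`: so `pb v` of the letter of `mo η ∅` at `s` is `vX b s r 1`,
of the letter of `mo (-η) ∅` it is `vX (!b) s (conj r) 1`, and
`pb v (dd s) = sb b • (vX b s r 1 * vX (!b) s (conj r) 1)`.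
-/

open Finset ComplexConjugate

namespace Pc0b458V

variable {g : ℕ}

/-- the coefficients of the homomorphism are `(r, 1)` or `(conj r, 1)` -/
structure Vec (η : Fin g → ℤ) (r : ℂ) (v : Fin 2 → Fin g → ℂ) : Prop where
  pos : ∀ s, η s = 1 → v 0 s = r
  neg : ∀ s, η s = -1 → v 0 s = conj r
  one : ∀ s, v 1 s = 1

theorem Vec.symm {η : Fin g → ℤ} {r : ℂ} {v : Fin 2 → Fin g → ℂ} (h : Vec η r v) :
    Vec (-η) (conj r) v := by
  refine ⟨fun s hs => ?_, fun s hs => ?_, h.one⟩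
  · rw [h.neg s (by simp only [Pi.neg_apply] at hs; omega)]
  · rw [h.pos s (by simp only [Pi.neg_apply] at hs; omega), Complex.conj_conj]

theorem exists_vec (η : Fin g → ℤ) (r : ℂ) : ∃ v : Fin 2 → Fin g → ℂ, Vec η r v := by
  refine ⟨![fun s => if η s = 1 then r else conj r, 1], fun s hs => ?_, fun s hs => ?_,
    fun s => rfl⟩
  · simp [hs]
  · simp [hs]

/-- the letter of `mo η ∅` -/
theorem Vec.pb_letter {η : Fin g → ℤ} {r : ℂ} {v : Fin 2 → Fin g → ℂ} (h : Vec η r v) {s : Fin g}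
    (hs : η s = 1 ∨ η s = -1) :
    pb v (lt η ∅ s) = vX (decide (η s = 1)) s r 1 := by
  have h1 := h.one s
  rcases hs with hs | hs
  · simp [lt, hs, pb_two_true, h.pos s hs, h1, vX]
  · simp [lt, hs, pb_two_false, h.neg s hs, h1, vX]

theorem Vec.pb_letter_neg {η : Fin g → ℤ} {r : ℂ} {v : Fin 2 → Fin g → ℂ} (h : Vec η r v)
    {s : Fin g} (hs : η s = 1 ∨ η s = -1) :
    pb v (lt (-η) ∅ s) = vX (!decide (η s = 1)) s (conj r) 1 := by
  have h1 := h.one s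
  rcases hs with hs | hs
  · simp [lt, hs, pb_two_false, h.pos s hs, h1, vX]
  · simp [lt, hs, pb_two_true, h.neg s hs, h1, vX]

theorem Vec.pb_dd {η : Fin g → ℤ} {r : ℂ} {v : Fin 2 → Fin g → ℂ} (h : Vec η r v)
    {s : Fin g} (hs : η s = 1 ∨ η s = -1) :
    pb v (dd s) = sb (decide (η s = 1)) •
      (vX (decide (η s = 1)) s r 1 * vX (!decide (η s = 1)) s (conj r) 1) := by
  have h1 := h.one s
  rcases hs with hs | hs
  · simp [dd, hs, pb_two_true, pb_two_false, h.pos s hs, h1, vX, sb]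
  · rw [vX_anti]
    simp [dd, hs, pb_two_true, pb_two_false, h.neg s hs, h1, vX, sb]

namespace CMAb

variable (A : CMAb)

/-- the cubic operation -/
noncomputable def tri (η : Fin A.g → ℤ) (v₀ v₁ v₂ : Fin 2 → Fin A.g → ℂ) (x y z : Coh A.g 1) :
    Coh A.g 1 :=
  A.gys (pb v₀ x * pb v₁ y * pb v₂ z * pr2 (dT (zer η)))

theorem tri_neg (η : Fin A.g → ℤ) (v₀ v₁ v₂ : Fin 2 → Fin A.g → ℂ) (x y z : Coh A.g 1) :
    A.tri (-η) v₀ v₁ v₂ x y z = A.tri η v₀ v₁ v₂ x y z := by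
  have : zer (-η) = zer η := by
    ext s
    simp [zer]
  rw [tri, tri, this]

theorem tri_swap01 (η : Fin A.g → ℤ) (v₀ v₁ v₂ : Fin 2 → Fin A.g → ℂ) {x y z : Coh A.g 1} {k : ℕ}
    (hx : x ∈ gr A.g 1 (2 * k)) : A.tri η v₀ v₁ v₂ x y z = A.tri η v₁ v₀ v₂ y x z := by
  rw [tri, tri, even_comm (pb_mem_gr v₀ hx) (pb v₁ y)]

theorem tri_swap12 (η : Fin A.g → ℤ) (v₀ v₁ v₂ : Fin 2 → Fin A.g → ℂ) {x y z : Coh A.g 1} {k : ℕ}
    (hy : y ∈ gr A.g 1 (2 * k)) : A.tri η v₀ v₁ v₂ x y z = A.tri η v₀ v₂ v₁ x z y := by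
  rw [tri, tri, mul_assoc (pb v₀ x), even_comm (pb_mem_gr v₁ hy) (pb v₂ z), ← mul_assoc]

/-- the operation preserves effectivity -/
theorem tri_E1 {η : Fin A.g → ℤ} {n : ℕ} (hη : ∀ s, η s = -1 ∨ η s = 0 ∨ η s = 1)
    (hs : size η = 2 * n) (v₀ v₁ v₂ : Fin 2 → Fin A.g → ℂ) {x y z : Coh A.g 1}
    (hx : x ∈ A.E1 n) (hy : y ∈ A.E1 n) (hz : z ∈ A.E1 n) :
    A.tri η v₀ v₁ v₂ x y z ∈ A.E1 n := by
  have h1 := E2_mul (E2_mul (E2_mul (pull_E1 v₀ hx) (pull_E1 v₁ hy)) (pull_E1 v₂ hz))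
    (pull_E1 ![0, 1] (dT_E1 (zer η)))
  have h2 := card_zer hη
  have h3 : n + n + n + (zer η).card = n + A.g := by omega
  rw [h3] at h1
  exact gys_E2 h1

end CMAb

end Pc0b458V
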