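import Pool.Agent.Lib.Pc0b458V.Tri

/-!
# The cubic operation on three monomials `dT`

Write the four factors as ordered products (`map_lprod`; `dT T = mo 0 T`, so the letters are `dd s`
for `s ∈ T` and `1` otherwise) and combine them by `lprod_mul_comm` (all letters are `1` or products
of two vectors, hence central), then apply `gys_lprod`. For `s ∉ supp η` the local factor is
`pr2 (dd s)` (`local_id` with `a = 1`). For `s ∈ supp η` let `D_i = pb v_i (dd s)` (`Vec.pb_dd`):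
`1` gives `0` (`local_one`), `D_i` gives `1` (`local_XY`), `D_i * D_j` gives
`(r_i - r_j) * conj (r_i - r_j) • dd s = dd s` (reorder to `X_i * X_j * Y_i * Y_j`, which costs a sign,
and use `local_XXYY`; `sb b * sb b = 1`), and `D_0 * D_1 * D_2 = 0` (`vX_three`).
-/

open Finset ComplexConjugate

namespace Pc0b458V

section

variable {g m : ℕ}

theorem supp_cases {η : Fin g → ℤ} (hη : ∀ s, η s = -1 ∨ η s = 0 ∨ η s = 1) {s : Fin g}
    (hs : s ∈ supp η) : η s = 1 ∨ η s = -1 := by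
  have h1 := hη s
  have h2 : η s ≠ 0 := by simpa [supp] using hs
  tauto

theorem mem_zer_of {η : Fin g → ℤ} {s : Fin g} (hs : s ∉ supp η) : s ∈ zer η := by
  simpa [supp, zer] using hs

theorem not_mem_zer_of {η : Fin g → ℤ} {s : Fin g} (hs : s ∈ supp η) : s ∉ zer η := by
  simpa [supp, zer] using hs

theorem pb_dd_comm (v : Fin m → Fin g → ℂ) (s : Fin g) (z : Coh g m) :
    pb v (dd s) * z = z * pb v (dd s) := by
  have h : pb v (dd s) ∈ gr g m (2 * 1) := pb_mem_gr v (dd_mem_gr s)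
  exact even_comm h z

/-- the letters of the monomials `dT` are central -/
theorem pb_lt_comm (v : Fin m → Fin g → ℂ) (T : Finset (Fin g)) (s : Fin g) (z : Coh g m) :
    pb v (lt 0 T s) * z = z * pb v (lt 0 T s) := by
  rw [lt_zero]
  split_ifs
  · exact pb_dd_comm v s z
  · rw [map_one, one_mul, mul_one]

theorem pb_dT (v : Fin m → Fin g → ℂ) (T : Finset (Fin g)) :
    pb v (dT T) = lprod fun s => pb v (lt 0 T s) := by
  rw [dT, mo, map_lprod]

theorem lprod_mul_pb_dT (a : Fin g → Coh g m) (v : Fin m → Fin g → ℂ) (T : Finset (Fin g)) :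
    lprod a * pb v (dT T) = lprod fun s => a s * pb v (lt 0 T s) := by
  rw [pb_dT]
  exact lprod_mul_comm fun i j _ => (pb_lt_comm v T i (a j)).symm

theorem local_pr2_dd (s : Fin g) : Local s (pr2 (dd s)) 1 := by
  have h := local_id s (1 : Coh g 1)
  rw [map_one, one_mul] at h
  exact h

end

section

variable {g : ℕ} {η : Fin g → ℤ} {r₀ r₁ r₂ : ℂ} {v₀ v₁ v₂ : Fin 2 → Fin g → ℂ}

theorem Vec.local_dd (h : Vec η r₀ v₀) {s : Fin g} (hs : η s = 1 ∨ η s = -1) :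
    Local s (pb v₀ (dd s)) 1 := by
  rw [h.pb_dd hs]
  have h1 := local_smul (sb (decide (η s = 1)))
    (local_XY (decide (η s = 1)) s r₀ 1 (conj r₀) 1)
  rw [smul_smul, mul_one, mul_one, sb_sq, one_smul] at h1
  exact h1

theorem vX_four (b : Bool) (s : Fin g) (r t p q r₁ t₁ p₁ q₁ : ℂ) :
    vX b s r t * vX (!b) s p q * (vX b s r₁ t₁ * vX (!b) s p₁ q₁) =
      -(vX b s r t * vX b s r₁ t₁ * vX (!b) s p q * vX (!b) s p₁ q₁) := by
  rw [mul_assoc, ← mul_assoc (vX (!b) s p q), vX_anti (!b) b s s p q r₁ t₁, neg_mul, mul_neg]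
  simp only [mul_assoc]

theorem Vec.local_dd_dd (h₀ : Vec η r₀ v₀) (h₁ : Vec η r₁ v₁) {s : Fin g}
    (hs : η s = 1 ∨ η s = -1) :
    Local s (pb v₀ (dd s) * pb v₁ (dd s)) (((r₀ - r₁) * conj (r₀ - r₁)) • dd s) := by
  rw [h₀.pb_dd hs, h₁.pb_dd hs, smul_mul_smul_comm, sb_sq, one_smul, vX_four]
  have h1 := local_smul (-1 : ℂ)
    (local_XXYY (decide (η s = 1)) s r₀ 1 r₁ 1 (conj r₀) 1 (conj r₁) 1)
  rw [smul_smul, neg_one_smul] at h1
  have e : -1 * -((r₀ * 1 - 1 * r₁) * (conj r₀ * 1 - 1 * conj r₁)) =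
      (r₀ - r₁) * conj (r₀ - r₁) := by
    rw [map_sub]
    ring
  rw [e] at h1
  exact h1

theorem vX_six (b : Bool) (s : Fin g) (r t p q r₁ t₁ p₁ q₁ r₂ t₂ p₂ q₂ : ℂ) :
    vX b s r t * vX (!b) s p q * (vX b s r₁ t₁ * vX (!b) s p₁ q₁) *
      (vX b s r₂ t₂ * vX (!b) s p₂ q₂) = 0 := by
  rw [vX_four, neg_mul]
  have h : vX b s r t * vX b s r₁ t₁ * vX (!b) s p q * vX (!b) s p₁ q₁ *
      (vX b s r₂ t₂ * vX (!b) s p₂ q₂) =
      vX b s r t * vX b s r₁ t₁ * vX b s r₂ t₂ * (vX (!b) s p q * vX (!b) s p₁ q₁) *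
        vX (!b) s p₂ q₂ := by
    rw [mul_assoc (vX b s r t * vX b s r₁ t₁) (vX (!b) s p q) (vX (!b) s p₁ q₁),
      mul_assoc (vX b s r t * vX b s r₁ t₁) (vX (!b) s p q * vX (!b) s p₁ q₁),
      ← mul_assoc (vX (!b) s p q * vX (!b) s p₁ q₁) (vX b s r₂ t₂) (vX (!b) s p₂ q₂),
      vX_comm (!b) (!b) s s p q p₁ q₁ (vX b s r₂ t₂)]
    simp only [mul_assoc]
  rw [h, vX_three, zero_mul, zero_mul, neg_zero]

theorem Vec.dd_dd_dd (h₀ : Vec η r₀ v₀) (h₁ : Vec η r₁ v₁) (h₂ : Vec η r₂ v₂) {s : Fin g}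
    (hs : η s = 1 ∨ η s = -1) :
    pb v₀ (dd s) * pb v₁ (dd s) * pb v₂ (dd s) = 0 := by
  rw [h₀.pb_dd hs, h₁.pb_dd hs, h₂.pb_dd hs, smul_mul_smul_comm, smul_mul_smul_comm, vX_six,
    smul_zero]

end

namespace CMAb

variable (A : CMAb)

theorem tri_dT {η : Fin A.g → ℤ} (hη : ∀ s, η s = -1 ∨ η s = 0 ∨ η s = 1) {r₀ r₁ r₂ : ℂ}
    {v₀ v₁ v₂ : Fin 2 → Fin A.g → ℂ} (h₀ : Vec η r₀ v₀) (h₁ : Vec η r₁ v₁) (h₂ : Vec η r₂ v₂)
    (h01 : (r₀ - r₁) * conj (r₀ - r₁) = 1) (h02 : (r₀ - r₂) * conj (r₀ - r₂) = 1)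
    (h12 : (r₁ - r₂) * conj (r₁ - r₂) = 1) {T₀ T₁ T₂ : Finset (Fin A.g)} (hT₀ : T₀ ⊆ supp η)
    (hT₁ : T₁ ⊆ supp η) (hT₂ : T₂ ⊆ supp η) :
    A.tri η v₀ v₁ v₂ (dT T₀) (dT T₁) (dT T₂) =
      if supp η ⊆ T₀ ∪ T₁ ∪ T₂ ∧ T₀ ∩ T₁ ∩ T₂ = ∅ then
        A.top • dT ((T₀ ∩ T₁) ∪ (T₀ ∩ T₂) ∪ (T₁ ∩ T₂)) else 0 := by
  set U := (T₀ ∩ T₁) ∪ (T₀ ∩ T₂) ∪ (T₁ ∩ T₂) with hU
  have key : ∀ s, Local s (pb v₀ (lt 0 T₀ s) * pb v₁ (lt 0 T₁ s) * pb v₂ (lt 0 T₂ s) *
      pr2 (lt 0 (zer η) s))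
      (if s ∈ supp η ∧ (s ∉ T₀ ∪ T₁ ∪ T₂ ∨ s ∈ T₀ ∩ T₁ ∩ T₂) then 0 else lt 0 U s) := by
    intro s
    by_cases hs : s ∈ supp η
    · have hc := supp_cases hη hs
      have hz := not_mem_zer_of hs
      have e0 := h₀.local_dd hc
      have e1 := h₁.local_dd hc
      have e2 := h₂.local_dd hc
      have e01 := h₀.local_dd_dd h₁ hc
      have e02 := h₀.local_dd_dd h₂ hc
      have e12 := h₁.local_dd_dd h₂ hc
      have e012 := h₀.dd_dd_dd h₁ h₂ hc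
      rw [h01, one_smul] at e01
      rw [h02, one_smul] at e02
      rw [h12, one_smul] at e12
      simp only [lt_zero, hz, if_false, map_one, mul_one, hs, true_and, hU, Finset.mem_union,
        Finset.mem_inter]
      by_cases c0 : s ∈ T₀ <;> by_cases c1 : s ∈ T₁ <;> by_cases c2 : s ∈ T₂ <;>
        simp only [c0, c1, c2, if_true, if_false, map_one, mul_one, one_mul, or_true, or_false,
          true_or, false_or, and_true, and_false, true_and, false_and, not_true, not_false_eq_true]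
      · rw [e012]
        exact local_zero s
      · exact e01
      · exact e02
      · exact e0
      · exact e12
      · exact e1
      · exact e2
      · exact local_one s
    · have hz := mem_zer_of hs
      have c0 : s ∉ T₀ := fun h => hs (hT₀ h)
      have c1 : s ∉ T₁ := fun h => hs (hT₁ h)
      have c2 : s ∉ T₂ := fun h => hs (hT₂ h)
      simp only [lt_zero, hz, if_true, map_one, mul_one, one_mul, hs, false_and, if_false, hU,
        Finset.mem_union, Finset.mem_inter, c0, c1, c2, or_false]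
      exact local_pr2_dd s
  have h1 := A.gys_lprod key
  have h2 : A.tri η v₀ v₁ v₂ (dT T₀) (dT T₁) (dT T₂) =
      A.gys (lprod fun s => pb v₀ (lt 0 T₀ s) * pb v₁ (lt 0 T₁ s) * pb v₂ (lt 0 T₂ s) *
        pr2 (lt 0 (zer η) s)) := by
    rw [tri, pb_dT v₀, lprod_mul_pb_dT, lprod_mul_pb_dT, pr2, lprod_mul_pb_dT]
  rw [h2, h1]
  split_ifs with hif
  · obtain ⟨hi1, hi2⟩ := hif
    have e : (fun s => if s ∈ supp η ∧ (s ∉ T₀ ∪ T₁ ∪ T₂ ∨ s ∈ T₀ ∩ T₁ ∩ T₂) then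
        (0 : Coh A.g 1) else lt 0 U s) = lt 0 U := by
      funext s
      rw [if_neg]
      rintro ⟨hs, hs'⟩
      rcases hs' with hs' | hs'
      · exact hs' (hi1 hs)
      · rw [hi2] at hs'
        simp at hs'
    rw [e]
    rfl
  · obtain ⟨s, hs⟩ : ∃ s, s ∈ supp η ∧ (s ∉ T₀ ∪ T₁ ∪ T₂ ∨ s ∈ T₀ ∩ T₁ ∩ T₂) := by
      by_contra hcon
      push Not at hcon
      apply hif
      refine ⟨fun s hs => (hcon s hs).1, ?_⟩
      rw [Finset.eq_empty_iff_forall_notMem]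
      intro s hs
      have h3 : s ∈ T₀ := (Finset.mem_inter.1 (Finset.mem_inter.1 hs).1).1
      exact (hcon s (hT₀ h3)).2 hs
    rw [lprod_eq_zero s (if_pos hs), smul_zero]

end CMAb

end Pc0b458V
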